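import Pool.Agent.T2h16.KD.Rcp
import Pool.Agent.T2h78.TW.Ind
import Pool.Agent.T2h78.TW.Shbd
import Pool.Agent.Y696.Stm

/-!
# Project KE (helper16): the twists of `X_0(49)` over `K = ℚ(√-7)`

`D` runs over the squarefree elements of `ℤ[ω] = RR ≃ 𝓞 K`, `D = 1 mod 4`, prime to `√-7`; the curve is
`Pool.Agent.Y698.EX K t : y² + x y = x³ - (1 + 3 t) x² - 2 D² x - D³`, `D = 1 + 4 t`. Statements of the
parts. The sets `S` of primary primes with `∏ S = D`, the matrix and its kernel (`KD.Gd`) are those of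
project KD (`Pool/Agent/T2h16/KD/{Pd,Stm}.lean`). Models are the projects Y698, T2h78/TW (twists over
`ℚ`) and Y696/CTK, R419/KF (cubic twists over `ℚ(√-3)`); `K` is any number field with a ring isomorphism
`j : RR ≃+* 𝓞 K`.
-/

set_option autoImplicit false
set_option linter.unusedVariables false

open scoped Classical

namespace Pool.Agent.T2h16.KE

open Finset Filter
open NumberField IsDedekindDomain WeierstrassCurve WithZero
open Pool.Agent.Y698 (RR cX cY nR aR bR cj fR al psi e7 EX AP eA eB LD SqE Ev Ur Sq SDD)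
open Pool.Agent.Y698.SG (sy lg)
open Pool.Agent.W192.HK (sp nm HC)
open Pool.Agent.T2h78.TW (PO te sl)
open Pool.Agent.T2h16.KD (nrm prm PS PD Cl)
open Pool.Agent.TH841.SH.D (Pt act Gal Coch IsCoc IsCob LocTriv)
open Pool.Agent.TH841.SH (IsX)
open Pool.Agent.TH841.NF.D (Sha)
open Pool.Agent.Y696 (NonsingRed)

/-! ### A. the L-function and its value at one -/

/-- the quadratic character of `D = ∏ S` on the ideals -/
noncomputable def chS (S : Finset RR) (I : Ideal RR) : ℂ :=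
  ∏ π ∈ S, sy π (Submodule.IsPrincipal.generator I)

/-- `F` is the entire function `L(ψ χ_D, s)` -/
def IsF (S : Finset RR) (F : ℂ → ℂ) : Prop :=
  Differentiable ℂ F ∧ ∀ z : ℂ, 3 / 2 < z.re →
    HasSum (fun I : Ideal RR => psi I * chS S I * (nm I : ℂ) ^ (-z)) (F z)

/-- TASK HCK: `χ_D` is a primitive character (direct proof from the definition of `HC`) -/
def S_HCK : Prop := ∀ S : Finset RR, Cl S → S.Nonempty → HC 0 (sp (∏ π ∈ S, π)) (chS S)

/-- TASK DET -/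
def S_DET : Prop := ∀ S : Finset RR, (∀ π ∈ S, PO π) →
  (KD.Gd S ↔ Pool.Agent.T2h78.TW.gd (fun π => lg (e7 π)) (fun π ρ => sl ρ π) S ≠ 0)

/-- the valuation of the value at one, for the places where `ω` is not a unit -/
def S_VALK : Prop := ∀ S : Finset RR, Cl S → ∃ F : ℂ → ℂ, IsF S F ∧
  ∀ (Γ : Type) [LinearOrderedCommGroupWithZero Γ] (v : Valuation ℂ Γ) (L : PeriodPair) (Ω : ℂ),
    LD L Ω → v al < 1 →
    (KD.Gd S → v 2 * v ((starRingEnd ℂ) (F 1) / Ω) = v 2 ^ S.card) ∧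
    (¬ KD.Gd S → v 2 * v ((starRingEnd ℂ) (F 1) / Ω) < v 2 ^ S.card)

/-- TASK VALK (`val_gen` in `Y698/Wc.lean`, `val_all` in `T2h78/TW/Val.lean`) -/
def S_VALKT : Prop := S_HCK → S_DET → S_VALK

/-- the conjugate set -/
noncomputable def cjS (S : Finset RR) : Finset RR :=
  S.image fun π => Pool.Agent.T2h78.TW.nrm (cj π)

/-- TASK GCJ: the conjugate -/
def S_GCJ : Prop := ∀ S : Finset RR, Cl S → Cl (cjS S) ∧ (cjS S).card = S.card ∧
  ∏ π ∈ cjS S, π = cj (∏ π ∈ S, π) ∧ (KD.Gd (cjS S) ↔ KD.Gd S) ∧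
  ∀ F : ℂ → ℂ, IsF S F → IsF (cjS S) (fun z => (starRingEnd ℂ) (F ((starRingEnd ℂ) z)))

/-- the value of the L-function over `K`, for all the places above two -/
def S_VAL2 : Prop := ∀ S : Finset RR, Cl S → (∃ F, IsF S F) ∧ ∀ F : ℂ → ℂ, IsF S F →
  ∀ (Γ : Type) [LinearOrderedCommGroupWithZero Γ] (v : Valuation ℂ Γ) (L : PeriodPair) (Ω : ℂ),
    LD L Ω → v 2 < 1 →
    (KD.Gd S → v 4 * v (F 1 * (starRingEnd ℂ) (F 1) / (Ω * (starRingEnd ℂ) Ω)) =
      v 4 ^ S.card) ∧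
    (¬ KD.Gd S → v 4 * v (F 1 * (starRingEnd ℂ) (F 1) / (Ω * (starRingEnd ℂ) Ω)) <
      v 4 ^ S.card)

/-- TASK VAL2 -/
def S_VAL2T : Prop := S_VALK → S_GCJ → S_VAL2

/-- TASK SUP: the supplementary laws at the primes above two -/
def S_SUP : Prop := ∀ (S : Finset RR) (t : RR), Cl S → ∏ π ∈ S, π = 1 + 4 * t →
  (∏ π ∈ S, sy π aR = if Even (cX t) then 1 else -1) ∧
  ∏ π ∈ S, sy π (1 - aR) = if Even (cX t + cY t) then 1 else -1

/-- TASK TRC: the traces of Frobenius at the odd places -/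
def S_TRC : Prop := ∀ (k : Type) [Field k] [Finite k] (φ : RR →+* k) (π : RR),
  Function.Surjective φ → Prime π → (∀ x, φ x = 0 ↔ x ∈ sp π) → (2 : k) ≠ 0 → φ fR ≠ 0 →
  ∀ x : k, 1 + 4 * x ≠ 0 →
    (((Nat.card k : ℤ) - Nat.card (AP (EX k x)) : ℤ) : ℂ) =
      (if IsSquare (1 + 4 * x) then 1 else -1) * (psi (sp π) + (starRingEnd ℂ) (psi (sp π)))

/-- the L-function over `K` -/
def S_LK : Prop := ∀ (K : Type) [Field K] [NumberField K] (j : RR ≃+* 𝓞 K) (S : Finset RR) (t : RR),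
  Cl S → ∏ π ∈ S, π = 1 + 4 * t → ∀ F, IsF S F → ∀ s : ℂ, 3 / 2 < s.re →
    LSeriesSummable ((fun n : ℤ => (n : ℂ)) ∘ (EX K (j t : K)).LFunction) s ∧
      F s * (starRingEnd ℂ) (F ((starRingEnd ℂ) s)) = (EX K (j t : K)).LSeries s

/-- TASK LK (`Y696/CTK/{LF,LK}.lean`, `T2h78/TW/LS.lean`) -/
def S_LKT : Prop := S_SUP → S_TRC → S_LK

/-! ### B. local data, torsion, periods -/

section
variable {K : Type} [Field K] [NumberField K]

/-- the equation `W` is minimal at every finite place and `c v` is the Tamagawa number -/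
def IsTam (W : WeierstrassCurve K) (c : HeightOneSpectrum (𝓞 K) → ℕ) : Prop :=
  (∀ v : HeightOneSpectrum (𝓞 K),
    IsMinimal (v.adicCompletionIntegers K) (W.baseChange (v.adicCompletion K)) ∧
    ∃ H : AddSubgroup (W.baseChange (v.adicCompletion K)).toAffine.Point,
      (∀ P, P ∈ H ↔ NonsingRed Valued.v (W.baseChange (v.adicCompletion K)) P) ∧
      H.index = c v) ∧
  {v | c v ≠ 1}.Finite

end

/-- TASK JEX: the identification of the ring of integers -/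
def S_JEX : Prop := ∀ (K : Type) [Field K] [NumberField K] (δ : K), δ ^ 2 = -7 →
  Module.finrank ℚ K = 2 →
  (∃ j : RR ≃+* 𝓞 K, (j fR : K) = δ ∧ ∀ z : RR, Algebra.norm ℤ (j z) = nR z) ∧ discr K = -7

/-- TASK MINK: the equation is minimal -/
def S_MINK : Prop := ∀ (K : Type) [Field K] [NumberField K] (j : RR ≃+* 𝓞 K) (t : RR),
  Squarefree (1 + 4 * t) → IsCoprime fR (1 + 4 * t) → ∀ v : HeightOneSpectrum (𝓞 K),
    IsMinimal (v.adicCompletionIntegers K) ((EX K (j t : K)).baseChange (v.adicCompletion K))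

/-- TASK I0: type `I₀*` with all the points of order two rational (the quotient is
represented by the points of order two) -/
def S_I0 : Prop := ∀ (L : Type) [Field L] [CharZero L] (v : Valuation L ℤᵐ⁰) (x a : L),
  a ^ 2 = a - 2 → v 2 = 1 → v x ≤ 1 → (∃ ϖ : L, v ϖ = exp (-1 : ℤ)) →
  (v ((1 + 4 * x) * (2 * a - 1)) = exp (-1 : ℤ) ∧ (v (1 + 4 * x) = 1 ∨ v 7 = 1)) →
  ∀ H : AddSubgroup (EX L x).toAffine.Point,
    (∀ P, P ∈ H ↔ NonsingRed v (EX L x) P) → H.index = 4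

/-- the Tamagawa numbers -/
def S_TAMK : Prop := ∀ (K : Type) [Field K] [NumberField K] (j : RR ≃+* 𝓞 K) (S : Finset RR)
  (t : RR), Cl S → ∏ π ∈ S, π = 1 + 4 * t →
    ∃ c : HeightOneSpectrum (𝓞 K) → ℕ, IsTam (EX K (j t : K)) c ∧ ∏ᶠ w, c w = 4 ^ (S.card + 1)

/-- TASK TAMK (the subgroup: `S_E0K` in `Y696/CTK/Stm.lean`; `R419/KF/Tam.lean`) -/
def S_TAMKT : Prop := S_MINK → S_I0 → S_TAMK

/-- TASK TORK: the torsion -/
def S_TORK : Prop := ∀ (K : Type) [Field K] [NumberField K] (j : RR ≃+* 𝓞 K) (t : RR),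
  IsCoprime fR (1 + 4 * t) → Finite (AddCommGroup.torsion (EX K (j t : K)).toAffine.Point) ∧
    padicValNat 2 (Nat.card (AddCommGroup.torsion (EX K (j t : K)).toAffine.Point)) = 2

/-- `Λ` is the period lattice of the curve `W` -/
def IsPer (W : WeierstrassCurve ℂ) (Λ : PeriodPair) : Prop :=
  12 * Λ.g₂ = W.c₄ ∧ 216 * Λ.g₃ = W.c₆

/-- TASK PERK: the period lattice (`Y698/Ld.lean`, `Y696/CTK/Per.lean`) -/
def S_PERK : Prop := ∀ x : ℂ, 1 + 4 * x ≠ 0 → (∃ Λ, IsPer (EX ℂ x) Λ) ∧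
  ∀ Λ, IsPer (EX ℂ x) Λ → ∃ (L : PeriodPair) (Ω : ℂ), LD L Ω ∧
    2 * |((starRingEnd ℂ) Λ.ω₁ * Λ.ω₂).im| = Real.sqrt 7 * ‖Ω‖ ^ 2 / ‖1 + 4 * x‖

/-! ### C. the descent -/

/-- `y² = x (x² + 21 D x + 112 D²)` -/
def EEK (K : Type) [Field K] (D : K) : WeierstrassCurve K := ⟨0, 21 * D, 0, 112 * D ^ 2, 0⟩

/-- the roots -/
def rAK {F : Type*} [Field F] (D a : F) : F := D * eA a
/-- the roots -/
def rBK {F : Type*} [Field F] (D a : F) : F := D * eB a

section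
variable {K : Type} [Field K] [NumberField K]

/-- the hypotheses: `D = 1 + 4 t` -/
structure Hyp (a : K) (t : 𝓞 K) : Prop where
  ha : a ^ 2 = a - 2
  un : ∀ v : HeightOneSpectrum (𝓞 K), v.valuation K 2 < 1 → v.valuation K 2 = exp (-1 : ℤ)
  sqf : ∀ v : HeightOneSpectrum (𝓞 K), v.valuation K (1 + 4 * (t : K)) < 1 →
    v.valuation K (1 + 4 * (t : K)) = exp (-1 : ℤ)
  odd : ∃ v : HeightOneSpectrum (𝓞 K), v.valuation K 2 = 1 ∧ v.valuation K (1 + 4 * (t : K)) = 1 ∧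
    v.valuation K (2 * a - 1) = exp (-1 : ℤ)

/-- the local conditions on the class `d` -/
def PDK (a D d : K) : Prop := d ≠ 0 ∧ ∀ v : HeightOneSpectrum (𝓞 K), v.valuation K 7 = 1 →
  (v.valuation K D = 1 → Ev (v.valuation K) d ∧
    (v.valuation K (1 - a) < 1 → Ur (v.valuation K) d)) ∧
  (v.valuation K D < 1 → Sq (v.valuation K) d ∨ Sq (v.valuation K) (D * (2 * a - 1) * d))

/-- a cocycle with values in the points of order two, locally trivial -/
structure Co2K {D : K} (g : Coch (EEK K D)) : Prop where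
  two : ∀ σ, g σ + g σ = 0
  coc : ∀ σ τ : Gal K, g (σ * τ) = g σ + act (EEK K D) σ.toAlgHom (g τ)
  fin : ∃ S : Finset (AlgebraicClosure K), ∀ τ : Gal K, (∀ x ∈ S, τ x = x) → g τ = 0
  loc : ∀ v : HeightOneSpectrum (𝓞 K), LocTriv (EEK K D) (v.adicCompletion K) g

end

/-- TASK HYP -/
def S_HYP : Prop := ∀ (K : Type) [Field K] [NumberField K] (j : RR ≃+* 𝓞 K) (t : RR),
  Squarefree (1 + 4 * t) → IsCoprime fR (1 + 4 * t) → Hyp (j aR : K) (j t) ∧ Hyp (1 - (j aR : K)) (j t)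

/-- TASK SELK: the class of a cocycle (`Y698/{Lsd,Trd,Seld}.lean` with `F = K`, `D` in `K`) -/
def S_SELK : Prop := ∀ (K : Type) [Field K] [NumberField K] (a : K) (t : 𝓞 K), Hyp a t →
  ∀ g : Coch (EEK K (1 + 4 * (t : K))), Co2K g →
    ∃ (q : K) (s : AlgebraicClosure K), q ≠ 0 ∧ s ^ 2 = algebraMap K (AlgebraicClosure K) q ∧
      (∀ σ : Gal K, σ s = s ↔ IsX ((EEK K (1 + 4 * (t : K))).baseChange (AlgebraicClosure K))
        (algebraMap K (AlgebraicClosure K) (rBK (1 + 4 * (t : K)) a)) (g σ)) ∧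
      PDK a (1 + 4 * (t : K)) q

/-- no element of order two in the Tate-Shafarevich group -/
def S_SHAK : Prop := ∀ (K : Type) [Field K] [NumberField K] (a : K) (t : 𝓞 K), Hyp a t →
  Hyp (1 - a) t →
  (∀ d, PDK a (1 + 4 * (t : K)) d → SDD a (1 + 4 * (t : K)) d) →
  (∀ d, PDK (1 - a) (1 + 4 * (t : K)) d → SDD (1 - a) (1 + 4 * (t : K)) d) →
    ∀ x : Sha (EX K (t : K)), x + x = 0 → x = 0

/-- TASK SHAK (`T2h78/TW/{Shd,Shbd}.lean`, `Y698/{Vd,Hpd}.lean` with `F = K`, `D` in `K`) -/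
def S_SHAKT : Prop := S_SELK → S_SHAK

/-- TASK FINK: finitely many points (`T2h78/TW/Pu.lean`) -/
def S_FINK : Prop := ∀ (K : Type) [Field K] [NumberField K] (a : K) (t : 𝓞 K), Hyp a t →
  Hyp (1 - a) t →
  (∀ d, PDK a (1 + 4 * (t : K)) d → SDD a (1 + 4 * (t : K)) d) →
  (∀ d, PDK (1 - a) (1 + 4 * (t : K)) d → SDD (1 - a) (1 + 4 * (t : K)) d) →
    Finite (EX K (t : K)).toAffine.Point

/-- TASK LCK: the local conditions for a nonsingular matrix (`C1.low`, `C1.main` in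
`T2h78/TW/Al.lean`, `T2h78/TW/Fq.lean`) -/
def S_LCK : Prop := ∀ (K : Type) [Field K] [NumberField K] (j : RR ≃+* 𝓞 K) (S : Finset RR) (t : RR),
  Cl S → ∏ π ∈ S, π = 1 + 4 * t → KD.Gd S → ∀ d : K,
    PDK (j aR : K) (1 + 4 * (j t : K)) d → SDD (j aR : K) (1 + 4 * (j t : K)) d

/-! ### D. the converse: a singular matrix -/

/-- `y² = x³ + a x² + b x` -/
def WG (K : Type) [Field K] (a b : K) : WeierstrassCurve K := ⟨0, a, 0, b, 0⟩

/-- a point `(X, Y)` of `y² = x³ - 2 a x² + (a² - 4 b) x` over `L` with `X ∈ d L*²` -/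
def LocG {K : Type} [Field K] (L : Type) [Field L] [Algebra K L] (a b d : K) : Prop :=
  ∃ X Y r : L, X ≠ 0 ∧ Y ^ 2 = X ^ 3 - 2 * algebraMap K L a * X ^ 2 +
    algebraMap K L (a ^ 2 - 4 * b) * X ∧ X = algebraMap K L d * r ^ 2

/-- TASK SHG: the cocycle `χ_d (0, 0)` (`Y698/SG/{Cv,Cb}.lean`, `Y79/SG/{Coc,Lot}.lean`,
`Y945/SG/Cob.lean`, with coefficients in `K` instead of `ℤ`; see `sha_exV`) -/
def S_SHG : Prop := ∀ (K : Type) [Field K] [NumberField K] (a b d : K), b ≠ 0 → a ^ 2 - 4 * b ≠ 0 →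
  d ≠ 0 → (∀ v : HeightOneSpectrum (𝓞 K), LocG (v.adicCompletion K) a b d) →
  (∀ v : InfinitePlace K, LocG v.Completion a b d) →
  (∀ x : Sha (WG K a b), x + x = 0 → x = 0) →
    IsSquare d ∨ IsSquare (d * (a ^ 2 - 4 * b)) ∨ LocG K a b d

/-- a point `(X, Y)` over `L` of `y² = x (x - u) (x - a⁴ u)`, `u = D √-7`, with `X ∈ d L*²`; this
curve is the translate by `(D ē, 0)` of the twist by `D`; the curve of `LocG` for the translate by
`(D e, 0)` is isomorphic to it by `x ↦ a² x` -/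
def LocK {K : Type} [Field K] (L : Type) [Field L] [Algebra K L] (a D d : K) : Prop :=
  ∃ X Y r : L, X ≠ 0 ∧ Y ^ 2 = X * (X - algebraMap K L (D * (2 * a - 1))) *
    (X - algebraMap K L (D * (2 * a - 1) * a ^ 4)) ∧ X = algebraMap K L d * r ^ 2

/-- everywhere locally soluble classes, if there are finitely many points and no element of
order two in the Tate-Shafarevich group -/
def S_CVS : Prop := ∀ (K : Type) [Field K] [NumberField K] (a : K) (t : 𝓞 K), Hyp a t →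
  ∀ d : K, d ≠ 0 → (∀ v : HeightOneSpectrum (𝓞 K), LocK (v.adicCompletion K) a (1 + 4 * (t : K)) d) →
  (∀ v : InfinitePlace K, LocK v.Completion a (1 + 4 * (t : K)) d) →
  Finite (EX K (t : K)).toAffine.Point → (∀ x : Sha (EX K (t : K)), x + x = 0 → x = 0) →
    IsSquare d ∨ IsSquare ((1 + 4 * (t : K)) * (2 * a - 1) * d)

/-- TASK CVS -/
def S_CVST : Prop := S_SHG → S_CVS

/-- the good places -/
def S_CVG : Prop := ∀ (K : Type) [Field K] [NumberField K] (a : K) (t : 𝓞 K), Hyp a t →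
  ∀ (d : K) (v : HeightOneSpectrum (𝓞 K)), v.valuation K 2 = 1 → v.valuation K 7 = 1 →
    v.valuation K (1 + 4 * (t : K)) = 1 → v.valuation K d = 1 →
      LocK (v.adicCompletion K) a (1 + 4 * (t : K)) d

/-- TASK CVN: the odd places where `d` or `D √-7 d` is a square (points near `O` and near
`(D √-7, 0)`) -/
def S_CVN : Prop := ∀ (K : Type) [Field K] [NumberField K] (a : K) (t : 𝓞 K), Hyp a t →
  ∀ (d : K) (v : HeightOneSpectrum (𝓞 K)), v.valuation K 2 = 1 →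
    (Sq (v.valuation K) d ∨ Sq (v.valuation K) ((1 + 4 * (t : K)) * (2 * a - 1) * d)) →
      LocK (v.adicCompletion K) a (1 + 4 * (t : K)) d

/-- TASK CVG (over the residue field the points modulo two and the classes of the pairs
`(x - e, x - ē)` have the same number `4`; compare `T2h69/TW/{FF,LG}.lean`) -/
def S_CVGT : Prop := S_CVN → S_CVG

/-- TASK CV2: the places above two (the table in `T2h69/TW/L2.lean`) -/
def S_CV2 : Prop := ∀ (K : Type) [Field K] [NumberField K] (a : K) (t : 𝓞 K), Hyp a t →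
  ∀ (d : K) (v : HeightOneSpectrum (𝓞 K)), v.valuation K 2 < 1 →
    (∀ x : K, v.valuation K x ≤ 1 → v.valuation K x < 1 ∨ v.valuation K (x - 1) < 1) →
    v.valuation K d = 1 → (v.valuation K (1 - a) < 1 → Ur (v.valuation K) d) →
      LocK (v.adicCompletion K) a (1 + 4 * (t : K)) d

/-- TASK CVC: the infinite places -/
def S_CVC : Prop := ∀ (K : Type) [Field K] [NumberField K] (a : K) (t : 𝓞 K), Hyp a t →
  ∀ d : K, d ≠ 0 → ∀ v : InfinitePlace K, LocK v.Completion a (1 + 4 * (t : K)) d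

/-- the element of a subset of `S` -/
noncomputable def dT (T : Finset RR) : RR :=
  ((Pool.Agent.T2h78.TW.sgz (∑ π ∈ T, te π) : ℤ) : RR) * ∏ π ∈ T, π

/-- TASK CVK: the class of an element of the kernel (`T2h78/TW/{Cv1,Cv3}.lean`) -/
def S_CVK : Prop := ∀ S : Finset RR, Cl S → ¬ KD.Gd S → ∃ T, T ⊆ S ∧ T.Nonempty ∧
  (∀ π ∈ S \ T, sy π (dT T) = 1) ∧
  (∀ π ∈ T, sy π (((Pool.Agent.T2h78.TW.sgz (∑ ρ ∈ T, te ρ) : ℤ) : RR) * (fR * ∏ ρ ∈ S \ T, ρ)) = 1) ∧
  e7 (dT T) = 1 ∧ cX (dT T) % 2 = 1 ∧ (cX (dT T) - cY (dT T)) % 4 = 1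

/-- the converse -/
def S_CV : Prop := ∀ (K : Type) [Field K] [NumberField K] (j : RR ≃+* 𝓞 K) (S : Finset RR) (t : RR),
  Cl S → ∏ π ∈ S, π = 1 + 4 * t → ¬ KD.Gd S →
    ¬ (Finite (EX K (j t : K)).toAffine.Point ∧ ∀ x : Sha (EX K (j t : K)), x + x = 0 → x = 0)

/-- TASK CV: the conclusion -/
def S_CVT : Prop := S_HYP → S_CVS → S_CVG → S_CVN → S_CV2 → S_CVC → S_CVK → S_CV

/-! ### E. the criterion in terms of any factorization -/

section
variable {K : Type} [Field K] [NumberField K]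

/-- `1` if `x` is not a square modulo `π`, and `0` if it is -/
noncomputable def nqK (π x : 𝓞 K) : ZMod 2 :=
  if IsSquare (Ideal.Quotient.mk (Ideal.span {π}) x) then 0 else 1

/-- the matrix of a factorization -/
noncomputable def mqK (a : 𝓞 K) {n : ℕ} (π : Fin n → 𝓞 K) : Matrix (Fin n) (Fin n) (ZMod 2) :=
  Matrix.of fun i k => if i = k then nqK (π i) (2 * a - 1) + ∑ l ∈ univ.erase i, nqK (π l) (π i)
    else nqK (π k) (π i)

end

/-- TASK CRIT (`T2h78/TW/Fz.lean`) -/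
def S_CRIT : Prop := ∀ (K : Type) [Field K] [NumberField K] (j : RR ≃+* 𝓞 K) (t : RR),
  Squarefree (1 + 4 * t) → IsCoprime fR (1 + 4 * t) →
  Cl (PD (1 + 4 * t)) ∧ ∏ π ∈ PD (1 + 4 * t), π = 1 + 4 * t ∧
  (∃ (n : ℕ) (π : Fin n → 𝓞 K), (∀ i, Prime (π i) ∧ (j aR) ^ 2 ∣ π i - 1) ∧
    1 + 4 * j t = ∏ i, π i) ∧
  ∀ (n : ℕ) (π : Fin n → 𝓞 K), (∀ i, Prime (π i) ∧ (j aR) ^ 2 ∣ π i - 1) →
    1 + 4 * j t = ∏ i, π i → ((mqK (j aR) π).det ≠ 0 ↔ KD.Gd (PD (1 + 4 * t)))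

end Pool.Agent.T2h16.KE
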