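import Pool.Agent.T2h16.KE.Stm
import Pool.Agent.T2h78.TW.Fz

/-!
# The criterion in terms of any factorization (helper64)
-/

set_option autoImplicit false
set_option linter.unusedVariables false

open scoped Classical

namespace Pool.Agent.T2h16.KE

open Finset Filter
open NumberField IsDedekindDomain WeierstrassCurve WithZero
open Pool.Agent.Y698 (RR cX cY nR aR bR cj fR al psi e7 EX AP eA eB LD SqE Ev Ur Sq SDD nR_mul
  cXY_add cXY_mul cXY_one cXY_aR cXY_int cXY_neg RR_ext)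
open Pool.Agent.Y698.SG (sy lg)
open Pool.Agent.W192.HK (sp nm HC)
open Pool.Agent.T2h78.TW (PO te sl nq nq_eq a2_of of_a2)
open Pool.Agent.T2h16.KD (nrm prm PS PD Cl mem_PD cs cc)

namespace CRITp

/-- the coordinates of `1 + 4 t` -/
theorem cXY_D (t : RR) : cX (1 + 4 * t) = 1 + 4 * cX t ∧ cY (1 + 4 * t) = 4 * cY t := by
  have h4 : (4 : RR) = ((4 : ℤ) : RR) := by norm_num
  rw [(cXY_add _ _).1, (cXY_add _ _).2, (cXY_mul _ _).1, (cXY_mul _ _).2, h4, (cXY_int _).1,
    (cXY_int _).2, cXY_one.1, cXY_one.2]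
  constructor <;> ring

theorem te_one : te 1 = 0 := by
  unfold te
  rw [cXY_one.2]
  rfl

theorem te_mul {a b : RR} (ha : prm a) (hb : prm b) : te (a * b) = te a + te b := by
  obtain ⟨k, hk⟩ : ∃ k, cX a = 1 + 4 * k := ⟨(cX a - 1) / 4, by have := ha.x4; omega⟩
  obtain ⟨m, hm⟩ : ∃ m, cY a = 2 * m := ⟨cY a / 2, by have := ha.y2; omega⟩
  obtain ⟨k', hk'⟩ : ∃ k, cX b = 1 + 4 * k := ⟨(cX b - 1) / 4, by have := hb.x4; omega⟩
  obtain ⟨m', hm'⟩ : ∃ m, cY b = 2 * m := ⟨cY b / 2, by have := hb.y2; omega⟩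
  have h1 : ∃ q : ℤ, cY (a * b) = 2 * m + 2 * m' + 4 * q := by
    rw [(cXY_mul _ _).2, hk, hm, hk', hm']
    exact ⟨2 * k * m' + 2 * m * k' + m * m', by ring⟩
  obtain ⟨q, hq⟩ := h1
  have h11 : (1 + 1 : ZMod 2) = 0 := by decide
  unfold te
  rw [hq, hm, hm']
  rcases Int.emod_two_eq_zero_or_one m with e1 | e1 <;>
    rcases Int.emod_two_eq_zero_or_one m' with e2 | e2
  · rw [if_pos (by omega), if_pos (by omega), if_pos (by omega), add_zero]
  · rw [if_neg (by omega), if_pos (by omega), if_neg (by omega), zero_add]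
  · rw [if_neg (by omega), if_neg (by omega), if_pos (by omega), add_zero]
  · rw [if_pos (by omega), if_neg (by omega), if_neg (by omega), h11]

theorem te_prod {S : Finset RR} (hS : ∀ π ∈ S, prm π) : te (∏ π ∈ S, π) = ∑ π ∈ S, te π := by
  induction S using Finset.induction_on with
  | empty => rw [prod_empty, sum_empty, te_one]
  | insert a s ha ih =>
    rw [prod_insert ha, sum_insert ha, te_mul (hS a (mem_insert_self a s))
      (KD.prm_prod fun π hπ => hS π (mem_insert_of_mem hπ)),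
      ih fun π hπ => hS π (mem_insert_of_mem hπ)]

/-- **uniqueness of the factorization** -/
theorem fac_equiv {D : RR} (hD : PS D) {n : ℕ}
    {π : Fin n → RR} (hpr : ∀ i, Prime (π i)) (ha : ∀ i, aR ^ 2 ∣ π i - 1)
    (hprod : ∏ i, π i = D) :
    ∃ e : Fin n ≃ PD D, ∀ i, π i = ((e i : PD D) : RR) := by
  have hdvd : ∀ i, π i ∣ D := fun i => by
    rw [← hprod]
    exact Finset.dvd_prod_of_mem _ (Finset.mem_univ i)
  have hpo : ∀ i, PO (π i) := by
    intro i
    obtain ⟨c, hc⟩ := hdvd i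
    have hodd : nR (π i) % 2 = 1 := by
      have h5 := KD.prm.nodd hD.prm
      rw [hc, nR_mul] at h5
      rcases Int.emod_two_eq_zero_or_one (nR (π i)) with h6 | h6
      · rw [Int.mul_emod, h6] at h5
        simp at h5
      · exact h6
    obtain ⟨h1, h2⟩ := of_a2 (ha i) hodd
    exact ⟨hpr i, h1, h2, hD.prm.cop.of_isCoprime_of_dvd_right ⟨c, hc⟩⟩
  have hmem : ∀ i, π i ∈ PD D := fun i => (mem_PD hD.ne).2 ⟨hpo i, hdvd i⟩
  set f : Fin n → PD D := fun i => ⟨π i, hmem i⟩ with hf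
  have hinj : Function.Injective f := by
    intro i j hij
    by_contra hne
    have h1 : π j = π i := (congrArg Subtype.val hij).symm
    have h2 : ∏ i, π i = π i * (π i * ∏ k ∈ (Finset.univ.erase i).erase j, π k) := by
      rw [← Finset.mul_prod_erase Finset.univ _ (Finset.mem_univ i),
        ← Finset.mul_prod_erase (Finset.univ.erase i) _
          (Finset.mem_erase.2 ⟨fun h => hne h.symm, Finset.mem_univ j⟩), h1]
    rw [hprod, ← mul_assoc] at h2
    exact (hpr i).not_isUnit (hD.sqf (π i) ⟨_, h2⟩)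
  have hsurj : Function.Surjective f := by
    rintro ⟨ρ, hρ⟩
    obtain ⟨h1, h2⟩ := (mem_PD hD.ne).1 hρ
    rw [← hprod] at h2
    obtain ⟨i, -, h3⟩ := (Prime.dvd_finsetProd_iff h1.pr _).1 h2
    exact ⟨i, Subtype.ext (KD.eq_of_dvd h1 (hpo i) h3).symm⟩
  exact ⟨Equiv.ofBijective f ⟨hinj, hsurj⟩, fun i => rfl⟩

/-- squares modulo an element -/
theorem sq_iff {R : Type*} [CommRing R] (p x : R) :
    IsSquare (Ideal.Quotient.mk (Ideal.span {p}) x) ↔ ∃ y, p ∣ x - y * y := by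
  constructor
  · rintro ⟨y, hy⟩
    obtain ⟨y, rfl⟩ := Ideal.Quotient.mk_surjective y
    rw [← map_mul, Ideal.Quotient.eq, Ideal.mem_span_singleton] at hy
    exact ⟨y, hy⟩
  · rintro ⟨y, hy⟩
    refine ⟨Ideal.Quotient.mk _ y, ?_⟩
    rw [← map_mul, Ideal.Quotient.eq, Ideal.mem_span_singleton]
    exact hy

theorem nqK_eq {K : Type} [Field K] [NumberField K] (j : RR ≃+* 𝓞 K) (p x : RR) :
    nqK (j p) (j x) = nq p x := by
  have h : IsSquare (Ideal.Quotient.mk (Ideal.span {j p}) (j x)) ↔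
      IsSquare (Ideal.Quotient.mk (Ideal.span {p}) x) := by
    rw [sq_iff, sq_iff]
    constructor
    · rintro ⟨y, hy⟩
      obtain ⟨y, rfl⟩ := j.surjective y
      rw [← map_mul, ← map_sub] at hy
      exact ⟨y, (map_dvd_iff j).1 hy⟩
    · rintro ⟨y, hy⟩
      refine ⟨j y, ?_⟩
      rw [← map_mul, ← map_sub]
      exact (map_dvd_iff j).2 hy
  unfold nqK nq
  by_cases h1 : IsSquare (Ideal.Quotient.mk (Ideal.span {p}) x)
  · rw [if_pos h1, if_pos (h.2 h1)]
  · rw [if_neg h1, if_neg (fun h2 => h1 (h.1 h2))]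

/-- the matrix of a set -/
noncomputable def MS (S : Finset RR) : Matrix S S (ZMod 2) :=
  Matrix.of fun π ρ => if π = ρ then cc π + ∑ σ ∈ univ.erase π, sl (σ : RR) π
    else sl (ρ : RR) π

theorem MS_mulVec (S : Finset RR) (v : RR → ZMod 2) (π : S) :
    (MS S).mulVec (fun ρ => v ρ) π = cc π * v π + ∑ ρ ∈ S, cs π ρ * (v ρ + v π) := by
  rw [← Finset.sum_coe_sort S (fun ρ => cs π ρ * (v ρ + v π)), Matrix.mulVec, dotProduct,
    ← Finset.add_sum_erase univ _ (mem_univ π), ← Finset.add_sum_erase univ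
      (fun ρ : S => cs (π : RR) ρ * (v ρ + v π)) (mem_univ π)]
  have h1 : MS S π π = cc π + ∑ σ ∈ univ.erase π, sl (σ : RR) π := by
    unfold MS
    rw [Matrix.of_apply, if_pos rfl]
  have h2 : ∑ ρ ∈ univ.erase π, MS S π ρ * v ρ = ∑ ρ ∈ univ.erase π, sl (ρ : RR) π * v ρ := by
    refine Finset.sum_congr rfl fun ρ hρ => ?_
    unfold MS
    rw [Matrix.of_apply, if_neg (Finset.ne_of_mem_erase hρ).symm]
  have h3 : cs (π : RR) π = 0 := by unfold cs; rw [if_pos rfl]
  have h4 : ∑ ρ ∈ univ.erase π, cs (π : RR) (ρ : RR) * (v ρ + v π) =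
      ∑ ρ ∈ univ.erase π, sl (ρ : RR) π * (v ρ + v π) := by
    refine Finset.sum_congr rfl fun ρ hρ => ?_
    unfold cs
    rw [if_neg (fun h => (Finset.ne_of_mem_erase hρ) (Subtype.ext h).symm)]
  rw [h1, h2, h3, h4, zero_mul, zero_add, add_mul, Finset.sum_mul, add_assoc,
    ← Finset.sum_add_distrib]
  congr 1
  refine Finset.sum_congr rfl fun ρ _ => ?_
  ring

theorem det_iff (S : Finset RR) : (MS S).det ≠ 0 ↔ KD.Gd S := by
  constructor
  · intro h v hv π hπ
    have h1 : (MS S).mulVec (fun ρ => v ρ) = 0 := by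
      ext ρ
      rw [MS_mulVec]
      exact hv ρ ρ.2
    have h2 := Matrix.eq_zero_of_mulVec_eq_zero h h1
    exact congrFun h2 ⟨π, hπ⟩
  · intro h hdet
    obtain ⟨v, hv0, hv⟩ := Matrix.exists_mulVec_eq_zero_iff.2 hdet
    apply hv0
    set w : RR → ZMod 2 := fun π => if h : π ∈ S then v ⟨π, h⟩ else 0 with hw
    have hwv : (fun ρ : S => w ρ) = v := by
      ext ρ
      rw [hw]
      simp only
      rw [dif_pos ρ.2]
    have h1 : KD.Sol S w := by
      intro π hπ
      have := congrFun hv ⟨π, hπ⟩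
      rw [← hwv, MS_mulVec] at this
      exact this
    have h2 := h w h1
    ext ρ
    rw [← hwv]
    exact h2 ρ ρ.2

theorem mq_submatrix {K : Type} [Field K] [NumberField K] (j : RR ≃+* 𝓞 K) {D : RR} (hD : PS D)
    {n : ℕ} {π : Fin n → RR} (e : Fin n ≃ PD D) (he : ∀ i, π i = ((e i : PD D) : RR)) :
    mqK (j aR) (fun i => j (π i)) = (MS (PD D)).submatrix e e := by
  have hpo : ∀ ρ : PD D, PO (ρ : RR) := fun ρ => ((mem_PD hD.ne).1 ρ.2).1
  have hne : ∀ ρ σ : PD D, ρ ≠ σ → (σ : RR) ∉ sp (ρ : RR) := by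
    intro ρ σ h h1
    rw [KD.mem_sp] at h1
    exact h (Subtype.ext (KD.eq_of_dvd (hpo ρ) (hpo σ) h1))
  have hf : ∀ ρ : PD D, fR ∉ sp (ρ : RR) := by
    intro ρ h1
    rw [KD.mem_sp] at h1
    exact (hpo ρ).pr.not_isUnit ((hpo ρ).cop.symm.isUnit_of_dvd' dvd_rfl h1)
  ext i k
  unfold mqK
  rw [Matrix.of_apply, Matrix.submatrix_apply]
  unfold MS
  rw [Matrix.of_apply]
  beta_reduce
  by_cases hij : i = k
  · subst hij
    rw [if_pos rfl, if_pos rfl]
    have h1 : (2 * j aR - 1 : 𝓞 K) = j fR := by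
      unfold Pool.Agent.Y698.fR
      rw [map_sub, map_mul, map_ofNat, map_one]
    rw [h1, nqK_eq, he i, nq_eq (hf _), KD.sl_fR (hpo _)]
    congr 1
    have h2 : ∀ l ∈ univ.erase i, nqK (j (π l)) (j ((e i : PD D) : RR)) =
        (fun m : PD D => sl (m : RR) ((e i : PD D) : RR)) (e l) := by
      intro l hl
      rw [nqK_eq, he l]
      exact nq_eq (hne _ _ fun h => (Finset.ne_of_mem_erase hl) (e.injective h))
    rw [Finset.sum_congr rfl h2]
    refine Finset.sum_bij' (fun k _ => e k) (fun m _ => e.symm m) ?_ ?_ ?_ ?_ ?_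
    · intro k hk
      rw [Finset.mem_erase] at hk ⊢
      exact ⟨fun h => hk.1 (e.injective h), Finset.mem_univ _⟩
    · intro m hm
      rw [Finset.mem_erase] at hm ⊢
      refine ⟨fun h => hm.1 ?_, Finset.mem_univ _⟩
      rw [← h, e.apply_symm_apply]
    · intro k _
      exact e.symm_apply_apply k
    · intro m _
      exact e.apply_symm_apply m
    · intro k _
      rfl
  · rw [if_neg hij, if_neg (fun h => hij (e.injective h)), nqK_eq, he i, he k]
    exact nq_eq (hne _ _ fun h => hij (e.injective h).symm)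

end CRITp

open CRITp

theorem t_CRIT : S_CRIT := by
  intro K _ _ j t hsq hcop
  have hprm : prm (1 + 4 * t) := by
    obtain ⟨h1, h2⟩ := cXY_D t
    exact ⟨by rw [h1]; omega, by rw [h2]; omega, hcop⟩
  have hPS : PS (1 + 4 * t) := ⟨hprm, hsq⟩
  have hprod : ∏ π ∈ PD (1 + 4 * t), π = 1 + 4 * t := hPS.prod
  have hpo : ∀ π ∈ PD (1 + 4 * t), PO π := fun π hπ => ((mem_PD hPS.ne).1 hπ).1
  refine ⟨⟨hpo, ?_⟩, hprod, ?_, ?_⟩
  · rw [← te_prod fun π hπ => KD.pq_prm (hpo π hπ), hprod]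
    unfold te
    rw [if_pos]
    rw [(cXY_D t).2]
    omega
  · have e := (PD (1 + 4 * t)).equivFin
    refine ⟨(PD (1 + 4 * t)).card, fun i => j ((e.symm i : PD (1 + 4 * t)) : RR), fun i => ?_, ?_⟩
    · have hp := hpo _ (e.symm i).2
      refine ⟨(MulEquiv.prime_iff j.toMulEquiv).2 hp.pr, ?_⟩
      have h1 := a2_of hp.x4 hp.y2
      have h2 := map_dvd j h1
      rwa [map_pow, map_sub, map_one] at h2
    · have h1 : (1 + 4 * j t : 𝓞 K) = j (1 + 4 * t) := by
        rw [map_add, map_mul, map_ofNat, map_one]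
      have h2 : ∏ i : Fin (PD (1 + 4 * t)).card, j ((e.symm i : PD (1 + 4 * t)) : RR) =
          ∏ i : PD (1 + 4 * t), j (i : RR) :=
        Fintype.prod_equiv e.symm (fun i => j ((e.symm i : PD (1 + 4 * t)) : RR))
          (fun i : PD (1 + 4 * t) => j (i : RR)) fun i => rfl
      calc (1 + 4 * j t : 𝓞 K) = j (∏ π ∈ PD (1 + 4 * t), π) := by rw [h1, hprod]
        _ = ∏ π ∈ PD (1 + 4 * t), j π := map_prod _ _ _
        _ = ∏ i : PD (1 + 4 * t), j (i : RR) :=
            (Finset.prod_coe_sort (PD (1 + 4 * t)) (fun π => j π)).symm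
        _ = _ := h2.symm
  · intro n π hπ hp
    set π' : Fin n → RR := fun i => j.symm (π i) with hπ'
    have hj : ∀ i, j (π' i) = π i := fun i => j.apply_symm_apply _
    have h1 : ∀ i, Prime (π' i) := fun i => (MulEquiv.prime_iff j.symm.toMulEquiv).2 (hπ i).1
    have h2 : ∀ i, aR ^ 2 ∣ π' i - 1 := by
      intro i
      rw [← map_dvd_iff j, map_pow, map_sub, map_one, hj]
      exact (hπ i).2
    have h3 : ∏ i, π' i = 1 + 4 * t := by
      apply j.injective
      rw [map_prod, map_add, map_mul, map_ofNat, map_one, hp]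
      exact Finset.prod_congr rfl fun i _ => hj i
    obtain ⟨e, he⟩ := fac_equiv hPS h1 h2 h3
    have h4 : π = fun i => j (π' i) := by
      ext i
      rw [hj]
    rw [h4, mq_submatrix j hPS e he, Matrix.det_submatrix_equiv_self]
    exact det_iff _

end Pool.Agent.T2h16.KE
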