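import Pool.Agent.T2h16.KE.LCK

/-!
# Project KE, task CV: a singular matrix
-/

set_option autoImplicit false
set_option linter.unusedSectionVars false
set_option linter.unusedVariables false

open WithZero

namespace Pool.Agent.T2h16.KE.Cvl

open Pool.Agent.Y698 Pool.Agent.Y698.SG Pool.Agent.Y279.SG
open Pool.Agent.T2h78.TW hiding nrm
open Pool.Agent.W192.HK (sp)
open NumberField IsDedekindDomain
open Pool.Agent.T2h16.KD (Cl Gd)
open Pool.Agent.T2h16.KE.Lc (gen_v place)

variable {K : Type} [Field K] [NumberField K]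

lemma vle (v : HeightOneSpectrum (𝓞 K)) (x : 𝓞 K) : v.valuation K (x : K) ≤ 1 :=
  v.valuation_le_one (K := K) x

lemma jm (j : RR ≃+* 𝓞 K) (x y : RR) : (j (x * y) : K) = (j x : K) * (j y : K) := by
  rw [map_mul]
  rfl

lemma mlt {v : HeightOneSpectrum (𝓞 K)} {x y : K} (hx : v.valuation K x ≤ 1)
    (hy : v.valuation K y < 1) : v.valuation K x * v.valuation K y < 1 := by
  rw [mul_comm]
  exact mul_lt_one_of_lt_of_le hy hx

lemma coe_int (j : RR ≃+* 𝓞 K) (n : ℤ) : (j (n : RR) : K) = (n : K) := by
  rw [map_intCast]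
  push_cast
  rfl

/-- `a + b - 1`, `a ^ 2 = a - 2` -/
lemma v_two_split (j : RR ≃+* 𝓞 K) (v : HeightOneSpectrum (𝓞 K)) (h : v.valuation K 2 < 1) :
    v.valuation K (j aR : K) < 1 ∨ v.valuation K (1 - (j aR : K)) < 1 := by
  have ha := Lc.ha_j j
  by_contra hcon
  push Not at hcon
  have h1 : v.valuation K (2 : K) = v.valuation K (j aR : K) * v.valuation K (1 - (j aR : K)) := by
    rw [← map_mul]
    congr 1
    linear_combination ha
  have h2 : (1 : ℤᵐ⁰) ≤ v.valuation K (2 : K) := by
    rw [h1]
    exact hcon.1.trans (le_mul_of_one_le_right' hcon.2)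
  exact absurd h (not_lt.2 h2)

lemma one_sub_le (j : RR ≃+* 𝓞 K) (v : HeightOneSpectrum (𝓞 K)) :
    v.valuation K (1 - (j aR : K)) ≤ 1 := by
  have := vle v (1 - j aR)
  push_cast at this
  exact this

/-- the residue field has two elements -/
lemma res_two (j : RR ≃+* 𝓞 K) (v : HeightOneSpectrum (𝓞 K)) (h : v.valuation K 2 < 1) (x : K)
    (hx : v.valuation K x ≤ 1) : v.valuation K x < 1 ∨ v.valuation K (x - 1) < 1 := by
  obtain ⟨y', hy'⟩ := v.exists_valuation_sub_lt_of_integer (K := K) hx 1
  obtain ⟨y, rfl⟩ := j.surjective y'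
  have hy : v.valuation K ((j y : K) - x) < 1 := hy'
  -- an integer close to `y`
  obtain ⟨n, hn⟩ : ∃ n : ℤ, v.valuation K ((j y : K) - n) < 1 := by
    have hd : (j y : K) = (cX y : K) + (cY y : K) * (j aR : K) := by
      have := Lc.ev_j j y
      rw [ev_apply] at this
      exact this.symm
    have hint : ∀ n : ℤ, v.valuation K (n : K) ≤ 1 := by
      intro n
      rw [← coe_int j]
      exact vle v _
    rcases v_two_split j v h with h1 | h1
    · refine ⟨cX y, ?_⟩
      rw [hd, add_sub_cancel_left, map_mul]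
      exact mlt (hint _) h1
    · refine ⟨cX y + cY y, ?_⟩
      have e : (cX y : K) + (cY y : K) * (j aR : K) - ((cX y + cY y : ℤ) : K) =
          -((cY y : K) * (1 - (j aR : K))) := by
        push_cast
        ring
      rw [hd, e, Valuation.map_neg, map_mul]
      exact mlt (hint _) h1
  have hxn : v.valuation K (x - n) < 1 := by
    have e : x - n = ((j y : K) - n) - ((j y : K) - x) := by ring
    rw [e]
    exact Valuation.map_sub_lt _ hn hy
  have h2 : ∀ k : ℤ, v.valuation K (2 * (k : K)) < 1 := by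
    intro k
    rw [map_mul]
    refine mul_lt_one_of_lt_of_le h ?_
    rw [← coe_int j]
    exact vle v _
  rcases Int.even_or_odd' n with ⟨k, rfl | rfl⟩
  · left
    have e : x = (x - ((2 * k : ℤ) : K)) + 2 * (k : K) := by push_cast; ring
    rw [e]
    exact Valuation.map_add_lt _ hxn (h2 k)
  · right
    have e : x - 1 = (x - ((2 * k + 1 : ℤ) : K)) + 2 * (k : K) := by push_cast; ring
    rw [e]
    exact Valuation.map_add_lt _ hxn (h2 k)

/-- elements of odd norm -/
lemma v_odd_norm (j : RR ≃+* 𝓞 K) (v : HeightOneSpectrum (𝓞 K)) (h : v.valuation K 2 < 1) {x : RR}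
    (hx : nR x % 2 = 1) : v.valuation K (j x : K) = 1 := by
  refine le_antisymm (vle v _) (not_lt.1 fun hlt => ?_)
  have h1 : v.valuation K (j ((nR x : ℤ) : RR) : K) < 1 := by
    rw [← mul_cj, jm, map_mul]
    exact mul_lt_one_of_lt_of_le hlt (vle v _)
  rw [coe_int] at h1
  have h2 : v.valuation K (2 * ((nR x / 2 : ℤ) : K)) < 1 := by
    rw [map_mul]
    refine mul_lt_one_of_lt_of_le h ?_
    rw [← coe_int j]
    exact vle v _
  have h3 : v.valuation K ((nR x : K) - 2 * ((nR x / 2 : ℤ) : K)) < 1 :=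
    Valuation.map_sub_lt _ h1 h2
  have e : (nR x : K) - 2 * ((nR x / 2 : ℤ) : K) = 1 := by
    have e1 : nR x - 2 * (nR x / 2) = 1 := by omega
    exact_mod_cast congrArg (fun n : ℤ => (n : K)) e1
  rw [e, map_one] at h3
  exact lt_irrefl _ h3

/-- a square modulo the prime -/
lemma sq_of (j : RR ≃+* 𝓞 K) {v : HeightOneSpectrum (𝓞 K)} {x y : RR}
    (hx : v.valuation K (j x : K) = 1) (h : v.valuation K (j (x - y * y) : K) < 1) :
    Sq (v.valuation K) (j x : K) := by
  have e : (j (x - y * y) : K) = (j x : K) - (j y : K) ^ 2 := by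
    rw [map_sub, map_mul]
    push_cast
    ring
  rw [e] at h
  have h1 : v.valuation K ((j y : K) ^ 2) = 1 := by
    rw [← hx]
    have h2 : v.valuation K ((j y : K) ^ 2 - (j x : K)) < v.valuation K (j x : K) := by
      rw [hx, Valuation.map_sub_swap]
      exact h
    exact Valuation.map_eq_of_sub_lt _ h2
  have h3 : v.valuation K (j y : K) = 1 := by
    rw [map_pow] at h1
    exact (pow_eq_one_iff_of_nonneg zero_le two_ne_zero).1 h1
  refine ⟨(j y : K), ?_, ?_⟩
  · intro h0
    rw [h0, map_zero] at h3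
    exact zero_ne_one h3
  · rw [h3, one_pow]
    exact h

lemma sy_sq {π x : RR} (h : sy π x = 1) : x ∉ sp π ∧ ∃ y : RR, π ∣ x - y * y := by
  unfold sy at h
  by_cases h1 : x ∈ sp π
  · rw [if_pos h1] at h
    exact absurd h zero_ne_one
  · refine ⟨h1, ?_⟩
    rw [if_neg h1] at h
    by_cases h2 : IsSquare (Ideal.Quotient.mk (sp π) x)
    · obtain ⟨y', hy'⟩ := h2
      obtain ⟨y, rfl⟩ := Ideal.Quotient.mk_surjective y'
      refine ⟨y, ?_⟩
      rw [← map_mul, Ideal.Quotient.eq] at hy'
      exact Ideal.mem_span_singleton.1 hy'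
    · rw [if_neg h2] at h
      norm_num at h

lemma e7_sq' {x : RR} (h : e7 x = 1) : x ∉ sp fR ∧ ∃ y : RR, fR ∣ x - y * y := by
  have h0 : x ∉ sp fR := by
    intro h1
    rw [e7_eq_zero.2 h1] at h
    exact zero_ne_one h
  refine ⟨h0, ?_⟩
  unfold e7 at h
  have h1 : quadraticChar (ZMod 7) (r7 x) = 1 := by exact_mod_cast h
  have h2 : r7 x ≠ 0 := by
    intro h3
    rw [h3] at h1
    simp at h1
  obtain ⟨z, hz⟩ := (quadraticChar_one_iff_isSquare h2).1 h1
  refine ⟨((z.val : ℕ) : RR), ?_⟩
  rw [← Ideal.mem_span_singleton]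
  show x - ((z.val : ℕ) : RR) * ((z.val : ℕ) : RR) ∈ sp fR
  rw [← r7_eq_zero, map_sub, map_mul, map_natCast, ZMod.natCast_zmod_val, hz, sub_self]

end Pool.Agent.T2h16.KE.Cvl

namespace Pool.Agent.T2h16.KE

open Pool.Agent.Y698 Pool.Agent.Y698.SG Pool.Agent.Y279.SG
open Pool.Agent.T2h78.TW hiding nrm
open Pool.Agent.W192.HK (sp)
open NumberField IsDedekindDomain
open Pool.Agent.T2h16.KD (Cl Gd)
open Pool.Agent.T2h16.KE.Lc (gen_v place)
open Pool.Agent.T2h16.KE.Cvl

theorem t_CV : S_CVT := by
  classical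
  intro hHyp hCVS hCVG hCVN hCV2 hCVC hCVK K _ _ j S t hcl hprod hG hfin
  obtain ⟨T, hTS, hTne, hT1, hT2, hT3, hT4, hT5⟩ := hCVK S hcl hG
  have hPS := Pool.Agent.T2h16.KD.PS_prod hcl.1
  rw [hprod] at hPS
  have hH := (hHyp K j t hPS.1.sqf hPS.1.prm.cop).1
  set a : K := (j aR : K) with ha'
  have ha : a ^ 2 = a - 2 := hH.ha
  set ε : ℤ := sgz (∑ π ∈ T, te π) with hε
  have hεu : ε = 1 ∨ ε = -1 := sgz_unit _
  have hεε : ε * ε = 1 := by rcases hεu with h | h <;> rw [h] <;> norm_num
  have hdT : dT T = (ε : RR) * ∏ π ∈ T, π := rfl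
  set P : RR := ∏ π ∈ T, π with hP
  set Q : RR := ∏ π ∈ S \ T, π with hQ
  have hPQ : P * Q = 1 + 4 * t := by
    rw [← hprod, hP, hQ, mul_comm]
    exact Finset.prod_sdiff hTS
  have hD : (1 + 4 * (j t : K)) = (j P : K) * (j Q : K) := by
    have h1 := congrArg (fun x : RR => (j x : K)) hPQ
    simp only [map_mul, map_add, map_one, map_ofNat] at h1
    push_cast at h1
    exact h1.symm
  have hpo : ∀ π ∈ S, PO π := hcl.1
  have hP0 : P ≠ 0 := Finset.prod_ne_zero_iff.2 fun π hπ => (hpo π (hTS hπ)).pr.ne_zero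
  have hjne : ∀ x : RR, x ≠ 0 → (j x : K) ≠ 0 := by
    intro x hx h
    have h1 : j x = 0 := by exact_mod_cast h
    exact hx (j.injective (by rw [h1, map_zero]))
  have hε0 : (ε : RR) ≠ 0 := by
    intro h
    have h1 : ((ε * ε : ℤ) : RR) = 0 := by push_cast; rw [h, mul_zero]
    rw [hεε] at h1
    norm_num at h1
  have hd0 : dT T ≠ 0 := by
    rw [hdT]
    exact mul_ne_zero hε0 hP0
  set d : K := (j (dT T) : K) with hd
  have hdK : d = (ε : K) * (j P : K) := by
    rw [hd, hdT, jm, coe_int]
  have hεK : (ε : K) * (ε : K) = 1 := by exact_mod_cast congrArg (fun n : ℤ => (n : K)) hεε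
  have hεK0 : (ε : K) ≠ 0 := left_ne_zero_of_mul_eq_one hεK
  have hvε : ∀ v : HeightOneSpectrum (𝓞 K), v.valuation K (ε : K) = 1 := by
    intro v
    rcases hεu with h | h <;> rw [h]
    · simp
    · push_cast
      rw [Valuation.map_neg, map_one]
  have hs : (j fR : K) = 2 * a - 1 := by
    unfold fR
    rw [map_sub, map_mul, map_ofNat, map_one]
    push_cast
    rfl
  have hs2 : (2 * a - 1) ^ 2 = -7 := by linear_combination 4 * ha
  have hs0 : (2 * a - 1) ≠ 0 := by
    intro h
    rw [h] at hs2
    norm_num at hs2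
  -- `d` is a unit if `D` is
  have hunit : ∀ v : HeightOneSpectrum (𝓞 K), v.valuation K (1 + 4 * (j t : K)) = 1 →
      v.valuation K (j P : K) = 1 ∧ v.valuation K (j Q : K) = 1 := by
    intro v h1
    rw [hD, map_mul] at h1
    have h2 := vle v (j P)
    have h3 := vle v (j Q)
    constructor
    · refine le_antisymm h2 (not_lt.1 fun h => ?_)
      have : v.valuation K (j P : K) * v.valuation K (j Q : K) < 1 := mul_lt_one_of_lt_of_le h h3
      rw [h1] at this
      exact lt_irrefl _ this
    · refine le_antisymm h3 (not_lt.1 fun h => ?_)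
      have : v.valuation K (j P : K) * v.valuation K (j Q : K) < 1 := mlt h2 h
      rw [h1] at this
      exact lt_irrefl _ this
  have hd1 : ∀ v : HeightOneSpectrum (𝓞 K), v.valuation K (1 + 4 * (j t : K)) = 1 →
      v.valuation K d = 1 := by
    intro v h1
    rw [hdK, map_mul, hvε, (hunit v h1).1, one_mul]
  -- the finite places
  have hfinp : ∀ v : HeightOneSpectrum (𝓞 K),
      LocK (v.adicCompletion K) a (1 + 4 * (j t : K)) d := by
    intro v
    by_cases h2 : v.valuation K 2 < 1
    · -- above two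
      have hD1 : v.valuation K (1 + 4 * (j t : K)) = 1 := by
        have h4 : v.valuation K (4 * (j t : K)) < 1 := by
          have e : (4 : K) = 2 * 2 := by norm_num
          rw [map_mul, e, map_mul]
          exact mul_lt_one_of_lt_of_le (mul_lt_one_of_lt_of_le h2 h2.le) (vle v (j t))
        rw [Valuation.map_add_eq_of_lt_left _ (by rwa [map_one]), map_one]
      refine hCV2 K a (j t) hH d v h2 (res_two j v h2) (hd1 v hD1) fun h1a => ?_
      refine ⟨1, one_ne_zero, ?_⟩
      rw [one_pow, map_one, one_pow, mul_one]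
      obtain ⟨m, hm⟩ : ∃ m : ℤ, cX (dT T) - cY (dT T) = 1 + 4 * m :=
        ⟨(cX (dT T) - cY (dT T)) / 4, by omega⟩
      have hdd : d = (cX (dT T) : K) + (cY (dT T) : K) * a := by
        have := Lc.ev_j j (dT T)
        rw [ev_apply] at this
        exact this.symm
      have e : d - 1 = 4 * (m : K) - (cY (dT T) : K) * (1 - a) ^ 2 := by
        have h3 : (cX (dT T) : K) = 1 + 4 * (m : K) + (cY (dT T) : K) := by
          have := congrArg (fun n : ℤ => (n : K)) hm
          push_cast at this
          linear_combination this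
        rw [hdd, h3]
        linear_combination (cY (dT T) : K) * ha
      have hva : v.valuation K a = 1 := by
        refine le_antisymm (vle v (j aR)) (not_lt.1 fun h => ?_)
        have h3 : v.valuation K (a + (1 - a)) < 1 := Valuation.map_add_lt _ h h1a
        rw [add_sub_cancel, map_one] at h3
        exact lt_irrefl _ h3
      have hvb : v.valuation K (1 - a) = v.valuation K 2 := by
        have h3 : (2 : K) = a * (1 - a) := by linear_combination ha
        rw [h3, map_mul, hva, one_mul]
      have hint : ∀ n : ℤ, v.valuation K (n : K) ≤ 1 := by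
        intro n
        rw [← coe_int j]
        exact vle v _
      rw [e]
      refine Valuation.map_sub_le _ ?_ ?_
      · rw [map_mul]
        exact mul_le_of_le_one_right' (hint m)
      · rw [map_mul, map_pow, hvb]
        have e4 : v.valuation K (4 : K) = v.valuation K 2 ^ 2 := by
          rw [← map_pow]
          norm_num
        rw [e4]
        exact mul_le_of_le_one_left' (hint _)
    · have hv2 : v.valuation K 2 = 1 := by
        refine le_antisymm ?_ (not_lt.1 h2)
        have := vle v 2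
        push_cast at this
        exact this
      by_cases hD1 : v.valuation K (1 + 4 * (j t : K)) = 1
      · by_cases h7 : v.valuation K 7 = 1
        · exact hCVG K a (j t) hH d v hv2 h7 hD1 (hd1 v hD1)
        · -- the place above seven
          refine hCVN K a (j t) hH d v hv2 (Or.inl ?_)
          obtain ⟨-, y, hy⟩ := e7_sq' hT3
          refine sq_of j (hd1 v hD1) (y := y) ?_
          obtain ⟨c, hc⟩ := hy
          rw [hc, jm, map_mul]
          refine mul_lt_one_of_lt_of_le ?_ (vle v _)
          rw [hs]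
          by_contra hcon
          have h3 : v.valuation K (2 * a - 1) = 1 := by
            refine le_antisymm ?_ (not_lt.1 hcon)
            rw [← hs]
            exact vle v _
          apply h7
          have e : (7 : K) = -(2 * a - 1) ^ 2 := by rw [hs2]; norm_num
          rw [e, Valuation.map_neg, map_pow, h3, one_pow]
      · -- the primes of `D`
        obtain ⟨π, hπ, hv, hvπ⟩ := gen_v j v
        have hlt : v.valuation K (j (1 + 4 * t) : K) < 1 := by
          have h3 := vle v (j (1 + 4 * t))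
          have e : (j (1 + 4 * t) : K) = 1 + 4 * (j t : K) := by
            rw [map_add, map_mul, map_one, map_ofNat]
            push_cast
            rfl
          rw [e] at h3 ⊢
          exact lt_of_le_of_ne h3 hD1
        have h3 := (hv _).1 hlt
        rw [← hprod] at h3
        obtain ⟨π', hπ', h4⟩ := (Prime.dvd_finsetProd_iff hπ _).1 h3
        have hass : Associated π π' := hπ.irreducible.associated_of_dvd (hpo π' hπ').pr.irreducible h4
        have hv' : ∀ x : RR, v.valuation K (j x : K) < 1 ↔ π' ∣ x := by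
          intro x
          rw [hv]
          exact ⟨fun h => hass.symm.dvd.trans h, fun h => hass.dvd.trans h⟩
        have hone : ∀ x : RR, x ∉ sp π' → v.valuation K (j x : K) = 1 := by
          intro x hx
          refine le_antisymm (vle v _) (not_lt.1 fun h => hx ?_)
          exact Ideal.mem_span_singleton.2 ((hv' x).1 h)
        by_cases hπT : π' ∈ T
        · refine hCVN K a (j t) hH d v hv2 (Or.inr ?_)
          obtain ⟨h5, y, hy⟩ := sy_sq (hT2 π' hπT)
          have h6 : Sq (v.valuation K) (j (((ε : ℤ) : RR) * (fR * Q)) : K) :=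
            sq_of j (hone _ h5) ((hv' _).2 hy)
          refine h6.sqE ⟨(j P : K), hjne P hP0, ?_⟩
          rw [hdK, hD, jm, jm, hs, coe_int]
          ring
        · refine hCVN K a (j t) hH d v hv2 (Or.inl ?_)
          obtain ⟨h5, y, hy⟩ := sy_sq (hT1 π' (Finset.mem_sdiff.2 ⟨hπ', hπT⟩))
          exact sq_of j (hone _ h5) ((hv' _).2 hy)
  have hdne : d ≠ 0 := hjne _ hd0
  rcases hCVS K a (j t) hH d hdne hfinp (fun v => hCVC K a (j t) hH d hdne v) hfin.1 hfin.2
    with hsq | hsq
  · -- a prime of `T`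
    obtain ⟨π, hπ⟩ := hTne
    obtain ⟨v, hv, hvπ⟩ := place j (hpo π (hTS hπ)).pr
    obtain ⟨z, hz⟩ := hsq
    have h1 : v.valuation K d = exp (-1) := by
      rw [hdK, map_mul, hvε, one_mul, hP, ← Finset.mul_prod_erase T _ hπ, jm, map_mul, hvπ]
      have h2 : v.valuation K (j (∏ ρ ∈ T.erase π, ρ) : K) = 1 := by
        refine le_antisymm (vle v _) (not_lt.1 fun h => ?_)
        obtain ⟨ρ, hρ, h3⟩ := (Prime.dvd_finsetProd_iff (hpo π (hTS hπ)).pr _).1 ((hv _).1 h)
        rw [Finset.mem_erase] at hρ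
        exact hρ.1 (Pool.Agent.T2h16.KD.eq_of_dvd (hpo π (hTS hπ)) (hpo ρ (hTS hρ.2)) h3).symm
      rw [h2, mul_one]
    rw [hz, map_mul] at h1
    have hz0 : v.valuation K z ≠ 0 := by
      intro h0
      rw [h0, mul_zero] at h1
      exact exp_ne_zero h1.symm
    obtain ⟨k, hk⟩ : ∃ k : ℤ, v.valuation K z = exp k := ⟨log (v.valuation K z), (exp_log hz0).symm⟩
    rw [hk, ← exp_add] at h1
    have := exp_injective h1
    omega
  · -- the place above seven
    obtain ⟨v, hv2, hvD, hv7⟩ := hH.odd
    obtain ⟨z, hz⟩ := hsq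
    have h1 : v.valuation K ((1 + 4 * (j t : K)) * (2 * a - 1) * d) = exp (-1) := by
      rw [map_mul, map_mul, hvD, hv7, hd1 v hvD, one_mul, mul_one]
    rw [hz, map_mul] at h1
    have hz0 : v.valuation K z ≠ 0 := by
      intro h0
      rw [h0, mul_zero] at h1
      exact exp_ne_zero h1.symm
    obtain ⟨k, hk⟩ : ∃ k : ℤ, v.valuation K z = exp k := ⟨log (v.valuation K z), (exp_log hz0).symm⟩
    rw [hk, ← exp_add] at h1
    have := exp_injective h1
    omega

end Pool.Agent.T2h16.KE
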