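import Pool.Agent.T2h16.KE.C75a

/-!
# Local points at the places above two (helper75, for CV2)
-/

set_option autoImplicit false
set_option linter.all false

open IsDedekindDomain WithZero
open scoped Classical

namespace Pool.Agent.T2h16.KE.C75

open Pool.Agent.Y698 (Ur Sq)

variable {K L : Type} [Field K] [Field L] [Algebra K L] (v : Valuation K ℤᵐ⁰)

section num

variable (h2 : v 2 = exp (-1 : ℤ))
include h2

theorem v_two_pow (n : ℕ) : v ((2 : K) ^ n) = exp (-(n : ℤ)) := by
  rw [map_pow, h2, ← exp_nsmul]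
  simp

theorem two_ne : (2 : K) ≠ 0 := by
  intro h
  rw [h, map_zero] at h2
  exact exp_ne_zero h2.symm

theorem four_eq : v 4 = exp (-2 : ℤ) := by
  have : (4 : K) = 2 ^ 2 := by norm_num
  rw [this, v_two_pow v h2]
  rfl

theorem v_int (m : ℤ) : v (m : K) ≤ 1 := by
  have h1 : ∀ n : ℕ, v (n : K) ≤ 1 := by
    intro n
    induction n with
    | zero => rw [Nat.cast_zero, map_zero]; exact zero_le
    | succ n ih =>
      rw [Nat.cast_succ]
      exact (v.map_add _ _).trans (max_le ih (by rw [map_one]))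
  rcases Int.eq_nat_or_neg m with ⟨n, rfl | rfl⟩
  · rw [Int.cast_natCast]; exact h1 n
  · rw [Int.cast_neg, Valuation.map_neg, Int.cast_natCast]; exact h1 n

theorem v_dvd (m : ℤ) (n : ℕ) (h : (2 : ℤ) ^ n ∣ m) : v (m : K) ≤ exp (-(n : ℤ)) := by
  obtain ⟨k, rfl⟩ := h
  rw [Int.cast_mul, map_mul, Int.cast_pow, Int.cast_ofNat, v_two_pow v h2]
  exact mul_le_of_le_one_right' (v_int v h2 k)

theorem v_odd (m : ℤ) (h : m % 2 = 1) : v (m : K) = 1 := by
  have e : (m : K) = 2 * ((m / 2 : ℤ) : K) + 1 := by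
    have : m = 2 * (m / 2) + 1 := by omega
    calc (m : K) = ((2 * (m / 2) + 1 : ℤ) : K) := by rw [← this]
      _ = _ := by push_cast; ring
  have h3 : v (2 * ((m / 2 : ℤ) : K)) < 1 := by
    rw [map_mul, h2]
    refine lt_of_le_of_lt (mul_le_of_le_one_right' (v_int v h2 _)) ?_
    rw [← exp_zero, exp_lt_exp]
    norm_num
  rw [e, Valuation.map_add_eq_of_lt_right v (by rwa [map_one]), map_one]

end num

/-- equal up to squares -/
theorem sm (hK : ∀ x : K, v (x - 1) < v 4 → IsSquare (algebraMap K L x)) (x y : K)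
    (hy : y ≠ 0) (h : v (x - y) < v 4 * v y) :
    ∃ w : L, w ≠ 0 ∧ algebraMap K L x = algebraMap K L y * w ^ 2 := by
  have hy0 : 0 < v y := zero_lt_iff.2 ((Valuation.ne_zero_iff _).2 hy)
  have h1 : v (x / y - 1) < v 4 := by
    have : x / y - 1 = (x - y) / y := by field_simp
    rw [this, map_div₀, div_lt_iff₀ hy0]
    exact h
  have h41 : v 4 ≤ 1 := by
    have e : (4 : K) = 1 + 1 + (1 + 1) := by norm_num
    rw [e]
    have h7 : v (1 + 1 : K) ≤ 1 := (v.map_add _ _).trans (by rw [map_one, max_self])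
    exact (v.map_add _ _).trans (max_le h7 h7)
  have hx : x ≠ 0 := by
    rintro rfl
    rw [zero_sub, Valuation.map_neg] at h
    exact absurd h (not_lt.2 (mul_le_of_le_one_left' h41))
  obtain ⟨w, hw⟩ := hK _ h1
  refine ⟨w, ?_, ?_⟩
  · rintro rfl
    rw [mul_zero] at hw
    exact div_ne_zero hx hy ((map_eq_zero_iff _ (algebraMap K L).injective).1 hw)
  · rw [pow_two, ← hw, ← map_mul]
    congr 1
    field_simp

/-- the point with `X = D n / h²` -/
theorem tab (hK : ∀ x : K, v (x - 1) < v 4 → IsSquare (algebraMap K L x))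
    (h2 : v 2 = exp (-1 : ℤ)) {a D d : K} (ha : a ^ 2 = a - 2)
    (D0 d0 n h e1 e2 m1 m2 m M : ℤ) (i1 i2 b c : ℕ)
    (hD : v (D - D0) ≤ exp (-3 : ℤ)) (hd : v (d - d0) ≤ exp (-3 : ℤ))
    (ha1 : v (2 * a - 1 - e1) ≤ exp (-13 : ℤ)) (ha2 : v (a + 10 - e2) ≤ exp (-13 : ℤ))
    (hD0 : D0 % 2 = 1) (hd0 : d0 % 2 = 1) (hm1 : m1 % 2 = 1) (hm2 : m2 % 2 = 1)
    (hi1 : i1 ≤ 6) (hi2 : i2 ≤ 6) (hh : h ≠ 0)
    (E1 : n - h ^ 2 * e1 = 2 ^ i1 * m1) (E2 : n - h ^ 2 * e2 = 2 ^ i2 * m2)
    (E3 : D0 * n = (2 ^ b) ^ 2 * m) (E3' : m % 8 = d0 % 8)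
    (E4 : D0 ^ 3 * n * (2 ^ i1 * m1) * (2 ^ i2 * m2) = (2 ^ c) ^ 2 * M) (E4' : M % 8 = 1)
    (hn : n ≠ 0) : LP L a D d := by
  have h4 := four_eq v h2
  have h20 := two_ne v h2
  haveI : CharZero L := by
    haveI : CharZero K := by
      refine charZero_of_inj_zero fun k hk => ?_
      by_contra hk0
      have hz : ∃ e o : ℕ, k = 2 ^ e * o ∧ o % 2 = 1 := by
        obtain ⟨e, o, ho, he⟩ := Nat.exists_eq_two_pow_mul_odd hk0
        exact ⟨e, o, he, Nat.odd_iff.1 ho⟩
      obtain ⟨e, o, rfl, ho⟩ := hz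
      push_cast at hk
      have h5 : v ((o : ℤ) : K) = 1 := v_odd v h2 o (by omega)
      rcases mul_eq_zero.1 hk with h6 | h6
      · exact pow_ne_zero e h20 h6
      · rw [Int.cast_natCast, h6, map_zero] at h5
        exact zero_ne_one h5
    exact charZero_of_injective_algebraMap (algebraMap K L).injective
  have key : ∀ x : K, ∀ y : ℤ, ∀ (i : ℕ) (mm : ℤ), y = 2 ^ i * mm → mm % 2 = 1 →
      v (x - y) ≤ exp (-(i : ℤ) - 3) →
      ∃ w : L, w ≠ 0 ∧ algebraMap K L x = (y : L) * w ^ 2 := by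
    intro x y i mm hy hmm hx
    have hvy : v (y : K) = exp (-(i : ℤ)) := by
      rw [hy, Int.cast_mul, map_mul, v_odd v h2 mm hmm, mul_one, Int.cast_pow, Int.cast_ofNat,
        v_two_pow v h2]
    have hy0 : (y : K) ≠ 0 := by
      intro h0
      rw [h0, map_zero] at hvy
      exact exp_ne_zero hvy.symm
    obtain ⟨w, hw, h5⟩ := sm v hK x (y : K) hy0 (by
      rw [hvy, h4, ← exp_add]
      refine lt_of_le_of_lt hx ?_
      rw [exp_lt_exp]
      omega)
    refine ⟨w, hw, ?_⟩
    rw [h5, map_intCast]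
  obtain ⟨w1, hw1, f1⟩ := key D D0 0 D0 (by ring) hD0 (by simpa using hD)
  obtain ⟨w2, hw2, f2⟩ := key d d0 0 d0 (by ring) hd0 (by simpa using hd)
  obtain ⟨w3, hw3, f3⟩ := key ((n : K) - (h : K) ^ 2 * (2 * a - 1)) (2 ^ i1 * m1) i1 m1 rfl hm1 (by
    rw [← E1]
    have e : (n : K) - (h : K) ^ 2 * (2 * a - 1) - ((n - h ^ 2 * e1 : ℤ) : K) =
      -(((h ^ 2 : ℤ) : K) * (2 * a - 1 - e1)) := by push_cast; ring
    rw [e, Valuation.map_neg, map_mul]
    refine (mul_le_of_le_one_left' (v_int v h2 _)).trans (ha1.trans ?_)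
    rw [exp_le_exp]
    omega)
  obtain ⟨w4, hw4, f4⟩ := key ((n : K) - (h : K) ^ 2 * (a + 10)) (2 ^ i2 * m2) i2 m2 rfl hm2 (by
    rw [← E2]
    have e : (n : K) - (h : K) ^ 2 * (a + 10) - ((n - h ^ 2 * e2 : ℤ) : K) =
      -(((h ^ 2 : ℤ) : K) * (a + 10 - e2)) := by push_cast; ring
    rw [e, Valuation.map_neg, map_mul]
    refine (mul_le_of_le_one_left' (v_int v h2 _)).trans (ha2.trans ?_)
    rw [exp_le_exp]
    omega)
  obtain ⟨w5, hw5, f5⟩ := key (M : K) 1 0 1 (by ring) (by norm_num) (by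
    rw [← Int.cast_sub]
    refine (v_dvd v h2 (M - 1) 3 (by norm_num; omega)).trans ?_
    simp)
  obtain ⟨w6, hw6, f6⟩ := key (m : K) d0 0 d0 (by ring) hd0 (by
    rw [← Int.cast_sub]
    refine (v_dvd v h2 (m - d0) 3 (by norm_num; omega)).trans ?_
    simp)
  rw [map_intCast] at f5 f6
  rw [Int.cast_one, one_mul] at f5
  rw [map_sub, map_mul, map_pow, map_intCast, map_intCast] at f3 f4
  have hhL : (h : L) ≠ 0 := Int.cast_ne_zero.2 hh
  have hnL : (n : L) ≠ 0 := Int.cast_ne_zero.2 hn
  have hDL : (D0 : L) ≠ 0 := Int.cast_ne_zero.2 (by omega)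
  have h14 : (2 * a - 1) * a ^ 4 = a + 10 := by
    have e1 : a ^ 4 = 2 - 3 * a := by linear_combination (a ^ 2 + a - 1) * ha
    rw [e1]
    linear_combination (-6 : K) * ha
  have g3 : (D0 : L) * n = (2 ^ b) ^ 2 * m := by exact_mod_cast congrArg (Int.cast : ℤ → L) E3
  have g4 : (D0 : L) ^ 3 * n * (2 ^ i1 * m1) * (2 ^ i2 * m2) = (2 ^ c) ^ 2 * M := by
    exact_mod_cast congrArg (Int.cast : ℤ → L) E4
  rw [Int.cast_mul, Int.cast_pow, Int.cast_ofNat] at f3 f4
  refine ⟨algebraMap K L D * n / h ^ 2, 2 ^ c * w5 * w1 ^ 3 * w3 * w4 / h ^ 3,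
    2 ^ b * w6 * w1 / (h * w2), ?_, ?_, ?_⟩
  · rw [f1]
    exact div_ne_zero (mul_ne_zero (mul_ne_zero hDL (pow_ne_zero 2 hw1)) hnL) (pow_ne_zero 2 hhL)
  · have e1 : algebraMap K L (D * (2 * a - 1) * a ^ 4) = algebraMap K L D *
        algebraMap K L (a + 10) := by rw [mul_assoc, h14, map_mul]
    rw [e1, map_mul]
    have e2 : algebraMap K L D * n / h ^ 2 *
        (algebraMap K L D * n / h ^ 2 - algebraMap K L D * algebraMap K L (2 * a - 1)) *
        (algebraMap K L D * n / h ^ 2 - algebraMap K L D * algebraMap K L (a + 10)) =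
        algebraMap K L D ^ 3 * n * ((n : L) - (h : L) ^ 2 * algebraMap K L (2 * a - 1)) *
        ((n : L) - (h : L) ^ 2 * algebraMap K L (a + 10)) / h ^ 6 := by
      field_simp
    rw [e2, f3, f4, f1]
    have e3 : ((D0 : L) * w1 ^ 2) ^ 3 * n * (2 ^ i1 * m1 * w3 ^ 2) * (2 ^ i2 * m2 * w4 ^ 2) / h ^ 6 =
        ((D0 : L) ^ 3 * n * (2 ^ i1 * m1) * (2 ^ i2 * m2)) * (w1 ^ 3 * w3 * w4 / h ^ 3) ^ 2 := by
      field_simp
    rw [e3, g4, f5]
    ring
  · rw [f2, f1]
    have e1 : (D0 : L) * w1 ^ 2 * n / h ^ 2 = ((D0 : L) * n) * (w1 / h) ^ 2 := by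
      field_simp
    rw [e1, g3, f6]
    field_simp

/-- the approximations of the unit root -/
theorem root91 (h2 : v 2 = exp (-1 : ℤ)) {b : K} (hb : b ^ 2 = b - 2) (h1 : v b = 1) :
    v (b - 91) ≤ exp (-13 : ℤ) := by
  have e : (b - 91) * (b + 90) = -(2 ^ 13) := by linear_combination hb
  have h90 : v (90 : K) < 1 := by
    have := v_dvd v h2 90 1 (by norm_num)
    rw [Int.cast_ofNat] at this
    refine lt_of_le_of_lt this ?_
    rw [← exp_zero, exp_lt_exp]
    norm_num
  have h3 : v (b + 90) = 1 := by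
    rw [Valuation.map_add_eq_of_lt_left v (by rwa [h1]), h1]
  have h4 := congrArg v e
  rw [map_mul, h3, mul_one, Valuation.map_neg, v_two_pow v h2] at h4
  rw [h4]
  norm_num

/-- digits -/
theorem digit (h2 : v 2 = exp (-1 : ℤ)) (hres : ∀ x : K, v x ≤ 1 → v x < 1 ∨ v (x - 1) < 1)
    (x : K) (hx : v x ≤ 1) : ∃ (e : ℤ) (y : K), (e = 0 ∨ e = 1) ∧ v y ≤ 1 ∧ x = e + 2 * y := by
  have h20 := two_ne v h2
  have hlt : ∀ z : K, v z < 1 → v (z / 2) ≤ 1 := by
    intro z hz
    rw [map_div₀, h2]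
    rcases eq_or_ne z 0 with rfl | hz0
    · rw [map_zero, zero_div]
      exact zero_le
    · obtain ⟨k, hk⟩ := Pool.Agent.Y698.vexp (w := v) hz0
      rw [hk] at hz ⊢
      rw [← exp_zero, exp_lt_exp] at hz
      rw [← exp_sub, ← exp_zero, exp_le_exp]
      omega
  rcases hres x hx with h | h
  · refine ⟨0, x / 2, Or.inl rfl, hlt x h, ?_⟩
    push_cast
    field_simp
    ring
  · refine ⟨1, (x - 1) / 2, Or.inr rfl, hlt _ h, ?_⟩
    push_cast
    field_simp
    ring

theorem cv2 (hK : ∀ x : K, v (x - 1) < v 4 → IsSquare (algebraMap K L x))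
    (h2 : v 2 = exp (-1 : ℤ)) (hres : ∀ x : K, v x ≤ 1 → v x < 1 ∨ v (x - 1) < 1)
    {a t d : K} (ha : a ^ 2 = a - 2) (ht : v t ≤ 1) (hd : v d = 1)
    (hu : v (1 - a) < 1 → Ur v d) : LP L a (1 + 4 * t) d := by
  have h4 := four_eq v h2
  have h21 : v (2 : K) < 1 := by rw [h2, ← exp_zero, exp_lt_exp]; norm_num
  -- `D` modulo eight
  obtain ⟨e0, t', he0, ht', rfl⟩ := digit v h2 hres t ht
  have hD : v (1 + 4 * ((e0 : K) + 2 * t') - ((1 + 4 * e0 : ℤ) : K)) ≤ exp (-3 : ℤ) := by
    have e : (1 + 4 * ((e0 : K) + 2 * t') - ((1 + 4 * e0 : ℤ) : K)) = 2 ^ 3 * t' := by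
      push_cast; ring
    rw [e, map_mul, v_two_pow v h2]
    exact mul_le_of_le_one_right' ht'
  -- `d` modulo eight
  have hd1 : v (d - 1) < 1 := by
    rcases hres d hd.le with h | h
    · exact absurd hd h.ne
    · exact h
  obtain ⟨c0, d1, hc0, hd1', hdd⟩ := digit v h2 hres d hd.le
  have hc0' : c0 = 1 := by
    rcases hc0 with rfl | rfl
    · exfalso
      rw [hdd] at hd
      push_cast at hd
      rw [zero_add, map_mul] at hd
      have : v 2 * v d1 < 1 := lt_of_le_of_lt (mul_le_of_le_one_right' hd1') h21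
      exact this.ne hd
    · rfl
  subst hc0'
  obtain ⟨c1, d2, hc1, hd2, rfl⟩ := digit v h2 hres d1 hd1'
  obtain ⟨c2, d3, hc2, hd3, rfl⟩ := digit v h2 hres d2 hd2
  have hd' : v (d - ((1 + 2 * c1 + 4 * c2 : ℤ) : K)) ≤ exp (-3 : ℤ) := by
    have e : (d - ((1 + 2 * c1 + 4 * c2 : ℤ) : K)) = 2 ^ 3 * d3 := by
      rw [hdd]; push_cast; ring
    rw [e, map_mul, v_two_pow v h2]
    exact mul_le_of_le_one_right' hd3
  -- `a` and `1 - a`
  have hprod : v a * v (1 - a) = exp (-1 : ℤ) := by
    rw [← map_mul, ← h2]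
    congr 1
    linear_combination -ha
  have hle : v a ≤ 1 := by
    by_contra h
    rw [not_le] at h
    have h5 : v (1 - a) = v a := by
      rw [Valuation.map_sub_eq_of_lt_right v (by rwa [map_one])]
    rw [h5] at hprod
    have h6 : 1 < v a * v a := one_lt_mul'' h h
    rw [hprod, ← exp_zero, exp_lt_exp] at h6
    omega
  rcases lt_or_eq_of_le hle with hlt | heq
  · -- `a` is not a unit
    have hb : v (1 - a) = 1 := by
      rw [Valuation.map_sub_eq_of_lt_left v (by rwa [map_one]), map_one]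
    have h91 := root91 v h2 (b := 1 - a) (by linear_combination ha) hb
    have ha1 : v (2 * a - 1 - ((-181 : ℤ) : K)) ≤ exp (-13 : ℤ) := by
      have e : 2 * a - 1 - ((-181 : ℤ) : K) = -(2 * (1 - a - 91)) := by push_cast; ring
      rw [e, Valuation.map_neg, map_mul]
      exact (mul_le_of_le_one_left' h21.le).trans h91
    have ha2 : v (a + 10 - ((-80 : ℤ) : K)) ≤ exp (-13 : ℤ) := by
      have e : a + 10 - ((-80 : ℤ) : K) = -(1 - a - 91) := by push_cast; ring
      rw [e, Valuation.map_neg]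
      exact h91
    rcases he0 with rfl | rfl <;> rcases hc1 with rfl | rfl <;> rcases hc2 with rfl | rfl
    · exact tab v hK h2 ha (1) 1 (1) 4 (-181) (-80) (2897) (1281) (1) (3711057) 0 0 0 0 (by simpa using hD)
        (by simpa using hd') ha1 ha2 (by norm_num) (by norm_num) (by norm_num) (by norm_num)
        (by norm_num) (by norm_num) (by norm_num) (by norm_num) (by norm_num) (by norm_num)
        (by norm_num) (by norm_num) (by norm_num) (by norm_num)
    · exact tab v hK h2 ha (1) 5 (-3) 2 (-181) (-80) (721) (317) (-3) (-685671) 0 0 0 0 (by simpa using hD)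
        (by simpa using hd') ha1 ha2 (by norm_num) (by norm_num) (by norm_num) (by norm_num)
        (by norm_num) (by norm_num) (by norm_num) (by norm_num) (by norm_num) (by norm_num)
        (by norm_num) (by norm_num) (by norm_num) (by norm_num)
    · exact tab v hK h2 ha (1) 3 (-37) 1 (-181) (-80) (9) (43) (-37) (-14319) 4 0 0 2 (by simpa using hD)
        (by simpa using hd') ha1 ha2 (by norm_num) (by norm_num) (by norm_num) (by norm_num)
        (by norm_num) (by norm_num) (by norm_num) (by norm_num) (by norm_num) (by norm_num)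
        (by norm_num) (by norm_num) (by norm_num) (by norm_num)
    · exact tab v hK h2 ha (1) 7 (15) 1 (-181) (-80) (49) (95) (15) (69825) 2 0 0 1 (by simpa using hD)
        (by simpa using hd') ha1 ha2 (by norm_num) (by norm_num) (by norm_num) (by norm_num)
        (by norm_num) (by norm_num) (by norm_num) (by norm_num) (by norm_num) (by norm_num)
        (by norm_num) (by norm_num) (by norm_num) (by norm_num)
    · exact tab v hK h2 ha (5) 1 (-12) 1 (-181) (-80) (169) (17) (-15) (-1077375) 0 2 1 2 (by simpa using hD)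
        (by simpa using hd') ha1 ha2 (by norm_num) (by norm_num) (by norm_num) (by norm_num)
        (by norm_num) (by norm_num) (by norm_num) (by norm_num) (by norm_num) (by norm_num)
        (by norm_num) (by norm_num) (by norm_num) (by norm_num)
    · exact tab v hK h2 ha (5) 5 (1) 2 (-181) (-80) (725) (321) (5) (29090625) 0 0 0 0 (by simpa using hD)
        (by simpa using hd') ha1 ha2 (by norm_num) (by norm_num) (by norm_num) (by norm_num)
        (by norm_num) (by norm_num) (by norm_num) (by norm_num) (by norm_num) (by norm_num)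
        (by norm_num) (by norm_num) (by norm_num) (by norm_num)
    · exact tab v hK h2 ha (5) 3 (-1) 1 (-181) (-80) (45) (79) (-5) (-444375) 2 0 0 1 (by simpa using hD)
        (by simpa using hd') ha1 ha2 (by norm_num) (by norm_num) (by norm_num) (by norm_num)
        (by norm_num) (by norm_num) (by norm_num) (by norm_num) (by norm_num) (by norm_num)
        (by norm_num) (by norm_num) (by norm_num) (by norm_num)
    · exact tab v hK h2 ha (5) 7 (27) 1 (-181) (-80) (13) (107) (135) (4694625) 4 0 0 2 (by simpa using hD)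
        (by simpa using hd') ha1 ha2 (by norm_num) (by norm_num) (by norm_num) (by norm_num)
        (by norm_num) (by norm_num) (by norm_num) (by norm_num) (by norm_num) (by norm_num)
        (by norm_num) (by norm_num) (by norm_num) (by norm_num)
  · -- `a` is a unit
    have hb : v (1 - a) < 1 := by
      rw [heq, one_mul] at hprod
      rw [hprod, ← exp_zero, exp_lt_exp]
      norm_num
    have h91 := root91 v h2 (b := a) ha heq
    have ha1 : v (2 * a - 1 - ((181 : ℤ) : K)) ≤ exp (-13 : ℤ) := by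
      have e : 2 * a - 1 - ((181 : ℤ) : K) = 2 * (a - 91) := by push_cast; ring
      rw [e, map_mul]
      exact (mul_le_of_le_one_left' h21.le).trans h91
    have ha2 : v (a + 10 - ((101 : ℤ) : K)) ≤ exp (-13 : ℤ) := by
      have e : a + 10 - ((101 : ℤ) : K) = a - 91 := by push_cast; ring
      rw [e]
      exact h91
    -- `d` is one modulo four
    have hc10 : c1 = 0 := by
      obtain ⟨z, hz0, hz⟩ := hu hb
      have hz4 : v (d - z ^ 2) < v z ^ 2 := by
        refine lt_of_le_of_lt hz ?_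
        rw [h4, ← map_pow]
        have hp : 0 < v (z ^ 2) := zero_lt_iff.2 ((Valuation.ne_zero_iff _).2 (pow_ne_zero 2 hz0))
        refine mul_lt_of_lt_one_left hp ?_
        rw [← exp_zero, exp_lt_exp]
        norm_num
      have hz1 : v z ^ 2 = 1 := by rw [← Sq.val hz4, hd]
      have hz2 : v z = 1 := (pow_eq_one_iff_of_nonneg (zero_le) two_ne_zero).1 hz1
      rw [hz2, one_pow, mul_one] at hz
      have hzz : ∃ y : K, v y ≤ 1 ∧ z = 1 + 2 * y := by
        obtain ⟨e, y, he, hy, hzy⟩ := digit v h2 hres z hz2.le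
        rcases he with rfl | rfl
        · exfalso
          rw [hzy] at hz2
          push_cast at hz2
          rw [zero_add, map_mul] at hz2
          exact (lt_of_le_of_lt (mul_le_of_le_one_right' hy) h21).ne hz2
        · exact ⟨y, hy, by rw [hzy]; push_cast; ring⟩
      obtain ⟨y, hy, rfl⟩ := hzz
      rcases hc1 with rfl | rfl
      · rfl
      · exfalso
        have e : (2 : K) = d - (1 + 2 * y) ^ 2 + 4 * (y + y ^ 2 - ((c2 : K) + 2 * d3)) := by
          rw [hdd]; push_cast; ring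
        have h5 : v (2 : K) ≤ exp (-2 : ℤ) := by
          rw [e]
          refine (v.map_add _ _).trans (max_le (by rwa [h4] at hz) ?_)
          rw [map_mul, h4]
          refine mul_le_of_le_one_right' ((v.map_sub _ _).trans (max_le ?_ hd2))
          refine (v.map_add _ _).trans (max_le hy ?_)
          rw [map_pow]
          exact pow_le_one' hy 2
        rw [h2, exp_le_exp] at h5
        omega
    subst hc10
    rcases he0 with rfl | rfl <;> rcases hc2 with rfl | rfl
    · exact tab v hK h2 ha (1) 1 (1) 2 (181) (101) (-723) (-403) (1) (291369) 0 0 0 0 (by simpa using hD)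
        (by simpa using hd') ha1 ha2 (by norm_num) (by norm_num) (by norm_num) (by norm_num)
        (by norm_num) (by norm_num) (by norm_num) (by norm_num) (by norm_num) (by norm_num)
        (by norm_num) (by norm_num) (by norm_num) (by norm_num)
    · exact tab v hK h2 ha (1) 5 (-11) 1 (181) (101) (-3) (-7) (-11) (-231) 6 4 0 5 (by simpa using hD)
        (by simpa using hd') ha1 ha2 (by norm_num) (by norm_num) (by norm_num) (by norm_num)
        (by norm_num) (by norm_num) (by norm_num) (by norm_num) (by norm_num) (by norm_num)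
        (by norm_num) (by norm_num) (by norm_num) (by norm_num)
    · exact tab v hK h2 ha (5) 1 (37) 1 (181) (101) (-9) (-1) (185) (41625) 4 6 0 5 (by simpa using hD)
        (by simpa using hd') ha1 ha2 (by norm_num) (by norm_num) (by norm_num) (by norm_num)
        (by norm_num) (by norm_num) (by norm_num) (by norm_num) (by norm_num) (by norm_num)
        (by norm_num) (by norm_num) (by norm_num) (by norm_num)
    · exact tab v hK h2 ha (5) 5 (1) 1 (181) (101) (-45) (-25) (5) (140625) 2 2 0 2 (by simpa using hD)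
        (by simpa using hd') ha1 ha2 (by norm_num) (by norm_num) (by norm_num) (by norm_num)
        (by norm_num) (by norm_num) (by norm_num) (by norm_num) (by norm_num) (by norm_num)
        (by norm_num) (by norm_num) (by norm_num) (by norm_num)

end Pool.Agent.T2h16.KE.C75
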