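import Pool.Agent.T2h16.KE.Stm
import Pool.Agent.T2h16.KE.C75b

/-!
# Task CV2: the places above two
-/

set_option autoImplicit false
set_option linter.all false

open scoped Classical

namespace Pool.Agent.T2h16.KE

open NumberField IsDedekindDomain WithZero
open Pool.Agent.Y698 (Sq Ur)

theorem t_CV2 : S_CV2 := by
  intro K _ _ a t hy d v h2 hres hd hu
  have h4 : (4 : K) ≠ 0 := by norm_num
  exact C75.cv2 (v.valuation K) (C75.sqK v h4) (hy.un v h2) hres hy.ha
    (v.valuation_le_one t) hd hu

end Pool.Agent.T2h16.KE
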