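import Pool.Agent.T2h16.KE.Stm

/-!
# Task CVC: the infinite places
-/

set_option autoImplicit false
set_option linter.all false

open scoped Classical

namespace Pool.Agent.T2h16.KE

open NumberField

namespace C75

theorem complex_place {K : Type} [Field K] [NumberField K] {a : K} (ha : a ^ 2 = a - 2)
    (v : InfinitePlace K) : v.IsComplex := by
  rw [← InfinitePlace.not_isReal_iff_isComplex]
  intro hv
  have h1 := congrArg (InfinitePlace.embedding_of_isReal hv) ha
  rw [map_pow, map_sub, map_ofNat] at h1
  nlinarith [sq_nonneg (2 * InfinitePlace.embedding_of_isReal hv a - 1)]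

theorem sq_completion {K : Type} [Field K] [NumberField K] {v : InfinitePlace K}
    (hv : v.IsComplex) (x : v.Completion) : ∃ y, y ^ 2 = x := by
  let e := InfinitePlace.Completion.ringEquivComplexOfIsComplex hv
  obtain ⟨y, hy⟩ := IsAlgClosed.exists_pow_nat_eq (e x) (n := 2) (by norm_num)
  refine ⟨e.symm y, ?_⟩
  rw [← map_pow, hy, RingEquiv.symm_apply_apply]

end C75

theorem t_CVC : S_CVC := by
  intro K _ _ a t hy d hd v
  have hv := C75.complex_place hy.ha v
  obtain ⟨y, hy'⟩ := C75.sq_completion hv (algebraMap K v.Completion d *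
    (algebraMap K v.Completion d - algebraMap K v.Completion ((1 + 4 * (t : K)) * (2 * a - 1))) *
    (algebraMap K v.Completion d - algebraMap K v.Completion ((1 + 4 * (t : K)) * (2 * a - 1) *
      a ^ 4)))
  exact ⟨algebraMap K v.Completion d, y, 1, (_root_.map_ne_zero _).2 hd, hy', by
    rw [one_pow, mul_one]⟩

end Pool.Agent.T2h16.KE
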