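import Pool.Agent.T2h16.KE.C75b
import Pool.Agent.T2h69.TW.FF

/-!
# Local points at the good odd places (helper75, for CVG)
-/

set_option autoImplicit false
set_option linter.all false

open IsDedekindDomain WithZero
open scoped Classical

namespace Pool.Agent.T2h16.KE.C75

open Pool.Agent.Y698 (Ur Sq)

variable {K L : Type} [Field K] [Field L] [Algebra K L] (v : Valuation K ℤᵐ⁰)

theorem cvg_abs {k : Type} [Field k] [Finite k] (φ : v.integer →+* k)
    (hs : Function.Surjective φ) (h0 : ∀ x, φ x = 0 ↔ v (x : K) < 1)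
    (hK : ∀ x : K, v (x - 1) < v 4 → IsSquare (algebraMap K L x)) (h2 : v 2 = 1)
    {a D d : K} (ha : a ^ 2 = a - 2) (hu : v (D * (2 * a - 1)) = 1) (hd : v d = 1) :
    Sq v d ∨ Sq v (D * (2 * a - 1) * d) ∨ LP L a D d := by
  haveI := Fintype.ofFinite k
  have h4 : v 4 = 1 := by
    have : (4 : K) = 2 * 2 := by norm_num
    rw [this, map_mul, h2, one_mul]
  -- `a` and `1 - a` are units
  have hprod : v a * v (1 - a) = 1 := by
    rw [← map_mul, ← h2]
    congr 1
    linear_combination -ha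
  have hle : v a ≤ 1 := by
    by_contra h
    rw [not_le] at h
    have h5 : v (1 - a) = v a := by
      rw [Valuation.map_sub_eq_of_lt_right v (by rwa [map_one])]
    rw [h5] at hprod
    exact absurd hprod (one_lt_mul'' h h).ne'
  have hle1 : v (1 - a) ≤ 1 := (v.map_sub _ _).trans (max_le (by rw [map_one]) hle)
  have hva : v a = 1 := by
    refine le_antisymm hle (not_lt.1 fun h => ?_)
    exact absurd hprod (lt_of_le_of_lt (mul_le_of_le_one_right' hle1) h).ne
  have hvb : v (1 - a) = 1 := by rwa [hva, one_mul] at hprod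
  set u := D * (2 * a - 1) with hud
  have hne : ∀ x : v.integer, v (x : K) = 1 → φ x ≠ 0 := fun x hx h =>
    absurd hx ((h0 x).1 h).ne
  have hva1 : ∀ x : v.integer, φ x ≠ 0 → v (x : K) = 1 := fun x hx =>
    le_antisymm x.2 (not_lt.1 fun h => hx ((h0 x).2 h))
  -- squares
  have hsq : ∀ x : v.integer, v (x : K) = 1 → IsSquare (φ x) → Sq v (x : K) := by
    rintro x hx ⟨z, hz⟩
    obtain ⟨y, rfl⟩ := hs z
    have hy : φ y ≠ 0 := by
      intro h
      rw [h, mul_zero] at hz
      exact hne x hx hz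
    have hvy := hva1 y hy
    refine ⟨(y : K), ?_, ?_⟩
    · intro h
      rw [h, map_zero] at hvy
      exact zero_ne_one hvy
    · rw [hvy, one_pow]
      have h5 : φ (x - y ^ 2) = 0 := by
        rw [map_sub, map_pow, hz]
        ring
      exact (h0 _).1 h5
  obtain ⟨d', hd'⟩ : ∃ x : v.integer, (x : K) = d := ⟨⟨d, hd.le⟩, rfl⟩
  obtain ⟨u', hu'⟩ : ∃ x : v.integer, (x : K) = u := ⟨⟨u, hu.le⟩, rfl⟩
  obtain ⟨a', ha'⟩ : ∃ x : v.integer, (x : K) = a := ⟨⟨a, hle⟩, rfl⟩
  have hδ : φ d' ≠ 0 := hne _ (by rw [hd']; exact hd)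
  have hμ : φ u' ≠ 0 := hne _ (by rw [hu']; exact hu)
  have hα : φ a' ≠ 0 := hne _ (by rw [ha']; exact hva)
  have hα1 : 1 - φ a' ≠ 0 := by
    rw [← map_one φ, ← map_sub]
    exact hne _ (by
      show v ((1 : K) - a') = 1
      rw [ha']; exact hvb)
  have haa : φ a' ^ 2 = φ a' - 2 := by
    have h5 : a' ^ 2 = a' - 2 := by
      apply Subtype.ext
      show (a' : K) ^ 2 = (a' : K) - 2
      rw [ha']
      exact ha
    have h6 := congrArg φ h5
    rwa [map_pow, map_sub, map_ofNat] at h6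
  have hk2 : (2 : k) ≠ 0 := by
    have h5 := hne 2 h2
    rwa [map_ofNat] at h5
  have hF : ringChar k ≠ 2 := by
    intro h
    apply hk2
    have := CharP.cast_eq_zero k (ringChar k)
    rw [h] at this
    exact_mod_cast this
  have h4k : (1 - φ a') ^ 4 = 1 - φ a' ^ 4 := by
    linear_combination (2 * φ a' ^ 2 - 2 * φ a') * haa
  by_cases hχ : IsSquare (φ d')
  · left
    rw [← hd']
    exact hsq d' (by rw [hd']; exact hd) hχ
  right
  have hχd : quadraticChar k (φ d') = -1 := by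
    rcases quadraticChar_dichotomy hδ with h | h
    · exact absurd ((quadraticChar_one_iff_isSquare hδ).1 h) hχ
    · exact h
  have hα4 : quadraticChar k (φ a' ^ 4) = 1 := by
    rw [show φ a' ^ 4 = (φ a' ^ 2) ^ 2 by ring]
    exact quadraticChar_sq_one' (pow_ne_zero 2 hα)
  -- when `u d` is a square
  have hcase : quadraticChar k (φ u') = -1 → Sq v (u * d) := by
    intro h
    have h5 : quadraticChar k (φ (u' * d')) = 1 := by
      rw [map_mul, map_mul, h, hχd]
      norm_num
    have h6 : φ (u' * d') ≠ 0 := by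
      rw [map_mul]
      exact mul_ne_zero hμ hδ
    have h7 := hsq (u' * d') (hva1 _ h6) ((quadraticChar_one_iff_isSquare h6).1 h5)
    rw [← hu', ← hd']
    exact h7
  obtain ⟨X, c1, c2, c3⟩ := Pool.Agent.T2h69.TW.exists_split hF (r1 := -φ u')
    (r2 := -(φ u' * φ a' ^ 4)) (neg_ne_zero.2 hμ)
    (neg_ne_zero.2 (mul_ne_zero hμ (pow_ne_zero 4 hα)))
    (by
      intro h
      rw [neg_inj] at h
      have h5 : φ u' * (1 - φ a') ^ 4 = 0 := by
        rw [h4k]
        linear_combination h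
      exact mul_ne_zero hμ (pow_ne_zero 4 hα1) h5)
    (s1 := 1) (s2 := -1) (Or.inl rfl) (Or.inr rfl) (by norm_num)
  rw [one_mul] at c3
  by_cases hX0 : X = 0
  · exfalso
    subst hX0
    rw [zero_add] at c1 c2
    have c1' : quadraticChar k (-φ u') = 1 := c1.resolve_left (neg_ne_zero.2 hμ)
    have c2' : quadraticChar k (-(φ u' * φ a' ^ 4)) = -1 :=
      c2.resolve_left (neg_ne_zero.2 (mul_ne_zero hμ (pow_ne_zero 4 hα)))
    rw [← neg_mul, map_mul, c1', hα4] at c2'
    norm_num at c2'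
  have hX1 : quadraticChar k X = -1 := c3.resolve_left hX0
  by_cases hXu : X + -φ u' = 0
  · left
    apply hcase
    rw [← hX1]
    congr 1
    linear_combination -hXu
  by_cases hXu2 : X + -(φ u' * φ a' ^ 4) = 0
  · left
    apply hcase
    have : X = φ u' * φ a' ^ 4 := by linear_combination hXu2
    rw [this, map_mul, hα4, mul_one] at hX1
    exact hX1
  have c1' := c1.resolve_left hXu
  have c2' := c2.resolve_left hXu2
  right
  -- the point
  have e1 : IsSquare (X / φ d') := by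
    rw [← quadraticChar_one_iff_isSquare (div_ne_zero hX0 hδ)]
    have h5 : quadraticChar k (X / φ d') * quadraticChar k (φ d') = quadraticChar k X := by
      rw [← map_mul, div_mul_cancel₀ _ hδ]
    rw [hχd, hX1] at h5
    linarith
  obtain ⟨ρ, hρ⟩ := e1
  have hρX : X = φ d' * ρ ^ 2 := by
    rw [pow_two, ← hρ]
    field_simp
  obtain ⟨r, rfl⟩ := hs ρ
  have hr0 : φ r ≠ 0 := by
    intro h
    rw [h] at hρX
    apply hX0
    rw [hρX]
    ring
  have hg : quadraticChar k (X * (X + -φ u') * (X + -(φ u' * φ a' ^ 4))) = 1 := by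
    rw [map_mul, map_mul, hX1, c1', c2']
    norm_num
  have hg0 : X * (X + -φ u') * (X + -(φ u' * φ a' ^ 4)) ≠ 0 :=
    mul_ne_zero (mul_ne_zero hX0 hXu) hXu2
  have hgx : X * (X + -φ u') * (X + -(φ u' * φ a' ^ 4)) =
      φ (d' * r ^ 2 * (d' * r ^ 2 - u') * (d' * r ^ 2 - u' * a' ^ 4)) := by
    rw [hρX]
    simp only [map_mul, map_sub, map_pow]
    ring
  rw [hgx] at hg hg0
  have h8 := hsq _ (hva1 _ hg0) ((quadraticChar_one_iff_isSquare hg0).1 hg)
  obtain ⟨z, hz0, hz⟩ := h8
  have hcoe : ((d' * r ^ 2 * (d' * r ^ 2 - u') * (d' * r ^ 2 - u' * a' ^ 4) : v.integer) : K) =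
      d * r ^ 2 * (d * r ^ 2 - u) * (d * r ^ 2 - u * a ^ 4) := by
    rw [← hd', ← hu', ← ha']
    rfl
  rw [hcoe] at hz
  obtain ⟨w, hw, hw2⟩ := sm v hK _ (z ^ 2) (pow_ne_zero 2 hz0) (by rwa [h4, one_mul, map_pow])
  have hrK : (r : K) ≠ 0 := by
    intro h
    apply hr0
    rw [h0, h, map_zero]
    exact zero_lt_one
  have hdK : d ≠ 0 := by
    intro h
    rw [h, map_zero] at hd
    exact zero_ne_one hd
  refine ⟨algebraMap K L (d * r ^ 2), algebraMap K L z * w, algebraMap K L r, ?_, ?_, ?_⟩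
  · exact (_root_.map_ne_zero _).2 (mul_ne_zero hdK (pow_ne_zero 2 hrK))
  · rw [mul_pow, ← map_pow, ← hw2, ← map_sub, ← map_sub, ← map_mul, ← map_mul]
  · rw [map_mul, map_pow]

end Pool.Agent.T2h16.KE.C75
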