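import Pool.Agent.T2h16.KE.CVN
import Pool.Agent.T2h16.KE.C75c
import Pool.Agent.W189.NF.LSer

/-!
# Task CVG: the good places
-/

set_option autoImplicit false
set_option linter.all false

open scoped Classical

namespace Pool.Agent.T2h16.KE

open NumberField IsDedekindDomain WithZero
open Pool.Agent.Y698 (Sq Ur)

namespace C75

variable {K : Type} [Field K] [NumberField K] (v : HeightOneSpectrum (𝓞 K))

theorem coe_val (x : K) : Valued.v (algebraMap K (v.adicCompletion K) x) = v.valuation K x :=
  HeightOneSpectrum.adicCompletion.valued_coe K v x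

/-- the inclusion of the valuation ring -/
noncomputable def incl : (v.valuation K).integer →+* v.adicCompletionIntegers K :=
  RingHom.codRestrict ((algebraMap K (v.adicCompletion K)).comp (Subring.subtype _))
    (v.adicCompletionIntegers K) fun x => by
      rw [HeightOneSpectrum.mem_adicCompletionIntegers]
      show Valued.v (algebraMap K (v.adicCompletion K) (x : K)) ≤ 1
      rw [coe_val]
      exact x.2

theorem incl_coe (x : (v.valuation K).integer) :
    ((incl v x : v.adicCompletionIntegers K) : v.adicCompletion K) =
      algebraMap K (v.adicCompletion K) (x : K) := rfl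

/-- the reduction -/
noncomputable def redv : (v.valuation K).integer →+*
    IsLocalRing.ResidueField (v.adicCompletionIntegers K) :=
  (IsLocalRing.residue (v.adicCompletionIntegers K)).comp (incl v)

theorem redv_zero (x : (v.valuation K).integer) : redv v x = 0 ↔ v.valuation K (x : K) < 1 := by
  unfold redv
  rw [RingHom.comp_apply, IsLocalRing.residue_eq_zero_iff, Pool.Agent.W189.NF.mem_max_iff,
    incl_coe, coe_val]

theorem redv_surj : Function.Surjective (redv v) := by
  intro y
  obtain ⟨r, hr⟩ := Pool.Agent.W189.NF.redMap_surjective v y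
  refine ⟨⟨(r : K), v.valuation_le_one r⟩, ?_⟩
  rw [← hr]
  unfold redv Pool.Agent.W189.NF.redMap
  rw [RingHom.comp_apply, RingHom.comp_apply]
  congr 1

end C75

theorem t_CVG : S_CVGT := by
  intro hN K _ _ a t hy d v h2 h7 hD hd
  haveI := Pool.Agent.W189.NF.finite_res v
  have h4 : (4 : K) ≠ 0 := by norm_num
  have hu : v.valuation K ((1 + 4 * (t : K)) * (2 * a - 1)) = 1 := by
    rw [map_mul, hD, one_mul]
    have e : (2 * a - 1) ^ 2 = -7 := by linear_combination 4 * hy.ha
    have h5 := congrArg (v.valuation K) e
    rw [map_pow, Valuation.map_neg, h7] at h5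
    exact (pow_eq_one_iff_of_nonneg zero_le two_ne_zero).1 h5
  rcases C75.cvg_abs (v.valuation K) (C75.redv v) (C75.redv_surj v) (C75.redv_zero v)
    (C75.sqK v h4) h2 hy.ha hu hd with h | h | h
  · exact hN K a t hy d v h2 (Or.inl h)
  · exact hN K a t hy d v h2 (Or.inr h)
  · exact h

end Pool.Agent.T2h16.KE
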