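import Pool.Agent.T2h16.KE.Stm
import Pool.Agent.T2h78.TW.Cv3

/-!
# The class of an element of the kernel (task CVK of project KE)
-/

set_option autoImplicit false
set_option linter.unusedVariables false

open scoped Classical

namespace Pool.Agent.T2h16.KE

open Finset
open Pool.Agent.Y698 Pool.Agent.Y698.SG Pool.Agent.Y279.SG
open Pool.Agent.W192.HK (sp)
open Pool.Agent.T2h78.TW (PO te sl sgz FO Tw)
open Pool.Agent.T2h16.KD (Cl)

/-- the family of the elements of a class -/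
theorem fo_cl {S : Finset RR} (hS : ∀ π ∈ S, PO π) : FO S (fun π : RR => π) := by
  refine ⟨hS, fun i hi j hj hij hmem => ?_⟩
  rw [Ideal.mem_span_singleton] at hmem
  exact hij (KD.eq_of_dvd (hS j hj) (hS i hi) hmem).symm

/-- the equations of a class -/
structure KQ (S T : Finset RR) : Prop where
  sub : T ⊆ S
  out : ∀ π ∈ S, π ∉ T → te π * ∑ ρ ∈ T, te ρ + ∑ ρ ∈ T, sl π ρ = 0
  inn : ∀ π ∈ T, te π * ∑ ρ ∈ T, te ρ + (sl π fR + ∑ ρ ∈ S \ T, sl π ρ) = 0
  sev : ∑ π ∈ T, lg (e7 π) = ∑ π ∈ T, te π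

theorem exists_KQ {S : Finset RR} (hc : Cl S) (hg : ¬ KD.Gd S) :
    ∃ T : Finset RR, T.Nonempty ∧ KQ S T := by
  have h2' : ∀ x : ZMod 2, x + x = 0 := CharTwo.add_self_eq_zero
  unfold KD.Gd at hg
  push Not at hg
  obtain ⟨v, hv, π₀, hπ₀, hne⟩ := hg
  set T : Finset RR := S.filter fun π => v π = 1 with hTdef
  have hT : T ⊆ S := filter_subset _ _
  have hv1 : ∀ π ∈ T, v π = 1 := fun π hπ => (mem_filter.1 hπ).2
  have hv0 : ∀ π ∈ S, π ∉ T → v π = 0 := by
    intro π hπ hπT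
    rcases zm2 (v π) with h | h
    · exact h
    · exact absurd (mem_filter.2 ⟨hπ, h⟩) hπT
  have h1 : ∀ π ∈ S \ T, ∑ ρ ∈ T, sl ρ π = 0 := by
    intro π hπ
    rw [mem_sdiff] at hπ
    have h3 := hv π hπ.1
    rw [hv0 π hπ.1 hπ.2, mul_zero, zero_add] at h3
    rw [← Finset.sum_sdiff hT] at h3
    rw [Finset.sum_eq_zero (s := S \ T) (fun ρ hρ => by
      rw [mem_sdiff] at hρ
      rw [hv0 ρ hρ.1 hρ.2, add_zero, mul_zero]), zero_add] at h3
    rw [← h3]
    refine Finset.sum_congr rfl fun ρ hρ => ?_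
    rw [hv1 ρ hρ, add_zero, mul_one]
    unfold KD.cs
    rw [if_neg (show ¬ π = ρ from fun h => hπ.2 (h ▸ hρ))]
  have h2 : ∀ π ∈ T, lg (e7 π) + ∑ ρ ∈ S \ T, sl ρ π = 0 := by
    intro π hπ
    have h3 := hv π (hT hπ)
    rw [hv1 π hπ, mul_one] at h3
    rw [← Finset.sum_sdiff hT] at h3
    rw [Finset.sum_eq_zero (s := T) (fun ρ hρ => by
      rw [hv1 ρ hρ, h2', mul_zero]), add_zero] at h3
    rw [← h3]
    unfold KD.cc
    congr 1
    refine Finset.sum_congr rfl fun ρ hρ => ?_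
    rw [mem_sdiff] at hρ
    rw [hv0 ρ hρ.1 hρ.2, zero_add, mul_one]
    unfold KD.cs
    rw [if_neg (show ¬ π = ρ from fun h => hρ.2 (h ▸ hπ))]
  have he := hc.2
  have htc : ∑ i ∈ S \ T, te i = ∑ i ∈ T, te i := by
    have h8 := Finset.sum_sdiff (f := fun i => te i) hT
    rw [he] at h8
    linear_combination h8 - h2' (∑ k ∈ T, te k)
  have hr : ∀ i ∈ S, ∀ k ∈ S, i ≠ k → sl i k = te i * te k + sl k i := by
    intro i hi k hk hik
    have := KD.rcp (hc.1 i hi) (hc.1 k hk) hik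
    linear_combination this - h2' (sl k i)
  refine ⟨T, ⟨π₀, mem_filter.2 ⟨hπ₀, ?_⟩⟩, hT, ?_, ?_, ?_⟩
  · rcases zm2 (v π₀) with h | h
    · exact absurd h hne
    · exact h
  · intro i hi hiT
    have h3 := h1 i (Finset.mem_sdiff.2 ⟨hi, hiT⟩)
    rw [Finset.sum_congr rfl fun j hj => hr i hi j (hT hj) fun h => hiT (h ▸ hj),
      Finset.sum_add_distrib, ← Finset.mul_sum, h3]
    linear_combination h2' (te i * ∑ j ∈ T, te j)
  · intro i hiT
    have hi := hT hiT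
    have h3 := h2 i hiT
    rw [Finset.sum_congr rfl fun j hj => hr i hi j (Finset.mem_sdiff.1 hj).1
      fun h => (Finset.mem_sdiff.1 hj).2 (h ▸ hiT), Finset.sum_add_distrib, ← Finset.mul_sum, htc,
      KD.sl_fR (hc.1 i hi)]
    linear_combination h3 + h2' (te i * ∑ j ∈ T, te j)
  · have e1 : ∑ i ∈ T, lg (e7 i) + ∑ i ∈ T, ∑ j ∈ S \ T, sl j i = 0 := by
      rw [← Finset.sum_add_distrib]
      exact Finset.sum_eq_zero h2
    have e2 : ∑ i ∈ T, ∑ j ∈ S \ T, sl j i = ∑ i ∈ T, ∑ j ∈ S \ T, (te j * te i + sl i j) := by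
      refine Finset.sum_congr rfl fun i hi => Finset.sum_congr rfl fun j hj => ?_
      rw [Finset.mem_sdiff] at hj
      exact hr j hj.1 i (hT hi) fun h => hj.2 (h ▸ hi)
    have e3 : ∑ i ∈ T, ∑ j ∈ S \ T, sl i j = 0 := by
      rw [Finset.sum_comm]
      exact Finset.sum_eq_zero h1
    have e4 : ∑ i ∈ T, ∑ j ∈ S \ T, te j * te i = (∑ i ∈ T, te i) * ∑ i ∈ T, te i := by
      have : ∀ i ∈ T, ∑ j ∈ S \ T, te j * te i = (∑ j ∈ T, te j) * te i := fun i _ => by
        rw [← Finset.sum_mul, htc]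
      rw [Finset.sum_congr rfl this, ← Finset.mul_sum]
    have e5 : ∀ x : ZMod 2, x * x = x := by decide
    rw [e2] at e1
    simp only [Finset.sum_add_distrib] at e1
    rw [e3, e4, e5, add_zero] at e1
    linear_combination e1 - h2' (∑ i ∈ T, te i)

theorem Tw_dT {T : Finset RR} (hT : ∀ π ∈ T, PO π) : Tw (dT T) := by
  induction T using Finset.induction_on with
  | empty =>
    unfold dT
    rw [Finset.sum_empty, Finset.prod_empty, Pool.Agent.T2h78.TW.sgz_zero]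
    push_cast
    rw [one_mul]
    exact Tw.one
  | insert i U hi ih =>
    have h1 := ih fun j hj => hT j (Finset.mem_insert_of_mem hj)
    have h2 := Tw.po (hT i (Finset.mem_insert_self i U))
    have h3 := h2.mul h1
    have e : dT (insert i U) = ((sgz (te i) : ℤ) : RR) * i * dT U := by
      unfold dT
      rw [Finset.sum_insert hi, Finset.prod_insert hi, Pool.Agent.T2h78.TW.sgz_add]
      push_cast
      ring
    rw [e]
    exact h3

theorem e7_prod (U : Finset RR) : e7 (∏ i ∈ U, i) = ∏ i ∈ U, e7 i := by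
  induction U using Finset.induction_on with
  | empty => rw [Finset.prod_empty, Finset.prod_empty, e7_one]
  | insert i U hi ih => rw [Finset.prod_insert hi, Finset.prod_insert hi, e7_mul, ih]

theorem e7_dT {T : Finset RR} (hT : ∀ π ∈ T, PO π) (hs : ∑ π ∈ T, lg (e7 π) = ∑ π ∈ T, te π) :
    e7 (dT T) = 1 := by
  have h1 := sgn_prod (s := T) (f := fun i => e7 i) fun i hi => e7_sgn (hT i hi).cop
  obtain ⟨h3, h4⟩ := Pool.Agent.T2h78.TW.e7_sgz (∑ i ∈ T, te i)
  have h5 : e7 (dT T) = 1 ∨ e7 (dT T) = -1 := by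
    unfold dT
    rw [e7_mul, e7_prod]
    exact sgn_mul h3 h1.1
  refine Pool.Agent.T2h78.TW.lg_inj h5 (Or.inl rfl) ?_
  rw [lg_one]
  unfold dT
  rw [e7_mul, e7_prod, lg_mul h3 h1.1, h4, h1.2, hs]
  exact CharTwo.add_self_eq_zero _

theorem t_CVK : S_CVK := by
  intro S hc hg
  obtain ⟨T, hne, h⟩ := exists_KQ hc hg
  have hfo := fo_cl hc.1
  have hTpo : ∀ π ∈ T, PO π := fun π hπ => hc.1 π (h.sub hπ)
  refine ⟨T, h.sub, hne, ?_, ?_, e7_dT hTpo h.sev, (Tw_dT hTpo).1, (Tw_dT hTpo).2⟩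
  · intro π hπ
    rw [mem_sdiff] at hπ
    have h1 := Pool.Agent.T2h78.TW.sy_of hfo h.sub hπ.1 hπ.2 (∑ i ∈ T, te i) false (by
      simpa using h.out π hπ.1 hπ.2)
    have e : fb false = 1 := rfl
    rw [e, one_mul] at h1
    exact h1
  · intro π hπ
    exact Pool.Agent.T2h78.TW.sy_of hfo (U := S \ T) Finset.sdiff_subset (h.sub hπ)
      (fun h2 => (Finset.mem_sdiff.1 h2).2 hπ) (∑ i ∈ T, te i) true (by
        simpa using h.inn π hπ)

end Pool.Agent.T2h16.KE
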