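import Pool.Agent.T2h16.KE.Stm
import Pool.Agent.T2h16.KE.C75b

/-!
# Task CVN: the odd places where `d` or `D √-7 d` is a square
-/

set_option autoImplicit false
set_option linter.all false

open scoped Classical

namespace Pool.Agent.T2h16.KE

open NumberField IsDedekindDomain WithZero
open Pool.Agent.Y698 (Sq Ur)

namespace C75

theorem hyp_ne {K : Type} [Field K] [NumberField K] {a : K} {t : 𝓞 K} (h : Hyp a t) :
    (1 + 4 * (t : K)) ≠ 0 ∧ 2 * a - 1 ≠ 0 := by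
  obtain ⟨v, -, h1, h2⟩ := h.odd
  refine ⟨fun h0 => ?_, fun h0 => ?_⟩
  · rw [h0, map_zero] at h1
    exact zero_ne_one h1
  · rw [h0, map_zero] at h2
    exact exp_ne_zero h2.symm

theorem exists_unif {K : Type} [Field K] [NumberField K] (v : HeightOneSpectrum (𝓞 K)) :
    ∃ ϖ : K, ϖ ≠ 0 ∧ v.valuation K ϖ < 1 := by
  obtain ⟨ϖ, hϖ⟩ := v.valuation_exists_uniformizer K
  refine ⟨ϖ, ?_, ?_⟩
  · intro h
    rw [h, map_zero] at hϖ
    exact exp_ne_zero hϖ.symm
  · rw [hϖ, ← exp_zero, exp_lt_exp]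
    norm_num

theorem sq_loc {K : Type} [Field K] [NumberField K] (v : HeightOneSpectrum (𝓞 K))
    (h2 : v.valuation K 2 = 1) {d : K} (h : Sq (v.valuation K) d) :
    IsSquare (algebraMap K (v.adicCompletion K) d) ∧ d ≠ 0 := by
  obtain ⟨z, hz0, hz⟩ := h
  have h4 : v.valuation K 4 = 1 := by
    have : (4 : K) = 2 * 2 := by norm_num
    rw [this, map_mul, h2, one_mul]
  constructor
  · obtain ⟨w, hw, e⟩ := sm (v.valuation K) (sqK v (by norm_num : (4 : K) ≠ 0)) d (z ^ 2)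
      (pow_ne_zero 2 hz0) (by rwa [h4, one_mul, map_pow])
    refine ⟨algebraMap K _ z * w, ?_⟩
    rw [e, map_pow]
    ring
  · rintro rfl
    rw [zero_sub, Valuation.map_neg, map_pow] at hz
    exact lt_irrefl _ hz

end C75

theorem t_CVN : S_CVN := by
  intro K _ _ a t hy d v h2 hs
  obtain ⟨hD, h7⟩ := C75.hyp_ne hy
  obtain ⟨ϖ, h0, h1⟩ := C75.exists_unif v
  have h4 : (4 : K) ≠ 0 := by norm_num
  rcases hs with h | h
  · obtain ⟨h5, h6⟩ := C75.sq_loc v h2 h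
    exact C75.lp_near (v.valuation K) (C75.sqK v h4) h0 h1 h4 h6 h5
  · obtain ⟨h5, h6⟩ := C75.sq_loc v h2 h
    exact C75.lp_near2 (v.valuation K) (C75.sqK v h4) h0 h1 h4 (right_ne_zero_of_mul h6) hD hy.ha h7 h5

end Pool.Agent.T2h16.KE
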