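import Pool.Agent.Y698.Ua
import Pool.Agent.Y700.VC

/-!
# TASK CVS (helper33): the abscissae of the rational points of `y² = x (x - u) (x - c)` modulo squares
-/

set_option autoImplicit false
set_option linter.all false

namespace Pool.Agent.T2h16.KE.CVSa

open WeierstrassCurve
open Pool.Agent.Y698

/-- finite groups without elements of order four which are divisible by two -/
lemma grp {G : Type*} [AddCommGroup G] [Finite G]
    (h : ∀ Q : G, (Q + Q) + (Q + Q) = 0 → Q + Q = 0) (P : G) :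
    ∃ T k : G, T + T = 0 ∧ P = T + (k + k) := by
  let R : Set G := Set.range fun k : G => k + k
  let f : R → R := fun r => ⟨(r : G) + r, ⟨r, rfl⟩⟩
  have hinj : Function.Injective f := by
    rintro ⟨_, x, rfl⟩ ⟨_, y, rfl⟩ hxy
    have h1 : (x + x) + (x + x) = (y + y) + (y + y) := congrArg Subtype.val hxy
    have h2 : ((x - y) + (x - y)) + ((x - y) + (x - y)) = 0 := by
      have e : ((x - y) + (x - y)) + ((x - y) + (x - y)) =
        ((x + x) + (x + x)) - ((y + y) + (y + y)) := by abel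
      rw [e, h1, sub_self]
    have h3 := h _ h2
    apply Subtype.ext
    show x + x = y + y
    have e : (x - y) + (x - y) = (x + x) - (y + y) := by abel
    rw [e] at h3
    exact sub_eq_zero.1 h3
  have hsurj : Function.Surjective f := Finite.surjective_of_injective hinj
  obtain ⟨⟨_, k, rfl⟩, hr⟩ := hsurj ⟨P + P, ⟨P, rfl⟩⟩
  have h1 : (k + k) + (k + k) = P + P := congrArg Subtype.val hr
  refine ⟨P - (k + k), k, ?_, by abel⟩
  have e : (P - (k + k)) + (P - (k + k)) = (P + P) - ((k + k) + (k + k)) := by abel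
  rw [e, h1, sub_self]

section

variable {L : Type} [Field L] [CharZero L] {u c : L}

/-- the curve `y² = x (x - u) (x - c)` -/
def E1 (u c : L) : WeierstrassCurve L := ⟨0, -(u + c), 0, u * c, 0⟩

lemma wr0 (hu : u ≠ 0) (hc : c ≠ 0) : Wr (E1 u c) 0 (-(u + c)) (u * c) where
  k1 := rfl
  k2 := by show -(u + c) = _; ring
  k3 := rfl
  k4 := by show u * c = _; ring
  k6 := by show (0 : L) = _; ring
  hβ := mul_ne_zero hu hc

lemma wru (hu : u ≠ 0) (hc : u ≠ c) : Wr (E1 u c) u (2 * u - c) (u * (u - c)) where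
  k1 := rfl
  k2 := by show -(u + c) = _; ring
  k3 := rfl
  k4 := by show u * c = _; ring
  k6 := by show (0 : L) = _; ring
  hβ := mul_ne_zero hu (sub_ne_zero.2 hc)

/-- the class of `1` or of `u` -/
def Qr (u x : L) : Prop := IsSquare x ∨ IsSquare (u * x)

lemma mq_Qr (hu : u ≠ 0) : Mq (Qr u) where
  mul := by
    rintro x y (⟨p, rfl⟩ | ⟨p, hp⟩) (⟨q, rfl⟩ | ⟨q, hq⟩)
    · exact Or.inl ⟨p * q, by ring⟩
    · exact Or.inr ⟨p * q, by linear_combination (p * p) * hq⟩
    · exact Or.inr ⟨p * q, by linear_combination (q * q) * hp⟩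
    · refine Or.inl ⟨p * q / u, ?_⟩
      field_simp
      linear_combination (u * y) * hp + p ^ 2 * hq
  sq := by
    intro x z hz
    constructor
    · rintro (⟨t, ht⟩ | ⟨t, ht⟩)
      · exact Or.inl ⟨t / z, by field_simp; linear_combination ht⟩
      · exact Or.inr ⟨t / z, by field_simp; linear_combination ht⟩
    · rintro (⟨t, ht⟩ | ⟨t, ht⟩)
      · exact Or.inl ⟨t * z, by rw [ht]; ring⟩
      · exact Or.inr ⟨t * z, by linear_combination (z * z) * ht⟩

variable [DecidableEq L]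

lemma two_eq (hu : u ≠ 0) (hc : c ≠ 0) {X Y : L} (h : (E1 u c).toAffine.Nonsingular X Y)
    (h2 : (.some X Y h : (E1 u c).toAffine.Point) + .some X Y h = 0) :
    Y = 0 ∧ (X = 0 ∨ X = u ∨ X = c) := by
  have S0 := wr0 hu hc
  obtain ⟨h', e'⟩ := S0.neg_some h
  have h3 : (.some X Y h : (E1 u c).toAffine.Point) = -(.some X Y h) :=
    eq_neg_of_add_eq_zero_left h2
  rw [e', Affine.Point.some.injEq] at h3
  have hY : Y = 0 := by
    have h4 : 2 * Y = 0 := by linear_combination h3.2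
    rcases mul_eq_zero.1 h4 with h5 | h5
    · exact absurd h5 two_ne_zero
    · exact h5
  refine ⟨hY, ?_⟩
  have h4 := S0.eqn h.1
  rw [hY] at h4
  have h5 : X * (X - u) * (X - c) = 0 := by linear_combination -h4
  rcases mul_eq_zero.1 h5 with h6 | h6
  · rcases mul_eq_zero.1 h6 with h7 | h7
    · exact Or.inl h7
    · exact Or.inr (Or.inl (sub_eq_zero.1 h7))
  · exact Or.inr (Or.inr (sub_eq_zero.1 h6))

omit [CharZero L] [DecidableEq L] in
lemma sq_of {x y ν : L} (hx : x ≠ 0) (h : x * x * y = ν ^ 2) : IsSquare y :=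
  ⟨ν / x, by field_simp; linear_combination h⟩

/-- **the classes of the abscissae** -/
theorem main (hu : u ≠ 0) (hc : c ≠ 0) (huc : u ≠ c) (h1 : ¬ IsSquare (-u)) (h2 : ¬ IsSquare u)
    (h3 : ¬ IsSquare c) (h4 : IsSquare (u * c)) (hf : Finite (E1 u c).toAffine.Point) {X Y : L}
    (hX : X ≠ 0) (hE : Y ^ 2 = X * (X - u) * (X - c)) : IsSquare X ∨ IsSquare (u * X) := by
  have S0 := wr0 hu hc
  have Su := wru hu huc
  have hQ := mq_Qr hu
  -- the points of order two are not divisible by two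
  have hdiv : ∀ Q : (E1 u c).toAffine.Point, (Q + Q) + (Q + Q) = 0 → Q + Q = 0 := by
    intro Q hQ4
    rcases Q with _ | ⟨x, y, h⟩
    · exact add_zero 0
    rcases hsum : (.some x y h : (E1 u c).toAffine.Point) + .some x y h with _ | ⟨X₃, Y₃, h₃⟩
    · exact hsum
    rw [hsum] at hQ4
    obtain ⟨hY3, hX3⟩ := two_eq hu hc h₃ hQ4
    exfalso
    obtain ⟨ν, hν0, hν⟩ := S0.dv_line hsum
    obtain ⟨ν', hν0', hν'⟩ := Su.dv_line hsum
    have k0 := sq_of (dv_ne_zero S0 _) hν
    have k1 := sq_of (dv_ne_zero Su _) hν'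
    rcases hX3 with h5 | h5 | h5
    · rw [h5, dv_ne hu.symm, zero_sub] at k1
      exact h1 k1
    · rw [h5, dv_ne hu, sub_zero] at k0
      exact h2 k0
    · rw [h5, dv_ne hc, sub_zero] at k0
      exact h3 k0
  have hΔ : (E1 u c).Δ ≠ 0 := by
    have e : (E1 u c).Δ = 16 * (u * c * (u - c)) ^ 2 := by
      unfold E1 WeierstrassCurve.Δ WeierstrassCurve.b₈ WeierstrassCurve.b₆ WeierstrassCurve.b₄
        WeierstrassCurve.b₂
      ring
    rw [e]
    exact mul_ne_zero (by norm_num) (pow_ne_zero 2 (mul_ne_zero (mul_ne_zero hu hc)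
      (sub_ne_zero.2 huc)))
  have hns : (E1 u c).toAffine.Nonsingular X Y := by
    refine (Affine.equation_iff_nonsingular_of_Δ_ne_zero hΔ).1 ?_
    rw [Affine.equation_iff]
    show Y ^ 2 + 0 * X * Y + 0 * Y = X ^ 3 + -(u + c) * X ^ 2 + u * c * X + 0
    linear_combination hE
  obtain ⟨T, k, hT, hP⟩ := grp hdiv (.some X Y hns : (E1 u c).toAffine.Point)
  have m1 : T ∈ GP S0 hQ := by
    rcases T with _ | ⟨x, y, h⟩
    · exact (GP S0 hQ).zero_mem
    obtain ⟨-, hx⟩ := two_eq hu hc h hT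
    rw [mem_GP]
    rcases hx with hx | hx | hx
    · rw [hx, dv_T]
      exact Or.inl h4
    · rw [hx, dv_ne hu, sub_zero]
      exact Or.inr ⟨u, rfl⟩
    · rw [hx, dv_ne hc, sub_zero]
      exact Or.inr h4
  have m2 : k + k ∈ GP S0 hQ := by
    rcases k with _ | ⟨x, y, h⟩
    · exact (GP S0 hQ).zero_mem
    rcases hsum : (.some x y h : (E1 u c).toAffine.Point) + .some x y h with _ | ⟨X₃, Y₃, h₃⟩
    · rw [hsum]
      exact (GP S0 hQ).zero_mem
    · rw [hsum, mem_GP]
      obtain ⟨ν, hν0, hν⟩ := S0.dv_line hsum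
      exact Or.inl (sq_of (dv_ne_zero S0 _) hν)
  have m3 : (.some X Y hns : (E1 u c).toAffine.Point) ∈ GP S0 hQ := by
    rw [hP]
    exact (GP S0 hQ).add_mem m1 m2
  rw [mem_GP, dv_ne hX, sub_zero] at m3
  exact m3

end

end Pool.Agent.T2h16.KE.CVSa
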