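import Pool.Agent.T2h16.KE.Stm
import Pool.Agent.T2h16.KE.CVSa
import Pool.Agent.Y655.XT.Shavc

/-!
# TASK CVS (helper33): everywhere locally soluble classes
-/

set_option autoImplicit false
set_option linter.all false

open scoped Classical

namespace Pool.Agent.T2h16.KE

open NumberField IsDedekindDomain WeierstrassCurve WithZero
open Pool.Agent.Y698 (EX EX_Δ eA eB)
open Pool.Agent.Y700 (VR)
open Pool.Agent.Y655.XT (isoVR)
open Pool.Agent.TH841.NF.D (Sha)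

section

variable {K : Type} [Field K] [CharZero K] {a t : K}

/-- the translate by the first root -/
lemma vrA (ha : a ^ 2 = a - 2) :
    VR (WG K (3 * (1 + 4 * t) * (a - 4)) (-7 * (1 + 4 * t) ^ 2 * (3 * a - 1))) (EX K t) 2
      ((1 + 4 * t) * (3 - a)) 1 0 where
  u0 := two_ne_zero
  e1 := by
    show (2 : K) * 1 = 0 + 2 * 1
    ring
  e2 := by
    show (2 : K) ^ 2 * (-(1 + 3 * t)) = 3 * (1 + 4 * t) * (a - 4) - 1 * 0 +
      3 * ((1 + 4 * t) * (3 - a)) - 1 ^ 2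
    ring
  e3 := by
    show (2 : K) ^ 3 * 0 = 0 + _ * 0 + 2 * 0
    ring
  e4 := by
    show (2 : K) ^ 4 * (-2 * (1 + 4 * t) ^ 2) =
      -7 * (1 + 4 * t) ^ 2 * (3 * a - 1) - 1 * 0 +
      2 * ((1 + 4 * t) * (3 - a)) * (3 * (1 + 4 * t) * (a - 4)) -
      (0 + ((1 + 4 * t) * (3 - a)) * 1) * 0 + 3 * ((1 + 4 * t) * (3 - a)) ^ 2 - 2 * 1 * 0
    linear_combination 3 * (1 + 4 * t) ^ 2 * ha
  e6 := by
    show (2 : K) ^ 6 * (-(1 + 4 * t) ^ 3) =
      0 + ((1 + 4 * t) * (3 - a)) * (-7 * (1 + 4 * t) ^ 2 * (3 * a - 1)) +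
      ((1 + 4 * t) * (3 - a)) ^ 2 * (3 * (1 + 4 * t) * (a - 4)) +
      ((1 + 4 * t) * (3 - a)) ^ 3 - 0 * 0 - 0 ^ 2 - ((1 + 4 * t) * (3 - a)) * 0 * 0
    linear_combination -2 * (1 + 4 * t) ^ 3 * (a + 1) * ha

/-- the translate by the second root -/
lemma vrB (ha : a ^ 2 = a - 2) :
    VR (CVSa.E1 ((1 + 4 * t) * (2 * a - 1)) ((1 + 4 * t) * (2 * a - 1) * a ^ 4)) (EX K t) 2
      ((1 + 4 * t) * (a + 2)) 1 0 := by
  have hs : (1 + 4 * t) * (2 * a - 1) + (1 + 4 * t) * (2 * a - 1) * a ^ 4 =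
      3 * (1 + 4 * t) * (a + 3) := by
    linear_combination (1 + 4 * t) * (2 * a ^ 3 + a ^ 2 - 3 * a - 5) * ha
  have hp : (1 + 4 * t) * (2 * a - 1) * ((1 + 4 * t) * (2 * a - 1) * a ^ 4) =
      (1 + 4 * t) ^ 2 * (21 * a - 14) := by
    linear_combination (1 + 4 * t) ^ 2 * (4 * a ^ 4 - 7 * a ^ 2 - 7 * a + 7) * ha
  refine ⟨two_ne_zero, ?_, ?_, ?_, ?_, ?_⟩
  · show (2 : K) * 1 = 0 + 2 * 1
    ring
  · show (2 : K) ^ 2 * (-(1 + 3 * t)) =
      -((1 + 4 * t) * (2 * a - 1) + (1 + 4 * t) * (2 * a - 1) * a ^ 4) - 1 * 0 +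
      3 * ((1 + 4 * t) * (a + 2)) - 1 ^ 2
    rw [hs]
    ring
  · show (2 : K) ^ 3 * 0 = 0 + _ * 0 + 2 * 0
    ring
  · show (2 : K) ^ 4 * (-2 * (1 + 4 * t) ^ 2) =
      (1 + 4 * t) * (2 * a - 1) * ((1 + 4 * t) * (2 * a - 1) * a ^ 4) - 1 * 0 +
      2 * ((1 + 4 * t) * (a + 2)) *
        -((1 + 4 * t) * (2 * a - 1) + (1 + 4 * t) * (2 * a - 1) * a ^ 4) -
      (0 + ((1 + 4 * t) * (a + 2)) * 1) * 0 + 3 * ((1 + 4 * t) * (a + 2)) ^ 2 - 2 * 1 * 0
    rw [hs, hp]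
    linear_combination 3 * (1 + 4 * t) ^ 2 * ha
  · show (2 : K) ^ 6 * (-(1 + 4 * t) ^ 3) =
      0 + ((1 + 4 * t) * (a + 2)) *
        ((1 + 4 * t) * (2 * a - 1) * ((1 + 4 * t) * (2 * a - 1) * a ^ 4)) +
      ((1 + 4 * t) * (a + 2)) ^ 2 *
        -((1 + 4 * t) * (2 * a - 1) + (1 + 4 * t) * (2 * a - 1) * a ^ 4) +
      ((1 + 4 * t) * (a + 2)) ^ 3 - 0 * 0 - 0 ^ 2 - ((1 + 4 * t) * (a + 2)) * 0 * 0
    rw [hs, hp]
    linear_combination 2 * (1 + 4 * t) ^ 3 * (a - 2) * ha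

lemma eq_tr (ha : a ^ 2 = a - 2) (D X : K) :
    (a ^ 2 * X) ^ 3 - 2 * (3 * D * (a - 4)) * (a ^ 2 * X) ^ 2 +
      ((3 * D * (a - 4)) ^ 2 - 4 * (-7 * D ^ 2 * (3 * a - 1))) * (a ^ 2 * X) =
    a ^ 6 * (X * (X - D * (2 * a - 1)) * (X - D * (2 * a - 1) * a ^ 4)) := by
  linear_combination X ^ 2 * D * (12 * a ^ 4 + 3 * a ^ 5 - 5 * a ^ 6 - 3 * a ^ 7 + a ^ 8 +
    2 * a ^ 9) * ha - X * D ^ 2 * (-58 * a ^ 2 - 35 * a ^ 3 + 7 * a ^ 4 + 21 * a ^ 5 + 7 * a ^ 6 -
    7 * a ^ 7 - 7 * a ^ 8 + 4 * a ^ 10) * ha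

end

/-- the two forms of the local condition -/
lemma locG_of {K : Type} [Field K] [CharZero K] {L : Type} [Field L] [Algebra K L] {a D d : K}
    (ha : a ^ 2 = a - 2) (h : LocK L a D d) :
    LocG L (3 * D * (a - 4)) (-7 * D ^ 2 * (3 * a - 1)) d := by
  have : CharZero L := charZero_of_injective_algebraMap (algebraMap K L).injective
  obtain ⟨X, Y, r, h0, h1, h2⟩ := h
  have ha0 : a ≠ 0 := by
    rintro rfl
    norm_num at ha
  have hb : algebraMap K L a ≠ 0 := (map_ne_zero _).2 ha0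
  have ha' : (algebraMap K L a) ^ 2 = algebraMap K L a - 2 := by
    have := congrArg (algebraMap K L) ha
    simpa only [map_pow, map_sub, map_ofNat] using this
  refine ⟨(algebraMap K L a) ^ 2 * X, (algebraMap K L a) ^ 3 * Y, algebraMap K L a * r,
    mul_ne_zero (pow_ne_zero 2 hb) h0, ?_, by rw [h2]; ring⟩
  have e := eq_tr ha' (algebraMap K L D) X
  simp only [map_mul, map_sub, map_pow, map_neg, map_ofNat, map_one] at h1 ⊢
  rw [e, mul_pow, h1]
  ring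

lemma locK_of {K : Type} [Field K] [CharZero K] {a D d : K}
    (ha : a ^ 2 = a - 2) (h : LocG K (3 * D * (a - 4)) (-7 * D ^ 2 * (3 * a - 1)) d) :
    ∃ X Y r : K, X ≠ 0 ∧ Y ^ 2 = X * (X - D * (2 * a - 1)) * (X - D * (2 * a - 1) * a ^ 4) ∧
      X = d * r ^ 2 := by
  obtain ⟨X, Y, r, h0, h1, h2⟩ := h
  have ha0 : a ≠ 0 := by
    rintro rfl
    norm_num at ha
  refine ⟨X / a ^ 2, Y / a ^ 3, r / a, div_ne_zero h0 (pow_ne_zero 2 ha0), ?_, ?_⟩
  · have e := eq_tr ha D (X / a ^ 2)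
    have e2 : a ^ 2 * (X / a ^ 2) = X := by field_simp
    rw [e2] at e
    simp only [Algebra.algebraMap_self, RingHom.id_apply] at h1
    have e3 : (Y / a ^ 3) ^ 2 = Y ^ 2 / a ^ 6 := by rw [div_pow]; ring
    rw [e3, h1, e]
    field_simp
  · simp only [Algebra.algebraMap_self, RingHom.id_apply] at h2
    rw [h2]
    ring

theorem t_CVS : S_CVST := by
  intro hSHG K _ _ a t hy d hd hfin hinf hpt hsha
  have ha := hy.ha
  obtain ⟨w, w2, wD, wa⟩ := hy.odd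
  set D : K := 1 + 4 * (t : K) with hDdef
  have hD0 : D ≠ 0 := by
    intro h0
    rw [h0, map_zero] at wD
    exact zero_ne_one wD
  have h21 : 2 * a - 1 ≠ 0 := by
    intro h0
    rw [h0, map_zero] at wa
    exact exp_ne_zero wa.symm
  have ha0 : a ≠ 0 := by
    rintro rfl
    norm_num at ha
  have hΔ : (EX K (t : K)).Δ ≠ 0 := by
    rw [EX_Δ]
    exact mul_ne_zero (by norm_num) (pow_ne_zero 6 hD0)
  -- the valuation of `u`
  set u : K := D * (2 * a - 1) with hu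
  have wu : w.valuation K u = exp (-1 : ℤ) := by rw [hu, map_mul, wD, wa, one_mul]
  have hu0 : u ≠ 0 := mul_ne_zero hD0 h21
  have nsq : ∀ x : K, w.valuation K x = exp (-1 : ℤ) → ¬ IsSquare x := by
    rintro x hx ⟨z, rfl⟩
    rw [map_mul] at hx
    have hz : z ≠ 0 := by
      rintro rfl
      rw [map_zero, mul_zero] at hx
      exact exp_ne_zero hx.symm
    obtain ⟨m, hm⟩ : ∃ m : ℤ, w.valuation K z = exp m :=
      ⟨(w.valuation K z).log, (exp_log (((w.valuation K).ne_zero_iff).2 hz)).symm⟩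
    rw [hm, ← exp_add, exp_inj] at hx
    omega
  have n1 : ¬ IsSquare (-u) := nsq _ (by rw [Valuation.map_neg, wu])
  have n2 : ¬ IsSquare u := nsq _ wu
  have n3 : ¬ IsSquare (u * a ^ 4) := by
    rintro ⟨z, hz⟩
    apply n2
    refine ⟨z / a ^ 2, ?_⟩
    field_simp
    linear_combination hz
  have hc : u * a ^ 4 ≠ 0 := mul_ne_zero hu0 (pow_ne_zero 4 ha0)
  have huc : u ≠ u * a ^ 4 := by
    intro h0
    have h1 : a ^ 4 = 1 := by
      have : u * (a ^ 4 - 1) = 0 := by linear_combination -h0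
      rcases mul_eq_zero.1 this with h2 | h2
      · exact absurd h2 hu0
      · linear_combination h2
    have h2 : a ^ 4 = 2 - 3 * a := by linear_combination (a ^ 2 + a - 1) * ha
    have h3 : a = 1 / 3 := by linear_combination (1 / 3) * h2 - (1 / 3) * h1
    rw [h3] at ha
    norm_num at ha
  -- transfer
  have hI := (isoVR (vrA (t := (t : K)) ha) hΔ).sha
  have hG := hSHG K (3 * D * (a - 4)) (-7 * D ^ 2 * (3 * a - 1)) d ?_ ?_ hd
    (fun v => locG_of ha (hfin v)) (fun v => locG_of ha (hinf v)) ?_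
  · have hsqB : (3 * D * (a - 4)) ^ 2 - 4 * (-7 * D ^ 2 * (3 * a - 1)) = (D * (a + 10)) ^ 2 := by
      linear_combination 8 * D ^ 2 * ha
    have hB0 : D * (a + 10) ≠ 0 := by
      refine mul_ne_zero hD0 fun h0 => ?_
      have h3 : a = -10 := by linear_combination h0
      rw [h3] at ha
      norm_num at ha
    rcases hG with h | h | h
    · exact Or.inl h
    · left
      rw [hsqB] at h
      obtain ⟨z, hz⟩ := h
      refine ⟨z / (D * (a + 10)), ?_⟩
      rw [div_mul_div_comm, eq_div_iff (mul_ne_zero hB0 hB0)]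
      linear_combination hz
    · obtain ⟨X, Y, r, h0, h1, h2⟩ := locK_of ha h
      have hE : VR (CVSa.E1 u (u * a ^ 4)) (EX K (t : K)) 2 (D * (a + 2)) 1 0 := vrB ha
      have hfE : Finite (CVSa.E1 u (u * a ^ 4)).toAffine.Point :=
        Finite.of_equiv _ (hE.equiv hΔ).toEquiv
      have key := CVSa.main hu0 hc huc n1 n2 n3 ⟨u * a ^ 2, by ring⟩ hfE h0 h1
      have hr : r ≠ 0 := by
        rintro rfl
        apply h0
        rw [h2]
        ring
      rcases key with ⟨z, hz⟩ | ⟨z, hz⟩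
      · left
        refine ⟨z / r, ?_⟩
        rw [h2] at hz
        field_simp
        linear_combination hz
      · right
        refine ⟨z / r, ?_⟩
        rw [h2] at hz
        field_simp
        linear_combination hz
  · refine mul_ne_zero (mul_ne_zero (by norm_num) (pow_ne_zero 2 hD0)) fun h0 => ?_
    have h3 : a = 1 / 3 := by linear_combination (1 / 3) * h0
    rw [h3] at ha
    norm_num at ha
  · have hsqB : (3 * D * (a - 4)) ^ 2 - 4 * (-7 * D ^ 2 * (3 * a - 1)) = (D * (a + 10)) ^ 2 := by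
      linear_combination 8 * D ^ 2 * ha
    rw [hsqB]
    refine pow_ne_zero 2 (mul_ne_zero hD0 fun h0 => ?_)
    have h3 : a = -10 := by linear_combination h0
    rw [h3] at ha
    norm_num at ha
  · intro x hx
    have h1 := hsha (hI.symm x) (by rw [← map_add, hx, map_zero])
    rw [← hI.apply_symm_apply x, h1, map_zero]

end Pool.Agent.T2h16.KE
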