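import Pool.Agent.T2h16.KE.Stm

/-!
# The kernel of the matrix and its determinant
-/

set_option autoImplicit false
set_option linter.all false

open scoped Classical

namespace Pool.Agent.T2h16.KE

open Finset
open Pool.Agent.Y698 (RR e7)
open Pool.Agent.Y698.SG (sy lg)
open Pool.Agent.T2h78.TW (PO te sl)

/-- the matrix of `gd` -/
noncomputable def MG (c : RR → ZMod 2) (r : RR → RR → ZMod 2) (S : Finset RR) :
    Matrix S S (ZMod 2) :=
  Matrix.of fun i j : S => if i = j then c i + ∑ k ∈ S.erase i, r i k else r i j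

lemma MG_mulVec (c : RR → ZMod 2) (r : RR → RR → ZMod 2) (S : Finset RR) (w : RR → ZMod 2)
    (i : S) : (MG c r S).mulVec (fun j : S => w j) i =
      c i * w i + ∑ ρ ∈ S, (if (i : RR) = ρ then 0 else r i ρ) * (w ρ + w i) := by
  have h1 : (MG c r S).mulVec (fun j : S => w j) i = ∑ j ∈ S,
      (if (i : RR) = j then c i + ∑ k ∈ S.erase i, r i k else r i j) * w j := by
    rw [← Finset.sum_coe_sort S]
    unfold Matrix.mulVec dotProduct MG
    refine Finset.sum_congr rfl fun j _ => ?_
    simp only [Matrix.of_apply]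
    by_cases h : i = j
    · rw [if_pos h, if_pos (by rw [h])]
    · rw [if_neg h, if_neg (fun h' => h (Subtype.ext h'))]
  rw [h1, ← Finset.add_sum_erase S _ i.2, ← Finset.add_sum_erase S (fun ρ =>
    (if (i : RR) = ρ then 0 else r i ρ) * (w ρ + w i)) i.2]
  rw [if_pos rfl, if_pos rfl, zero_mul, zero_add]
  have h2 : ∑ x ∈ S.erase (i : RR), (if (i : RR) = x then c i + ∑ k ∈ S.erase (i : RR), r i k else r i x) * w x =
      ∑ x ∈ S.erase (i : RR), r i x * w x :=
    Finset.sum_congr rfl fun x hx => by rw [if_neg (Finset.ne_of_mem_erase hx).symm]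
  have h3 : ∑ x ∈ S.erase (i : RR), (if (i : RR) = x then 0 else r i x) * (w x + w i) =
      ∑ x ∈ S.erase (i : RR), (r i x * w x + r i x * w i) :=
    Finset.sum_congr rfl fun x hx => by rw [if_neg (Finset.ne_of_mem_erase hx).symm, mul_add]
  rw [h2, h3, Finset.sum_add_distrib, ← Finset.sum_mul]
  ring

theorem t_DET : S_DET := by
  intro S hS
  have hg : Pool.Agent.T2h78.TW.gd (fun π => lg (e7 π)) (fun π ρ => sl ρ π) S =
      (MG (fun π => lg (e7 π)) (fun π ρ => sl ρ π) S).det := by
    unfold Pool.Agent.T2h78.TW.gd MG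
    congr!
  have hsol : ∀ v : RR → ZMod 2, KD.Sol S v ↔
      (MG (fun π => lg (e7 π)) (fun π ρ => sl ρ π) S).mulVec (fun j : S => v j) = 0 := by
    intro v
    constructor
    · intro h
      funext i
      rw [MG_mulVec]
      exact h i i.2
    · intro h π hπ
      have h1 := congrFun h ⟨π, hπ⟩
      rw [MG_mulVec] at h1
      exact h1
  rw [hg]
  constructor
  · intro hG hdet
    obtain ⟨v, hv, hv0⟩ := Matrix.exists_mulVec_eq_zero_iff.2 hdet
    apply hv
    have h1 : KD.Sol S (fun x => if h : x ∈ S then v ⟨x, h⟩ else 0) := by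
      rw [hsol]
      convert hv0 using 2
      funext j
      rw [dif_pos j.2]
    funext j
    have h2 := hG _ h1 j j.2
    rw [dif_pos j.2] at h2
    exact h2
  · intro hdet v hv π hπ
    rw [hsol] at hv
    by_contra h0
    apply hdet
    refine Matrix.exists_mulVec_eq_zero_iff.1 ⟨fun j : S => v j, ?_, hv⟩
    intro h1
    exact h0 (congrFun h1 ⟨π, hπ⟩)

end Pool.Agent.T2h16.KE
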