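import Pool.Agent.T2h7.KE.Fnk

/-! # Project KE: task FINK (helper7) -/

set_option autoImplicit false

theorem Pool.Agent.T2h16.KE.t_FINK : Pool.Agent.T2h16.KE.S_FINK :=
  fun _ _ _ _ _ h h' hB hA => Pool.Agent.T2h7.KE.fin_K h h' hB hA
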