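import Pool.Agent.T2h16.KE.Stm
import Pool.Agent.T2h78.TW.Cv3

/-!
# The conjugate set (task GCJ of project KE)
-/

set_option autoImplicit false
set_option linter.unusedVariables false

open scoped Classical

namespace Pool.Agent.T2h16.KE

open Finset
open Pool.Agent.Y698 Pool.Agent.Y698.SG Pool.Agent.Y279.SG
open Pool.Agent.W192.HK (sp nm)
open Pool.Agent.T2h78.TW (PO te sl sgz)
open Pool.Agent.T2h16.KD (Cl)

/-! ### the conjugate of a prime element -/

/-- the normalized conjugate -/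
noncomputable def fj (π : RR) : RR := Pool.Agent.T2h78.TW.nrm (cj π)

lemma sgz_te (π : RR) : sgz (te π) = if cY π % 4 = 0 then 1 else -1 := by
  unfold te sgz
  by_cases h : cY π % 4 = 0
  · rw [if_pos h, if_pos rfl, if_pos h]
  · rw [if_neg h, if_neg (by decide), if_neg h]

lemma fj_eq {π : RR} (h : PO π) : fj π = ((sgz (te π) : ℤ) : RR) * cj π := by
  have h4 := h.x4
  have h2 := h.y2
  unfold fj Pool.Agent.T2h78.TW.nrm
  rw [(cXY_cj π).1, sgz_te]
  by_cases h0 : cY π % 4 = 0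
  · rw [if_pos (by omega), if_pos h0]
    push_cast
    rw [one_mul]
  · rw [if_neg (by omega), if_neg h0]
    push_cast
    rw [neg_one_mul]

lemma sp_fj (π : RR) : sp (fj π) = sp (cj π) := Pool.Agent.T2h78.TW.sp_nrm _

/-- the automorphism -/
noncomputable def cjR : RR ≃+* RR :=
  RingEquiv.ofRingHom cj cj (RingHom.ext fun x => cj_cj x) (RingHom.ext fun x => cj_cj x)

lemma cjR_apply (x : RR) : cjR x = cj x := rfl

lemma cj_prime {π : RR} (h : Prime π) : Prime (cj π) := by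
  have := (MulEquiv.prime_iff (cjR : RR ≃* RR)).2 h
  exact this

lemma cj_fR : cj fR = -fR := by
  apply RR_ext
  · rw [(cXY_cj fR).1, (cXY_neg fR).1, cXY_fR.1, cXY_fR.2]; norm_num
  · rw [(cXY_cj fR).2, (cXY_neg fR).2]

lemma fj_po {π : RR} (h : PO π) : PO (fj π) := by
  have h4 := h.x4
  have h2 := h.y2
  have hpr : Prime (fj π) := by
    rw [fj]
    rcases Pool.Agent.T2h78.TW.nrm_cases (cj π) with h1 | h1 <;> rw [h1]
    · exact cj_prime h.pr
    · exact (cj_prime h.pr).neg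
  have hcop : IsCoprime fR (fj π) := by
    have h1 : IsCoprime (cj fR) (cj π) := h.cop.map cj
    rw [cj_fR] at h1
    have h3 : IsCoprime fR (cj π) := by simpa using h1.neg_left
    rw [fj]
    rcases Pool.Agent.T2h78.TW.nrm_cases (cj π) with h1 | h1 <;> rw [h1]
    · exact h3
    · exact h3.neg_right
  refine ⟨hpr, ?_, ?_, hcop⟩
  · rw [fj]
    apply Pool.Agent.T2h78.TW.nrm_mod
    rw [(cXY_cj π).1]
    omega
  · rw [fj]
    rcases Pool.Agent.T2h78.TW.nrm_cases (cj π) with h1 | h1 <;> rw [h1]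
    · rw [(cXY_cj π).2]; omega
    · rw [(cXY_neg _).2, (cXY_cj π).2]; omega

lemma te_fj {π : RR} (h : PO π) : te (fj π) = te π := by
  have h2 := h.y2
  have h3 : cY (fj π) = cY π ∨ cY (fj π) = - cY π := by
    rw [fj]
    rcases Pool.Agent.T2h78.TW.nrm_cases (cj π) with h1 | h1 <;> rw [h1]
    · right; rw [(cXY_cj π).2]
    · left; rw [(cXY_neg _).2, (cXY_cj π).2, neg_neg]
  unfold te
  rcases h3 with h3 | h3 <;> rw [h3]
  by_cases h0 : cY π % 4 = 0
  · rw [if_pos h0, if_pos (by omega)]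
  · rw [if_neg h0, if_neg (by omega)]

lemma fj_fj {π : RR} (h : PO π) : fj (fj π) = π := by
  have h1 := fj_eq (fj_po h)
  rw [te_fj h] at h1
  nth_rewrite 2 [fj_eq h] at h1
  rw [map_mul, map_intCast, cj_cj, ← mul_assoc] at h1
  rw [h1]
  have h2 := Pool.Agent.T2h78.TW.sgz_sq (te π)
  have h3 : ((sgz (te π) : ℤ) : RR) * ((sgz (te π) : ℤ) : RR) = 1 := by
    rw [← Int.cast_mul, h2, Int.cast_one]
  rw [h3, one_mul]

lemma fj_inj {π ρ : RR} (h : PO π) (h' : PO ρ) (he : fj π = fj ρ) : π = ρ := by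
  rw [← fj_fj h, he, fj_fj h']

lemma cc_fj {π : RR} (h : PO π) : lg (e7 (fj π)) = te π + lg (e7 π) := by
  rw [fj_eq h, e7_mul, e7_cj]
  obtain ⟨h3, h4⟩ := Pool.Agent.T2h78.TW.e7_sgz (te π)
  rw [lg_mul h3 (e7_sgn h.cop), h4]

lemma sy_fj (ρ x : RR) : sy (fj ρ) x = sy ρ (cj x) := by
  rw [Pool.Agent.T2h78.TW.sy_congr (sp_fj ρ), ← Pool.Agent.Y279.SG.sy_cj ρ (cj x), cj_cj]

lemma not_mem_po {π ρ : RR} (h : PO π) (h' : PO ρ) (hne : π ≠ ρ) : π ∉ sp ρ := by
  intro h1
  rw [Ideal.mem_span_singleton] at h1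
  exact hne (KD.eq_of_dvd h' h h1).symm

lemma sl_fj {π ρ : RR} (h : PO π) (h' : PO ρ) (hne : π ≠ ρ) : sl (fj ρ) (fj π) = sl π ρ := by
  have h2' : ∀ x : ZMod 2, x + x = 0 := CharTwo.add_self_eq_zero
  have h1 : sl (fj ρ) (fj π) = te ρ * te π + sl ρ π := by
    unfold sl
    rw [sy_fj, fj_eq h, map_mul, map_intCast, cj_cj, Pool.Agent.T2h78.TW.sy_mul h'.pr]
    obtain ⟨h3, h4⟩ := Pool.Agent.T2h78.TW.sl_sgz h' (te π)
    rw [lg_mul h4 (sy_sgn (not_mem_po h h' hne)), h3]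
  have h3 := KD.rcp h h' hne
  rw [h1]
  linear_combination -h3 + h2' (sl ρ π)

/-! ### the determinant -/

/-- the entries -/
noncomputable def en (S : Finset RR) (π ρ : RR) : ZMod 2 :=
  if π = ρ then lg (e7 π) + ∑ k ∈ S.erase π, sl k π else sl ρ π

/-- the matrix -/
noncomputable def MT (S : Finset RR) : Matrix S S (ZMod 2) := Matrix.of fun i j => en S i.1 j.1

lemma sol_iff (S : Finset RR) (v : RR → ZMod 2) :
    KD.Sol S v ↔ (MT S).mulVec (fun i : S => v i.1) = 0 := by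
  have key : ∀ i : S, (MT S).mulVec (fun i : S => v i.1) i =
      KD.cc i.1 * v i.1 + ∑ ρ ∈ S, KD.cs i.1 ρ * (v ρ + v i.1) := by
    intro i
    have h1 : (MT S).mulVec (fun i : S => v i.1) i = ∑ ρ ∈ S, en S i.1 ρ * v ρ := by
      rw [← Finset.sum_coe_sort S (fun ρ => en S i.1 ρ * v ρ)]
      rfl
    rw [h1, ← Finset.add_sum_erase S _ i.2, ← Finset.add_sum_erase S (fun ρ => KD.cs i.1 ρ * (v ρ + v i.1)) i.2]
    have h2 : en S i.1 i.1 = lg (e7 i.1) + ∑ k ∈ S.erase i.1, sl k i.1 := if_pos rfl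
    have h3 : KD.cs i.1 i.1 = 0 := if_pos rfl
    have h4 : ∑ ρ ∈ S.erase i.1, en S i.1 ρ * v ρ = ∑ ρ ∈ S.erase i.1, sl ρ i.1 * v ρ := by
      refine Finset.sum_congr rfl fun ρ hρ => ?_
      unfold en
      rw [if_neg (Finset.ne_of_mem_erase hρ).symm]
    have h5 : ∑ ρ ∈ S.erase i.1, KD.cs i.1 ρ * (v ρ + v i.1) =
        ∑ ρ ∈ S.erase i.1, sl ρ i.1 * v ρ + (∑ ρ ∈ S.erase i.1, sl ρ i.1) * v i.1 := by
      rw [Finset.sum_mul, ← Finset.sum_add_distrib]
      refine Finset.sum_congr rfl fun ρ hρ => ?_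
      unfold KD.cs
      rw [if_neg (Finset.ne_of_mem_erase hρ).symm, mul_add]
    rw [h2, h3, h4, h5]
    unfold KD.cc
    ring
  constructor
  · intro h
    funext i
    rw [key i]
    exact h i.1 i.2
  · intro h π hπ
    rw [← key ⟨π, hπ⟩, h]
    rfl

lemma gd_iff_det (S : Finset RR) : KD.Gd S ↔ (MT S).det ≠ 0 := by
  constructor
  · intro h h0
    obtain ⟨w, hw, hw0⟩ := Matrix.exists_mulVec_eq_zero_iff.2 h0
    let v : RR → ZMod 2 := fun π => if h : π ∈ S then w ⟨π, h⟩ else 0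
    have hv : (fun i : S => v i.1) = w := by
      ext i
      simp [v]
    have h1 := h v ((sol_iff S v).2 (by rw [hv]; exact hw0))
    apply hw
    rw [← hv]
    funext i
    exact h1 i.1 i.2
  · intro h v hv π hπ
    have h1 := Matrix.eq_zero_of_mulVec_eq_zero h ((sol_iff S v).1 hv)
    exact congrFun h1 ⟨π, hπ⟩

lemma en_fj {S : Finset RR} (hc : Cl S) {π ρ : RR} (hπ : π ∈ S) (hρ : ρ ∈ S) :
    en (cjS S) (fj π) (fj ρ) = en S ρ π := by
  have h2' : ∀ x : ZMod 2, x + x = 0 := CharTwo.add_self_eq_zero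
  have hS := hc.1
  by_cases he : π = ρ
  · subst he
    unfold en
    rw [if_pos rfl, if_pos rfl]
    have h1 : (cjS S).erase (fj π) = (S.erase π).image fj := by
      ext x
      simp only [cjS, Finset.mem_erase, Finset.mem_image]
      constructor
      · rintro ⟨h1, y, hy, rfl⟩
        exact ⟨y, ⟨fun h => h1 (by rw [h]; rfl), hy⟩, rfl⟩
      · rintro ⟨y, ⟨h1, hy⟩, rfl⟩
        exact ⟨fun h => h1 (fj_inj (hS y hy) (hS π hπ) h), y, hy, rfl⟩
    rw [h1, Finset.sum_image (fun x hx y hy hxy => fj_inj (hS x (Finset.mem_of_mem_erase hx))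
      (hS y (Finset.mem_of_mem_erase hy)) hxy)]
    have h3 : ∑ x ∈ S.erase π, sl (fj x) (fj π) = ∑ x ∈ S.erase π, (te π * te x + sl x π) := by
      refine Finset.sum_congr rfl fun x hx => ?_
      have hx' := Finset.mem_erase.1 hx
      rw [sl_fj (hS π hπ) (hS x hx'.2) hx'.1.symm]
      have := KD.rcp (hS π hπ) (hS x hx'.2) hx'.1.symm
      linear_combination this - h2' (sl x π)
    have h4 : te π + ∑ x ∈ S.erase π, te x = 0 := by
      rw [Finset.add_sum_erase S te hπ]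
      exact hc.2
    have h5 : te π * te π = te π := by
      have : ∀ x : ZMod 2, x * x = x := by decide
      exact this _
    rw [h3, Finset.sum_add_distrib, ← Finset.mul_sum, cc_fj (hS π hπ)]
    linear_combination te π * h4 - h5
  · have h1 : fj π ≠ fj ρ := fun h => he (fj_inj (hS π hπ) (hS ρ hρ) h)
    unfold en
    rw [if_neg h1, if_neg (Ne.symm he), sl_fj (hS π hπ) (hS ρ hρ) he]

/-- the bijection -/
noncomputable def eS {S : Finset RR} (hc : Cl S) : S ≃ cjS S :=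
  Equiv.ofBijective (fun i : S => (⟨fj i.1, Finset.mem_image_of_mem _ i.2⟩ : cjS S)) (by
    constructor
    · intro i j hij
      have := congrArg Subtype.val hij
      exact Subtype.ext (fj_inj (hc.1 i.1 i.2) (hc.1 j.1 j.2) this)
    · rintro ⟨x, hx⟩
      obtain ⟨y, hy, rfl⟩ := Finset.mem_image.1 hx
      exact ⟨⟨y, hy⟩, rfl⟩)

lemma det_cj {S : Finset RR} (hc : Cl S) : (MT (cjS S)).det = (MT S).det := by
  rw [← Matrix.det_submatrix_equiv_self (eS hc) (MT (cjS S)), ← Matrix.det_transpose (MT S)]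
  congr 1
  ext i j
  exact en_fj hc i.2 j.2

lemma cl_cj {S : Finset RR} (hc : Cl S) : Cl (cjS S) := by
  constructor
  · intro x hx
    obtain ⟨y, hy, rfl⟩ := Finset.mem_image.1 hx
    exact fj_po (hc.1 y hy)
  · have h1 : ∑ x ∈ cjS S, te x = ∑ x ∈ S, te (fj x) :=
      Finset.sum_image (fun x hx y hy hxy => fj_inj (hc.1 x hx) (hc.1 y hy) hxy)
    rw [h1, Finset.sum_congr rfl fun x hx => te_fj (hc.1 x hx)]
    exact hc.2

lemma sgz_sum {S : Finset RR} (f : RR → ZMod 2) : ∏ x ∈ S, sgz (f x) = sgz (∑ x ∈ S, f x) := by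
  induction S using Finset.induction_on with
  | empty => rw [Finset.prod_empty, Finset.sum_empty, Pool.Agent.T2h78.TW.sgz_zero]
  | insert i U hi ih =>
    rw [Finset.prod_insert hi, Finset.sum_insert hi, Pool.Agent.T2h78.TW.sgz_add, ih]

lemma prod_cj {S : Finset RR} (hc : Cl S) : ∏ π ∈ cjS S, π = cj (∏ π ∈ S, π) := by
  have h1 : ∏ x ∈ cjS S, x = ∏ x ∈ S, fj x :=
    Finset.prod_image (fun x hx y hy hxy => fj_inj (hc.1 x hx) (hc.1 y hy) hxy)
  rw [h1, Finset.prod_congr rfl fun x hx => fj_eq (hc.1 x hx), Finset.prod_mul_distrib, map_prod,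
    ← Int.cast_prod, sgz_sum, hc.2, Pool.Agent.T2h78.TW.sgz_zero, Int.cast_one, one_mul]

/-! ### the series -/

lemma sp_map (g : RR) : (sp g).map cj = sp (cj g) := by
  rw [Ideal.map_span, Set.image_singleton]

/-- the conjugation of the ideals -/
noncomputable def idE : Ideal RR ≃ Ideal RR where
  toFun I := I.map cj
  invFun I := I.map cj
  left_inv I := by
    obtain ⟨g, rfl⟩ := exists_gen I
    simp only [sp_map, cj_cj]
  right_inv I := by
    obtain ⟨g, rfl⟩ := exists_gen I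
    simp only [sp_map, cj_cj]

lemma nm_map (I : Ideal RR) : nm (I.map cj) = nm I := by
  unfold nm
  congr 1
  exact Nat.card_congr (Ideal.quotientEquiv I (I.map cj) cjR rfl).symm.toEquiv

lemma psi_map (I : Ideal RR) : psi (I.map cj) = (starRingEnd ℂ) (psi I) := by
  obtain ⟨g, rfl⟩ := exists_gen I
  rw [sp_map, psi_sp, psi_sp, e7_cj, map_mul, e7_conj, cj_coe]

lemma prod_sy_neg {S : Finset RR} (hc : Cl S) (x : RR) :
    ∏ π ∈ S, sy π (-x) = ∏ π ∈ S, sy π x := by
  have h1 : ∀ π ∈ S, sy π (-x) = ((sgz (te π) : ℤ) : ℂ) * sy π x := by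
    intro π hπ
    have hp := hc.1 π hπ
    have e : -x = (-1) * x := by ring
    rw [e, Pool.Agent.T2h78.TW.sy_mul hp.pr, hp.sy_neg_one, sgz_te]
    split_ifs <;> push_cast <;> rfl
  rw [Finset.prod_congr rfl h1, Finset.prod_mul_distrib, ← Int.cast_prod, sgz_sum, hc.2,
    Pool.Agent.T2h78.TW.sgz_zero, Int.cast_one, one_mul]

lemma chS_sp {S : Finset RR} (hc : Cl S) (g : RR) : chS S (sp g) = ∏ π ∈ S, sy π g := by
  unfold chS
  have h1 : sp (Submodule.IsPrincipal.generator (sp g)) = sp g :=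
    Submodule.IsPrincipal.span_singleton_generator _
  rcases sp_eq h1 with h | h
  · rw [h]
  · rw [h, prod_sy_neg hc]

lemma chS_map {S : Finset RR} (hc : Cl S) (I : Ideal RR) : chS (cjS S) (I.map cj) = chS S I := by
  obtain ⟨g, rfl⟩ := exists_gen I
  rw [sp_map, chS_sp (cl_cj hc), chS_sp hc]
  have h1 : ∏ x ∈ cjS S, sy x (cj g) = ∏ x ∈ S, sy (fj x) (cj g) :=
    Finset.prod_image (fun x hx y hy hxy => fj_inj (hc.1 x hx) (hc.1 y hy) hxy)
  rw [h1]
  refine Finset.prod_congr rfl fun x _ => ?_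
  rw [sy_fj, cj_cj]

lemma chS_conj {S : Finset RR} (I : Ideal RR) : (starRingEnd ℂ) (chS S I) = chS S I := by
  unfold chS
  rw [map_prod]
  refine Finset.prod_congr rfl fun x _ => ?_
  rcases sy_val x (Submodule.IsPrincipal.generator I) with h | h
  · rw [h.2, map_zero]
  · rcases h.2 with h | h <;> rw [h]
    · rw [map_one]
    · rw [map_neg, map_one]

theorem isF_cj {S : Finset RR} (hc : Cl S) {F : ℂ → ℂ} (hF : IsF S F) :
    IsF (cjS S) (fun z => (starRingEnd ℂ) (F ((starRingEnd ℂ) z))) := by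
  refine ⟨?_, fun z hz => ?_⟩
  · intro z
    have h1 := (hF.1 ((starRingEnd ℂ) z)).conj_conj
    rw [Complex.conj_conj] at h1
    exact h1
  · have h1 := hF.2 ((starRingEnd ℂ) z) (by rw [Complex.conj_re]; exact hz)
    have h2 := h1.map (starRingEnd ℂ) Complex.continuous_conj
    rw [← idE.hasSum_iff]
    convert h2 using 1
    ext I
    simp only [Function.comp]
    show psi (I.map cj) * chS (cjS S) (I.map cj) * ((nm (I.map cj) : ℝ) : ℂ) ^ (-z) = _
    rw [psi_map, chS_map hc, nm_map, map_mul, map_mul, chS_conj]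
    congr 1
    have harg : (((nm I : ℝ) : ℂ)).arg ≠ Real.pi := by
      have h0 : (0 : ℝ) ≤ nm I := by
        unfold nm
        exact Nat.cast_nonneg _
      rw [Complex.arg_ofReal_of_nonneg h0]
      exact Real.pi_ne_zero.symm
    have h3 : ((nm I : ℝ) : ℂ) ^ (-(starRingEnd ℂ) z) =
        (starRingEnd ℂ) (((nm I : ℝ) : ℂ) ^ (-z)) := by
      rw [← map_neg, Complex.cpow_conj _ _ harg, Complex.conj_ofReal]
    rw [h3, Complex.conj_conj]

theorem t_GCJ : S_GCJ := by
  intro S hc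
  refine ⟨cl_cj hc, ?_, prod_cj hc, ?_, fun F hF => isF_cj hc hF⟩
  · exact Finset.card_image_of_injOn (fun x hx y hy hxy => fj_inj (hc.1 x hx) (hc.1 y hy) hxy)
  · rw [gd_iff_det, gd_iff_det, det_cj hc]

end Pool.Agent.T2h16.KE
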