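import Pool.Agent.T2h16.KE.Stm

/-!
# TASK HCK (helper33): the character of `D = ∏ S` is a primitive Hecke character of conductor `(D)`
-/

set_option autoImplicit false
set_option linter.all false

open scoped Classical

namespace Pool.Agent.T2h16.KE

open Finset
open Pool.Agent.Y698 (RR cX cY nR aR fR exists_gen not_coprime_iff)
open Pool.Agent.Y698.SG (sy sy_per sy_val)
open Pool.Agent.W192.HK (sp nm HC)
open Pool.Agent.T2h78.TW (PO te sy_mul sy_one')
open Pool.Agent.T2h16.KD (Cl pq_cop pq_ne)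

/-- the sign of a class modulo two -/
noncomputable def sgC (x : ZMod 2) : ℂ := if x = 0 then 1 else -1

lemma sgC_add (x y : ZMod 2) : sgC (x + y) = sgC x * sgC y := by
  unfold sgC
  have h : ∀ z : ZMod 2, z = 0 ∨ z = 1 := by decide
  have h11 : (1 + 1 : ZMod 2) = 0 := by decide
  rcases h x with rfl | rfl <;> rcases h y with rfl | rfl <;> simp [h11]

lemma sgC_sum {S : Finset RR} (f : RR → ZMod 2) : sgC (∑ π ∈ S, f π) = ∏ π ∈ S, sgC (f π) := by
  induction S using Finset.induction_on with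
  | empty => simp [sgC]
  | insert a s ha ih => rw [Finset.sum_insert ha, Finset.prod_insert ha, sgC_add, ih]

lemma sy_neg_sgC {π : RR} (h : PO π) : sy π (-1) = sgC (te π) := by
  rw [h.sy_neg_one]
  unfold te sgC
  split_ifs with h1 h2 h2
  · rfl
  · exact absurd rfl h2
  · exact absurd h2 one_ne_zero
  · rfl

lemma prod_sy_neg {S : Finset RR} (hS : Cl S) (g : RR) :
    ∏ π ∈ S, sy π (-g) = ∏ π ∈ S, sy π g := by
  have h1 : ∏ π ∈ S, sy π (-1) = 1 := by
    rw [Finset.prod_congr rfl fun π hπ => sy_neg_sgC (hS.1 π hπ), ← sgC_sum, hS.2]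
    simp [sgC]
  have h2 : ∏ π ∈ S, sy π (-g) = ∏ π ∈ S, (sy π (-1) * sy π g) := by
    refine Finset.prod_congr rfl fun π hπ => ?_
    rw [← sy_mul (hS.1 π hπ).pr, neg_one_mul]
  rw [h2, Finset.prod_mul_distrib, h1, one_mul]

/-- the value at a principal ideal -/
lemma chS_sp {S : Finset RR} (hS : Cl S) (g : RR) : chS S (sp g) = ∏ π ∈ S, sy π g := by
  unfold chS
  have h1 : sp (Submodule.IsPrincipal.generator (sp g)) = sp g :=
    Submodule.IsPrincipal.span_singleton_generator _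
  rcases Pool.Agent.Y698.sp_eq h1 with h | h
  · rw [h]
  · rw [h, prod_sy_neg hS]

lemma sy_eq_zero_iff {π x : RR} : sy π x = 0 ↔ x ∈ sp π := by
  rcases sy_val π x with h | h
  · exact ⟨fun _ => h.1, fun _ => h.2⟩
  · refine ⟨fun h0 => ?_, fun h0 => absurd h0 h.1⟩
    rcases h.2 with h2 | h2 <;> rw [h2] at h0 <;> norm_num at h0

lemma cop_prod {S : Finset RR} (hS : ∀ π ∈ S, PO π) {g : RR} (h : ∀ π ∈ S, g ∉ sp π) :
    IsCoprime g (∏ π ∈ S, π) := by
  refine IsCoprime.prod_right fun π hπ => ?_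
  refine ((hS π hπ).pr.irreducible.coprime_iff_not_dvd.2 fun hd => ?_).symm
  exact h π hπ (Ideal.mem_span_singleton.2 hd)

theorem t_HCK : S_HCK := by
  intro S hS hne
  have hn0 : ∏ π ∈ S, π ≠ 0 := Finset.prod_ne_zero_iff.2 fun π hπ => pq_ne (hS.1 π hπ)
  refine ⟨?_, ?_, ?_, ?_, ?_⟩
  · rw [Ne, Ideal.span_singleton_eq_bot]
    exact hn0
  · intro I J
    obtain ⟨g, rfl⟩ := exists_gen I
    obtain ⟨h, rfl⟩ := exists_gen J
    rw [Ideal.span_singleton_mul_span_singleton, chS_sp hS, chS_sp hS, chS_sp hS,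
      ← Finset.prod_mul_distrib]
    exact Finset.prod_congr rfl fun π hπ => sy_mul (hS.1 π hπ).pr g h
  · intro I
    obtain ⟨g, rfl⟩ := exists_gen I
    rw [chS_sp hS, Finset.prod_eq_zero_iff, Ideal.span_singleton_eq_bot,
      Ideal.isCoprime_span_singleton_iff]
    constructor
    · rintro ⟨π, hπ, h0⟩
      right
      intro hc
      have h1 := Ideal.mem_span_singleton.1 (sy_eq_zero_iff.1 h0)
      have h2 : π ∣ ∏ ρ ∈ S, ρ := Finset.dvd_prod_of_mem _ hπ
      exact (hS.1 π hπ).pr.not_unit (hc.isUnit_of_dvd' h1 h2)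
    · rintro (rfl | hc)
      · obtain ⟨π, hπ⟩ := hne
        exact ⟨π, hπ, sy_eq_zero_iff.2 (zero_mem _)⟩
      · by_contra hcon
        push Not at hcon
        exact hc (cop_prod hS.1 fun π hπ h0 => hcon π hπ (sy_eq_zero_iff.2 h0))
  · intro α _ h
    rw [chS_sp hS, pow_zero]
    refine Finset.prod_eq_one fun π hπ => ?_
    have h1 : α - 1 ∈ sp π := Ideal.mem_span_singleton.2
      ((Finset.dvd_prod_of_mem _ hπ).trans (Ideal.mem_span_singleton.1 h))
    rw [sy_per π _ _ h1, sy_one' (hS.1 π hπ).pr]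
  · intro q' hq'
    obtain ⟨n', rfl⟩ := exists_gen q'
    -- a prime which does not divide `n'`
    obtain ⟨π, hπ, hπn⟩ : ∃ π ∈ S, ¬ π ∣ n' := by
      by_contra hcon
      push Not at hcon
      refine absurd hq'.2 (not_not.2 ?_)
      rw [Ideal.span_singleton_le_span_singleton]
      exact Finset.prod_dvd_of_coprime
        (fun π hπ ρ hρ hne => pq_cop (hS.1 π hπ) (hS.1 ρ hρ) hne) hcon
    have hPO := hS.1 π hπ
    obtain ⟨x, hx, hx1⟩ := hPO.sex
    have hc : IsCoprime (n' * ∏ ρ ∈ S.erase π, ρ) π := by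
      refine IsCoprime.mul_left ?_ ?_
      · exact (hPO.pr.irreducible.coprime_iff_not_dvd.2 hπn).symm
      · exact IsCoprime.prod_left fun ρ hρ =>
          pq_cop (hS.1 ρ (Finset.mem_of_mem_erase hρ)) hPO (Finset.ne_of_mem_erase hρ)
    obtain ⟨u, v, huv⟩ := hc
    set m : RR := ∏ ρ ∈ S.erase π, ρ with hm
    have hα1 : ∀ d : RR, d ∣ n' * m → (1 + (x - 1) * (u * (n' * m))) - 1 ∈ sp d := by
      intro d hd
      refine Ideal.mem_span_singleton.2 ?_
      have e : (1 + (x - 1) * (u * (n' * m))) - 1 = (x - 1) * u * (n' * m) := by ring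
      rw [e]
      exact Dvd.dvd.mul_left hd _
    have hα2 : (1 + (x - 1) * (u * (n' * m))) - x ∈ sp π := by
      refine Ideal.mem_span_singleton.2 ⟨-(x - 1) * v, ?_⟩
      linear_combination (x - 1) * huv
    have hs1 : ∀ ρ ∈ S, ρ ≠ π → sy ρ (1 + (x - 1) * (u * (n' * m))) = 1 := by
      intro ρ hρ hne'
      rw [sy_per ρ _ _ (hα1 ρ ((Finset.dvd_prod_of_mem (fun x => x)
        (Finset.mem_erase.2 ⟨hne', hρ⟩)).trans (Dvd.intro_left _ rfl))), sy_one' (hS.1 ρ hρ).pr]
    have hs2 : sy π (1 + (x - 1) * (u * (n' * m))) = -1 := by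
      rw [sy_per π _ _ hα2, hx1]
    have hnot : ∀ ρ ∈ S, (1 + (x - 1) * (u * (n' * m))) ∉ sp ρ := by
      intro ρ hρ h0
      have h1 := sy_eq_zero_iff.2 h0
      by_cases he : ρ = π
      · rw [he, hs2] at h1
        norm_num at h1
      · rw [hs1 ρ hρ he] at h1
        norm_num at h1
    refine ⟨1 + (x - 1) * (u * (n' * m)), ?_, ?_, ?_, ?_⟩
    · intro h0
      apply hnot π hπ
      rw [h0]
      exact zero_mem _
    · exact hα1 n' (Dvd.intro _ rfl)
    · rw [Ideal.isCoprime_span_singleton_iff]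
      exact cop_prod hS.1 hnot
    · rw [chS_sp hS, pow_zero, ← Finset.mul_prod_erase S _ hπ, hs2,
        Finset.prod_eq_one fun ρ hρ => hs1 ρ (Finset.mem_of_mem_erase hρ) (Finset.ne_of_mem_erase hρ)]
      norm_num

end Pool.Agent.T2h16.KE
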