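import Pool.Agent.T2h16.KE.Stm
import Pool.Agent.T2h59.KE.Hyp0
import Pool.Agent.Y698.Cls

/-!
# Project KE, task HYP (helper59): valuations
-/

set_option autoImplicit false

namespace Pool.Agent.T2h16.KE

open NumberField IsDedekindDomain WithZero
open Pool.Agent.Y698 (RR aR fR prime_fR)

theorem t_HYP : S_HYP := by
  intro K _ _ j t ht hc
  obtain ⟨h1, h2, h3, v, h4, h5, h6⟩ := Pool.Agent.T2h59.KE.hyp0 prime_fR j t ht hc
  refine ⟨⟨h1, h2, h3, v, h4, h5, h6⟩, ⟨?_, h2, h3, v, h4, h5, ?_⟩⟩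
  · linear_combination h1
  · have h7 : 2 * (1 - algebraMap (𝓞 K) K (j aR)) - 1 = -(2 * algebraMap (𝓞 K) K (j aR) - 1) := by
      ring
    show v.valuation K (2 * (1 - algebraMap (𝓞 K) K (j aR)) - 1) = _
    rw [h7, Valuation.map_neg]
    exact h6

end Pool.Agent.T2h16.KE
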