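import Pool.Agent.T2h16.KE.Stm
import Pool.Agent.T2h59.KE.Jex0

/-!
# Project KE, task JEX (helper59): the ring of integers of `ℚ(√-7)`
-/

set_option autoImplicit false

namespace Pool.Agent.T2h16.KE

theorem t_JEX : S_JEX := fun _ _ _ _ hδ hK => Pool.Agent.T2h59.KE.jex0 hδ hK

end Pool.Agent.T2h16.KE
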