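import Pool.Agent.T2h16.KE.Stm
import Pool.Agent.T2h78.TW.Fq

/-!
# Project KE, task LCK: the local conditions for a nonsingular matrix

After `Pool/Agent/T2h78/TW/{Al,Fq}.lean`, with `D` in the field.
-/

set_option autoImplicit false
set_option linter.unusedSectionVars false

open WithZero

namespace Pool.Agent.T2h16.KE.Lc

open Pool.Agent.Y698 Pool.Agent.Y698.SG Pool.Agent.R428.Q0 Pool.Agent.Y279.SG
open Pool.Agent.T2h78.TW hiding nrm
open Pool.Agent.W192.HK (sp)

section
variable {F : Type*} [Field F] [CharZero F]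

/-- the finite part of the descent -/
def FinD {ι : Type} (a : F) (ha : a ^ 2 = a - 2) (V : Set (Valuation F ℤᵐ⁰)) (D : F)
    (I : Finset ι) (π : ι → RR) : Prop :=
  ∀ (g : F) (T : Finset ι) (e : Bool), T ⊆ I →
    SqE g ((sgz (∑ i ∈ T, te (π i)) : F) * ((if e then (2 * a - 1) else 1) *
      ∏ i ∈ T, ev a ha (π i))) →
    (∀ w ∈ V, w 7 = 1 → w D < 1 → Sq w g ∨ Sq w (D * (2 * a - 1) * g)) →
    SDD a D g

variable {a : F} {ha : a ^ 2 = a - 2} {V : Set (Valuation F ℤᵐ⁰)}

/-- the classes of the elements of `R` -/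
lemma low (hbig : Big a ha 1 V) {D : F} {ι : Type} [DecidableEq ι] {I : Finset ι} {π : ι → RR}
    (hI1 : ∀ i ∈ I, PO (π i)) (hprod : ∏ i ∈ I, ev a ha (π i) = D) (hDD0 : D ≠ 0)
    (hw2 : ∀ w ∈ V, w 2 < 1 → w D = 1) (hI4 : FinD a ha V D I π)
    {g : RR} (hg0 : g ≠ 0)
    (hEv : ∀ w ∈ V, w (7 : F) = 1 → w D = 1 → Ev w (ev a ha g))
    (hUr : ∀ w ∈ V, w (7 : F) = 1 → w D = 1 → w (1 - a) < 1 → Ur w (ev a ha g))
    (hSq : ∀ w ∈ V, w 7 = 1 → w D < 1 → Sq w (ev a ha g) ∨
      Sq w (D * (2 * a - 1) * (ev a ha g))) : SDD a D (ev a ha g) := by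
  have hs0 := s_ne ha
  have hne : ∀ i ∈ I, ev a ha (π i) ≠ 0 := by
    rw [← hprod, Finset.prod_ne_zero_iff] at hDD0
    exact hDD0
  obtain ⟨T, hT, hT'⟩ := classes_set' (V := V) (r := 1) ha I π
    (fun i hi => ⟨(hI1 i hi).pr, hne i hi⟩)
    g hg0 (by
      intro w hw h7 hr hq
      refine hEv w hw h7 ?_
      rw [← hprod, map_prod]
      exact Finset.prod_eq_one hq)
  have hPR : (∏ i ∈ T, π i) ≠ 0 := by
    rw [Finset.prod_ne_zero_iff]
    intro q hq
    exact (hI1 q (hT hq)).pr.ne_zero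
  have hPF : (∏ i ∈ T, ev a ha (π i)) ≠ 0 := by
    rw [Finset.prod_ne_zero_iff]
    exact fun i hi => hne i (hT hi)
  have hev : ev a ha (g * ∏ i ∈ T, π i) = ev a ha g * ∏ i ∈ T, ev a ha (π i) := by
    rw [map_mul, map_prod]
  set ε : ℤ := sgz (∑ i ∈ T, te (π i)) with hε
  have hεε : (ε : F) * (ε : F) = 1 := by
    have h := sgz_sq (∑ i ∈ T, te (π i))
    rw [← hε] at h
    exact_mod_cast h
  have hε1 : ε = 1 ∨ ε = -1 := by
    rw [hε]
    unfold sgz
    split_ifs
    · exact Or.inl rfl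
    · exact Or.inr rfl
  -- a place above `ā`
  obtain ⟨w', hw'V, hw'1⟩ := hbig.ex (1 - aR) (by
    intro hu
    rcases isUnit_iff.1 hu with h | h
    · have h1 : aR = 0 := by linear_combination -h
      have h2 := cXY_aR.2
      rw [h1, cXY_zero.2] at h2
      norm_num at h2
    · have h1 : aR = ((2 : ℤ) : RR) := by push_cast; linear_combination -h
      have h2 := cXY_aR.2
      rw [h1, (cXY_int 2).2] at h2
      norm_num at h2)
  rw [map_sub, map_one, ev_aR] at hw'1
  have hw'2 := two_lt ha hw'1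
  have hw'2e : w' 2 = exp (-1) := by
    have := hbig.un w' hw'V 2 Nat.prime_two (by norm_num) (by norm_num)
      (by exact_mod_cast hw'2)
    exact_mod_cast this
  have hw'7 : w' 7 = 1 := by
    have e : (7 : F) = 1 + 2 * 3 := by norm_num
    rw [e, Valuation.map_add_eq_of_lt_left w', map_one]
    rw [map_one, map_mul]
    exact mul_lt_one_of_lt_of_le hw'2 (by exact_mod_cast w_nat (w := w') 3)
  have hw'D : w' D = 1 := hw2 w' hw'V hw'2
  have hUg0 := hUr w' hw'V hw'7 hw'D hw'1
  have hw'a : w' a = 1 := by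
    by_contra h1
    have h2 : w' a < 1 := lt_of_le_of_ne (wa_le ha) h1
    have h3 : w' (a + (1 - a)) < 1 := Valuation.map_add_lt w' h2 hw'1
    rw [add_sub_cancel, map_one] at h3
    exact lt_irrefl _ h3
  have hb : w' (1 - a) = w' 2 := by
    have := congrArg w' (ab_eq ha)
    rwa [map_mul, hw'a, one_mul] at this
  have hUg : Ur w' ((ε : F) * ev a ha (g * ∏ i ∈ T, π i)) := by
    rw [hev]
    have h3 := hUg0.mul hw'2 (ur_prodQ (ha := ha) hw'2 hb T π fun i hi => hI1 i (hT hi))
    convert h3 using 1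
    ring
  have hUs : Ur w' (2 * a - 1) := by
    refine ⟨1, one_ne_zero, ?_⟩
    have e : (2 * a - 1 - 1 ^ 2 : F) = -(2 * (1 - a)) := by ring
    rw [e, Valuation.map_neg, map_mul, hb, map_one, one_pow, mul_one, w_four, sq]
  have hnot := not_ur_neg_one (w := w') hw'2e
  have hback : ∀ t : F, SqE (ev a ha (g * ∏ i ∈ T, π i)) t →
      SqE (ev a ha g) (t * ∏ i ∈ T, ev a ha (π i)) := by
    rintro t ⟨z, hz, h⟩
    rw [hev] at h
    refine ⟨z / ∏ i ∈ T, ev a ha (π i), div_ne_zero hz hPF, ?_⟩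
    field_simp
    linear_combination h
  -- the classes `± 1`, `± √-7`
  have key : ∀ (e : Bool) (η : ℤ), (η = 1 ∨ η = -1) →
      SqE (ev a ha (g * ∏ i ∈ T, π i)) ((η : F) * (if e then (2 * a - 1) else 1)) →
      SDD a (D) (ev a ha g) := by
    intro e η hη h
    have hηη : (η : F) * (η : F) = 1 := by
      rcases hη with rfl | rfl <;> norm_num
    have hηε : η = ε := by
      by_contra hne'
      have h5 : (ε : F) * (η : F) = -1 := by
        rcases hη with rfl | rfl <;> rcases hε1 with h6 | h6 <;> rw [h6] at hne' ⊢ <;>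
          first | exact absurd rfl hne' | norm_num
      have h6 : SqE ((ε : F) * ev a ha (g * ∏ i ∈ T, π i)) (-(if e then (2 * a - 1) else 1)) := by
        have h7 := (SqE.refl (ε : F)).mul h
        rwa [← mul_assoc, h5, neg_one_mul] at h7
      have h8 : Ur w' (-(if e then (2 * a - 1) else 1) : F) := hUg.sqE hw'2 h6.symm
      cases e
      · simp only [Bool.false_eq_true, if_false] at h8
        exact hnot h8
      · simp only [if_true] at h8
        have h9 := hUs.mul hw'2 h8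
        refine hnot (h9.sqE hw'2 ⟨(2 * a - 1)⁻¹, inv_ne_zero (s_ne ha), ?_⟩)
        field_simp
    refine hI4 _ T e hT ?_ hSq
    have h10 := hback _ h
    rw [← hε, ← hηε]
    rwa [mul_assoc] at h10
  rcases classes1 ha hbig _ (mul_ne_zero hg0 hPR) hT' with h | h | h | h
  · exact key false 1 (Or.inl rfl) (by simpa using h)
  · exact key false (-1) (Or.inr rfl) (by simpa using h)
  · exact key true 1 (Or.inl rfl) (by simpa using h)
  · exact key true (-1) (Or.inr rfl) (by simpa using h)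


variable {b : F} (hb : b ^ 2 = b - 2)

include hb in
/-- the finite part -/
theorem finD_of {V : Set (Valuation F ℤᵐ⁰)} {D : F} {ι : Type} [DecidableEq ι]
    {I : Finset ι} {π : ι → RR} (hf : FO I π)
    (hDD : ∏ i ∈ I, ev b hb (π i) = D)
    (hA : ∀ i ∈ I, ∃ w ∈ V, w (ev b hb (π i)) = exp (-1) ∧ w 7 = 1 ∧
      ∀ x : RR, x ∉ sp (π i) → Sq w (ev b hb x) → sy (π i) x = 1)
    (he : ∑ i ∈ I, te (π i) = 0)
    (hNS : ∀ T ⊆ I, (∀ i ∈ I \ T, te (π i) * ∑ j ∈ T, te (π j) + ∑ j ∈ T, sl (π i) (π j) = 0) →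
      (∀ i ∈ T, te (π i) * ∑ j ∈ T, te (π j) + (sl (π i) fR + ∑ j ∈ I \ T, sl (π i) (π j)) = 0) →
        T = ∅) : FinD b hb V D I π := by
  classical
  intro g T e hT hg hloc
  have hs : ev b hb fR = 2 * b - 1 := by
    unfold fR
    rw [map_sub, map_mul, map_ofNat, ev_aR, map_one]
  have hfb : ∀ e : Bool, (if e then (2 * b - 1) else 1) = ev b hb (fb e) := by
    intro e
    cases e
    · exact (map_one _).symm
    · exact hs.symm
  have hs0 := s_ne hb
  set t : ZMod 2 := ∑ i ∈ T, te (π i) with ht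
  have htc : ∑ i ∈ I \ T, te (π i) = t := by
    have h8 := Finset.sum_sdiff (f := fun i => te (π i)) hT
    rw [he] at h8
    have h2' : ∀ x : ZMod 2, x + x = 0 := CharTwo.add_self_eq_zero
    rw [ht]
    linear_combination h8 - h2' (∑ k ∈ T, te (π k))
  have hev : ∀ (t : ZMod 2) (e : Bool) (U : Finset ι), (sgz t : F) *
      ((if e then (2 * b - 1) else 1) * ∏ i ∈ U, ev b hb (π i)) =
      ev b hb (((sgz t : ℤ) : RR) * (fb e * ∏ i ∈ U, π i)) := by
    intro t e U
    rw [map_mul, map_mul, map_prod, hfb, map_intCast]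
  have hsg : (sgz t : F) * (sgz t : F) = 1 := by exact_mod_cast congrArg (fun m : ℤ => (m : F)) (sgz_sq t)
  have hsg0 : (sgz t : F) ≠ 0 := left_ne_zero_of_mul_eq_one hsg
  have key : ∀ i ∈ I,
      (i ∉ T → te (π i) * t + ((if e then sl (π i) fR else 0) + ∑ j ∈ T, sl (π i) (π j)) = 0) ∧
      (i ∈ T → te (π i) * t + ((if !e then sl (π i) fR else 0) +
        ∑ j ∈ I \ T, sl (π i) (π j)) = 0) := by
    intro i hi
    obtain ⟨w, hw, hwi, hw7, hsq⟩ := hA i hi
    have hlt : w (ev b hb (π i)) < 1 := by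
      rw [hwi, ← exp_zero, exp_lt_exp]
      norm_num
    have hpi := (hf.po i hi).pr
    -- units
    have hunit : ∀ (t : ZMod 2) (e : Bool) (U : Finset ι), U ⊆ I → i ∉ U →
        w (ev b hb (((sgz t : ℤ) : RR) * (fb e * ∏ j ∈ U, π j))) = 1 := by
      intro t e U hU hiU
      refine le_antisymm (w_ev hb w _) (not_lt.1 fun h1 => ?_)
      exact prod_notin' hf hU hi hiU t e (Ideal.mem_span_singleton.2 ((undr_eq hb hpi hlt _).1 h1))
    have hU1 : ∀ (U : Finset ι), U ⊆ I → i ∉ U → w (∏ j ∈ U, ev b hb (π j)) = 1 := by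
      intro U hU hiU
      have h1 := hunit 0 false U hU hiU
      rw [← hev, sgz_zero] at h1
      simpa using h1
    have hsu : w (2 * b - 1) = 1 := by
      have h3 : w (2 * b - 1) ^ 2 = 1 := by
        rw [← map_pow, s_sq hb, Valuation.map_neg, hw7]
      exact (pow_eq_one_iff_of_nonneg zero_le two_ne_zero).1 h3
    have hse : ∀ e : Bool, w (if e then (2 * b - 1) else 1) = 1 := by
      intro e
      cases e
      · simp
      · simpa using hsu
    have hwt : w (sgz t : F) = 1 := by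
      rcases sgz_unit t with h | h <;> rw [h]
      · simp
      · push_cast
        rw [Valuation.map_neg, map_one]
    have hDe : w (D) = exp (-1) := by
      rw [← hDD, ← Finset.mul_prod_erase I _ hi, map_mul, hwi,
        hU1 _ (Finset.erase_subset _ _) (Finset.notMem_erase _ _), mul_one]
    have hD1 : w (D) < 1 := by
      rw [hDe, ← exp_zero, exp_lt_exp]
      norm_num
    have hodd : ∀ x : F, w x = exp (-1) → ¬ Ev w x := by
      rintro x hx ⟨z, hz, h⟩
      refine ev_odd_val hz h (k := -1) ?_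
      rw [hx]
      congr 1
    have hl := hloc w hw hw7 hD1
    constructor
    · intro hiT
      rcases hl with h1 | h1
      · have h2 := h1.sqE hg.symm
        rw [hev] at h2
        exact lg_syQ hf hT hi hiT t e (hsq _ (prod_notin' hf hT hi hiT t e) h2)
      · exfalso
        have h2 := (h1.sqE ((SqE.refl (D * (2 * b - 1))).mul hg).symm).ev
        refine hodd _ ?_ h2
        rw [map_mul, map_mul, map_mul, map_mul, hDe, hsu, hse, hU1 T hT hiT, hwt]
        simp
    · intro hiT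
      have hiT' : i ∉ I \ T := fun h => (Finset.mem_sdiff.1 h).2 hiT
      rcases hl with h1 | h1
      · exfalso
        have h2 := (h1.sqE hg.symm).ev
        refine hodd _ ?_ h2
        rw [map_mul, map_mul, hse, hwt, one_mul, one_mul, ← Finset.mul_prod_erase T _ hiT, map_mul,
          hwi, hU1 _ ((Finset.erase_subset _ _).trans hT) (Finset.notMem_erase _ _), mul_one]
      · have h2 := h1.sqE ((SqE.refl (D * (2 * b - 1))).mul hg).symm
        have hne : ∀ j ∈ I, ev b hb (π j) ≠ 0 := by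
          have hD0 : D ≠ 0 := by
            intro h0
            rw [h0, map_zero] at hDe
            exact exp_ne_zero hDe.symm
          rw [← hDD, Finset.prod_ne_zero_iff] at hD0
          exact hD0
        have hPT : ∏ j ∈ T, ev b hb (π j) ≠ 0 := by
          rw [Finset.prod_ne_zero_iff]
          exact fun j hj => hne j (hT hj)
        have h3 : Sq w ((sgz t : F) * ((if !e then (2 * b - 1) else 1) *
            ∏ j ∈ I \ T, ev b hb (π j))) := by
          refine h2.sqE ?_
          have e1 : D = (∏ j ∈ I \ T, ev b hb (π j)) * ∏ j ∈ T, ev b hb (π j) := by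
            rw [← hDD, Finset.prod_sdiff hT]
          rw [e1]
          cases e
          · refine ⟨(∏ j ∈ T, ev b hb (π j))⁻¹, inv_ne_zero hPT, ?_⟩
            simp only [Bool.not_false, if_true, Bool.false_eq_true, if_false, one_mul]
            field_simp
          · refine ⟨((2 * b - 1) * ∏ j ∈ T, ev b hb (π j))⁻¹,
              inv_ne_zero (mul_ne_zero hs0 hPT), ?_⟩
            simp only [Bool.not_true, Bool.false_eq_true, if_false, if_true, one_mul]
            field_simp
        rw [hev] at h3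
        exact lg_syQ hf Finset.sdiff_subset hi hiT' t (!e)
          (hsq _ (prod_notin' hf Finset.sdiff_subset hi hiT' t (!e)) h3)
  cases e with
  | false =>
    left
    have hT0 : T = ∅ := by
      refine hNS T hT (fun i hi => ?_) (fun i hi => ?_)
      · rw [Finset.mem_sdiff] at hi
        simpa using (key i hi.1).1 hi.2
      · simpa using (key i (hT hi)).2 hi
    have ht0 : t = 0 := by rw [ht, hT0, Finset.sum_empty]
    rw [ht0, hT0, sgz_zero] at hg
    simpa using hg
  | true =>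
    right
    have hT0 : I \ T = ∅ := by
      refine hNS (I \ T) Finset.sdiff_subset (fun i hi => ?_) (fun i hi => ?_)
      · rw [Finset.sdiff_sdiff_eq_self hT] at hi
        rw [htc]
        simpa using (key i (hT hi)).2 hi
      · rw [Finset.sdiff_sdiff_eq_self hT, htc]
        rw [Finset.mem_sdiff] at hi
        simpa using (key i hi.1).1 hi.2
    have hTI : T = I := Finset.Subset.antisymm hT (Finset.sdiff_eq_empty_iff_subset.1 hT0)
    have ht0 : t = 0 := by rw [← htc, hT0, Finset.sum_empty]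
    rw [ht0, hTI, hDD, sgz_zero] at hg
    simp only [if_true, Int.cast_one, one_mul] at hg
    rw [mul_comm] at hg
    exact hg

end

section
open NumberField IsDedekindDomain
open Pool.Agent.T2h16.KD (Cl Gd Sol cc cs)

variable {K : Type} [Field K] [NumberField K]

/-- the places -/
def VK (K : Type) [Field K] [NumberField K] : Set (Valuation K ℤᵐ⁰) :=
  {w | ∃ v : HeightOneSpectrum (𝓞 K), w = v.valuation K}

lemma ha_j (j : RR ≃+* 𝓞 K) : (j aR : K) ^ 2 = (j aR : K) - 2 := by
  have h1 : (j aR) ^ 2 = j aR - 2 := by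
    rw [← map_pow, aR_sq, map_sub, map_ofNat]
  have h2 := congrArg (fun x : 𝓞 K => (x : K)) h1
  push_cast at h2
  exact h2

lemma ev_j (j : RR ≃+* 𝓞 K) (x : RR) : ev (j aR : K) (ha_j j) x = (j x : K) := by
  have hd := dec x
  have h2 : j x = (cX x : 𝓞 K) + (cY x : 𝓞 K) * j aR := by
    conv_lhs => rw [hd]
    rw [map_add, map_mul, map_intCast, map_intCast]
  rw [ev_apply, h2]
  push_cast
  rfl

/-- the generator -/
lemma gen_v (j : RR ≃+* 𝓞 K) (v : HeightOneSpectrum (𝓞 K)) : ∃ π : RR, Prime π ∧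
    (∀ x : RR, v.valuation K (j x : K) < 1 ↔ π ∣ x) ∧ v.valuation K (j π : K) = exp (-1 : ℤ) := by
  set P : Ideal RR := v.asIdeal.comap (j : RR →+* 𝓞 K) with hP
  have hPp : P.IsPrime := by
    have := v.isPrime
    exact Ideal.comap_isPrime _ _
  obtain ⟨π, hπ⟩ := IsPrincipalIdealRing.principal P
  have hπ' : P = Ideal.span {π} := hπ
  have hmem : ∀ x : RR, j x ∈ v.asIdeal ↔ π ∣ x := by
    intro x
    rw [← Ideal.mem_span_singleton, ← hπ', hP]
    exact Iff.rfl
  have hv : v.asIdeal = Ideal.span {j π} := by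
    ext y
    obtain ⟨x, rfl⟩ := j.surjective y
    rw [hmem, Ideal.mem_span_singleton]
    constructor
    · exact fun h => map_dvd j h
    · intro h
      have h2 := map_dvd j.symm h
      rwa [j.symm_apply_apply, j.symm_apply_apply] at h2
  have hπ0 : π ≠ 0 := by
    rintro rfl
    apply v.ne_bot
    rw [hv, map_zero, Ideal.span_singleton_eq_bot]
  have hjπ0 : j π ≠ 0 := by
    intro h
    exact hπ0 (j.injective (by rw [h, map_zero]))
  refine ⟨π, ?_, ?_, ?_⟩
  · rw [← Ideal.span_singleton_prime hπ0, ← hπ']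
    exact hPp
  · intro x
    rw [← hmem]
    exact v.valuation_lt_one_iff_mem (K := K) (j x)
  · have h1 := v.intValuation_singleton hjπ0 hv
    rw [← h1]
    exact v.valuation_of_algebraMap (K := K) (j π)

/-- the place of a prime -/
lemma place (j : RR ≃+* 𝓞 K) {π : RR} (hπ : Prime π) : ∃ v : HeightOneSpectrum (𝓞 K),
    (∀ x : RR, v.valuation K (j x : K) < 1 ↔ π ∣ x) ∧ v.valuation K (j π : K) = exp (-1 : ℤ) := by
  have hp : Prime (j π) := (MulEquiv.prime_iff (j : RR ≃* 𝓞 K)).2 hπ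
  have hI : (Ideal.span {j π}).IsPrime := (Ideal.span_singleton_prime hp.ne_zero).2 hp
  set v : HeightOneSpectrum (𝓞 K) := ⟨Ideal.span {j π}, hI, by
    rw [Ne, Ideal.span_singleton_eq_bot]; exact hp.ne_zero⟩ with hv
  refine ⟨v, ?_, ?_⟩
  · intro x
    rw [show v.valuation K (j x : K) < 1 ↔ j x ∈ v.asIdeal from
      v.valuation_lt_one_iff_mem (K := K) (j x)]
    show j x ∈ Ideal.span {j π} ↔ _
    rw [Ideal.mem_span_singleton]
    constructor
    · intro h
      have h2 := map_dvd j.symm h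
      rwa [j.symm_apply_apply, j.symm_apply_apply] at h2
    · exact fun h => map_dvd j h
  · have h1 := v.intValuation_singleton hp.ne_zero rfl
    rw [← h1]
    exact v.valuation_of_algebraMap (K := K) (j π)

lemma nR_lt {π : RR} (h : Prime π) : 1 < nR π := by
  have h1 := nR_pos h.ne_zero
  by_contra hcon
  exact h.not_isUnit (unit_of_nR (by omega))

/-- no rational prime but seven is divisible by a square -/
lemma unr {p : ℕ} (hp : p.Prime) (h7 : p ≠ 7) {π : RR} (hπ : Prime π) : ¬ π * π ∣ ((p : ℕ) : RR) := by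
  rintro ⟨u, hu⟩
  have h1 := congrArg nR hu
  have hpn : nR ((p : ℕ) : RR) = (p : ℤ) ^ 2 := by
    unfold nR
    rw [(cXY_nat p).1, (cXY_nat p).2]
    ring
  rw [hpn, nR_mul, nR_mul] at h1
  have h2 := nR_lt hπ
  have hu0 : 0 ≤ nR u := nR_nonneg u
  obtain ⟨m, hm⟩ : ∃ m : ℕ, nR π = m := ⟨(nR π).toNat, by omega⟩
  obtain ⟨k, hk⟩ : ∃ k : ℕ, nR u = k := ⟨(nR u).toNat, by omega⟩
  rw [hm, hk] at h1
  have h3 : p ^ 2 = m * m * k := by exact_mod_cast h1
  have h4 : m ∣ p := by
    rw [← Nat.pow_dvd_pow_iff (two_ne_zero)]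
    exact ⟨k, by rw [h3]; ring⟩
  have h5 : m = p := (Nat.dvd_prime hp).1 h4 |>.resolve_left (by rintro rfl; omega)
  have h6 : k = 1 := by
    rw [h5] at h3
    have : p * p * k = p * p * 1 := by rw [← h3]; ring
    exact Nat.eq_of_mul_eq_mul_left (Nat.mul_pos hp.pos hp.pos) this
  rw [h6] at hk
  have h7' := isUnit_iff.1 (unit_of_nR (by rw [hk]; rfl))
  set x := cX π with hx
  set y := cY π with hy
  have hc := cXY_mul π π
  rw [← hx, ← hy] at hc
  have hc2 : ∃ ε : ℤ, (ε = 1 ∨ ε = -1) ∧ (x * x - 2 * y * y) * ε = p ∧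
      (x * y + y * x + y * y) * ε = 0 := by
    rcases h7' with h | h <;> rw [h] at hu
    · refine ⟨1, Or.inl rfl, ?_, ?_⟩
      · have h8 := congrArg cX hu
        rw [(cXY_nat p).1, mul_one, hc.1] at h8
        rw [h8, mul_one]
      · have h8 := congrArg cY hu
        rw [(cXY_nat p).2, mul_one, hc.2] at h8
        rw [← h8, zero_mul]
    · refine ⟨-1, Or.inr rfl, ?_, ?_⟩
      · have h8 := congrArg cX hu
        rw [(cXY_nat p).1, mul_neg, mul_one, (cXY_neg _).1, hc.1] at h8
        rw [h8]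
        ring
      · have h8 := congrArg cY hu
        rw [(cXY_nat p).2, mul_neg, mul_one, (cXY_neg _).2, hc.2] at h8
        linear_combination -h8
  obtain ⟨ε, hε, h8, h9⟩ := hc2
  have hεε : ε * ε = 1 := by rcases hε with rfl | rfl <;> norm_num
  have h10 : y * (2 * x + y) = 0 := by linear_combination ε * h9 - y * (2 * x + y) * hεε
  have hsq : ∀ z : ℤ, (p : ℤ) ≠ z * z := by
    intro z hz
    have h11 : p = z.natAbs * z.natAbs := by
      have := congrArg Int.natAbs hz
      rwa [Int.natAbs_mul, Int.natAbs_natCast] at this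
    exact Irreducible.not_isSquare hp ⟨_, h11⟩
  rcases mul_eq_zero.1 h10 with h11 | h11
  · rw [h11] at h8
    have h12 : (p : ℤ) = x * x * ε := by rw [← h8]; ring
    rcases hε with rfl | rfl
    · exact hsq x (by rw [h12]; ring)
    · have h13 : (0 : ℤ) < p := by exact_mod_cast hp.pos
      nlinarith [mul_self_nonneg x]
  · have h12 : y = -2 * x := by linarith
    rw [h12] at h8
    have h13 : (7 : ℤ) ∣ p := ⟨-(x * x) * ε, by rw [← h8]; ring⟩
    have h14 : 7 ∣ p := by exact_mod_cast h13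
    exact h7 ((Nat.prime_dvd_prime_iff_eq (by norm_num) hp).1 h14).symm

lemma bigK (j : RR ≃+* 𝓞 K) : Big (j aR : K) (ha_j j) 1 (VK K) := by
  constructor
  · intro g hg
    have h1 : ¬ IsUnit (j g) := fun h => hg ((MulEquiv.isUnit_map (j : RR ≃* 𝓞 K)).1 h)
    obtain ⟨M, hM, hgM⟩ := exists_max_ideal_of_mem_nonunits (a := j g) h1
    have hM0 : M ≠ ⊥ := Ring.ne_bot_of_isMaximal_of_not_isField hM (RingOfIntegers.not_isField K)
    refine ⟨_, ⟨⟨M, hM.isPrime, hM0⟩, rfl⟩, ?_⟩
    rw [ev_j]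
    exact (HeightOneSpectrum.valuation_lt_one_iff_mem (K := K) _ (j g)).2 hgM
  · rintro w ⟨v, rfl⟩ p hp h7 - hlt
    obtain ⟨π, hπ, h1, h2⟩ := gen_v j v
    have e : ∀ n : ℕ, (n : K) = (j ((n : ℕ) : RR) : K) := by
      intro n
      rw [map_natCast]
      push_cast
      rfl
    rw [e] at hlt ⊢
    obtain ⟨c, hc⟩ := (h1 _).1 hlt
    have h3 : ¬ π ∣ c := by
      rintro ⟨d, rfl⟩
      exact unr hp h7 hπ ⟨d, by rw [hc]; ring⟩
    have h4 : v.valuation K (j c : K) = 1 := by
      refine le_antisymm (v.valuation_le_one (K := K) (j c)) (not_lt.1 fun h => h3 ((h1 c).1 h))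
    have h5 : (j ((p : ℕ) : RR) : K) = (j π : K) * (j c : K) := by
      rw [hc, map_mul]
      rfl
    rw [h5, map_mul, h2, h4, mul_one]

/-- the residue classes -/
lemma sq_sy (j : RR ≃+* 𝓞 K) {π : RR} (v : HeightOneSpectrum (𝓞 K))
    (hv : ∀ x : RR, v.valuation K (j x : K) < 1 ↔ π ∣ x) {x : RR} (hx : x ∉ sp π)
    (h : Sq (v.valuation K) (j x : K)) : sy π x = 1 := by
  obtain ⟨z, hz0, hz⟩ := h
  have hx1 : v.valuation K (j x : K) = 1 :=
    le_antisymm (v.valuation_le_one (K := K) (j x)) (not_lt.1 fun h =>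
      hx (Ideal.mem_span_singleton.2 ((hv x).1 h)))
  have hz2 := Sq.val hz
  rw [hx1] at hz2
  have hz1 : v.valuation K z = 1 := (pow_eq_one_iff_of_nonneg zero_le two_ne_zero).1 hz2.symm
  obtain ⟨y', hy'⟩ := v.exists_valuation_sub_lt_of_integer (K := K) hz1.le 1
  obtain ⟨y, rfl⟩ := j.surjective y'
  have hy : v.valuation K ((j y : K) - z) < 1 := hy'
  have h1 : v.valuation K (j (x - y * y) : K) < 1 := by
    have e : (j (x - y * y) : K) = ((j x : K) - z ^ 2) - ((j y : K) - z) * ((j y : K) + z) := by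
      rw [map_sub, map_mul]
      push_cast
      ring
    rw [e]
    refine Valuation.map_sub_lt _ ?_ ?_
    · rw [hz1, one_pow] at hz
      exact hz
    · rw [map_mul]
      refine mul_lt_one_of_lt_of_le hy ?_
      exact (Valuation.map_add _ _ _).trans (max_le (v.valuation_le_one (K := K) (j y)) hz1.le)
  rw [hv] at h1
  unfold sy
  rw [if_neg hx, if_pos]
  refine ⟨Ideal.Quotient.mk _ y, ?_⟩
  rw [← map_mul, Ideal.Quotient.eq, Ideal.mem_span_singleton]
  exact h1

/-- the kernel -/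
lemma ker {S : Finset RR} (hcl : Cl S) (hG : Gd S) {T : Finset RR} (hT : T ⊆ S)
    (h1 : ∀ i ∈ S \ T, te i * ∑ j ∈ T, te j + ∑ j ∈ T, sl i j = 0)
    (h2 : ∀ i ∈ T, te i * ∑ j ∈ T, te j + (sl i fR + ∑ j ∈ S \ T, sl i j) = 0) : T = ∅ := by
  classical
  have h2' : ∀ x : ZMod 2, x + x = 0 := CharTwo.add_self_eq_zero
  have hsum : ∑ i ∈ S \ T, te i = ∑ i ∈ T, te i := by
    have h8 := Finset.sum_sdiff (f := fun i => te i) hT
    rw [hcl.2] at h8
    linear_combination h8 - h2' (∑ k ∈ T, te k)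
  have hr : ∀ i ∈ S, ∀ k ∈ S, i ≠ k → sl k i = te i * te k + sl i k := by
    intro i hi k hk hik
    have h3 := Pool.Agent.T2h16.KD.t_RCP i k (hcl.1 i hi) (hcl.1 k hk) hik
    linear_combination h3 - h2' (sl i k)
  have hsol : Sol S (fun i => if i ∈ T then 1 else 0) := by
    intro i hi
    by_cases hiT : i ∈ T
    · have e1 : ∑ ρ ∈ S, cs i ρ * ((if ρ ∈ T then (1 : ZMod 2) else 0) + (if i ∈ T then 1 else 0)) =
          ∑ ρ ∈ S \ T, (te i * te ρ + sl i ρ) := by
        rw [← Finset.sum_sdiff hT]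
        have e2 : ∑ ρ ∈ T, cs i ρ * ((if ρ ∈ T then (1 : ZMod 2) else 0) + (if i ∈ T then 1 else 0)) = 0 := by
          refine Finset.sum_eq_zero fun ρ hρ => ?_
          rw [if_pos hρ, if_pos hiT, h2', mul_zero]
        rw [e2, add_zero]
        refine Finset.sum_congr rfl fun ρ hρ => ?_
        rw [Finset.mem_sdiff] at hρ
        have hne : i ≠ ρ := fun h => hρ.2 (h ▸ hiT)
        rw [if_neg hρ.2, if_pos hiT, zero_add, mul_one]
        unfold cs
        rw [if_neg hne]
        exact hr i hi ρ hρ.1 hne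
      show Pool.Agent.T2h16.KD.cc i * (if i ∈ T then (1 : ZMod 2) else 0) + _ = 0
      rw [e1, if_pos hiT, mul_one, Finset.sum_add_distrib, ← Finset.mul_sum, hsum]
      have h3 := h2 i hiT
      rw [Pool.Agent.T2h16.KD.sl_fR (hcl.1 i hi)] at h3
      unfold Pool.Agent.T2h16.KD.cc
      linear_combination h3
    · have e1 : ∑ ρ ∈ S, cs i ρ * ((if ρ ∈ T then (1 : ZMod 2) else 0) + (if i ∈ T then 1 else 0)) =
          ∑ ρ ∈ T, (te i * te ρ + sl i ρ) := by
        rw [← Finset.sum_sdiff hT]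
        have e2 : ∑ ρ ∈ S \ T, cs i ρ * ((if ρ ∈ T then (1 : ZMod 2) else 0) + (if i ∈ T then 1 else 0)) = 0 := by
          refine Finset.sum_eq_zero fun ρ hρ => ?_
          rw [Finset.mem_sdiff] at hρ
          rw [if_neg hρ.2, if_neg hiT, add_zero, mul_zero]
        rw [e2, zero_add]
        refine Finset.sum_congr rfl fun ρ hρ => ?_
        have hne : i ≠ ρ := fun h => hiT (h ▸ hρ)
        rw [if_pos hρ, if_neg hiT, add_zero, mul_one]
        unfold cs
        rw [if_neg hne]
        exact hr i hi ρ (hT hρ) hne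
      show Pool.Agent.T2h16.KD.cc i * (if i ∈ T then (1 : ZMod 2) else 0) + _ = 0
      rw [e1, if_neg hiT, mul_zero, zero_add, Finset.sum_add_distrib, ← Finset.mul_sum]
      exact h1 i (Finset.mem_sdiff.2 ⟨hi, hiT⟩)
  rw [Finset.eq_empty_iff_forall_notMem]
  intro i hi
  have h3 := hG _ hsol i (hT hi)
  simp only [if_pos hi] at h3
  exact one_ne_zero h3

end

end Pool.Agent.T2h16.KE.Lc

namespace Pool.Agent.T2h16.KE

open Pool.Agent.Y698 Pool.Agent.Y698.SG
open Pool.Agent.T2h78.TW hiding nrm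
open Pool.Agent.W192.HK (sp)
open NumberField IsDedekindDomain

theorem t_LCK : S_LCK := by
  classical
  intro K _ _ j S t hcl hprod hG d hd
  have ha := Lc.ha_j j
  have hDD : ∏ i ∈ S, ev (j aR : K) ha i = 1 + 4 * (j t : K) := by
    rw [← map_prod, hprod, Lc.ev_j, map_add, map_mul, map_one, map_ofNat]
    push_cast
    rfl
  have hfo : FO S (fun i : RR => i) := by
    refine ⟨fun i hi => hcl.1 i hi, fun i hi k hk hne hmem => hne ?_⟩
    exact (Pool.Agent.T2h16.KD.eq_of_dvd (hcl.1 k hk) (hcl.1 i hi)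
      (Ideal.mem_span_singleton.1 hmem)).symm
  have hfin : Lc.FinD (j aR : K) ha (Lc.VK K) (1 + 4 * (j t : K)) S (fun i : RR => i) := by
    refine Lc.finD_of ha hfo hDD ?_ hcl.2 fun T hT h1 h2 => Lc.ker hcl hG hT h1 h2
    intro π hπ
    have hpo := hcl.1 π hπ
    obtain ⟨v, hv1, hv2⟩ := Lc.place j hpo.pr
    refine ⟨_, ⟨v, rfl⟩, ?_, ?_, ?_⟩
    · rw [Lc.ev_j]
      exact hv2
    · have e : (7 : K) = (j 7 : K) := by
        rw [map_ofNat]
        rfl
      rw [e]
      refine le_antisymm (v.valuation_le_one (K := K) (j 7)) (not_lt.1 fun h => ?_)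
      have h1 := (hv1 7).1 h
      have h2 : π ∣ fR * fR := by
        have e2 : (7 : RR) = -(fR * fR) := by linear_combination fR_sq
        rw [e2, dvd_neg] at h1
        exact h1
      have h3 : π ∣ fR := (hpo.pr.dvd_or_dvd h2).elim id id
      exact hpo.pr.not_isUnit (hpo.cop.isUnit_of_dvd' h3 dvd_rfl)
    · intro x hx h
      rw [Lc.ev_j] at h
      exact Lc.sq_sy j v hv1 hx h
  have hD0 : (1 + 4 * (j t : K)) ≠ 0 := by
    rw [← hDD, Finset.prod_ne_zero_iff]
    intro i hi
    rw [Lc.ev_j]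
    intro h
    have h1 : j i = 0 := by exact_mod_cast h
    exact (hcl.1 i hi).pr.ne_zero (j.injective (by rw [h1, map_zero]))
  have hw2 : ∀ w ∈ Lc.VK K, w 2 < 1 → w (1 + 4 * (j t : K)) = 1 := by
    rintro w ⟨v, rfl⟩ h2
    have h4 : v.valuation K (4 * (j t : K)) < 1 := by
      have e : (4 : K) = 2 * 2 := by norm_num
      rw [map_mul, e, map_mul]
      exact mul_lt_one_of_lt_of_le (mul_lt_one_of_lt_of_le h2 h2.le)
        (v.valuation_le_one (K := K) (j t))
    rw [Valuation.map_add_eq_of_lt_left _ (by rwa [map_one]), map_one]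
  -- the class
  obtain ⟨p', q', hq', hpq⟩ := IsFractionRing.div_surjective (A := 𝓞 K) d
  obtain ⟨p, rfl⟩ := j.surjective p'
  obtain ⟨q, rfl⟩ := j.surjective q'
  have hq0 : (j q : K) ≠ 0 := by
    have h1 := nonZeroDivisors.ne_zero hq'
    exact_mod_cast h1
  have hd0 := hd.1
  have hdpq : d = (j p : K) / (j q : K) := hpq.symm
  have hg : SqE d (ev (j aR : K) ha (p * q)) := by
    refine ⟨(j q : K)⁻¹, inv_ne_zero hq0, ?_⟩
    rw [Lc.ev_j, map_mul, hdpq]
    push_cast
    field_simp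
  have hg0 : p * q ≠ 0 := by
    intro h0
    obtain ⟨z, -, h⟩ := hg
    rw [h0, map_zero, zero_mul] at h
    exact hd0 h
  have hfinal := Lc.low (ha := ha) (Lc.bigK j) (fun i hi => hcl.1 i hi) hDD hD0 hw2 hfin hg0
    (by
      rintro w ⟨v, rfl⟩ h7 hD
      exact ((hd.2 v h7).1 hD).1.sqE hg.symm)
    (by
      rintro w ⟨v, rfl⟩ h7 hD h1
      exact (((hd.2 v h7).1 hD).2 h1).sqE (two_lt ha h1) hg.symm)
    (by
      rintro w ⟨v, rfl⟩ h7 hD
      rcases (hd.2 v h7).2 hD with h1 | h1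
      · exact Or.inl (h1.sqE hg.symm)
      · exact Or.inr (h1.sqE ((SqE.refl _).mul hg.symm)))
  rcases hfinal with h1 | h1
  · exact Or.inl (hg.trans h1)
  · exact Or.inr (hg.trans h1)

end Pool.Agent.T2h16.KE
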