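import Pool.Agent.T2h16.KE.Stm
import Pool.Agent.Y696.CTK.LF
import Pool.Agent.Y696.EP

/-!
# Project KE, task LK: the `L`-function of `EX K t` over `K = ℚ(√-7)`
-/

set_option autoImplicit false
set_option linter.all false

namespace Pool.Agent.T2h16.KE

namespace LKf

open NumberField IsDedekindDomain WeierstrassCurve
open Pool.Agent.Y698 hiding PD
open Pool.Agent.Y698.SG (sy lg sy_val sy_sgn sy_per)
open Pool.Agent.W192.HK (sp HC)
open Pool.Agent.T2h78.TW (PO te sl sy_mul sy_one')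
open Pool.Agent.T2h16.KD (Cl chi chi_rec chi_neg_one sg_sum sg_zero eq_of_dvd mem_sp)
open Pool.Agent.Y703.CQ (sg)
open Pool.Agent.W189.NF (aV eV redMap Ov redMap_eq_zero card_res finite_res redMap_surjective)
open Pool.Agent.Y696 (HBd)
open Pool.Agent.Y696.CTK (coe_comp isUnit_of_notMem valL_unit valL_gen)
/-! ### the count over the field of two elements -/

lemma card_two (x : ZMod 2) : Nat.card (AP (EX (ZMod 2) x)) = if x = 0 then 1 else 3 := by
  have h : Nat.card (AP (EX (ZMod 2) x)) = Nat.card {Q : ZMod 2 × ZMod 2 //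
      Q.2 ^ 2 + Q.1 * Q.2 = Q.1 ^ 3 + (1 + x) * Q.1 ^ 2 + 1} := by
    refine Nat.card_congr (Equiv.subtypeEquivRight fun Q => ?_)
    rw [WeierstrassCurve.Affine.equation_iff]
    unfold EX
    simp only
    revert Q x
    decide
  rw [h, Nat.card_eq_fintype_card, Fintype.card_subtype]
  clear h
  revert x
  decide

open scoped Classical

/-! ### the primes -/

lemma ab_two : aR * (1 - aR) = 2 := by linear_combination -aR_sq

lemma fR_pow : fR ^ 6 = -343 := by
  have h : fR ^ 6 = (fR ^ 2) ^ 3 := by ring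
  rw [h, fR_sq]
  norm_num

lemma nR_aR : nR aR = 2 := by
  unfold nR
  rw [cXY_aR.1, cXY_aR.2]
  norm_num

lemma cXY_bR : cX (1 - aR) = 1 ∧ cY (1 - aR) = -1 := by
  have h : (1 - aR : RR) = 1 + -aR := by ring
  rw [h]
  rw [(cXY_add _ _).1, (cXY_add _ _).2, (cXY_neg _).1, (cXY_neg _).2, cXY_one.1, cXY_one.2,
    cXY_aR.1, cXY_aR.2]
  norm_num

lemma nR_bR' : nR (1 - aR) = 2 := by
  unfold nR
  rw [cXY_bR.1, cXY_bR.2]
  norm_num

lemma prime_aR : Prime aR := (irr_of_prime_norm (by rw [nR_aR]; exact Nat.prime_two)).prime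

lemma prime_bR : Prime (1 - aR) := (irr_of_prime_norm (by rw [nR_bR']; exact Nat.prime_two)).prime

lemma prime_fR : Prime fR := irr_fR.prime

lemma sp_of_dvd {p g : RR} (hp : Prime p) (hg : Prime g) (h : p ∣ g) : sp g = sp p :=
  Ideal.span_singleton_eq_span_singleton.2 (hp.associated_of_dvd hg h).symm

lemma prime_cases {g : RR} (hg : Prime g) :
    sp g = sp fR ∨ sp g = sp aR ∨ sp g = sp (1 - aR) ∨ ∃ π, PO π ∧ sp g = sp π := by
  by_cases h7 : fR ∣ g
  · exact Or.inl (sp_of_dvd prime_fR hg h7)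
  have hd := Pool.Agent.Y279.SG.dec g
  by_cases hx : cX g % 2 = 0
  · right; left
    refine sp_of_dvd prime_aR hg ?_
    obtain ⟨k, hk⟩ : ∃ k, cX g = 2 * k := ⟨cX g / 2, by omega⟩
    refine ⟨(1 - aR) * (k : RR) + (cY g : RR), ?_⟩
    rw [hk] at hd
    push_cast at hd
    linear_combination hd - (k : RR) * ab_two
  by_cases hy : (cX g + cY g) % 2 = 0
  · right; right; left
    refine sp_of_dvd prime_bR hg ?_
    obtain ⟨m, hm⟩ : ∃ m, cX g = 2 * m - cY g := ⟨(cX g + cY g) / 2, by omega⟩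
    refine ⟨aR * (m : RR) - (cY g : RR), ?_⟩
    rw [hm] at hd
    push_cast at hd
    linear_combination hd - (m : RR) * ab_two
  · right; right; right
    have hsp := Pool.Agent.T2h78.TW.sp_nrm g
    refine ⟨Pool.Agent.T2h78.TW.nrm g, ⟨?_, ?_, ?_, ?_⟩, hsp.symm⟩
    · rcases Pool.Agent.T2h78.TW.nrm_cases g with h | h <;> rw [h]
      · exact hg
      · exact hg.neg
    · exact Pool.Agent.T2h78.TW.nrm_mod (by omega)
    · rcases Pool.Agent.T2h78.TW.nrm_cases g with h | h <;> rw [h]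
      · omega
      · rw [(cXY_neg g).2]
        omega
    · rw [prime_fR.irreducible.coprime_iff_not_dvd]
      rcases Pool.Agent.T2h78.TW.nrm_cases g with h | h <;> rw [h]
      · exact h7
      · rwa [dvd_neg]

/-! ### the character -/

lemma chS_sp {S : Finset RR} (hS : Cl S) (g : RR) : chS S (sp g) = ∏ π ∈ S, sy π g := by
  unfold chS
  have h1 : sp (Submodule.IsPrincipal.generator (sp g)) = sp g :=
    Submodule.IsPrincipal.span_singleton_generator _
  rcases sp_eq h1 with h | h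
  · rw [h]
  · rw [h]
    have e : ∀ π ∈ S, sy π (-g) = sg (te π) * sy π g := fun π hπ => by
      rw [← neg_one_mul, sy_mul (hS.1 π hπ).pr]
      exact congrArg (· * sy π g) (chi_neg_one (hS.1 π hπ))
    rw [Finset.prod_congr rfl e, Finset.prod_mul_distrib, ← sg_sum, hS.2, sg_zero, one_mul]

lemma chS_mul {S : Finset RR} (hS : Cl S) (I J : Ideal RR) :
    chS S (I * J) = chS S I * chS S J := by
  obtain ⟨g, rfl⟩ := exists_gen I
  obtain ⟨h, rfl⟩ := exists_gen J
  rw [Ideal.span_singleton_mul_span_singleton, chS_sp hS, chS_sp hS, chS_sp hS,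
    ← Finset.prod_mul_distrib]
  exact Finset.prod_congr rfl fun π hπ => sy_mul (hS.1 π hπ).pr _ _

lemma chS_top {S : Finset RR} (hS : Cl S) : chS S ⊤ = 1 := by
  have : (⊤ : Ideal RR) = sp 1 := by
    rw [eq_comm, Ideal.span_singleton_eq_top]
    exact isUnit_one
  rw [this, chS_sp hS]
  exact Finset.prod_eq_one fun π hπ => sy_one' (hS.1 π hπ).pr

/-- the summand -/
noncomputable def ff (S : Finset RR) (z : ℂ) (I : Ideal RR) : ℂ :=
  psi I * chS S I * ((Pool.Agent.W192.HK.nm I : ℝ) : ℂ) ^ (-z)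

lemma ff_bot (S : Finset RR) (z : ℂ) : ff S z ⊥ = 0 := by
  unfold ff
  have h : psi ⊥ = 0 := by
    rw [psi_HC.zero]
    exact Or.inl rfl
  rw [h, zero_mul, zero_mul]

lemma ff_top {S : Finset RR} (hS : Cl S) (z : ℂ) : ff S z ⊤ = 1 := by
  unfold ff
  rw [psi_top, chS_top hS, nm_nI, nI_top]
  simp

lemma ff_mul {S : Finset RR} (hS : Cl S) (z : ℂ) (I J : Ideal RR) :
    ff S z (I * J) = ff S z I * ff S z J := by
  unfold ff
  rw [psi_mul, chS_mul hS, nm_nI, nm_nI, nm_nI, nI_mul]
  push_cast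
  rw [Complex.natCast_mul_natCast_cpow]
  ring

lemma hasProd_F {S : Finset RR} (hS : Cl S) {F : ℂ → ℂ} (hF : IsF S F) {z : ℂ}
    (hz : 3 / 2 < z.re) :
    HasProd (fun P : HeightOneSpectrum RR => (1 - ff S z P.asIdeal)⁻¹) (F z) := by
  have h : HasSum (ff S z) (F z) := hF.2 z hz
  have h2 := Pool.Agent.Y696.hasProd_ideal (ff S z) (ff_bot S z) (ff_top hS z) (ff_mul hS z)
    h.summable
  rwa [h.tsum_eq] at h2

/-! ### the places -/

section
variable {K : Type} [Field K] [NumberField K] (j : RR ≃+* 𝓞 K)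

/-- the prime of `K` -/
noncomputable def pK (P : HeightOneSpectrum RR) : HeightOneSpectrum (𝓞 K) :=
  ⟨P.asIdeal.comap (j.symm : 𝓞 K →+* RR), P.isPrime.comap _, by
    intro h
    apply P.ne_bot
    rw [eq_bot_iff]
    intro x hx
    have h1 : j x ∈ P.asIdeal.comap (j.symm : 𝓞 K →+* RR) := by
      rw [Ideal.mem_comap]
      show j.symm (j x) ∈ P.asIdeal
      rwa [j.symm_apply_apply]
    rw [h, Ideal.mem_bot] at h1
    rw [Ideal.mem_bot]
    exact j.injective (by rw [h1, map_zero])⟩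

lemma mem_pK (P : HeightOneSpectrum RR) (x : RR) : j x ∈ (pK j P).asIdeal ↔ x ∈ P.asIdeal := by
  show j.symm (j x) ∈ P.asIdeal ↔ _
  rw [j.symm_apply_apply]

/-- the primes correspond -/
noncomputable def eK : HeightOneSpectrum RR ≃ HeightOneSpectrum (𝓞 K) :=
  Equiv.ofBijective (pK j) ⟨by
    intro P Q h
    apply HeightOneSpectrum.ext
    ext x
    rw [← mem_pK j P, ← mem_pK j Q, h], by
    intro v
    refine ⟨⟨v.asIdeal.comap (j : RR →+* 𝓞 K), v.isPrime.comap _, ?_⟩, ?_⟩
    · intro h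
      apply v.ne_bot
      rw [eq_bot_iff]
      intro x hx
      have h1 : j.symm x ∈ v.asIdeal.comap (j : RR →+* 𝓞 K) := by
        rw [Ideal.mem_comap]
        show j (j.symm x) ∈ v.asIdeal
        rwa [j.apply_symm_apply]
      rw [h, Ideal.mem_bot] at h1
      rw [Ideal.mem_bot]
      exact j.symm.injective (by rw [h1, map_zero])
    · apply HeightOneSpectrum.ext
      ext x
      obtain ⟨y, rfl⟩ := j.surjective x
      rw [mem_pK]
      rfl⟩

lemma pK_span {P : HeightOneSpectrum RR} {α : RR} (h : P.asIdeal = sp α) :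
    (pK j P).asIdeal = Ideal.span {j α} := by
  ext x
  obtain ⟨y, rfl⟩ := j.surjective x
  rw [mem_pK, h, Ideal.mem_span_singleton, Ideal.mem_span_singleton, map_dvd_iff j]

lemma nm_pK (P : HeightOneSpectrum RR) :
    Pool.Agent.W192.HK.nm P.asIdeal = ((Pool.Agent.H921R2.TatePole.nm (pK j P) : ℕ) : ℝ) := by
  unfold Pool.Agent.W192.HK.nm Pool.Agent.H921R2.TatePole.nm
  rw [Ideal.absNorm_apply, Submodule.cardQuot_apply]
  have h : (pK j P).asIdeal = P.asIdeal.map (j : RR →+* 𝓞 K) := Ideal.comap_symm j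
  have e := Ideal.quotientEquiv P.asIdeal (pK j P).asIdeal j h
  rw [Nat.card_congr e.toEquiv]

lemma nm_nR {P : HeightOneSpectrum RR} {α : RR} (h : P.asIdeal = sp α) :
    ((Pool.Agent.H921R2.TatePole.nm (pK j P) : ℕ) : ℤ) = nR α := by
  have h1 := nm_pK j P
  rw [h] at h1
  unfold Pool.Agent.W192.HK.nm at h1
  rw [← card_sp α]
  exact_mod_cast h1.symm

/-- additive reduction -/
theorem bad_of {v : HeightOneSpectrum (𝓞 K)} {t p r : 𝓞 K} (hp0 : p ≠ 0)
    (hp : v.asIdeal = Ideal.span {p}) (hr : r ∉ v.asIdeal)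
    (h : -343 * (1 + 4 * t) ^ 6 = p ^ 6 * r) :
    aV (EX K (t : K)) v = 0 ∧ eV (EX K (t : K)) v = 0 := by
  unfold aV eV
  have hb : (EX K (t : K)).baseChange (v.adicCompletion K) =
      EX (v.adicCompletion K) (algebraMap K (v.adicCompletion K) (t : K)) := EX_map _ _
  rw [hb]
  refine min_add' (v.adicCompletionIntegers K) (m := 6) (by norm_num) ?_
    (j := ((-3375 : ℤ) : v.adicCompletion K)) ?_ ?_
  · have h1 := congrArg (fun x : 𝓞 K => algebraMap K (v.adicCompletion K) (x : K)) h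
    have e : (EX (v.adicCompletion K) (algebraMap K (v.adicCompletion K) (t : K))).Δ =
        (algebraMap K (v.adicCompletion K) (p : K)) ^ 6 *
          algebraMap K (v.adicCompletion K) (r : K) := by
      rw [EX_Δ]
      simp only [map_mul, map_pow, map_neg, map_ofNat, map_add, map_one] at h1
      exact h1
    rw [e, map_mul, map_pow, valL_gen hp0 hp, valL_unit hr, mul_one, ← WithZero.exp_nsmul]
    congr 1
  · have hj7 : ((-3375 : ℤ) : v.adicCompletion K) =
        algebraMap (Ov v) (v.adicCompletion K) ((-3375 : ℤ) : Ov v) := (map_intCast _ _).symm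
    rw [hj7]
    exact HeightOneSpectrum.valuation_le_one _ _
  · rw [EX_c₄, EX_Δ]
    push_cast
    ring

/-- good reduction -/
theorem good_gen {v : HeightOneSpectrum (𝓞 K)} {t : RR} (h7 : j fR ∉ v.asIdeal)
    (hD : j (1 + 4 * t) ∉ v.asIdeal) :
    aV (EX K (j t : K)) v = (Nat.card (IsLocalRing.ResidueField (Ov v)) : ℤ) -
      Nat.card (AP (EX (IsLocalRing.ResidueField (Ov v)) (redMap v (j t)))) ∧
    eV (EX K (j t : K)) v = (Nat.card (IsLocalRing.ResidueField (Ov v)) : ℤ) := by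
  have hfin := finite_res v
  have hΔ : IsUnit (EX (Ov v) (algebraMap (𝓞 K) (Ov v) (j t))).Δ := by
    rw [EX_Δ]
    have e : (-343 : Ov v) * (1 + 4 * algebraMap (𝓞 K) (Ov v) (j t)) ^ 6 =
       (algebraMap (𝓞 K) (Ov v) (j fR)) ^ 6 * (algebraMap (𝓞 K) (Ov v) (j (1 + 4 * t))) ^ 6 := by
      rw [← map_pow, ← map_pow, fR_pow]
      simp only [map_mul, map_pow, map_neg, map_ofNat, map_add, map_one]
    rw [e]
    exact ((isUnit_of_notMem h7).pow 6).mul ((isUnit_of_notMem hD).pow 6)
  obtain ⟨c1, c2⟩ := min_count (v.adicCompletionIntegers K) hΔ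
    (W := (EX K (j t : K)).baseChange (v.adicCompletion K)) (by
      rw [EX_map, coe_comp]
      exact EX_map _ _)
  unfold aV eV
  rw [c1, c2, EX_map]
  exact ⟨rfl, rfl⟩

end

/-! ### the count over the field of two elements -/

lemma card_AP_two {k : Type} [Field k] (hk : Nat.card k = 2) {x : k} (hx : x = 0 ∨ x = 1) :
    ((Nat.card k : ℤ) - Nat.card (AP (EX k x)) : ℤ) = if x = 0 then 1 else -1 := by
  have hf : Finite k := Nat.finite_of_card_ne_zero (by rw [hk]; norm_num)
  let _ : Fintype k := Fintype.ofFinite k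
  let e : ZMod 2 ≃+* k := ZMod.ringEquivOfPrime k Nat.prime_two
    (by rw [← Nat.card_eq_fintype_card, hk])
  have h1 : ∀ y : ZMod 2, Nat.card (AP (EX k (e y))) = Nat.card (AP (EX (ZMod 2) y)) := by
    intro y
    symm
    refine Nat.card_congr (Equiv.subtypeEquiv (Equiv.prodCongr e.toEquiv e.toEquiv) fun Q => ?_)
    have h2 := WeierstrassCurve.Affine.map_equation (W := (EX (ZMod 2) y).toAffine)
      (f := (e : ZMod 2 →+* k)) e.injective Q.1 Q.2
    have h3 : (EX (ZMod 2) y).map (e : ZMod 2 →+* k) = EX k (e y) := EX_map _ _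
    rw [← h2]
    show _ ↔ (EX k (e y)).toAffine.Equation (e Q.1) (e Q.2)
    rw [← h3]
    rfl
  rcases hx with rfl | rfl
  · have h2 := h1 0
    rw [map_zero, card_two, if_pos rfl] at h2
    rw [hk, h2, if_pos rfl]
    norm_num
  · have h2 := h1 1
    rw [map_one, card_two, if_neg (by decide)] at h2
    rw [hk, h2, if_neg one_ne_zero]
    norm_num

/-! ### the comparison of the local factors -/

lemma conj_nat_cpow (n : ℕ) (z : ℂ) :
    (starRingEnd ℂ) ((n : ℂ) ^ z) = (n : ℂ) ^ (starRingEnd ℂ) z := by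
  rw [Complex.cpow_conj]
  · rw [Complex.conj_natCast]
  · rw [Complex.natCast_arg]
    exact Real.pi_ne_zero.symm

lemma sy_prod {π : RR} (hπ : PO π) (T : Finset RR) : sy π (∏ ρ ∈ T, ρ) = ∏ ρ ∈ T, sy π ρ := by
  induction T using Finset.induction_on with
  | empty => rw [Finset.prod_empty, Finset.prod_empty, sy_one' hπ.pr]
  | insert ρ T hρ ih => rw [Finset.prod_insert hρ, Finset.prod_insert hρ, sy_mul hπ.pr, ih]

lemma rec_prod {S : Finset RR} (hS : Cl S) {π : RR} (hπ : PO π) :
    ∏ ρ ∈ S, sy ρ π = sy π (∏ ρ ∈ S, ρ) := by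
  rw [sy_prod hπ]
  have h1 : ∀ ρ ∈ S, sy π ρ = sg (te π * te ρ) * sy ρ π := fun ρ hρ => chi_rec hπ (hS.1 ρ hρ)
  rw [Finset.prod_congr rfl h1, Finset.prod_mul_distrib, ← sg_sum, ← Finset.mul_sum, hS.2, mul_zero,
    sg_zero, one_mul]

lemma psi_conj {g : RR} (hg : g ∉ sp fR) :
    psi (sp g) * (starRingEnd ℂ) (psi (sp g)) = ((nR g : ℤ) : ℂ) := by
  rw [psi_sp, map_mul, e7_conj]
  have h1 := e7_sq hg
  have h2 := Complex.mul_conj (g : ℂ)
  rw [normSq_coe] at h2
  have h3 : e7 g * (g : ℂ) * (e7 g * (starRingEnd ℂ) (g : ℂ)) =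
      e7 g ^ 2 * ((g : ℂ) * (starRingEnd ℂ) (g : ℂ)) := by ring
  rw [h3, h1, one_mul, h2]
  push_cast
  rfl

section
variable {K : Type} [Field K] [NumberField K] (j : RR ≃+* 𝓞 K)

/-- the local identity -/
def Loc (S : Finset RR) (t : RR) (s : ℂ) (P : HeightOneSpectrum RR) : Prop :=
  HBd (aV (EX K (j t : K)) (pK j P)) (eV (EX K (j t : K)) (pK j P)) (Pool.Agent.H921R2.TatePole.nm (pK j P)) ∧
    (1 - (aV (EX K (j t : K)) (pK j P) : ℂ) * (Pool.Agent.H921R2.TatePole.nm (pK j P) : ℂ) ^ (-s) +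
      (eV (EX K (j t : K)) (pK j P) : ℂ) * ((Pool.Agent.H921R2.TatePole.nm (pK j P) : ℂ) ^ (-s)) ^ 2)⁻¹ =
    (1 - ff S s P.asIdeal)⁻¹ *
      (starRingEnd ℂ) ((1 - ff S ((starRingEnd ℂ) s) P.asIdeal)⁻¹)

variable {j}

lemma Loc.bad {S : Finset RR} {t : RR} {s : ℂ} {P : HeightOneSpectrum RR}
    (h1 : aV (EX K (j t : K)) (pK j P) = 0) (h2 : eV (EX K (j t : K)) (pK j P) = 0)
    (h3 : psi P.asIdeal = 0 ∨ chS S P.asIdeal = 0) : Loc j S t s P := by
  refine ⟨Or.inl ⟨h1, h2⟩, ?_⟩
  have h4 : ∀ z, ff S z P.asIdeal = 0 := by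
    intro z
    unfold ff
    rcases h3 with h | h <;> rw [h] <;> ring
  rw [h1, h2, h4, h4]
  simp

lemma Loc.good {S : Finset RR} {t : RR} {s : ℂ} {P : HeightOneSpectrum RR}
    (h1 : (aV (EX K (j t : K)) (pK j P) : ℂ) = chS S P.asIdeal *
      (psi P.asIdeal + (starRingEnd ℂ) (psi P.asIdeal)))
    (h2 : eV (EX K (j t : K)) (pK j P) = Pool.Agent.H921R2.TatePole.nm (pK j P))
    (h3 : chS S P.asIdeal = 1 ∨ chS S P.asIdeal = -1)
    (h4 : psi P.asIdeal * (starRingEnd ℂ) (psi P.asIdeal) = (Pool.Agent.H921R2.TatePole.nm (pK j P) : ℂ)) :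
    Loc j S t s P := by
  set x := psi P.asIdeal * chS S P.asIdeal with hx
  have hc : (starRingEnd ℂ) (chS S P.asIdeal) = chS S P.asIdeal := by
    rcases h3 with h | h <;> rw [h] <;> simp
  have hc2 : chS S P.asIdeal * chS S P.asIdeal = 1 := by
    rcases h3 with h | h <;> rw [h] <;> norm_num
  have hxx : x * (starRingEnd ℂ) x = (Pool.Agent.H921R2.TatePole.nm (pK j P) : ℂ) := by
    rw [hx, map_mul, hc, ← h4]
    linear_combination (psi P.asIdeal * (starRingEnd ℂ) (psi P.asIdeal)) * hc2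
  have hg : ∀ z, ff S z P.asIdeal = x * (Pool.Agent.H921R2.TatePole.nm (pK j P) : ℂ) ^ (-z) := by
    intro z
    unfold ff
    rw [nm_pK j P]
    push_cast
    rfl
  have ha : (aV (EX K (j t : K)) (pK j P) : ℂ) = x + (starRingEnd ℂ) x := by
    rw [h1, hx, map_mul, hc]
    ring
  have he : (eV (EX K (j t : K)) (pK j P) : ℂ) = (Pool.Agent.H921R2.TatePole.nm (pK j P) : ℂ) := by
    rw [h2]
    push_cast
    rfl
  clear_value x
  refine ⟨Or.inr ⟨x, ha, ?_, hxx⟩, ?_⟩
  · rw [he, hxx]
  · rw [hg, hg, ha, he, map_inv₀, map_sub, map_one, map_mul, conj_nat_cpow,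
      map_neg, Complex.conj_conj, ← mul_inv]
    congr 1
    linear_combination (-(((Pool.Agent.H921R2.TatePole.nm (pK j P) : ℕ) : ℂ) ^ (-s)) ^ 2) * hxx

variable (j)

theorem factorK (hsup : S_SUP) (htrc : S_TRC) {S : Finset RR} {t : RR} (hS : Cl S)
    (hD : ∏ π ∈ S, π = 1 + 4 * t) (s : ℂ) (P : HeightOneSpectrum RR) : Loc j S t s P := by
  obtain ⟨g, hg⟩ := exists_gen P.asIdeal
  have hg0 : g ≠ 0 := by
    rintro rfl
    apply P.ne_bot
    rw [hg, Ideal.span_singleton_eq_bot]
  have hgp : Prime g := by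
    rw [← Ideal.span_singleton_prime hg0]
    have := P.isPrime
    rwa [hg] at this
  -- membership
  have hmem : ∀ {p : RR}, P.asIdeal = sp p → ∀ x : RR, j x ∈ (pK j P).asIdeal ↔ p ∣ x := by
    intro p hp x
    rw [mem_pK, hp, mem_sp]
  have hprod : ∀ {p : RR}, Prime p → p ∣ 1 + 4 * t → ∃ π ∈ S, p ∣ π := by
    intro p hp hd
    rw [← hD] at hd
    exact (Prime.dvd_finsetProd_iff hp _).1 hd
  have hne0 : ∀ {p : RR}, Prime p → j p ≠ 0 := by
    intro p hp
    rw [Ne, map_eq_zero_iff j j.injective]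
    exact hp.ne_zero
  -- good places
  have hgood : ∀ {p : RR}, P.asIdeal = sp p → Prime p → ¬ p ∣ fR → ¬ p ∣ 1 + 4 * t →
      (((aV (EX K (j t : K)) (pK j P) : ℤ)) : ℂ) = chS S P.asIdeal *
        (psi P.asIdeal + (starRingEnd ℂ) (psi P.asIdeal)) → Loc j S t s P := by
    intro p hp hpp h7 h8 ha
    obtain ⟨c1, c2⟩ := good_gen j (v := pK j P) (t := t) (by rwa [hmem hp]) (by rwa [hmem hp])
    refine Loc.good ha ?_ ?_ ?_
    · rw [c2]
      exact_mod_cast card_res (pK j P)
    · rw [hp, chS_sp hS]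
      have hsg : ∀ ρ ∈ S, sy ρ p = 1 ∨ sy ρ p = -1 := by
        intro ρ hρ
        refine sy_sgn fun h => ?_
        rw [mem_sp] at h
        apply h8
        rw [← hD]
        have h9 : Associated ρ p := (hS.1 ρ hρ).pr.associated_of_dvd hpp h
        exact h9.symm.dvd.trans (Finset.dvd_prod_of_mem _ hρ)
      refine Finset.prod_induction _ (fun z : ℂ => z = 1 ∨ z = -1) ?_ (Or.inl rfl) hsg
      rintro a b (rfl | rfl) (rfl | rfl)
      · left; ring
      · right; ring
      · right; ring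
      · left; ring
    · rw [hp, psi_conj]
      · rw [← nm_nR j hp]
        push_cast
        rfl
      · intro h
        rw [mem_sp] at h
        exact h7 ((prime_fR.associated_of_dvd hpp h).symm.dvd)
  -- places above two
  have htwo : ∀ {p : RR}, P.asIdeal = sp p → Prime p → p ∣ 2 → nR p = 2 → e7 p = 1 →
      (p : ℂ) + (starRingEnd ℂ) (p : ℂ) = 1 → ∀ (n : ℤ), p ∣ t - (n : RR) →
      (∏ π ∈ S, sy π p = if Even n then 1 else -1) → Loc j S t s P := by
    intro p hp hpp h2 hn h7 htr n hn2 hs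
    have hodd : ¬ p ∣ 1 + 4 * t := by
      intro h
      apply hpp.not_unit
      apply isUnit_of_dvd_one
      have h4 : p ∣ 4 * t := by
        have : (4 : RR) * t = 2 * (2 * t) := by ring
        rw [this]
        exact Dvd.dvd.mul_right h2 _
      have := dvd_sub h h4
      rwa [add_sub_cancel_right] at this
    have hf : ¬ p ∣ fR := by
      intro h
      apply hpp.not_unit
      apply isUnit_of_dvd_one
      have h4 : p ∣ 2 * aR := Dvd.dvd.mul_right h2 _
      have := dvd_sub h4 h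
      have e : 2 * aR - fR = 1 := by unfold fR; ring
      rwa [e] at this
    refine hgood hp hpp hf hodd ?_
    obtain ⟨c1, c2⟩ := good_gen j (v := pK j P) (t := t) (by rwa [hmem hp]) (by rwa [hmem hp])
    have hcard : Nat.card (IsLocalRing.ResidueField (Ov (pK j P))) = 2 := by
      have h5 := nm_nR j hp
      rw [hn] at h5
      have h6 : Nat.card (IsLocalRing.ResidueField (Ov (pK j P))) = Pool.Agent.H921R2.TatePole.nm (pK j P) :=
        card_res (pK j P)
      rw [h6]
      exact_mod_cast h5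
    have h20 : (2 : IsLocalRing.ResidueField (Ov (pK j P))) = 0 := by
      have h5 : redMap (pK j P) (j 2) = 0 := by
        rw [redMap_eq_zero, hmem hp]
        exact h2
      rwa [map_ofNat, map_ofNat] at h5
    have hx : redMap (pK j P) (j t) = ((n : ℤ) : IsLocalRing.ResidueField (Ov (pK j P))) := by
      have h5 : redMap (pK j P) (j (t - (n : RR))) = 0 := by
        rw [redMap_eq_zero, hmem hp]
        exact hn2
      rw [map_sub, map_sub, map_intCast, map_intCast] at h5
      exact sub_eq_zero.1 h5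
    have hpsi : psi P.asIdeal + (starRingEnd ℂ) (psi P.asIdeal) = 1 := by
      rw [hp, psi_sp, h7, one_mul, htr]
    rw [hpsi, mul_one, hp, chS_sp hS, hs, c1]
    by_cases he : Even n
    · have hx0 : redMap (pK j P) (j t) = 0 := by
        obtain ⟨m, hm⟩ := he
        rw [hx, hm]
        push_cast
        linear_combination (m : IsLocalRing.ResidueField (Ov (pK j P))) * h20
      have h5 := card_AP_two hcard (x := redMap (pK j P) (j t)) (Or.inl hx0)
      rw [if_pos hx0] at h5
      rw [if_pos he, h5]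
      norm_num
    · have hx0 : redMap (pK j P) (j t) = 1 := by
        obtain ⟨m, hm⟩ := Int.not_even_iff_odd.1 he
        rw [hx, hm]
        push_cast
        linear_combination (m : IsLocalRing.ResidueField (Ov (pK j P))) * h20
      have h5 := card_AP_two hcard (x := redMap (pK j P) (j t)) (Or.inr hx0)
      rw [if_neg (by rw [hx0]; exact one_ne_zero)] at h5
      rw [if_neg he, h5]
      norm_num
  rcases prime_cases hgp with h | h | h | ⟨π, hπ, h⟩
  · -- the prime above seven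
    have hp : P.asIdeal = sp fR := by rw [hg, h]
    obtain ⟨b1, b2⟩ := bad_of (v := pK j P) (t := j t) (p := j fR)
      (r := (j (1 + 4 * t)) ^ 6) (hne0 prime_fR) (pK_span j hp) (by
        intro h1
        have h2 := (pK j P).isPrime.mem_of_pow_mem 6 h1
        rw [hmem hp] at h2
        obtain ⟨π, hπ, h3⟩ := hprod prime_fR h2
        exact prime_fR.not_unit ((hS.1 π hπ).cop.isUnit_of_dvd' dvd_rfl h3)) (by
        rw [← map_pow, fR_pow]
        simp only [map_mul, map_pow, map_neg, map_ofNat, map_add, map_one])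
    refine Loc.bad b1 b2 (Or.inl ?_)
    rw [hp, psi_sp]
    have h1 : e7 fR = 0 := e7_eq_zero.2 (Ideal.mem_span_singleton_self _)
    rw [h1, zero_mul]
  · have hp : P.asIdeal = sp aR := by rw [hg, h]
    refine htwo hp prime_aR ⟨1 - aR, ab_two.symm⟩ nR_aR ?_ ?_ (cX t) ?_ (hsup S t hS hD).1
    · unfold e7
      rw [r7_aR]
      have h : quadraticChar (ZMod 7) 4 = 1 := by decide
      rw [h, Int.cast_one]
    · rw [← cj_coe]
      have h1 : cj aR = 1 - aR := ev_aR _ _
      rw [h1]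
      push_cast
      ring
    · have hd := Pool.Agent.Y279.SG.dec t
      refine ⟨(cY t : RR), ?_⟩
      linear_combination hd
  · have hp : P.asIdeal = sp (1 - aR) := by rw [hg, h]
    refine htwo hp prime_bR ⟨aR, by linear_combination -ab_two⟩ nR_bR' ?_ ?_ (cX t + cY t) ?_
      (hsup S t hS hD).2
    · unfold e7
      have h2 : r7 (1 - aR) = 4 := r7_bR
      rw [h2]
      have h : quadraticChar (ZMod 7) 4 = 1 := by decide
      rw [h, Int.cast_one]
    · rw [← cj_coe]
      have h1 : cj (1 - aR) = aR := by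
        have h2 : cj aR = 1 - aR := ev_aR _ _
        rw [map_sub, map_one, h2]
        ring
      rw [h1]
      push_cast
      ring
    · have hd := Pool.Agent.Y279.SG.dec t
      refine ⟨-(cY t : RR), ?_⟩
      push_cast
      linear_combination hd
  · have hp : P.asIdeal = sp π := by rw [hg, h]
    by_cases hπS : π ∈ S
    · have hDs : (1 + 4 * t : RR) = π * ∏ ρ ∈ S.erase π, ρ := by
        rw [← hD, Finset.mul_prod_erase S (fun ρ => ρ) hπS]
      obtain ⟨b1, b2⟩ := bad_of (v := pK j P) (t := j t) (p := j π)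
        (r := (j fR) ^ 6 * (j (∏ ρ ∈ S.erase π, ρ)) ^ 6) (hne0 hπ.pr) (pK_span j hp) (by
          intro h1
          rcases (pK j P).isPrime.mem_or_mem h1 with h2 | h2
          · have h3 := (pK j P).isPrime.mem_of_pow_mem 6 h2
            rw [hmem hp] at h3
            exact hπ.pr.not_unit (hπ.cop.isUnit_of_dvd' h3 dvd_rfl)
          · have h3 := (pK j P).isPrime.mem_of_pow_mem 6 h2
            rw [hmem hp] at h3
            obtain ⟨ρ, hρ, h4⟩ := (Prime.dvd_finsetProd_iff hπ.pr _).1 h3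
            rw [Finset.mem_erase] at hρ
            exact hρ.1 (eq_of_dvd hπ (hS.1 ρ hρ.2) h4).symm) (by
          have h1 : (1 + 4 * j t : 𝓞 K) = j π * j (∏ ρ ∈ S.erase π, ρ) := by
            rw [← map_mul, ← hDs]
            simp only [map_mul, map_add, map_one, map_ofNat]
          rw [h1, ← map_pow j fR, fR_pow]
          simp only [map_neg, map_ofNat]
          ring)
      refine Loc.bad b1 b2 (Or.inr ?_)
      rw [hp, chS_sp hS]
      refine Finset.prod_eq_zero hπS ?_
      exact KD.chi_zero_iff.2 dvd_rfl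
    · have h7 : ¬ π ∣ fR := fun h1 => hπ.pr.not_unit (hπ.cop.isUnit_of_dvd' h1 dvd_rfl)
      have h8 : ¬ π ∣ 1 + 4 * t := by
        intro h1
        obtain ⟨ρ, hρ, h2⟩ := hprod hπ.pr h1
        exact hπS ((eq_of_dvd hπ (hS.1 ρ hρ) h2) ▸ hρ)
      refine hgood hp hπ.pr h7 h8 ?_
      obtain ⟨c1, c2⟩ := good_gen j (v := pK j P) (t := t) (by rwa [hmem hp]) (by rwa [hmem hp])
      have hfin := finite_res (pK j P)
      let φ : RR →+* IsLocalRing.ResidueField (Ov (pK j P)) :=
        (redMap (pK j P)).comp (j : RR →+* 𝓞 K)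
      have hφ : ∀ x, φ x = redMap (pK j P) (j x) := fun x => rfl
      have hker : ∀ x, φ x = 0 ↔ x ∈ sp π := by
        intro x
        rw [hφ, redMap_eq_zero, hmem hp, mem_sp]
      have hsurj : Function.Surjective φ := by
        intro y
        obtain ⟨x, rfl⟩ := redMap_surjective (pK j P) y
        obtain ⟨z, rfl⟩ := j.surjective x
        exact ⟨z, rfl⟩
      have h20 : (2 : IsLocalRing.ResidueField (Ov (pK j P))) ≠ 0 := by
        intro h1
        have h2 : φ 2 = 0 := by rw [map_ofNat]; exact h1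
        rw [hker, mem_sp] at h2
        exact hπ.pr.not_unit (hπ.odd.isUnit_of_dvd' h2 dvd_rfl)
      have hf0 : φ fR ≠ 0 := by
        rw [Ne, hker, mem_sp]
        exact h7
      have hφD : φ (1 + 4 * t) = 1 + 4 * φ t := by
        rw [map_add, map_mul, map_one, map_ofNat]
      have hD0 : 1 + 4 * φ t ≠ 0 := by
        rw [← hφD, Ne, hker, mem_sp]
        exact h8
      have h9 := htrc (IsLocalRing.ResidueField (Ov (pK j P))) φ π hsurj hπ.pr hker h20 hf0 (φ t) hD0
      rw [c1, ← hφ, h9, hp, chS_sp hS, rec_prod hS hπ, hD]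
      congr 1
      let _ : Fintype (IsLocalRing.ResidueField (Ov (pK j P))) := Fintype.ofFinite _
      rw [Pool.Agent.Y279.SG.sy_eq φ hsurj hker, hφD, quadraticChar_apply]
      unfold quadraticCharFun
      rw [if_neg hD0]
      split_ifs
      · norm_num
      · norm_num

end

end LKf

open LKf NumberField IsDedekindDomain Pool.Agent.Y698 in
/-- TASK LK -/
theorem t_LK : S_LKT := by
  intro hsup htrc K _ _ j S t hS hD F hF s hs
  have hsc : 3 / 2 < ((starRingEnd ℂ) s).re := by rwa [Complex.conj_re]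
  have h3 := hasProd_F hS hF hs
  have h4 := (hasProd_F hS hF hsc).map (starRingEnd ℂ) Complex.continuous_conj
  have h5 := h3.mul h4
  have hE : ∀ v : HeightOneSpectrum (𝓞 K), Pool.Agent.Y696.HBd
      (Pool.Agent.W189.NF.aV (EX K (j t : K)) v)
      (Pool.Agent.W189.NF.eV (EX K (j t : K)) v) (Pool.Agent.H921R2.TatePole.nm v) := by
    intro v
    obtain ⟨P, rfl⟩ := (eK j).surjective v
    exact (factorK j hsup htrc hS hD s P).1
  obtain ⟨h6, h7⟩ := Pool.Agent.Y696.LSeries_hasProd' (EX K (j t : K)) hE hs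
  refine ⟨h6, ?_⟩
  have h8 := (eK j).hasProd_iff.2 h7
  refine h5.unique (h8.congr_fun fun P => ?_)
  exact ((factorK j hsup htrc hS hD s P).2).symm

end Pool.Agent.T2h16.KE
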