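import Pool.Agent.T2h16.KE.Stm
import Pool.Agent.T2h20.KE.Pl
import Pool.Agent.W189.NF.Residue

/-!
# Project KE, task MINK: the equation is minimal at every finite place
-/

set_option autoImplicit false
set_option linter.unusedSectionVars false

open scoped Classical

namespace Pool.Agent.T2h16.KE

open NumberField IsDedekindDomain WeierstrassCurve WithZero
open Pool.Agent.Y698 (RR fR aR EX EX_Δ EX_map fR_sq)
open Pool.Agent.T2h20.KE (val_eq val_le jc_eq)

namespace MinK

section min
open IsDiscreteValuationRing IsLocalRing IsDedekindDomain.HeightOneSpectrum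
variable (R : Type) [CommRing R] [IsDomain R] [IsDiscreteValuationRing R] {L : Type}
  [Field L] [Algebra R L] [IsFractionRing R L]

theorem isIntegral_EX (x : R) : WeierstrassCurve.IsIntegral R (EX L (algebraMap R L x)) := by
  refine ⟨⟨EX R x, ?_⟩⟩
  exact (EX_map (algebraMap R L) x).symm

theorem isMinimal_EX (x : R)
    (h : ∀ u ∈ IsLocalRing.maximalIdeal R, ¬ u ^ 12 ∣ (343 * (1 + 4 * x) ^ 6 : R)) :
    WeierstrassCurve.IsMinimal R (EX L (algebraMap R L x)) := by
  have hint := isIntegral_EX R (L := L) x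
  refine ⟨⟨by
    change WeierstrassCurve.IsIntegral R
      ((1 : WeierstrassCurve.VariableChange L) • EX L (algebraMap R L x))
    rw [one_smul]
    exact hint, ?_⟩⟩
  intro C hC _
  have hC' : WeierstrassCurve.IsIntegral R (C • EX L (algebraMap R L x)) := hC
  change WeierstrassCurve.valuation_Δ_aux R (C • EX L (algebraMap R L x)) ≤
    WeierstrassCurve.valuation_Δ_aux R
      ((1 : WeierstrassCurve.VariableChange L) • EX L (algebraMap R L x))
  rw [one_smul, ← Subtype.coe_le_coe, valuation_Δ_aux_eq_of_isIntegral,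
    valuation_Δ_aux_eq_of_isIntegral, variableChange_Δ, EX_Δ, map_mul]
  have hu0 : ((C.u : Lˣ) : L) ≠ 0 := C.u.ne_zero
  have huv : ((C.u⁻¹ : Lˣ) : L) * ((C.u : Lˣ) : L) = 1 := by simp
  have hle : valuation L (maximalIdeal R) ((C.u⁻¹ : Lˣ) : L) ≤ 1 := by
    by_contra hlt
    rw [not_le] at hlt
    have h1 : valuation L (maximalIdeal R) ((C.u : Lˣ) : L) < 1 := by
      have h2 := congrArg (valuation L (maximalIdeal R)) huv
      rw [map_mul, map_one] at h2
      by_contra h3
      rw [not_lt] at h3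
      exact absurd h2 (one_lt_mul_of_lt_of_le hlt h3).ne'
    obtain ⟨u₀, hu₀⟩ := exists_lift_of_le_one (A := R) (K := L) h1.le
    have hmem : u₀ ∈ IsLocalRing.maximalIdeal R := by
      rw [← hu₀] at h1
      exact (valuation_lt_one_iff_mem (K := L) (maximalIdeal R) u₀).1 h1
    obtain ⟨r, hr⟩ := WeierstrassCurve.Δ_integral_of_isIntegral R (C • EX L (algebraMap R L x))
    rw [variableChange_Δ, EX_Δ] at hr
    refine h u₀ hmem ⟨-r, ?_⟩
    apply IsFractionRing.injective R L
    rw [map_mul, map_mul, map_neg, map_pow, map_pow, hr, hu₀, map_ofNat, map_add, map_mul,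
      map_one, map_ofNat]
    have h5 : ((C.u : Lˣ) : L) ^ 12 * (((C.u⁻¹ : Lˣ) : L)) ^ 12 = 1 := by
      rw [← mul_pow, mul_comm, huv, one_pow]
    linear_combination (-343 * (1 + 4 * algebraMap R L x) ^ 6) * h5
  calc valuation L (maximalIdeal R) (((C.u⁻¹ : Lˣ) : L) ^ 12) *
        valuation L (maximalIdeal R) (-343 * (1 + 4 * algebraMap R L x) ^ 6)
      ≤ 1 * valuation L (maximalIdeal R) (-343 * (1 + 4 * algebraMap R L x) ^ 6) := by
        rw [map_pow]
        gcongr
        exact pow_le_one₀ zero_le hle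
    _ = _ := one_mul _

end min

end MinK

theorem t_MINK : S_MINK := by
  intro K _ _ j t hsq hf v
  have hbc : (EX K (j t : K)).baseChange (v.adicCompletion K) =
      EX (v.adicCompletion K) (algebraMap (v.adicCompletionIntegers K) (v.adicCompletion K)
        (algebraMap (𝓞 K) (v.adicCompletionIntegers K) (j t))) := by
    unfold WeierstrassCurve.baseChange
    rw [EX_map]
    rfl
  rw [hbc]
  apply MinK.isMinimal_EX
  rintro u hu ⟨r, hr⟩
  have h1 : Valued.v (u : v.adicCompletion K) < 1 := (Pool.Agent.W189.NF.mem_max_iff v u).1 hu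
  have h2 : Valued.v (u : v.adicCompletion K) ≤ exp (-1 : ℤ) := by
    by_cases h0 : Valued.v (u : v.adicCompletion K) = 0
    · rw [h0]; exact zero_le
    · obtain ⟨n, hn⟩ : ∃ n : ℤ, Valued.v (u : v.adicCompletion K) = exp n :=
        ⟨log _, (exp_log h0).symm⟩
      rw [hn, ← exp_zero, exp_lt_exp] at h1
      rw [hn, exp_le_exp]
      omega
  have h3 : Valued.v (r : v.adicCompletion K) ≤ 1 := r.2
  have h4 : (343 : v.adicCompletion K) *
      (1 + 4 * algebraMap K (v.adicCompletion K) (j t : K)) ^ 6 =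
      (u : v.adicCompletion K) ^ 12 * (r : v.adicCompletion K) := by
    have := congrArg (algebraMap (v.adicCompletionIntegers K) (v.adicCompletion K)) hr
    rw [map_mul, map_mul, map_pow, map_pow, map_ofNat, map_add, map_mul, map_one, map_ofNat] at this
    exact this
  have h5 : Valued.v ((343 : v.adicCompletion K) *
      (1 + 4 * algebraMap K (v.adicCompletion K) (j t : K)) ^ 6) ≤ exp (-12 : ℤ) := by
    rw [h4, map_mul, map_pow]
    calc _ ≤ (exp (-1 : ℤ)) ^ 12 * 1 := by gcongr
      _ = exp (-12 : ℤ) := by rw [mul_one, ← exp_nsmul]; rfl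
  have h6 : (exp (-6 : ℤ) : ℤᵐ⁰) ≤ Valued.v ((343 : v.adicCompletion K) *
      (1 + 4 * algebraMap K (v.adicCompletion K) (j t : K)) ^ 6) := by
    have e1 : (343 : v.adicCompletion K) *
        (1 + 4 * algebraMap K (v.adicCompletion K) (j t : K)) ^ 6 =
        -(algebraMap K (v.adicCompletion K) (j (fR * (1 + 4 * t)) : K)) ^ 6 := by
      have e2 : ((j (fR * (1 + 4 * t)) : 𝓞 K) : K) = (j fR : K) * (1 + 4 * (j t : K)) := by
        rw [jc_eq, jc_eq, jc_eq, map_mul, map_add, map_one, map_mul, map_ofNat]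
      have e3 : ((j fR : 𝓞 K) : K) ^ 2 = -7 := by
        rw [jc_eq, ← map_pow, fR_sq, map_neg, map_ofNat]
      rw [e2, map_mul, mul_pow, map_add, map_mul, map_one, map_ofNat]
      have e4 : (algebraMap K (v.adicCompletion K) (j fR : K)) ^ 2 = -7 := by
        rw [← map_pow, e3, map_neg, map_ofNat]
      have e5 : (algebraMap K (v.adicCompletion K) (j fR : K)) ^ 6 = -343 := by
        calc _ = ((algebraMap K (v.adicCompletion K) (j fR : K)) ^ 2) ^ 3 := by ring
          _ = -343 := by rw [e4]; norm_num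
      rw [e5]
      ring
    rw [e1, Valuation.map_neg, map_pow, val_eq]
    calc (exp (-6 : ℤ) : ℤᵐ⁰) = (exp (-1 : ℤ)) ^ 6 := by rw [← exp_nsmul]; rfl
      _ ≤ _ := by
        have := val_le j v hsq hf
        gcongr
  have h7 := h6.trans h5
  rw [exp_le_exp] at h7
  norm_num at h7

end Pool.Agent.T2h16.KE
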