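import Pool.Agent.T2h59.KE.Per0

/-!
# Project KE, task PERK (helper59): the period lattice
-/

set_option autoImplicit false

namespace Pool.Agent.T2h16.KE

theorem t_PERK : S_PERK := Pool.Agent.T2h59.KE.perk_

end Pool.Agent.T2h16.KE
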