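import Pool.Agent.T2h7.KE.Shk

/-! # Project KE: task SHAK (helper7) -/

set_option autoImplicit false

theorem Pool.Agent.T2h16.KE.t_SHAK : Pool.Agent.T2h16.KE.S_SHAKT :=
  fun hsel _ _ _ _ _ h h' hB hA x hx => Pool.Agent.T2h7.KE.sha_twoK hsel h h' hB hA x hx
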