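import Pool.Agent.T2h16.KE.Stm

/-!
# Project KE: the cocycle `χ_d (0, 0)` with coefficients in `K`

Adapted from `Y79/SG/{Coc,Lot}.lean`, `Y945/SG/Cob.lean` and `sha_exV` of `Y698/SG/Cb.lean`.
-/

set_option autoImplicit false
set_option linter.unusedSectionVars false

namespace Pool.Agent.T2h16.KE.SHG

open WeierstrassCurve NumberField IsDedekindDomain
open Pool.Agent.TH841.SH.D (Pt act Gal Coch IsCoc IsCob LocTriv cob cob_zero)
open Pool.Agent.TH841.NF.D (Sha shaCoc)

section defs

variable (F : Type) [Field F] [CharZero F]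

lemma ns0 {a b : F} (hb : b ≠ 0) (L : Type) [Field L] [Algebra F L] :
    ((WG F a b).baseChange L).toAffine.Nonsingular 0 0 := by
  rw [Affine.nonsingular_zero]
  refine ⟨?_, Or.inr ?_⟩
  · exact map_zero (algebraMap F L)
  · intro h0
    exact hb ((algebraMap F L).injective (by rw [map_zero]; exact h0))

/-- the point `(0, 0)` -/
def T0 {a b : F} (hb : b ≠ 0) (L : Type) [Field L] [Algebra F L] : Pt (WG F a b) L :=
  Affine.Point.some 0 0 (ns0 F hb L)

open Classical in
/-- the cocycle `χ_d T` -/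
noncomputable def coc {a b : F} (hb : b ≠ 0) (d : F) : Coch (WG F a b) := fun σ =>
  if ∃ s : AlgebraicClosure F, s ^ 2 = algebraMap F (AlgebraicClosure F) d ∧ σ s ≠ s then
    T0 F hb (AlgebraicClosure F) else 0

end defs

section cocycle

variable {F : Type} [Field F]

lemma lc_apply (x : AlgebraicClosure F) : IsLocallyConstant (fun σ : Gal F => σ x) := by
  rw [IsLocallyConstant.iff_exists_open]
  intro σ
  have hx : IsIntegral F x := Algebra.IsIntegral.isIntegral x
  have : FiniteDimensional F (IntermediateField.adjoin F {x}) :=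
    IntermediateField.adjoin.finiteDimensional hx
  refine ⟨(fun τ => σ⁻¹ * τ) ⁻¹'
    ((IntermediateField.adjoin F {x}).fixingSubgroup : Set (AlgebraicClosure F ≃ₐ[F] AlgebraicClosure F)),
    (IntermediateField.fixingSubgroup_isOpen _).preimage (continuous_const_mul _), ?_, ?_⟩
  · show σ⁻¹ * σ ∈ (IntermediateField.adjoin F {x}).fixingSubgroup
    rw [inv_mul_cancel]
    exact one_mem _
  · intro τ hτ
    have h1 : σ⁻¹ * τ ∈ (IntermediateField.adjoin F {x}).fixingSubgroup := hτ
    rw [IntermediateField.mem_fixingSubgroup_iff] at h1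
    have h2 := h1 x (IntermediateField.mem_adjoin_simple_self F x)
    rw [AlgEquiv.mul_apply] at h2
    have h3 := congrArg σ h2
    rw [← AlgEquiv.mul_apply, mul_inv_cancel, AlgEquiv.one_apply] at h3
    exact h3

lemma exists_root (d : F) : ∃ s : AlgebraicClosure F, s ^ 2 = algebraMap F (AlgebraicClosure F) d :=
  IsAlgClosed.exists_pow_nat_eq _ two_pos

lemma ap_sq {d : F} {s : AlgebraicClosure F} (hs : s ^ 2 = algebraMap F (AlgebraicClosure F) d)
    (σ : Gal F) : σ s = s ∨ σ s = -s := by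
  apply sq_eq_sq_iff_eq_or_eq_neg.1
  rw [← map_pow, hs, AlgEquiv.commutes]

variable [CharZero F] {a b : F}

lemma coc_pos (hb : b ≠ 0) {d : F} {σ : Gal F}
    (hex : ∃ s : AlgebraicClosure F, s ^ 2 = algebraMap F (AlgebraicClosure F) d ∧ σ s ≠ s) :
    coc F (a := a) hb d σ = T0 F hb (AlgebraicClosure F) := if_pos hex

lemma coc_none (hb : b ≠ 0) {d : F} {σ : Gal F}
    (hex : ¬ ∃ s : AlgebraicClosure F, s ^ 2 = algebraMap F (AlgebraicClosure F) d ∧ σ s ≠ s) :
    coc F (a := a) hb d σ = 0 := if_neg hex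

lemma coc_eq (hb : b ≠ 0) {d : F} {s : AlgebraicClosure F}
    (hs : s ^ 2 = algebraMap F (AlgebraicClosure F) d) (σ : Gal F) :
    (σ s = s → coc F (a := a) hb d σ = 0) ∧
      (σ s ≠ s → coc F (a := a) hb d σ = T0 F hb (AlgebraicClosure F)) := by
  constructor
  · intro h1
    apply coc_none
    rintro ⟨t, h2, h3⟩
    apply h3
    rw [← hs] at h2
    rcases sq_eq_sq_iff_eq_or_eq_neg.1 h2 with rfl | rfl
    · exact h1
    · rw [map_neg, h1]
  · intro h1
    exact coc_pos hb ⟨s, hs, h1⟩

lemma T0_add (hb : b ≠ 0) :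
    T0 F (a := a) hb (AlgebraicClosure F) + T0 F hb (AlgebraicClosure F) = 0 := by
  refine @Affine.Point.add_of_Y_eq (AlgebraicClosure F) _
    ((WG F a b).baseChange (AlgebraicClosure F)).toAffine (Classical.decEq (AlgebraicClosure F))
    0 0 0 0 (ns0 F hb (AlgebraicClosure F)) (ns0 F hb (AlgebraicClosure F)) rfl ?_
  have h1 : ((WG F a b).baseChange (AlgebraicClosure F)).toAffine.a₁ = 0 :=
    map_zero (algebraMap F (AlgebraicClosure F))
  have h3 : ((WG F a b).baseChange (AlgebraicClosure F)).toAffine.a₃ = 0 :=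
    map_zero (algebraMap F (AlgebraicClosure F))
  rw [Affine.negY, h1, h3]
  ring

lemma act_T0 (hb : b ≠ 0) (σ : Gal F) :
    act (WG F a b) σ.toAlgHom (T0 F hb (AlgebraicClosure F)) = T0 F hb (AlgebraicClosure F) := by
  have h1 : act (WG F a b) σ.toAlgHom (T0 F hb (AlgebraicClosure F)) = (Affine.Point.some (σ 0) (σ 0)
    ((Affine.baseChange_nonsingular (WG F a b) σ.toAlgHom.injective ..).mpr
      (ns0 F hb (AlgebraicClosure F))) : Pt (WG F a b) (AlgebraicClosure F)) := rfl
  rw [h1]
  unfold T0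
  congr 1
  · exact map_zero σ
  · exact map_zero σ

lemma coc_coc (hb : b ≠ 0) (d : F) : IsCoc (WG F a b) (coc F hb d) := by
  classical
  obtain ⟨s, hs⟩ := exists_root (F := F) d
  constructor
  · have h1 : coc F (a := a) hb d = (fun x : AlgebraicClosure F =>
        if x = s then (0 : Pt (WG F a b) (AlgebraicClosure F)) else T0 F hb (AlgebraicClosure F)) ∘
        (fun σ : Gal F => σ s) := by
      funext σ
      show coc F hb d σ = if σ s = s then 0 else T0 F hb (AlgebraicClosure F)
      split_ifs with h2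
      · exact (coc_eq hb hs σ).1 h2
      · exact (coc_eq hb hs σ).2 h2
    rw [h1]
    exact (lc_apply s).comp _
  · intro σ τ
    have hm : (σ * τ) s = σ (τ s) := rfl
    rcases ap_sq hs τ with h1 | h1
    · rw [(coc_eq hb hs τ).1 h1, map_zero, add_zero]
      rw [h1] at hm
      by_cases h2 : σ s = s
      · rw [(coc_eq hb hs σ).1 h2, (coc_eq hb hs (σ * τ)).1 (hm.trans h2)]
      · rw [(coc_eq hb hs σ).2 h2, (coc_eq hb hs (σ * τ)).2 (by rw [hm]; exact h2)]
    · by_cases h0 : -s = s
      · rw [h0] at h1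
        rw [(coc_eq hb hs τ).1 h1, map_zero, add_zero]
        rw [h1] at hm
        by_cases h2 : σ s = s
        · rw [(coc_eq hb hs σ).1 h2, (coc_eq hb hs (σ * τ)).1 (hm.trans h2)]
        · rw [(coc_eq hb hs σ).2 h2, (coc_eq hb hs (σ * τ)).2 (by rw [hm]; exact h2)]
      · rw [(coc_eq hb hs τ).2 (by rw [h1]; exact h0), act_T0]
        rw [h1, map_neg] at hm
        by_cases h2 : σ s = s
        · rw [h2] at hm
          rw [(coc_eq hb hs σ).1 h2, (coc_eq hb hs (σ * τ)).2 (by rw [hm]; exact h0), zero_add]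
        · have h3 : σ s = -s := (ap_sq hs σ).resolve_left h2
          rw [h3, neg_neg] at hm
          rw [(coc_eq hb hs σ).2 h2, (coc_eq hb hs (σ * τ)).1 hm, T0_add]

lemma coc_two (hb : b ≠ 0) (d : F) : coc F (a := a) hb d + coc F hb d = 0 := by
  obtain ⟨s, hs⟩ := exists_root (F := F) d
  funext σ
  show coc F (a := a) hb d σ + coc F hb d σ = 0
  by_cases h1 : σ s = s
  · rw [(coc_eq hb hs σ).1 h1, add_zero]
  · rw [(coc_eq hb hs σ).2 h1, T0_add]

end cocycle

/-! ## local triviality -/

namespace Lot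

section

variable {k : Type} [Field k] [CharZero k]

lemma act_some' (W : WeierstrassCurve k) {F L : Type} [Field F] [Field L] [Algebra k F]
    [Algebra k L] (φ : F →ₐ[k] L) {x y : F} (h : (W.baseChange F).toAffine.Nonsingular x y) :
    act W φ (Affine.Point.some x y h) =
      Affine.Point.some (φ x) (φ y) ((Affine.baseChange_nonsingular W φ.injective ..).mpr h) := rfl

lemma some_congr {L : Type} [Field L] (W : WeierstrassCurve.Affine L) {x y x' y' : L}
    (h : W.Nonsingular x y) (h' : W.Nonsingular x' y') (hx : x = x') (hy : y = y') :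
    (Affine.Point.some x y h : W.Point) = Affine.Point.some x' y' h' := by
  subst hx hy
  rfl

section

variable {a b : k} {L : Type} [Field L] [Algebra k L]

lemma wa1 : ((WG k a b).baseChange L).toAffine.a₁ = 0 := map_zero (algebraMap k L)

lemma wa3 : ((WG k a b).baseChange L).toAffine.a₃ = 0 := map_zero (algebraMap k L)

lemma wa6 : ((WG k a b).baseChange L).toAffine.a₆ = 0 := map_zero (algebraMap k L)

lemma wa2 : ((WG k a b).baseChange L).toAffine.a₂ = algebraMap k L a := rfl

lemma wa4 : ((WG k a b).baseChange L).toAffine.a₄ = algebraMap k L b := rfl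

lemma hne {b : k} (h : b ≠ 0) (L : Type) [Field L] [Algebra k L] : algebraMap k L b ≠ 0 := by
  rwa [Ne, map_eq_zero]

/-- the points `(x, s x)` -/
lemma nons (h : b ≠ 0) {s x : L} (hs : s ≠ 0)
    (hx : x * (s ^ 2 - algebraMap k L a - x) = algebraMap k L b) :
    ((WG k a b).baseChange L).toAffine.Nonsingular x (s * x) := by
  have : CharZero L := charZero_of_injective_algebraMap (algebraMap k L).injective
  have hx0 : x ≠ 0 := by
    rintro rfl
    rw [zero_mul] at hx
    exact hne h L hx.symm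
  rw [Affine.nonsingular_iff', Affine.equation_iff', wa1, wa2, wa3, wa4, wa6]
  refine ⟨?_, Or.inr ?_⟩
  · rw [← hx]
    ring
  · have : (2 : L) * (s * x) ≠ 0 := mul_ne_zero two_ne_zero (mul_ne_zero hs hx0)
    simpa using this

/-- the point `(x, s x)` -/
def mkP (h : b ≠ 0) {s x : L} (hs : s ≠ 0)
    (hx : x * (s ^ 2 - algebraMap k L a - x) = algebraMap k L b) : Pt (WG k a b) L :=
  Affine.Point.some x (s * x) (nons h hs hx)

/-- `(0, 0) + (x, s x) = (x', -s x')`, `x + x' = s ^ 2 - a` -/
lemma add_T0 (h : b ≠ 0) {s x : L} (hs : s ≠ 0)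
    (hx : x * (s ^ 2 - algebraMap k L a - x) = algebraMap k L b) {x' y' : L}
    (hx' : x' = s ^ 2 - algebraMap k L a - x) (hy' : y' = - s * x')
    (hn : ((WG k a b).baseChange L).toAffine.Nonsingular x' y') :
    T0 k h L + mkP h hs hx = Affine.Point.some x' y' hn := by
  have hx0 : x ≠ 0 := by
    rintro rfl
    rw [zero_mul] at hx
    exact hne h L hx.symm
  have h1 : (0 : L) ≠ x := fun h2 => hx0 h2.symm
  let _ : DecidableEq L := Classical.decEq L
  have hsl : ((WG k a b).baseChange L).toAffine.slope 0 x 0 (s * x) = s := by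
    rw [Affine.slope_of_X_ne h1, zero_sub, zero_sub, neg_div_neg_eq, mul_div_cancel_right₀ _ hx0]
  refine Eq.trans (@Affine.Point.add_of_X_ne L _ ((WG k a b).baseChange L).toAffine
    (Classical.decEq L) 0 x 0 (s * x) (ns0 k h L) (nons h hs hx) h1) ?_
  refine some_congr _ _ _ ?_ ?_
  · rw [hsl, Affine.addX, wa1, wa2, hx']
    ring
  · rw [hsl, Affine.addY, Affine.negAddY, Affine.negY, Affine.addX, wa1, wa2, wa3, hy', hx']
    ring

end

lemma act_T0 {a b : k} (h : b ≠ 0) {F L : Type} [Field F] [Field L] [Algebra k F]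
    [Algebra k L] (φ : F →ₐ[k] L) : act (WG k a b) φ (T0 k h F) = T0 k h L := by
  rw [T0, act_some']
  exact some_congr _ _ _ (map_zero φ) (map_zero φ)

/-- the geometric form -/
lemma lot_aux {a b : k} (h : b ≠ 0) (d : k) {F : Type} [Field F] [Algebra k F]
    (ι : AlgebraicClosure k →ₐ[k] F) (X' Y' r' : F) (hX0 : X' ≠ 0)
    (eX : X' = algebraMap k F d * r' ^ 2)
    (eY : Y' ^ 2 = X' ^ 3 - 2 * algebraMap k F a * X' ^ 2 +
      ((algebraMap k F a) ^ 2 - 4 * algebraMap k F b) * X') :
    ∃ P : Pt (WG k a b) F, ∀ (τ' : F →ₐ[k] F) (σ : Gal k), τ' X' = X' → τ' Y' = Y' → τ' r' = r' →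
      (∀ z, τ' (ι z) = ι (σ z)) → act (WG k a b) ι (coc k h d σ) = act (WG k a b) τ' P - P := by
  have hF0 : CharZero F := charZero_of_injective_algebraMap (algebraMap k F).injective
  obtain ⟨s0, hs0⟩ := IsAlgClosed.exists_pow_nat_eq (algebraMap k (AlgebraicClosure k) d) (n := 2)
    (by norm_num)
  have hq : (ι s0) ^ 2 = algebraMap k F d := by
    rw [← map_pow, hs0, AlgHom.commutes]
  obtain ⟨A, hA⟩ : ∃ A : F, A = algebraMap k F a := ⟨_, rfl⟩
  obtain ⟨B, hB⟩ : ∃ B : F, B = algebraMap k F b := ⟨_, rfl⟩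
  rw [← hA, ← hB] at eY
  obtain ⟨s, hs⟩ : ∃ s : F, s = r' * ι s0 := ⟨_, rfl⟩
  have hs2 : s ^ 2 = X' := by
    rw [hs, mul_pow, hq, eX]
    ring
  have hsne : s ≠ 0 := by
    intro h0
    rw [h0] at hs2
    apply hX0
    rw [← hs2]
    ring
  have h20 : (2 : F) ≠ 0 := two_ne_zero
  obtain ⟨x, hxdef⟩ : ∃ x : F, x = (X' - A + Y' / s) / 2 := ⟨_, rfl⟩
  have hx' : x * (s ^ 2 - A - x) = B := by
    have h3 : (Y' / s) ^ 2 = X' ^ 2 - 2 * A * X' + (A ^ 2 - 4 * B) := by
      rw [div_pow, hs2, eY, div_eq_iff hX0]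
      ring
    have h4 : 4 * (x * (s ^ 2 - A - x)) = (X' - A) ^ 2 - (Y' / s) ^ 2 := by
      rw [hs2, hxdef]
      field_simp
      ring
    have h40 : (4 : F) ≠ 0 := by norm_num
    apply mul_left_cancel₀ h40
    rw [h4, h3]
    ring
  have hx : x * (s ^ 2 - algebraMap k F a - x) = algebraMap k F b := by
    rw [← hA, ← hB]; exact hx'
  refine ⟨mkP (k := k) h hsne hx, fun τ' σ hτX hτY hτr hτι => ?_⟩
  have hτx : τ' x = (X' - A + Y' / τ' s) / 2 := by
    have hτA : τ' A = A := by rw [hA, AlgHom.commutes]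
    rw [hxdef, map_div₀, map_add, map_sub, map_div₀, map_ofNat, hτA, hτX, hτY]
  have hP : act (WG k a b) τ' (mkP h hsne hx) =
      Affine.Point.some (τ' x) (τ' (s * x))
        ((Affine.baseChange_nonsingular (WG k a b) τ'.injective ..).mpr (nons h hsne hx)) := rfl
  by_cases hσ : ∃ t : AlgebraicClosure k, t ^ 2 = algebraMap k (AlgebraicClosure k) d ∧ σ t ≠ t
  · have hc : coc k (a := a) h d σ = T0 k h (AlgebraicClosure k) := if_pos hσ
    have hc2 : act (WG k a b) ι (coc k h d σ) = T0 k h F := by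
      rw [hc, act_T0]
    have hσ0 : σ s0 = - s0 := by
      have h5 : (σ s0) ^ 2 = s0 ^ 2 := by rw [← map_pow, hs0, AlgEquiv.commutes]
      rcases sq_eq_sq_iff_eq_or_eq_neg.1 h5 with h6 | h6
      · exfalso
        obtain ⟨t, ht, ht2⟩ := hσ
        apply ht2
        rw [← hs0] at ht
        rcases sq_eq_sq_iff_eq_or_eq_neg.1 ht with h7 | h7
        · rw [h7, h6]
        · rw [h7, map_neg, h6]
      · exact h6
    have hτs : τ' s = - s := by
      rw [hs, map_mul, hτr, hτι, hσ0, map_neg]
      ring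
    have e1 : τ' x = s ^ 2 - algebraMap k F a - x := by
      rw [hτx, hτs, hs2, hxdef, div_neg, ← hA]
      field_simp
      ring
    exact eq_sub_of_add_eq ((congrArg (fun z => z + mkP h hsne hx) hc2).trans
      ((add_T0 (k := k) h hsne hx e1 (by rw [map_mul, hτs]) _).trans hP.symm))
  · have hc : coc k (a := a) h d σ = 0 := if_neg hσ
    have hc2 : act (WG k a b) ι (coc k h d σ) = 0 :=
      (congrArg (act (WG k a b) ι) hc).trans (map_zero (act (WG k a b) ι))
    have hσ0 : σ s0 = s0 := by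
      by_contra h5
      exact hσ ⟨s0, hs0, h5⟩
    have hτs : τ' s = s := by
      rw [hs, map_mul, hτr, hτι, hσ0]
    have e1 : τ' x = x := by
      rw [hτx, hτs, hxdef]
    have e2 : act (WG k a b) τ' (mkP h hsne hx) = mkP h hsne hx :=
      hP.trans (some_congr _ _ _ e1 (by rw [map_mul, hτs, e1]))
    exact hc2.trans (sub_eq_zero.2 e2).symm

theorem t_LOT (a b : k) (h : b ≠ 0) (d : k) (K : Type) [Field K] [Algebra k K]
    (hl : LocG K a b d) : LocTriv (WG k a b) K (coc k h d) := by
  obtain ⟨X, Y, r, hX, hY, hXd⟩ := hl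
  intro ι
  obtain ⟨P, hP⟩ := lot_aux (a := a) h d ι (algebraMap K (AlgebraicClosure K) X)
    (algebraMap K (AlgebraicClosure K) Y) (algebraMap K (AlgebraicClosure K) r)
    (fun h0 => hX ((algebraMap K (AlgebraicClosure K)).injective (by rw [h0, map_zero])))
    (by rw [hXd, map_mul, map_pow, ← IsScalarTower.algebraMap_apply k K (AlgebraicClosure K)])
    (by
      rw [← map_pow, hY]
      simp only [map_add, map_sub, map_mul, map_pow, map_ofNat,
        ← IsScalarTower.algebraMap_apply k K (AlgebraicClosure K)])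
  exact ⟨P, fun τ σ hτσ => hP (τ.toAlgHom.restrictScalars k) σ (τ.commutes X) (τ.commutes Y)
    (τ.commutes r) hτσ⟩

end

end Lot

/-! ## coboundaries -/

section cobound

variable {K : Type} [Field K] [CharZero K]

lemma isGalAC (K : Type) [Field K] [CharZero K] : IsGalois K (AlgebraicClosure K) where
  to_isSeparable := inferInstance
  to_normal := IsAlgClosure.normal K (AlgebraicClosure K)

attribute [local instance] isGalAC

/-- an element fixed by all the automorphisms lies in the base field -/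
lemma fixm (x : AlgebraicClosure K) (h : ∀ σ : Gal K, σ x = x) :
    ∃ y : K, algebraMap K (AlgebraicClosure K) y = x := by
  have := InfiniteGalois.mem_bot_iff_fixed (k := K) (K := AlgebraicClosure K) x
  rw [IntermediateField.mem_bot] at this
  exact this.2 h

lemma act_some (W : WeierstrassCurve K) {F L : Type} [Field F] [Field L] [Algebra K F]
    [Algebra K L] (φ : F →ₐ[K] L) {x y : F} (h : (W.baseChange F).toAffine.Nonsingular x y) :
    act W φ (.some x y h) =
      .some (φ x) (φ y) ((Affine.baseChange_nonsingular W φ.injective ..).mpr h) := rfl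

/-- the equation of the curve -/
lemma eqn {a b : K} {x y : AlgebraicClosure K}
    (h : ((WG K a b).baseChange (AlgebraicClosure K)).toAffine.Nonsingular x y) :
    y ^ 2 = x ^ 3 + algebraMap K (AlgebraicClosure K) a * x ^ 2 +
      algebraMap K (AlgebraicClosure K) b * x := by
  have h1 := (Affine.nonsingular_iff _ _).1 h |>.1
  rw [Affine.equation_iff, Lot.wa1, Lot.wa2, Lot.wa3, Lot.wa4, Lot.wa6] at h1
  linear_combination h1

/-- a point of the curve -/
noncomputable def pt {a b : K} {x y : AlgebraicClosure K}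
    (h : ((WG K a b).baseChange (AlgebraicClosure K)).toAffine.Nonsingular x y) :
    Pt (WG K a b) (AlgebraicClosure K) := Affine.Point.some x y h

/-- the sum of `(x, y)` and `(0, 0)` -/
lemma add_T {a b : K} (hb : b ≠ 0) {x y x' y' : AlgebraicClosure K}
    (h : ((WG K a b).baseChange (AlgebraicClosure K)).toAffine.Nonsingular x y)
    (h' : ((WG K a b).baseChange (AlgebraicClosure K)).toAffine.Nonsingular x' y') (hx : x ≠ 0)
    (he : pt h' = pt h + T0 K (a := a) hb (AlgebraicClosure K)) :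
    x' = algebraMap K (AlgebraicClosure K) b / x ∧
      y' = - (algebraMap K (AlgebraicClosure K) b * y / x ^ 2) := by
  have h1 : pt h + T0 K (a := a) hb (AlgebraicClosure K) =
      @HAdd.hAdd _ _ _ (@instHAdd _ (@Affine.Point.instAdd (AlgebraicClosure K) _
        ((WG K a b).baseChange (AlgebraicClosure K)).toAffine
        (Classical.decEq (AlgebraicClosure K)))) (Affine.Point.some x y h)
        (Affine.Point.some 0 0 (ns0 K hb (AlgebraicClosure K))) := rfl
  rw [h1, @Affine.Point.add_of_X_ne _ _ _ (Classical.decEq (AlgebraicClosure K)) _ _ _ _ _ _ hx] at he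
  have he := (Affine.Point.some.injEq _ _ _ _ _ _).mp he
  have e0 := eqn h
  obtain ⟨he1, he2⟩ := he
  rw [@Affine.slope_of_X_ne _ _ _ (Classical.decEq (AlgebraicClosure K)) _ _ _ _ hx, Affine.addX,
    Lot.wa1, Lot.wa2] at he1
  rw [@Affine.slope_of_X_ne _ _ _ (Classical.decEq (AlgebraicClosure K)) _ _ _ _ hx, Affine.addY,
    Affine.negY, Affine.negAddY, Affine.addX, Lot.wa1, Lot.wa2, Lot.wa3] at he2
  generalize algebraMap K (AlgebraicClosure K) a = A at *
  generalize algebraMap K (AlgebraicClosure K) b = B at *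
  constructor
  · rw [he1, sub_zero, sub_zero, sub_zero, zero_mul, add_zero]
    field_simp
    linear_combination e0
  · rw [he2, sub_zero, sub_zero]
    field_simp
    linear_combination (-x ^ 2 * y) * e0

theorem t_COB (a b : K) (hb : b ≠ 0) (d : K) (hd : d ≠ 0)
    (hcob : IsCob (WG K a b) (coc K hb d)) :
    IsSquare d ∨ IsSquare (d * (a ^ 2 - 4 * b)) ∨ LocG K a b d := by
  classical
  obtain ⟨P, hP⟩ := hcob
  obtain ⟨s, hs⟩ := exists_root (F := K) d
  have hd' : algebraMap K (AlgebraicClosure K) d ≠ 0 := Lot.hne hd _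
  have hs0 : s ≠ 0 := by
    rintro rfl
    apply hd'
    rw [← hs]; ring
  have hsσ : ∀ σ : Gal K, σ s = s ∨ σ s = -s := ap_sq hs
  have hcoc : ∀ σ : Gal K, (σ s = s → coc K (a := a) hb d σ = 0) ∧
      (σ s ≠ s → coc K (a := a) hb d σ = T0 K hb (AlgebraicClosure K)) := coc_eq hb hs
  have hsq : (∀ σ : Gal K, σ s = s) → IsSquare d := by
    intro h
    obtain ⟨y, hy⟩ := fixm s h
    refine ⟨y, ?_⟩
    apply (algebraMap K (AlgebraicClosure K)).injective
    rw [map_mul, hy, ← pow_two, hs]
  have hT0 : T0 K (a := a) hb (AlgebraicClosure K) ≠ 0 := by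
    intro h
    exact Affine.Point.some_ne_zero _ h
  have hfix0 : (∀ σ : Gal K, act (WG K a b) σ.toAlgHom P = P) → IsSquare d := by
    intro h
    apply hsq
    intro σ
    by_contra hne
    have h1 := hP σ
    rw [(hcoc σ).2 hne, h σ, sub_self] at h1
    exact hT0 h1
  have hact0 : ∀ σ : Gal K, σ s = s → act (WG K a b) σ.toAlgHom P = P := by
    intro σ h
    have h1 := hP σ
    rw [(hcoc σ).1 h] at h1
    exact (sub_eq_zero.1 h1.symm)
  have hact1 : ∀ σ : Gal K, σ s ≠ s →
      act (WG K a b) σ.toAlgHom P = P + T0 K hb (AlgebraicClosure K) := by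
    intro σ h
    have h1 := hP σ
    rw [(hcoc σ).2 h] at h1
    rw [h1]
    abel
  rcases P with _ | ⟨x, y, hxy⟩
  · left
    apply hfix0
    intro σ
    exact map_zero _
  by_cases hx : x = 0
  · left
    apply hfix0
    intro σ
    subst hx
    have e0 := eqn hxy
    have hy : y = 0 := by
      have : y ^ 2 = 0 := by rw [e0]; ring
      exact pow_eq_zero_iff two_ne_zero |>.1 this
    subst hy
    rw [act_some]
    congr 1
    · exact map_zero σ
    · exact map_zero σ
  have e0 := eqn hxy
  obtain ⟨A, hA⟩ : ∃ A, A = algebraMap K (AlgebraicClosure K) a := ⟨_, rfl⟩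
  obtain ⟨B, hB⟩ : ∃ B, B = algebraMap K (AlgebraicClosure K) b := ⟨_, rfl⟩
  have hAσ : ∀ σ : Gal K, σ A = A := fun σ => by rw [hA, AlgEquiv.commutes]
  have hBσ : ∀ σ : Gal K, σ B = B := fun σ => by rw [hB, AlgEquiv.commutes]
  rw [← hA, ← hB] at e0
  have hc : B ≠ 0 := by rw [hB]; exact Lot.hne hb _
  have f0 : ∀ σ : Gal K, σ s = s → σ x = x ∧ σ y = y := by
    intro σ h
    have h1 := hact0 σ h
    rw [act_some] at h1
    exact (Affine.Point.some.injEq _ _ _ _ _ _).mp h1
  have f1 : ∀ σ : Gal K, σ s ≠ s → σ x = B / x ∧ σ y = - (B * y / x ^ 2) := by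
    intro σ h
    have h1 := hact1 σ h
    rw [act_some] at h1
    rw [hB]
    exact add_T hb _ _ hx h1
  right
  by_cases hy : y = 0
  · left
    subst hy
    have e1 : x ^ 2 + A * x + B = 0 := by
      have h1 : x * (x ^ 2 + A * x + B) = 0 := by
        linear_combination -e0
      exact (mul_eq_zero.1 h1).resolve_left hx
    obtain ⟨r, hr⟩ : ∃ r : K, algebraMap K (AlgebraicClosure K) r = (2 * x + A) * s := by
      apply fixm
      intro σ
      have e4 : σ (2 : AlgebraicClosure K) = 2 := map_ofNat σ 2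
      by_cases h : σ s = s
      · rw [map_mul, map_add, map_mul, (f0 σ h).1, h, e4, hAσ]
      · rw [map_mul, map_add, map_mul, (f1 σ h).1, (hsσ σ).resolve_left h, e4, hAσ]
        have e2 : B / x = - (x + A) := by
          rw [div_eq_iff hx]
          linear_combination e1
        rw [e2]
        ring
    refine ⟨r, ?_⟩
    apply (algebraMap K (AlgebraicClosure K)).injective
    have e3 : ((2 * x + A) * s) ^ 2 = algebraMap K (AlgebraicClosure K) d * (A ^ 2 - 4 * B) := by
      rw [mul_pow, hs]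
      linear_combination (4 * (algebraMap K (AlgebraicClosure K) d)) * e1
    rw [map_mul, map_mul, map_sub, map_pow, map_mul, hr, ← hA, ← hB]
    simp only [map_ofNat]
    linear_combination -e3
  · right
    obtain ⟨r, hr⟩ : ∃ r : K, algebraMap K (AlgebraicClosure K) r = (y / x) * s := by
      apply fixm
      intro σ
      by_cases h : σ s = s
      · rw [map_mul, map_div₀, (f0 σ h).1, (f0 σ h).2, h]
      · rw [map_mul, map_div₀, (f1 σ h).1, (f1 σ h).2, (hsσ σ).resolve_left h]
        field_simp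
    obtain ⟨Y, hY⟩ : ∃ Y : K, algebraMap K (AlgebraicClosure K) Y = y * (B - x ^ 2) / x ^ 2 := by
      apply fixm
      intro σ
      by_cases h : σ s = s
      · simp only [map_div₀, map_mul, map_sub, map_pow, (f0 σ h).1, (f0 σ h).2, hBσ]
      · simp only [map_div₀, map_mul, map_sub, map_pow, (f1 σ h).1, (f1 σ h).2, hBσ]
        field_simp
        ring
    have hr0 : r ≠ 0 := by
      rintro rfl
      rw [map_zero] at hr
      exact mul_ne_zero (div_ne_zero hy hx) hs0 hr.symm
    have hX : algebraMap K (AlgebraicClosure K) (d * (r / d) ^ 2) = y ^ 2 / x ^ 2 := by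
      rw [map_mul, map_pow, map_div₀, hr]
      generalize algebraMap K (AlgebraicClosure K) d = δ at *
      field_simp
      linear_combination hs
    obtain ⟨X, hXd⟩ : ∃ X : K, X = d * (r / d) ^ 2 := ⟨_, rfl⟩
    rw [← hXd] at hX
    refine ⟨X, Y, r / d, ?_, ?_, hXd⟩
    · rw [hXd]
      exact mul_ne_zero hd (pow_ne_zero 2 (div_ne_zero hr0 hd))
    · apply (algebraMap K (AlgebraicClosure K)).injective
      simp only [Algebra.algebraMap_self, RingHom.id_apply]
      simp only [map_add, map_sub, map_mul, map_pow, hY, hX, map_ofNat, ← hA, ← hB]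
      have hy2 : y ^ 2 / x ^ 2 = x + A + B / x := by
        rw [e0]
        field_simp
      have hy3 : (y * (B - x ^ 2) / x ^ 2) ^ 2 = y ^ 2 / x ^ 2 * ((B - x ^ 2) / x) ^ 2 := by
        field_simp
      rw [hy3, hy2]
      field_simp
      ring

end cobound

theorem main (K : Type) [Field K] [NumberField K] (a b d : K) (hb : b ≠ 0) (hd : d ≠ 0)
    (hl : ∀ v : HeightOneSpectrum (𝓞 K), LocG (v.adicCompletion K) a b d)
    (hr : ∀ v : InfinitePlace K, LocG v.Completion a b d)
    (hx : ∀ x : Sha (WG K a b), x + x = 0 → x = 0) :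
    IsSquare d ∨ IsSquare (d * (a ^ 2 - 4 * b)) ∨ LocG K a b d := by
  have hc : coc K hb d ∈ shaCoc (WG K a b) :=
    ⟨coc_coc hb d, fun v => Lot.t_LOT a b hb d _ (hl v), fun v => Lot.t_LOT a b hb d _ (hr v)⟩
  let N : AddSubgroup (shaCoc (WG K a b)) := (cob (WG K a b)).addSubgroupOf (shaCoc (WG K a b))
  let y : shaCoc (WG K a b) := ⟨coc K hb d, hc⟩
  have h1 : (QuotientAddGroup.mk (y + y) : shaCoc (WG K a b) ⧸ N) = 0 := by
    rw [QuotientAddGroup.eq_zero_iff, AddSubgroup.mem_addSubgroupOf]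
    have h6 : ((y + y : shaCoc (WG K a b)) : Coch (WG K a b)) = 0 := coc_two hb d
    rw [h6]
    exact cob_zero _
  have h2 : (QuotientAddGroup.mk y : shaCoc (WG K a b) ⧸ N) = 0 :=
    hx (QuotientAddGroup.mk y : shaCoc (WG K a b) ⧸ N) h1
  rw [QuotientAddGroup.eq_zero_iff, AddSubgroup.mem_addSubgroupOf] at h2
  exact t_COB a b hb d hd h2

end Pool.Agent.T2h16.KE.SHG

namespace Pool.Agent.T2h16.KE

theorem t_SHG : S_SHG := fun K _ _ a b d hb _ hd hl hr hx => SHG.main K a b d hb hd hl hr hx

end Pool.Agent.T2h16.KE
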