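import Pool.Agent.T2h16.KE.Stm

/-!
# The supplementary laws at the primes above two
-/

set_option autoImplicit false
set_option linter.all false

namespace Pool.Agent.T2h16.KE.Sup

open Finset
open Pool.Agent.Y698 Pool.Agent.Y698.SG Pool.Agent.Y279.SG
open Pool.Agent.W192.HK (sp)
open Pool.Agent.T2h78.TW
open Pool.Agent.T2h16.KD (prm prm_mul prm_one pq_prm)

/-- the character of conductor `8` which is even -/
def c8 (m : ℤ) : ℤ := if m % 8 = 1 ∨ m % 8 = 7 then 1 else -1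

lemma c8_neg {m : ℤ} (h : m % 2 = 1) : c8 (-m) = c8 m := by
  unfold c8
  rcases (by omega : m % 8 = 1 ∨ m % 8 = 3 ∨ m % 8 = 5 ∨ m % 8 = 7) with h1 | h1 | h1 | h1
  · rw [if_pos (by omega), if_pos (by omega)]
  · rw [if_neg (by omega), if_neg (by omega)]
  · rw [if_neg (by omega), if_neg (by omega)]
  · rw [if_pos (by omega), if_pos (by omega)]

lemma c8_mul {m n : ℤ} (h : m % 2 = 1) (h' : n % 2 = 1) : c8 (m * n) = c8 m * c8 n := by
  have e : (m * n) % 8 = ((m % 8) * (n % 8)) % 8 := Int.mul_emod m n 8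
  unfold c8
  rcases (by omega : m % 8 = 1 ∨ m % 8 = 3 ∨ m % 8 = 5 ∨ m % 8 = 7) with h1 | h1 | h1 | h1 <;>
    rcases (by omega : n % 8 = 1 ∨ n % 8 = 3 ∨ n % 8 = 5 ∨ n % 8 = 7) with h2 | h2 | h2 | h2 <;>
    rw [e, h1, h2] <;> norm_num

lemma c8_congr {m n : ℤ} (h : m % 8 = n % 8) : c8 m = c8 n := by
  unfold c8
  rw [h]

lemma c8_four (k : ℤ) : c8 (1 + 4 * k) = if Even k then 1 else -1 := by
  unfold c8
  split_ifs with h1 h2 h2
  · rfl
  · rw [Int.not_even_iff] at h2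
    omega
  · rw [Int.even_iff] at h2
    omega
  · rfl

lemma two_abs {X : ℤ} (h : X % 2 = 1) : jacobiSym 2 X.natAbs = c8 X := by
  unfold c8
  split_ifs with h1
  · exact two_one _ (by omega)
  · exact two_neg _ (by omega)

/-- the Jacobi symbol of `X` -/
lemma jX (X Y : ℤ) (N : ℕ) (hX : X % 4 = 1) (hY : Y % 2 = 0)
    (hN : (N : ℤ) = X ^ 2 + X * Y + 2 * Y ^ 2) (hc : IsCoprime Y (N : ℤ)) :
    jacobiSym X N = c8 X := by
  have hcop : IsCoprime Y X := by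
    have h2 : (N : ℤ) = X ^ 2 + Y * (X + 2 * Y) := by rw [hN]; ring
    rw [h2] at hc
    exact (IsCoprime.pow_right_iff (by norm_num)).mp (IsCoprime.of_add_mul_left_right hc)
  have hdvd : X ∣ (N : ℤ) - 2 * Y ^ 2 := ⟨X + Y, by rw [hN]; ring⟩
  have h1 : jacobiSym N X.natAbs = c8 X := by
    rw [jac_sq N 2 Y X hdvd hcop, two_abs (by omega)]
  have hN2 : (N : ℤ) % 4 = 1 ∨ (N : ℤ) % 4 = 3 := by
    obtain ⟨k, hk⟩ : ∃ k, X = 1 + 4 * k := ⟨(X - 1) / 4, by omega⟩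
    obtain ⟨m, hm⟩ : ∃ m, Y = 2 * m := ⟨Y / 2, by omega⟩
    have e : (N : ℤ) = (1 + 2 * m) + 4 * (2 * k + 4 * k ^ 2 + 2 * k * m + 2 * m ^ 2) := by
      rw [hN, hk, hm]
      ring
    omega
  rcases hN2 with h2 | h2
  · rw [rec1 X (by omega) N (by omega), h1]
  · rw [rec3 X (by omega) N (by omega), h1, ZMod.χ₄_int_one_mod_four hX, one_mul]

lemma sp1_e3 {p : ℕ} {ϖ : RR} (h : Sp1 p ϖ) : qch p (cY ϖ) * qch p (-1) = 1 := by
  have hnr := h.nr
  unfold nR at hnr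
  have r1 := t_R1 (cX ϖ) (cY ϖ) p h.x4 h.y2 h.yne hnr.symm h.ycop
  have hodd : Odd p := Nat.odd_iff.2 h.gp.m2
  unfold qch
  rw [r1, jacobiSym.at_neg_one hodd]
  have h4 := h.mod4
  have hy := h.y2
  split_ifs with h0
  · rw [ZMod.χ₄_nat_one_mod_four (by omega)]
    norm_num
  · rw [ZMod.χ₄_nat_three_mod_four (by omega)]
    norm_num

lemma sp1_a {p : ℕ} {ϖ : RR} (h : Sp1 p ϖ) : sy ϖ aR = ((c8 (cX ϖ) : ℤ) : ℂ) := by
  have hnr := h.nr
  unfold nR at hnr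
  have e1 := h.sy_eq aR
  rw [cXY_aR.1, cXY_aR.2] at e1
  have e2 : cY ϖ * 0 - cX ϖ * 1 = -1 * cX ϖ := by ring
  rw [e2, qch_mul, ← mul_assoc, sp1_e3 h, one_mul] at e1
  rw [e1]
  unfold qch
  rw [jX (cX ϖ) (cY ϖ) p h.x4 h.y2 hnr.symm h.ycop]

lemma iq_two {q : ℕ} (h : Iq q) : qch q 2 = ((c8 (qs q) : ℤ) : ℂ) := by
  have hm := h.m2
  unfold qch qs c8
  have hq : q % 8 = 1 ∨ q % 8 = 3 ∨ q % 8 = 5 ∨ q % 8 = 7 := by omega
  rcases hq with h1 | h1 | h1 | h1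
  · rw [two_one q (by omega), if_pos (by omega : q % 4 = 1), if_pos (by omega)]
  · rw [two_neg q (by omega), if_neg (by omega : ¬ q % 4 = 1), if_neg (by omega)]
  · rw [two_neg q (by omega), if_pos (by omega : q % 4 = 1), if_neg (by omega)]
  · rw [two_one q (by omega), if_neg (by omega : ¬ q % 4 = 1), if_pos (by omega)]

lemma po_a {π : RR} (h : PO π) : sy π aR = ((c8 (cX π) : ℤ) : ℂ) := by
  rcases KD.PO.cases h with ⟨p, hp⟩ | ⟨q, hq, rfl⟩
  · exact sp1_a hp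
  · rw [hq.sy, nR_aR, iq_two hq, (cXY_int _).1]

lemma cXY_one_sub : cX (1 - aR) = 1 ∧ cY (1 - aR) = -1 := by
  rw [sub_eq_add_neg, (cXY_add _ _).1, (cXY_add _ _).2, (cXY_neg _).1, (cXY_neg _).2,
    cXY_one.1, cXY_one.2, cXY_aR.1, cXY_aR.2]
  norm_num

lemma nR_one_sub : nR (1 - aR) = 2 := by
  unfold nR
  rw [cXY_one_sub.1, cXY_one_sub.2]
  norm_num

lemma nR_cj' (x : RR) : nR (cj x) = nR x := by
  unfold nR
  rw [(cXY_cj x).1, (cXY_cj x).2]
  ring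

lemma nR_neg' (x : RR) : nR (-x) = nR x := by
  unfold nR
  rw [(cXY_neg x).1, (cXY_neg x).2]
  ring

lemma cj_one_sub : cj (1 - aR) = aR := by
  apply RR_ext
  · rw [(cXY_cj _).1, cXY_one_sub.1, cXY_one_sub.2, cXY_aR.1]
    norm_num
  · rw [(cXY_cj _).2, cXY_one_sub.2, cXY_aR.2]
    norm_num

lemma po_b {π : RR} (h : PO π) : sy π (1 - aR) = ((c8 (cX π + cY π) : ℤ) : ℂ) := by
  rcases KD.PO.cases h with ⟨p, hp⟩ | ⟨q, hq, rfl⟩
  · rw [← sy_cj π (1 - aR), cj_one_sub]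
    have h2 := hp.x4
    have h3 := hp.y2
    have e1 : cX (cj π) = cX π + cY π := (cXY_cj π).1
    rcases (by omega : (cX π + cY π) % 4 = 1 ∨ (-(cX π + cY π)) % 4 = 1) with h1 | h1
    · have h4 : Sp1 p (cj π) := ⟨hp.gp, by rw [nR_cj']; exact hp.nr, by rw [e1]; exact h1⟩
      rw [sp1_a h4, e1]
    · have h4 : Sp1 p (-cj π) := ⟨hp.gp, by rw [nR_neg', nR_cj']; exact hp.nr, by
        rw [(cXY_neg _).1, e1]; exact h1⟩
      rw [← sy_negm, sp1_a h4, (cXY_neg _).1, e1, c8_neg (by omega)]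
  · rw [hq.sy, nR_one_sub, iq_two hq, (cXY_int _).1, (cXY_int _).2, add_zero]

lemma prod_c8 (f : RR → ℤ) (hf1 : f 1 = 1) (hfo : ∀ x, prm x → f x % 2 = 1)
    (hfm : ∀ x y, prm x → prm y → f (x * y) % 8 = (f x * f y) % 8) (S : Finset RR)
    (hS : ∀ π ∈ S, PO π) : prm (∏ π ∈ S, π) ∧ ∏ π ∈ S, c8 (f π) = c8 (f (∏ π ∈ S, π)) := by
  classical
  induction S using Finset.induction_on with
  | empty =>
    refine ⟨by simpa using prm_one, ?_⟩
    rw [prod_empty, prod_empty, hf1]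
    rfl
  | insert a s ha ih =>
    obtain ⟨h1, h2⟩ := ih fun π hπ => hS π (mem_insert_of_mem hπ)
    have h3 := pq_prm (hS a (mem_insert_self _ _))
    rw [prod_insert ha, prod_insert ha, h2]
    exact ⟨prm_mul h3 h1, by rw [c8_congr (hfm _ _ h3 h1), c8_mul (hfo _ h3) (hfo _ h1)]⟩

end Pool.Agent.T2h16.KE.Sup

namespace Pool.Agent.T2h16.KE

open Finset
open Pool.Agent.Y698 Pool.Agent.Y698.SG Pool.Agent.Y279.SG
open Pool.Agent.W192.HK (sp)
open Pool.Agent.T2h16.KD (prm)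
open Sup

theorem t_SUP : S_SUP := by
  intro S t hS ht
  have e4 : cX (1 + 4 * t) = 1 + 4 * cX t ∧ cY (1 + 4 * t) = 4 * cY t := by
    have e : (4 : RR) = ((4 : ℤ) : RR) := by norm_num
    rw [e, (cXY_add _ _).1, (cXY_add _ _).2, (cXY_mul _ _).1, (cXY_mul _ _).2, (cXY_int _).1,
      (cXY_int _).2, cXY_one.1, cXY_one.2]
    constructor <;> ring
  have hx := prod_c8 (fun x => cX x) cXY_one.1 (fun x hx => by have := hx.x4; omega) (by
    intro x y hx hy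
    obtain ⟨m, hm⟩ : ∃ m, cY x = 2 * m := ⟨cY x / 2, by have := hx.y2; omega⟩
    obtain ⟨n, hn⟩ : ∃ m, cY y = 2 * m := ⟨cY y / 2, by have := hy.y2; omega⟩
    show cX (x * y) % 8 = (cX x * cX y) % 8
    rw [(cXY_mul x y).1, hm, hn]
    have e : cX x * cX y - 2 * (2 * m) * (2 * n) = cX x * cX y + 8 * (-(m * n)) := by ring
    rw [e, Int.add_mul_emod_self_left]) S hS.1
  have hy := prod_c8 (fun x => cX x + cY x) (by rw [cXY_one.1, cXY_one.2]; rfl)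
    (fun x hx => by have := hx.x4; have := hx.y2; omega) (by
    intro x y hx hy
    obtain ⟨m, hm⟩ : ∃ m, cY x = 2 * m := ⟨cY x / 2, by have := hx.y2; omega⟩
    obtain ⟨n, hn⟩ : ∃ m, cY y = 2 * m := ⟨cY y / 2, by have := hy.y2; omega⟩
    show (cX (x * y) + cY (x * y)) % 8 = ((cX x + cY x) * (cX y + cY y)) % 8
    rw [(cXY_mul x y).1, (cXY_mul x y).2, hm, hn]
    have e : cX x * cX y - 2 * (2 * m) * (2 * n) + (cX x * (2 * n) + 2 * m * cX y + 2 * m * (2 * n)) =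
      (cX x + 2 * m) * (cX y + 2 * n) + 8 * (-(m * n)) := by ring
    rw [e, Int.add_mul_emod_self_left]) S hS.1
  constructor
  · rw [Finset.prod_congr rfl fun π hπ => po_a (hS.1 π hπ), ← Int.cast_prod, hx.2, ht, e4.1, c8_four]
    split_ifs <;> norm_num
  · rw [Finset.prod_congr rfl fun π hπ => po_b (hS.1 π hπ), ← Int.cast_prod, hy.2, ht, e4.1, e4.2]
    have e : 1 + 4 * cX t + 4 * cY t = 1 + 4 * (cX t + cY t) := by ring
    rw [e, c8_four]
    split_ifs <;> norm_num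

end Pool.Agent.T2h16.KE
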