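import Pool.Agent.T2h16.KE.Stm
import Pool.Agent.T2h16.KD.Pd
import Pool.Agent.T2h20.KE.Pl
import Pool.Agent.T2h20.KE.Good
import Pool.Agent.Y891.CTK.E0

/-!
# Project KE, task TAMK: the Tamagawa numbers
-/

set_option autoImplicit false
set_option linter.unusedSectionVars false

open scoped Classical

namespace Pool.Agent.T2h16.KE

open NumberField IsDedekindDomain WeierstrassCurve WithZero
open Pool.Agent.Y698 (RR fR aR EX EX_Δ EX_map fR_sq prime_fR aR_sq)
open Pool.Agent.T2h16.KD (Cl)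
open Pool.Agent.T2h78.TW (PO)
open Pool.Agent.Y696 (NonsingRed)
open Pool.Agent.T2h20.KE

namespace TamK

variable {K : Type} [Field K] [NumberField K] (j : RR ≃+* 𝓞 K)

lemma bc (v : HeightOneSpectrum (𝓞 K)) (x : K) :
    (EX K x).baseChange (v.adicCompletion K) =
      EX (v.adicCompletion K) (algebraMap K (v.adicCompletion K) x) := by
  unfold WeierstrassCurve.baseChange
  rw [EX_map]

/-- integrality of the coefficients -/
lemma coef {L : Type} [Field L] (v : Valuation L ℤᵐ⁰) {x : L} (hx : v x ≤ 1) :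
    v (EX L x).a₁ ≤ 1 ∧ v (EX L x).a₂ ≤ 1 ∧ v (EX L x).a₃ ≤ 1 ∧ v (EX L x).a₄ ≤ 1 ∧
      v (EX L x).a₆ ≤ 1 := by
  obtain ⟨x', hx'⟩ : ∃ x' : v.integer, (x' : L) = x := ⟨⟨x, hx⟩, rfl⟩
  have h : ∀ z : v.integer, v (z : L) ≤ 1 := fun z => z.2
  refine ⟨?_, ?_, ?_, ?_, ?_⟩
  · exact (map_one v).le
  · show v (-(1 + 3 * x)) ≤ 1
    have := h (-(1 + 3 * x'))
    push_cast at this
    rwa [hx'] at this
  · exact (map_zero v).le.trans zero_le_one
  · show v (-2 * (1 + 4 * x) ^ 2) ≤ 1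
    have := h (-2 * (1 + 4 * x') ^ 2)
    push_cast at this
    rwa [hx'] at this
  · show v (-(1 + 4 * x) ^ 3) ≤ 1
    have := h (-(1 + 4 * x') ^ 3)
    push_cast at this
    rwa [hx'] at this

/-- the subgroup of the points with nonsingular reduction -/
lemma sub_ex {L : Type} [Field L] [CharZero L] (v : Valuation L ℤᵐ⁰) {W : WeierstrassCurve L}
    {x : L} (hW : W = EX L x) (hD : 1 + 4 * x ≠ 0) (hx : v x ≤ 1) :
    ∃ H : AddSubgroup W.toAffine.Point, ∀ P, P ∈ H ↔ NonsingRed v W P := by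
  subst hW
  obtain ⟨h1, h2, h3, h4, h6⟩ := coef v hx
  refine Pool.Agent.Y891.CTK.e0k L v _ ?_ h1 h2 h3 h4 h6
  rw [EX_Δ]
  exact mul_ne_zero (by norm_num) (pow_ne_zero 6 hD)

/-- good reduction -/
lemma idx_one {L : Type} [Field L] (v : Valuation L ℤᵐ⁰) {W : WeierstrassCurve L} {x : L}
    (hW : W = EX L x) (hx : v x ≤ 1) (hΔ : v (343 * (1 + 4 * x) ^ 6) = 1)
    (H : AddSubgroup W.toAffine.Point) (hH : ∀ P, P ∈ H ↔ NonsingRed v W P) : H.index = 1 := by
  subst hW
  obtain ⟨h1, h2, h3, h4, h6⟩ := coef v hx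
  rw [AddSubgroup.index_eq_one, AddSubgroup.eq_top_iff']
  intro P
  rw [hH]
  refine good v _ h1 h2 h3 h4 h6 ?_ P
  rw [EX_Δ, show (-343 : L) * (1 + 4 * x) ^ 6 = -(343 * (1 + 4 * x) ^ 6) by ring,
    Valuation.map_neg, hΔ]

lemma idx_four (hI : S_I0) {L : Type} [Field L] [CharZero L] (v : Valuation L ℤᵐ⁰)
    {W : WeierstrassCurve L} {x a : L} (hW : W = EX L x) (ha : a ^ 2 = a - 2) (h2 : v 2 = 1)
    (hx : v x ≤ 1) (hϖ : ∃ ϖ : L, v ϖ = exp (-1 : ℤ))
    (h : v ((1 + 4 * x) * (2 * a - 1)) = exp (-1 : ℤ) ∧ (v (1 + 4 * x) = 1 ∨ v 7 = 1))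
    (H : AddSubgroup W.toAffine.Point) (hH : ∀ P, P ∈ H ↔ NonsingRed v W P) : H.index = 4 := by
  subst hW
  exact hI L v x a ha h2 hx hϖ h H hH

/-- two is a unit at the places of the odd elements -/
lemma val_two {v : HeightOneSpectrum (𝓞 K)} {p : RR} (hp : IsCoprime 2 p) (h : j p ∈ v.asIdeal) :
    v.intValuation (2 : 𝓞 K) = 1 := by
  rw [HeightOneSpectrum.intValuation_eq_one_iff]
  intro h2
  obtain ⟨a, b, hab⟩ := hp
  apply v.isPrime.ne_top
  rw [Ideal.eq_top_iff_one]
  have h3 := congrArg j hab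
  rw [map_add j, map_mul j, map_mul j, map_one j, map_ofNat j] at h3
  rw [← h3]
  exact v.asIdeal.add_mem (v.asIdeal.mul_mem_left _ h2) (v.asIdeal.mul_mem_left _ h)

end TamK

open TamK in
theorem t_TAMK : S_TAMKT := by
  intro hM hI K _ _ j S t hS hSt
  have hpr : ∀ π ∈ S, Prime π := fun π hπ => (hS.1 π hπ).pr
  have hcop : IsCoprime fR (1 + 4 * t) := by
    rw [← hSt]
    exact IsCoprime.prod_right fun π hπ => (hS.1 π hπ).cop
  have hsqf : Squarefree (1 + 4 * t) := by
    rw [← hSt]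
    refine Finset.squarefree_prod_of_pairwise_isCoprime ?_ fun π hπ => (hpr π hπ).squarefree
    intro π hπ ρ hρ hne
    exact (Pool.Agent.T2h16.KD.pq_cop (hS.1 π hπ) (hS.1 ρ hρ) hne).isRelPrime
  have hD0 : (1 + 4 * t : RR) ≠ 0 := hsqf.ne_zero
  have cst : ∀ z : RR, ∀ v : HeightOneSpectrum (𝓞 K),
      algebraMap K (v.adicCompletion K) ((j z : 𝓞 K) : K) =
        ((algebraMap K (v.adicCompletion K)).comp ((algebraMap (𝓞 K) K).comp
          (j : RR →+* 𝓞 K))) z := fun _ _ => rfl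
  have hDv : ∀ v : HeightOneSpectrum (𝓞 K),
      1 + 4 * algebraMap K (v.adicCompletion K) ((j t : 𝓞 K) : K) =
        algebraMap K (v.adicCompletion K) ((j (1 + 4 * t) : 𝓞 K) : K) := by
    intro v
    rw [cst, cst, map_add, map_mul, map_one, map_ofNat]
  have hval : ∀ (v : HeightOneSpectrum (𝓞 K)) (z : RR),
      Valued.v (algebraMap K (v.adicCompletion K) ((j z : 𝓞 K) : K)) = v.intValuation (j z) :=
    fun v z => val_eq v (j z)
  have hx1 : ∀ v : HeightOneSpectrum (𝓞 K),
      Valued.v (algebraMap K (v.adicCompletion K) ((j t : 𝓞 K) : K)) ≤ 1 := fun v => by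
    rw [hval]; exact v.intValuation_le_one _
  have hsub : ∀ v : HeightOneSpectrum (𝓞 K), ∃ H : AddSubgroup
      ((EX K (j t : K)).baseChange (v.adicCompletion K)).toAffine.Point,
      ∀ P, P ∈ H ↔ NonsingRed Valued.v
        ((EX K (j t : K)).baseChange (v.adicCompletion K)) P := by
    intro v
    have hcz : CharZero (v.adicCompletion K) :=
      charZero_of_injective_algebraMap (algebraMap K (v.adicCompletion K)).injective
    refine sub_ex Valued.v (bc v _) ?_ (hx1 v)
    rw [hDv, Ne, map_eq_zero]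
    intro h
    have h1 : j (1 + 4 * t) = 0 := RingOfIntegers.ext h
    exact hD0 ((map_eq_zero_iff j j.injective).1 h1)
  choose H hH using hsub
  -- the values of the discriminant
  have hDval : ∀ v : HeightOneSpectrum (𝓞 K),
      v.intValuation (j (1 + 4 * t)) = ∏ π ∈ S, v.intValuation (j π) := by
    intro v
    rw [← hSt, map_prod, map_prod]
  have h7 : ∀ v : HeightOneSpectrum (𝓞 K), v.intValuation (7 : 𝓞 K) = v.intValuation (j fR) ^ 2 := by
    intro v
    have e : (7 : 𝓞 K) = -(j fR) ^ 2 := by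
      rw [← map_pow, fR_sq, map_neg, map_ofNat, neg_neg]
    rw [e, Valuation.map_neg, map_pow]
  have hnat : ∀ (n : ℕ) (v : HeightOneSpectrum (𝓞 K)),
      Valued.v ((n : ℕ) : v.adicCompletion K) = v.intValuation ((n : ℕ) : 𝓞 K) := by
    intro n v
    have e : ((n : ℕ) : v.adicCompletion K) =
        algebraMap K (v.adicCompletion K) ((j (n : RR) : 𝓞 K) : K) := by
      rw [cst, map_natCast]
    rw [e, hval, map_natCast]
  have hfour : ∀ v : HeightOneSpectrum (𝓞 K), v.intValuation (2 : 𝓞 K) = 1 →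
      v.intValuation (j (fR * (1 + 4 * t))) = exp (-1 : ℤ) →
      (v.intValuation (j (1 + 4 * t)) = 1 ∨ v.intValuation (7 : 𝓞 K) = 1) →
      (∃ z : RR, v.intValuation (j z) = exp (-1 : ℤ)) → (H v).index = 4 := by
    intro v h2 h3 h4 h5
    have hcz : CharZero (v.adicCompletion K) :=
      charZero_of_injective_algebraMap (algebraMap K (v.adicCompletion K)).injective
    refine idx_four hI Valued.v (a := algebraMap K (v.adicCompletion K) ((j aR : 𝓞 K) : K))
      (bc v _) ?_ ?_ (hx1 v) ?_ ⟨?_, ?_⟩ _ (hH v)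
    · rw [cst, ← map_pow, aR_sq, map_sub, map_ofNat]
    · have := hnat 2 v
      rw [Nat.cast_ofNat, Nat.cast_ofNat] at this
      rw [this, h2]
    · obtain ⟨z, hz⟩ := h5
      exact ⟨algebraMap K (v.adicCompletion K) ((j z : 𝓞 K) : K), by rw [hval, hz]⟩
    · rw [← h3, ← hval]
      congr 1
      have e : fR * (1 + 4 * t) = (1 + 4 * t) * (2 * aR - 1) := by
        have : fR = 2 * aR - 1 := rfl
        rw [this]; ring
      rw [e, cst, cst, cst, map_mul, map_add, map_sub, map_mul, map_mul, map_one, map_ofNat,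
        map_ofNat]
    · rw [hDv, hval]
      rcases h4 with h4 | h4
      · exact Or.inl h4
      · right
        have := hnat 7 v
        rw [Nat.cast_ofNat, Nat.cast_ofNat] at this
        rw [this, h4]
  have hfu : ∀ v : HeightOneSpectrum (𝓞 K), j fR ∈ v.asIdeal → v.intValuation (j (1 + 4 * t)) = 1 := by
    intro v hv
    rw [HeightOneSpectrum.intValuation_eq_one_iff]
    intro h
    obtain ⟨a, b, hab⟩ := hcop
    apply v.isPrime.ne_top
    rw [Ideal.eq_top_iff_one]
    have h3 := congrArg j hab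
    rw [map_add j, map_mul j, map_mul j, map_one j] at h3
    rw [← h3]
    exact v.asIdeal.add_mem (v.asIdeal.mul_mem_left _ hv) (v.asIdeal.mul_mem_left _ h)
  -- the place above seven
  have hA : (H (pl j prime_fR)).index = 4 := by
    have hmem : j fR ∈ (pl j prime_fR).asIdeal := by rw [mem_pl]
    refine hfour _ (val_two j ⟨-3, -fR, by linear_combination -fR_sq⟩ hmem) ?_ (Or.inl (hfu _ hmem))
      ⟨fR, pl_val j prime_fR⟩
    rw [map_mul, map_mul, hfu _ hmem, mul_one, pl_val]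
  have hB : ∀ π (hπ : π ∈ S), (H (pl j (hpr π hπ))).index = 4 := by
    intro π hπ
    have hmem : j π ∈ (pl j (hpr π hπ)).asIdeal := by rw [mem_pl]
    have hf1 : (pl j (hpr π hπ)).intValuation (j fR) = 1 := by
      rw [HeightOneSpectrum.intValuation_eq_one_iff, mem_pl]
      intro hd
      exact (hpr π hπ).not_isUnit ((hS.1 π hπ).cop.symm.isUnit_of_dvd' dvd_rfl hd)
    have hD1 : (pl j (hpr π hπ)).intValuation (j (1 + 4 * t)) = exp (-1 : ℤ) := by
      rw [hDval, Finset.prod_eq_single π, pl_val]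
      · intro ρ hρ hne
        rw [HeightOneSpectrum.intValuation_eq_one_iff, mem_pl]
        intro hd
        exact hne (Pool.Agent.T2h16.KD.eq_of_dvd (hS.1 π hπ) (hS.1 ρ hρ) hd).symm
      · intro h; exact absurd hπ h
    refine hfour _ (val_two j (hS.1 π hπ).odd hmem) ?_ (Or.inr (by rw [h7, hf1, one_pow]))
      ⟨π, pl_val j _⟩
    rw [map_mul, map_mul, hf1, one_mul, hD1]
  have hC : ∀ v : HeightOneSpectrum (𝓞 K), j fR ∉ v.asIdeal → (∀ π ∈ S, j π ∉ v.asIdeal) →
      (H v).index = 1 := by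
    intro v h1 h2
    refine idx_one Valued.v (bc v _) (hx1 v) ?_ _ (hH v)
    have h3 : v.intValuation (j fR) = 1 := HeightOneSpectrum.intValuation_eq_one_iff.2 h1
    have h4 : v.intValuation (j (1 + 4 * t)) = 1 := by
      rw [hDval]
      exact Finset.prod_eq_one fun π hπ => HeightOneSpectrum.intValuation_eq_one_iff.2 (h2 π hπ)
    have h5 : Valued.v (343 : v.adicCompletion K) = 1 := by
      have e : (343 : v.adicCompletion K) = ((7 : ℕ) : v.adicCompletion K) ^ 3 := by norm_num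
      rw [e, map_pow, hnat, Nat.cast_ofNat, h7, h3, one_pow, one_pow]
    rw [map_mul, map_pow, h5, hDv, hval, h4, one_pow, one_mul]
  -- the support
  have hsupp : Function.mulSupport (fun v => (H v).index) ⊆
      ((insert (pl j prime_fR) (S.attach.image fun π => pl j (hpr π.1 π.2)) :
        Finset (HeightOneSpectrum (𝓞 K))) : Set (HeightOneSpectrum (𝓞 K))) := by
    intro v hv
    rw [Function.mem_mulSupport] at hv
    by_contra hcon
    apply hv
    rw [Finset.mem_coe, Finset.mem_insert, Finset.mem_image, not_or] at hcon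
    refine hC v (fun h => hcon.1 (eq_pl j prime_fR h)) fun π hπ h =>
      hcon.2 ⟨⟨π, hπ⟩, Finset.mem_attach _ _, ?_⟩
    exact (eq_pl j (hpr π hπ) h).symm
  refine ⟨fun v => (H v).index, ⟨fun v => ⟨hM K j t hsqf hcop v, H v, hH v, rfl⟩, ?_⟩, ?_⟩
  · exact (Finset.finite_toSet _).subset hsupp
  · rw [finprod_eq_prod_of_mulSupport_subset _ hsupp, Finset.prod_insert, Finset.prod_image]
    · rw [hA, Finset.prod_congr rfl fun π _ => hB π.1 π.2, Finset.prod_const, Finset.card_attach,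
        pow_succ, mul_comm]
    · intro a _ b _ h
      have h1 : j b.1 ∈ (pl j (hpr a.1 a.2)).asIdeal := by
        have h2 : pl j (hpr a.1 a.2) = pl j (hpr b.1 b.2) := h
        rw [h2, mem_pl]
      rw [mem_pl] at h1
      exact Subtype.ext (Pool.Agent.T2h16.KD.eq_of_dvd (hS.1 a.1 a.2) (hS.1 b.1 b.2) h1)
    · intro h
      rw [Finset.mem_image] at h
      obtain ⟨π, -, hπ⟩ := h
      have h1 : j fR ∈ (pl j (hpr π.1 π.2)).asIdeal := by
        rw [hπ, mem_pl]
      rw [mem_pl] at h1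
      exact (hpr π.1 π.2).not_isUnit ((hS.1 π.1 π.2).cop.symm.isUnit_of_dvd' dvd_rfl h1)

end Pool.Agent.T2h16.KE
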