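import Pool.Agent.T2h16.KE.Stm
import Pool.Agent.T2h20.KE.Pl
import Pool.Agent.T2h20.KE.Tor
import Pool.Agent.Y700.VC

/-!
# Project KE, task TORK: the torsion
-/

set_option autoImplicit false
set_option linter.unusedSectionVars false

open scoped Classical

namespace Pool.Agent.T2h16.KE

open NumberField IsDedekindDomain WeierstrassCurve WithZero
open Pool.Agent.Y698 (RR fR aR EX EX_Δ EX_map fR_sq prime_fR aR_sq eA eB eA_add eA_mul eA_sub
  roots_neD)
open Pool.Agent.Y700 (VR)
open Pool.Agent.H437R2.Man.MW (crv pt_fg)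
open Pool.Agent.T2h20.KE (pl mem_pl pl_val jc_eq tor4 no_four card_two)

namespace TorK

variable {K : Type} [Field K]

/-- `(x, y) ↦ (4 x - 8 D, 8 y + 4 x)` -/
theorem vr [CharZero K] {a : K} (ha : a ^ 2 = a - 2) (τ : K) :
    VR (crv (0 : K) (-((1 + 4 * τ) * eA a)) (-((1 + 4 * τ) * eB a))) (EX K τ) 2
      (-8 * (1 + 4 * τ)) 1 0 := by
  have hadd := eA_add ha
  have hmul := eA_mul ha
  unfold EX crv
  refine ⟨two_ne_zero, ?_, ?_, ?_, ?_, ?_⟩
  · simp only; ring
  · simp only; linear_combination (1 + 4 * τ) * hadd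
  · simp only; ring
  · simp only
    linear_combination (-(1 + 4 * τ) ^ 2) * hmul + (-16 * (1 + 4 * τ) ^ 2) * hadd
  · simp only
    linear_combination (8 * (1 + 4 * τ) ^ 3) * hmul + (64 * (1 + 4 * τ) ^ 3) * hadd

/-- `c √-7 D` is not a square if `c = ±1` -/
theorem not_sq [NumberField K] (j : RR ≃+* 𝓞 K) {t : RR} (hf : IsCoprime fR (1 + 4 * t)) {c : K}
    (hc : c = 1 ∨ c = -1) {z : K} (hz : z ≠ 0) :
    ¬ IsSquare (c * ((1 + 4 * (j t : K)) * (j fR : K)) * z ^ 2) := by
  rintro ⟨y, hy⟩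
  set v := pl j prime_fR with hv
  have h1 : v.valuation K (j fR : K) = exp (-1 : ℤ) := by
    rw [← pl_val j prime_fR]
    exact HeightOneSpectrum.valuation_of_algebraMap v (j fR)
  have h2 : v.valuation K (1 + 4 * (j t : K)) = 1 := by
    have e : (1 + 4 * (j t : K)) = ((j (1 + 4 * t) : 𝓞 K) : K) := by
      rw [jc_eq, jc_eq, map_add, map_one, map_mul, map_ofNat]
    rw [e]
    refine (HeightOneSpectrum.valuation_of_algebraMap v _).trans ?_
    rw [HeightOneSpectrum.intValuation_eq_one_iff, mem_pl]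
    intro hd
    exact prime_fR.not_isUnit (hf.isUnit_of_dvd' dvd_rfl hd)
  have h3 : v.valuation K c = 1 := by
    rcases hc with rfl | rfl
    · exact map_one _
    · rw [Valuation.map_neg, map_one]
  have h4 := congrArg (v.valuation K) hy
  rw [map_mul, map_mul, map_mul, h1, h2, h3, map_mul, map_pow, one_mul, one_mul] at h4
  have hvz : v.valuation K z ≠ 0 := (Valuation.ne_zero_iff _).2 hz
  have hvy : v.valuation K y ≠ 0 := by
    intro h0
    rw [h0, mul_zero] at h4
    exact (mul_ne_zero exp_ne_zero (pow_ne_zero 2 hvz)) h4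
  obtain ⟨m, hm⟩ : ∃ m : ℤ, v.valuation K z = exp m := ⟨log _, (exp_log hvz).symm⟩
  obtain ⟨n, hn⟩ : ∃ n : ℤ, v.valuation K y = exp n := ⟨log _, (exp_log hvy).symm⟩
  rw [hm, hn, sq, ← exp_add, ← exp_add, ← exp_add, exp_inj] at h4
  omega

end TorK

theorem t_TORK : S_TORK := by
  intro K _ _ j t hf
  set a : K := (j aR : K) with haD
  set D : K := 1 + 4 * (j t : K) with hDD
  have ha : a ^ 2 = a - 2 := by
    rw [haD, jc_eq, ← map_pow, aR_sq, map_sub, map_ofNat]
  have hs : (j fR : K) = 2 * a - 1 := by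
    have e : fR = 2 * aR - 1 := rfl
    rw [haD, e, jc_eq, jc_eq, map_sub, map_mul, map_one, map_ofNat]
  have hD0 : D ≠ 0 := by
    intro h0
    have h1 := TorK.not_sq j hf (Or.inl rfl) (one_ne_zero : (1 : K) ≠ 0)
    apply h1
    refine ⟨0, ?_⟩
    rw [← hDD, h0]; ring
  obtain ⟨n1, n2, n3⟩ := roots_neD ha hD0
  have hV := TorK.vr ha (j t : K)
  rw [← hDD] at hV
  have hΔ : (EX K (j t : K)).Δ ≠ 0 := by
    rw [EX_Δ, ← hDD]
    exact mul_ne_zero (by norm_num) (pow_ne_zero 6 hD0)
  set e := hV.equiv hΔ with he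
  have hfg : AddGroup.FG (EX K (j t : K)).toAffine.Point := by
    have h1 := pt_fg n1 n2 n3
    exact AddGroup.fg_of_surjective (f := e.symm.toAddMonoidHom) e.symm.surjective
  have ha1 : (1 - a) ≠ 0 := by
    intro h0
    have h1 : a = 1 := by linear_combination -h0
    rw [h1] at ha
    norm_num at ha
  refine tor4 hfg ?_ ?_
  · rw [← card_two n1 n2 n3]
    refine Nat.card_congr (e.toEquiv.subtypeEquiv fun x => ?_)
    show x + x = 0 ↔ e x + e x = 0
    rw [← map_add, map_eq_zero_iff e e.injective]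
  · intro T x hT hx
    have key := no_four (e1 := (0 : K)) (e2 := -(D * eA a)) (e3 := -(D * eB a)) ?_ ?_ ?_
      (e T) (e x) (by rw [← map_add, hT, map_zero]) (by rw [← map_add, hx])
    · exact (map_eq_zero_iff e e.injective).1 key
    · have e1 : -(D * eA a) - 0 = -1 * (D * (j fR : K)) * ((1 - a) ^ 2) ^ 2 := by
        rw [hs]; unfold eA; ring
      rw [e1]
      exact TorK.not_sq j hf (Or.inr rfl) (pow_ne_zero 2 ha1)
    · have e1 : -(D * eB a) - -(D * eA a) = 1 * (D * (j fR : K)) * 1 ^ 2 := by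
        rw [hs]; linear_combination D * eA_sub ha
      rw [e1]
      exact TorK.not_sq j hf (Or.inl rfl) one_ne_zero
    · have e1 : -(D * eA a) - -(D * eB a) = -1 * (D * (j fR : K)) * 1 ^ 2 := by
        rw [hs]; linear_combination -D * eA_sub ha
      rw [e1]
      exact TorK.not_sq j hf (Or.inr rfl) one_ne_zero

end Pool.Agent.T2h16.KE
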