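import Pool.Agent.T2h16.KE.Stm

/-!
# The traces of Frobenius at the odd places (helper64)
-/

set_option autoImplicit false
set_option linter.unusedVariables false

open scoped Classical

namespace Pool.Agent.T2h16.KE

open Pool.Agent.Y698
open Pool.Agent.W192.HK (sp nm HC)
open W165.CE (pw pw_eq pw_luc exists_roots')

namespace TRCp

lemma card_AP_EXk (k : Type) [Field k] (h2 : (2 : k) ≠ 0) (t : k) :
    Nat.card (AP (EX k t)) = Nat.card {x : k × k // x.2 ^ 2 = x.1 ^ 3 +
      ((-35 : ℤ) : k) * (1 + 4 * t) ^ 2 * x.1 + ((-98 : ℤ) : k) * (1 + 4 * t) ^ 3} := by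
  have h8 : (8 : k) ≠ 0 := by
    have : (8 : k) = 2 ^ 3 := by norm_num
    rw [this]
    exact pow_ne_zero 3 h2
  have h4 : (4 : k) ≠ 0 := by
    have : (4 : k) = 2 ^ 2 := by norm_num
    rw [this]
    exact pow_ne_zero 2 h2
  have h64 : (64 : k) ≠ 0 := by
    have : (64 : k) = 8 * 8 := by norm_num
    rw [this]
    exact mul_ne_zero h8 h8
  refine Nat.card_congr
    { toFun := fun Q => ⟨(4 * Q.1.1 - (1 + 4 * t), 8 * Q.1.2 + 4 * Q.1.1), ?_⟩
      invFun := fun Q => ⟨((Q.1.1 + (1 + 4 * t)) / 4, (Q.1.2 - (Q.1.1 + (1 + 4 * t))) / 8), ?_⟩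
      left_inv := ?_
      right_inv := ?_ }
  · have h := Q.2
    rw [WeierstrassCurve.Affine.equation_iff] at h
    unfold EX at h
    simp only at h ⊢
    push_cast
    linear_combination 64 * h
  · have h := Q.2
    rw [WeierstrassCurve.Affine.equation_iff]
    unfold EX
    simp only at h ⊢
    push_cast at h
    apply mul_left_cancel₀ h64
    field_simp
    linear_combination 64 * h
  · rintro ⟨⟨x, y⟩, h⟩
    apply Subtype.ext
    apply Prod.ext
    · simp only
      field_simp
      ring
    · simp only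
      field_simp
      ring
  · rintro ⟨⟨x, y⟩, h⟩
    apply Subtype.ext
    apply Prod.ext
    · simp only
      field_simp
      ring
    · simp only
      field_simp
      ring

theorem psi_cj (g : RR) : psi (sp (cj g)) = (starRingEnd ℂ) (psi (sp g)) := by
  rw [psi_sp, psi_sp, map_mul, e7_conj, e7_cj, cj_coe]

/-- the trace of the curve itself -/
theorem trace_k (k : Type) [Field k] [Finite k] (φ : RR →+* k) (π : RR)
    (hφ : Function.Surjective φ) (hπ : Prime π) (hker : ∀ x, φ x = 0 ↔ x ∈ sp π)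
    (h2 : (2 : k) ≠ 0) (h7 : φ fR ≠ 0) :
    (((Nat.card k : ℤ) - Nat.card (Aff k) : ℤ) : ℂ) =
      psi (sp π) + (starRingEnd ℂ) (psi (sp π)) := by
  have hkq : Nat.card k = Nat.card (RR ⧸ sp π) := by
    have h1 : RingHom.ker φ = sp π := by
      ext x
      rw [RingHom.mem_ker]
      exact hker x
    have h3 := Nat.card_congr (RingHom.quotientKerEquivOfSurjective hφ).toEquiv
    rw [h1] at h3
    exact h3.symm
  obtain ⟨p, hchar⟩ := CharP.exists k
  have hp : p.Prime := (CharP.char_is_prime_or_zero k p).resolve_right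
    (CharP.char_ne_zero_of_finite k p)
  have hp0 : (p : k) = 0 := CharP.cast_eq_zero k p
  have hp2 : p ≠ 2 := by
    rintro rfl
    exact h2 (by exact_mod_cast hp0)
  have hp7 : p ≠ 7 := by
    rintro rfl
    have h3 : φ fR ^ 2 = -7 := by
      rw [← map_pow, fR_sq, map_neg, map_ofNat]
    have h4 : (7 : k) = 0 := by exact_mod_cast hp0
    rw [h4, neg_zero] at h3
    exact h7 (pow_eq_zero_iff two_ne_zero |>.1 h3)
  have hdvd : π ∣ (p : RR) := by
    have h3 : φ (p : RR) = 0 := by rw [map_natCast]; exact hp0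
    exact Ideal.mem_span_singleton.1 ((hker _).1 h3)
  have hEW : ∀ f : ℕ, f ≠ 0 → Nat.card k = p ^ f →
      (((Nat.card k : ℤ) - Nat.card (Aff k) : ℤ) : ℂ) = pw (bc p) (ec p) f := by
    intro f hf hk
    rw [← trace_fin k hp hp7 hf hk, card_AP, card_Af_Aff k h2]
  rcases irr_or_norm hp with hirr | ⟨g, hg⟩
  · have hsp : sp π = sp (p : RR) :=
      Ideal.span_singleton_eq_span_singleton.2 (hπ.irreducible.associated_of_dvd hirr hdvd)
    have hk : Nat.card k = p ^ 2 := by
      rw [hkq, hsp]
      have h3 := card_sp (p : RR)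
      rw [nR_nat] at h3
      exact_mod_cast h3
    rw [hEW 2 two_ne_zero hk, hsp, psi_sp, (bc_inert hirr hp).1,
      (ap_inert hp hp2 hp7 (nonsq_of_irr hp hp2 hirr)).2]
    unfold ec
    rw [if_neg hp7]
    simp only [pw, map_mul, map_neg, map_one]
    have h4 : (((p : RR) : RR) : ℂ) = (p : ℂ) := by push_cast; rfl
    rw [h4, map_natCast]
    ring
  · have hirr : Irreducible g := irr_of_prime_norm (by rw [hg]; exact_mod_cast hp)
    have hcg : nR (cj g) = p := by
      have h1 : ((nR (cj g) : ℤ) : RR) = ((nR g : ℤ) : RR) := by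
        rw [← mul_cj, ← mul_cj, cj_cj, mul_comm]
      have : nR (cj g) = nR g := by
        have h2 := congrArg (fun r : RR => (r : ℂ)) h1
        push_cast at h2
        exact_mod_cast h2
      rw [this, hg]
    have hirr' : Irreducible (cj g) := irr_of_prime_norm (by rw [hcg]; exact_mod_cast hp)
    have hpg : (p : RR) = g * cj g := by
      rw [mul_cj, hg]
      norm_cast
    have hbc := (bc_split hp hg (sp_cj_ne hp hp7 hg)).1
    rw [psi_cj] at hbc
    rw [hpg] at hdvd
    rcases hπ.dvd_or_dvd hdvd with h3 | h3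
    · have hsp : sp π = sp g :=
        Ideal.span_singleton_eq_span_singleton.2 (hπ.irreducible.associated_of_dvd hirr h3)
      have hk : Nat.card k = p ^ 1 := by
        rw [hkq, hsp, pow_one]
        have h3 := card_sp g
        rw [hg] at h3
        exact_mod_cast h3
      rw [hEW 1 one_ne_zero hk, hsp, pw, hbc]
    · have hsp : sp π = sp (cj g) :=
        Ideal.span_singleton_eq_span_singleton.2 (hπ.irreducible.associated_of_dvd hirr' h3)
      have hk : Nat.card k = p ^ 1 := by
        rw [hkq, hsp, pow_one]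
        have h3 := card_sp (cj g)
        rw [hcg] at h3
        exact_mod_cast h3
      rw [hEW 1 one_ne_zero hk, hsp, pw, hbc, psi_cj, Complex.conj_conj]
      ring

end TRCp

open TRCp

theorem t_TRC : S_TRC := by
  intro k _ _ φ π hφ hπ hker h2 h7 x hx
  let _ : Fintype k := Fintype.ofFinite k
  have hF : ringChar k ≠ 2 := by
    intro h
    have h3 : ((2 : ℕ) : k) = 0 := (ringChar.spec k 2).2 (by rw [h])
    exact h2 (by exact_mod_cast h3)
  have h3 := count_tw hF ((-35 : ℤ) : k) ((-98 : ℤ) : k) hx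
  have h4 := trace_k k φ π hφ hπ hker h2 h7
  rw [← Nat.card_eq_fintype_card] at h3
  rw [card_AP_EXk k h2 x, h3, Int.cast_mul]
  unfold Aff at h4
  rw [h4]
  congr 1
  rw [quadraticChar_apply]
  unfold quadraticCharFun
  rw [if_neg hx]
  by_cases hs : IsSquare (1 + 4 * x)
  · rw [if_pos hs, if_pos hs, Int.cast_one]
  · rw [if_neg hs, if_neg hs, Int.cast_neg, Int.cast_one]

end Pool.Agent.T2h16.KE
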