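import Pool.Agent.T2h59.KE.Val0

/-!
# Project KE, task VAL2 (helper59)
-/

set_option autoImplicit false

namespace Pool.Agent.T2h16.KE

theorem t_VAL2 : S_VAL2T := fun hV hC => Pool.Agent.T2h59.KE.val2_ hV hC

end Pool.Agent.T2h16.KE
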