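import Pool.Agent.T2h16.KE.Stm
import Pool.Agent.T2h78.TW.Val
import Pool.Agent.Y286.SG.Rec

/-!
# Task VALK: the valuation of the value at one
-/

set_option autoImplicit false
set_option linter.all false

open Filter Finset
open scoped Topology PeriodPair

namespace Pool.Agent.T2h16.KE

open Pool.Agent.Y698 Pool.Agent.Y698.SG Pool.Agent.Y279.SG
open H667R3 Pool.Agent.W192.HK Pool.Agent.TH936.CM Pool.Agent.TH936.PU
open Pool.Agent.W192.CM (nu)
open Pool.Agent.T2h78.TW (PO te sl FO Gm ind' Bg_odd)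
open Pool.Agent.T2h16.KD (Cl)

/-- the central value of a twist by a character of any modulus -/
theorem val_genR {n : RR} (hn : Gm n) (hnu : ¬ IsUnit n) {X : Ideal RR → ℂ} (hX : HC 0 (sp n) X)
    (h7 : xb X fR ^ 2 = 1) :
    ∃ F : ℂ → ℂ, Differentiable ℂ F ∧
    (∀ z : ℂ, 3 / 2 < z.re → HasSum (fun I : Ideal RR => psi I * X I * (nm I : ℂ) ^ (-z)) (F z)) ∧
    ∀ [Fintype (RR ⧸ sp fR)] (Γ : Type) [LinearOrderedCommGroupWithZero Γ] (v : Valuation ℂ Γ)
      (L : PeriodPair) (Ω : ℂ), LD L Ω → v al < 1 → ∀ T : ℂ,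
      Tendsto (fun δ : ℝ => GG Ω δ 1) (𝓝[>] 0) (𝓝 T) →
      v 2 * v ((starRingEnd ℂ) (F 1) / Ω) = v (Bg L Ω T n (xb X)) := by
  classical
  have hbasic := Pool.Agent.W287.HK.h_basic
  have hcls := Pool.Agent.W571.HK.h_cls hbasic
  have hfp := Pool.Agent.W53.HK.h_fp hbasic hcls
  have hfpr := Pool.Agent.W366.HK.h_fpr hbasic hcls
  have hlat := Pool.Agent.W585.HK.h_lat hbasic
  have hker := Pool.Agent.W692.HK.h_ker hbasic hcls hfpr
  have hcnt := Pool.Agent.W584.HK.h_cnt hbasic hcls hfpr hlat hker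
  have hdec := Pool.Agent.W856.HK.h_dec hbasic
  have hgauss := Pool.Agent.W636.HK.h_gauss hbasic hfp
  have hpois := Pool.Agent.W348.HK.h_pois hbasic
  have htheta := Pool.Agent.TH936.HK.h_theta hbasic hfp hdec hgauss hpois hcnt
  have hafe := Pool.Agent.TH936.HK.h_afe hbasic hfp hcnt hgauss htheta
  have hprod := Pool.Agent.W29.HK.h_prod hbasic hfp
  obtain ⟨F, g1, g2, g3⟩ := val hbasic hfp hcnt hdec hafe hprod qr psi_HC hX
    ((Ideal.isCoprime_span_singleton_iff _ _).2 hn.cop)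
  refine ⟨F, g1, g2, ?_⟩
  intro _ Γ _ v L Ω h hv T hT
  have hL := h.lat
  have hΩ := hL.ne
  have t2 := v_two_lt hv
  have htop : sp n ≠ ⊤ := by
    intro h0
    exact hnu (Ideal.span_singleton_eq_top.1 h0)
  have f1 := fin_quot hn.ne
  let _ : Fintype (RR ⧸ sp n) := Fintype.ofFinite _
  have h4 := g3 htop L Ω hL
  rw [nu_eq] at h4
  have e1 : ∀ u, HH L Ω fR (ee psi) u = HH L Ω fR e7 u := by
    intro u
    unfold HH
    simp only [ee_psi]
  simp only [e1] at h4
  have hxo := xb_xo hfp qr hX htop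
  have hsum : ∑ x : RR ⧸ sp n, xb X x.out * HH L Ω fR e7 (Ω * x.out / (n : ℂ)) =
      Bg L Ω T n (xb X) := by
    rw [Bg_eq]
    have h5 : ∀ x : RR ⧸ sp n, xb X x.out * HH L Ω fR e7 (Ω * x.out / (n : ℂ)) =
        xb X x.out * Gv L Ω T (Ω * x.out / (n : ℂ)) - xb X x.out * T := by
      intro x
      by_cases hx : x.out ∈ sp n
      · have h7 := hxo.zero _ hx
        rw [h7]
        ring
      · have h7 : Ω * x.out / (n : ℂ) ∉ L.lattice := by rwa [div_mem_iff hL hn.ne]
        unfold Gv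
        rw [if_neg h7]
        ring
    rw [Finset.sum_congr rfl (fun x _ => h5 x), Finset.sum_sub_distrib, ← Finset.sum_mul,
      hxo.sum, zero_mul, sub_zero]
  rw [hsum] at h4
  have h5 := congrArg v h4
  have hvN : v (n : ℂ) = 1 := Pool.Agent.T2h78.TW.v_odd hn.odd hv
  have e2 : v (xb X fR) = 1 := val_root v two_pos h7
  have e3 : v (e7 n) = 1 := by
    refine val_root v two_pos (e7_sq ?_)
    exact not_mem_of_cop hn.cop
  rw [map_mul, map_mul, map_mul, map_div₀, map_mul, ee_psi, map_mul v (e7 n), e3, e2,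
    v_fR hv, hvN, one_mul, div_one, mul_one] at h5
  push_cast at h5
  rw [map_div₀, ← mul_div_assoc]
  have h10 : v Ω ≠ 0 := (Valuation.ne_zero_iff v).2 hΩ
  rw [div_eq_iff h10]
  rw [h5, mul_comm]

/-- the product of the symbols is even -/
lemma prod_sy_neg {S : Finset RR} (hS : Cl S) (x : RR) :
    ∏ π ∈ S, sy π (-x) = ∏ π ∈ S, sy π x := by
  classical
  have h3 : ∏ π ∈ S, sy π (-1 * x) = (∏ π ∈ S, sy π (-1)) * ∏ π ∈ S, sy π x := by
    rw [← Finset.prod_mul_distrib]
    exact Finset.prod_congr rfl fun π hπ => Pool.Agent.T2h78.TW.sy_mul (hS.1 π hπ).pr _ _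
  have h4 := sgn_prod (s := S) (f := fun π => sy π (-1)) fun π hπ => by
    rw [(hS.1 π hπ).sy_neg_one]
    split_ifs
    · exact Or.inl rfl
    · exact Or.inr rfl
  have h5 : ∑ π ∈ S, lg (sy π (-1)) = 0 := by
    rw [← hS.2]
    exact Finset.sum_congr rfl fun i hi => (hS.1 i hi).sl_neg
  rw [h5] at h4
  have h6 : ∏ π ∈ S, sy π (-1) = 1 := by
    rcases h4.1 with h | h
    · exact h
    · rw [h, lg_neg_one] at h4
      exact absurd h4.2 (by decide)
  rw [h6, one_mul, neg_one_mul] at h3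
  exact h3

/-- the character on the principal ideals -/
lemma chS_sp {S : Finset RR} (hS : Cl S) (g : RR) : chS S (sp g) = ∏ π ∈ S, sy π g := by
  unfold chS
  have h1 : sp (Submodule.IsPrincipal.generator (sp g)) = sp g :=
    Ideal.span_singleton_generator _
  obtain ⟨u, hu⟩ := Ideal.span_singleton_eq_span_singleton.1 h1
  rcases isUnit_iff.1 u.isUnit with h2 | h2
  · rw [h2, mul_one] at hu
    rw [hu]
  · rw [h2, mul_neg_one] at hu
    have h3 : ∏ π ∈ S, sy π g = ∏ π ∈ S, sy π (-(Submodule.IsPrincipal.generator (sp g))) := by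
      rw [hu]
    rw [h3, prod_sy_neg hS]

lemma conj_sy (π x : RR) : (starRingEnd ℂ) (sy π x) = sy π x := by
  rcases sy_val π x with ⟨-, h⟩ | ⟨-, h | h⟩ <;> rw [h] <;> simp

lemma xb_chS {S : Finset RR} (hS : Cl S) : xb (chS S) = fun x => ∏ π ∈ S, sy π x := by
  funext x
  unfold xb
  rw [chS_sp hS, map_prod]
  exact Finset.prod_congr rfl fun π _ => conj_sy π x

lemma fo_id {S : Finset RR} (hS : Cl S) : FO S (fun π : RR => π) :=
  ⟨hS.1, fun i hi j hj hij hm => hij (KD.eq_of_dvd (hS.1 j hj) (hS.1 i hi) (KD.mem_sp.1 hm)).symm⟩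

/-- **the valuation of the value at one** -/
theorem t_VALK : S_VALKT := by
  classical
  intro hHC hDET S hS
  have hgd := hDET S hS.1
  have key0 : ∀ a : ZMod 2, a ≠ 0 → a = 1 := by decide
  rcases S.eq_empty_or_nonempty with rfl | hne
  · obtain ⟨F, g1, g2, g3, g4⟩ := val_triv
    have hg1 : KD.Gd ∅ := fun v _ π hπ => absurd hπ (Finset.notMem_empty π)
    refine ⟨F, ⟨g1, fun z hz => ?_⟩, fun Γ _ v L Ω hL hv => ⟨fun _ => ?_, fun h0 => absurd hg1 h0⟩⟩
    · have := g2 z hz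
      convert this using 2 with I
      unfold chS
      rw [Finset.prod_empty, mul_one]
    · rw [Finset.card_empty, pow_zero]
      exact g4 Γ v L Ω hL hv
  · have hHC' := hHC S hS hne
    have hfo := fo_id hS
    have hN : Gm (∏ π ∈ S, π) := hfo.gm
    have hN1 : ¬ IsUnit (∏ π ∈ S, π) := by
      intro h1
      obtain ⟨q0, hq0⟩ := hne
      have h2 : q0 ∣ ∏ π ∈ S, π := Finset.dvd_prod_of_mem (fun q => q) hq0
      exact (hS.1 q0 hq0).pr.not_unit (isUnit_of_dvd_unit h2 h1)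
    have h7 : xb (chS S) fR ^ 2 = 1 := by
      rw [xb_chS hS, ← Finset.prod_pow]
      refine Finset.prod_eq_one fun π hπ => ?_
      have h8 : fR ∉ sp π := by
        intro h9
        rw [KD.mem_sp] at h9
        exact (hS.1 π hπ).pr.not_unit ((hS.1 π hπ).cop.isUnit_of_dvd' h9 dvd_rfl)
      rcases sy_sgn h8 with h | h <;> rw [h] <;> norm_num
    obtain ⟨F, g1, g2, g3⟩ := val_genR hN hN1 hHC' h7
    refine ⟨F, ⟨g1, g2⟩, ?_⟩
    intro Γ _ v L Ω hL hv
    have := fin_quot fR_ne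
    let _ : Fintype (RR ⧸ sp fR) := Fintype.ofFinite _
    obtain ⟨F0, -, -, k3⟩ := val_one
    have hT := k3 L Ω hL.lat
    have hvT := hL.v_T hv hT
    have h5 := g3 Γ v L Ω hL hv _ hT
    rw [xb_chS hS] at h5
    have h6 := ind' (v := v) Pool.Agent.Y286.SG.t_REC hL hv hT hfo
      (fun i hi k hk hne => by rw [add_comm]; exact KD.rcp (hS.1 i hi) (hS.1 k hk) hne)
      (fun i hi => KD.sl_fR (hS.1 i hi)) S (Finset.Subset.refl _) hS.2
    rw [h5]
    refine ⟨fun h0 => ?_, fun h0 => ?_⟩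
    · have h8 := Rd.fin (K := 1) (N := S.card) hvT one_ne_zero (hgd.1 h0)
        (by rw [one_mul]; exact h6)
      rw [h8, map_one, one_mul]
    · have h9 : Pool.Agent.T2h78.TW.gd (fun π => lg (e7 π)) (fun π ρ => sl ρ π) S = 0 := by
        by_contra h10
        exact h0 (hgd.2 h10)
      have h8 := Rd.fin0 (K := 1) (N := S.card) hvT one_ne_zero h9
        (by rw [one_mul]; exact h6)
      rw [map_one, one_mul] at h8
      exact h8

end Pool.Agent.T2h16.KE
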