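import Pool.Agent.T2h16.KE.Out
import Pool.Agent.T2h16.KD.All
import Pool.Agent.T2h16.KE.LCK
import Pool.Agent.T2h16.KE.CV
import Pool.Agent.T2h16.KE.SHG
import Pool.Agent.T2h16.KE.CRIT
import Pool.Agent.T2h16.KE.CV2
import Pool.Agent.T2h16.KE.CVC
import Pool.Agent.T2h16.KE.CVG
import Pool.Agent.T2h16.KE.CVN
import Pool.Agent.T2h16.KE.CVS
import Pool.Agent.T2h16.KE.DET
import Pool.Agent.T2h16.KE.HCK
import Pool.Agent.T2h16.KE.I0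
import Pool.Agent.T2h16.KE.LK
import Pool.Agent.T2h16.KE.MINK
import Pool.Agent.T2h16.KE.SUP
import Pool.Agent.T2h16.KE.TAMK
import Pool.Agent.T2h16.KE.TORK
import Pool.Agent.T2h16.KE.TRC
import Pool.Agent.T2h16.KE.GCJ
import Pool.Agent.T2h16.KE.JEX
import Pool.Agent.T2h16.KE.PERK
import Pool.Agent.T2h16.KE.HYP
import Pool.Agent.T2h16.KE.VAL2
import Pool.Agent.T2h16.KE.CVK
import Pool.Agent.T2h16.KE.VALK
import Pool.Agent.T2h16.KE.SELK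
import Pool.Agent.T2h16.KE.FINK
import Pool.Agent.T2h16.KE.SHAK

/-!
# Project KE: the assembly
-/

set_option autoImplicit false

namespace Pool.Agent.T2h16.KE

/-- the assembly -/
theorem inp (valk : S_VALKT) (val2 : S_VAL2T) (selk : S_SELK) (shak : S_SHAKT) (fink : S_FINK)
    (cvk : S_CVK) (gcj : S_GCJ) (perk : S_PERK) (hyp : S_HYP) : InpK where
  gcj := gcj
  val := val2 (valk t_HCK t_DET) gcj
  lk := t_LK t_SUP t_TRC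
  tam := t_TAMK t_MINK t_I0
  tor := t_TORK
  per := perk
  hyp := hyp
  sha := shak selk
  fin := fink
  lck := t_LCK
  cv := t_CV hyp (t_CVS t_SHG) (t_CVG t_CVN) t_CVN t_CV2 t_CVC cvk
  crit := t_CRIT

theorem inpK : InpK := inp t_VALK t_VAL2 t_SELK t_SHAK t_FINK t_CVK t_GCJ t_PERK t_HYP

open Filter NumberField in
/-- the result -/
theorem all (K : Type) [Field K] [NumberField K] (hK : Module.finrank ℚ K = 2) (δ : K)
    (hδ : δ ^ 2 = -7) :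
    (∃ c : ℝ, 0 < c ∧ ∃ X₀ : ℕ, ∀ X : ℕ, X₀ ≤ X →
      c * X ≤ ({D : 𝓞 K | Algebra.norm ℤ D ≤ X ∧ ClsK D}.ncard : ℝ)) ∧
    (∀ D : 𝓞 K, ClsK D → LawW (ECK (D : K)) ∧ CritD D) ∧
    Tendsto (fun X : ℕ =>
      ({D : 𝓞 K | Algebra.norm ℤ D ≤ X ∧ ClsK D ∧ TriD D}.ncard : ℝ) /
        ({D : 𝓞 K | Algebra.norm ℤ D ≤ X ∧ ClsK D}.ncard : ℝ)) atTop
      (nhds (∏' i : ℕ, (1 - (1 / 2 : ℝ) ^ (i + 1)))) ∧
    (0.2887 : ℝ) < ∏' i : ℕ, (1 - (1 / 2 : ℝ) ^ (i + 1)) ∧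
    ∏' i : ℕ, (1 - (1 / 2 : ℝ) ^ (i + 1)) < 0.2888 :=
  final inpK t_JEX Pool.Agent.T2h16.KD.den Pool.Agent.T2h16.KD.t_LOW Pool.Agent.T2h16.KD.t_ETA
    K hK δ hδ

end Pool.Agent.T2h16.KE
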