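import Pool.Agent.T2h16.KE.Stm
import Pool.Agent.Y698.SG.Uj

/-!
# Project KE: the law for all `D`, from the parts
-/

set_option autoImplicit false
set_option linter.unusedVariables false

open scoped Classical

namespace Pool.Agent.T2h16.KE

open Finset Filter
open NumberField IsDedekindDomain WeierstrassCurve WithZero
open Pool.Agent.Y698 (RR cX cY nR aR bR cj fR al psi e7 EX AP eA eB LD SqE Ev Ur Sq SDD)
open Pool.Agent.Y698.SG (sy lg)
open Pool.Agent.W192.HK (sp nm HC)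
open Pool.Agent.T2h78.TW (PO te sl)
open Pool.Agent.T2h16.KD (nrm prm PS PD Cl)
open Pool.Agent.TH841.SH.D (Pt act Gal Coch IsCoc IsCob LocTriv)
open Pool.Agent.TH841.SH (IsX)
open Pool.Agent.TH841.NF.D (Sha)
open Pool.Agent.Y696 (NonsingRed)

/-- the inputs -/
structure InpK : Prop where
  gcj : S_GCJ
  val : S_VAL2
  lk : S_LK
  tam : S_TAMK
  tor : S_TORK
  per : S_PERK
  hyp : S_HYP
  sha : S_SHAK
  fin : S_FINK
  lck : S_LCK
  cv : S_CV
  crit : S_CRIT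

/-- the conjugate isomorphism -/
noncomputable def cjE : RR ≃+* RR :=
  RingEquiv.ofRingHom cj cj (by ext x; exact congrArg _ (Pool.Agent.Y698.cj_cj x))
    (by ext x; exact congrArg _ (Pool.Agent.Y698.cj_cj x))

lemma cjE_apply (x : RR) : cjE x = cj x := rfl

lemma cj_aR : cj aR = 1 - aR := Pool.Agent.Y698.ev_aR _ _

lemma pow_two_zero {M : Type*} [AddCommGroup M] (h : ∀ x : M, x + x = 0 → x = 0) :
    ∀ (n : ℕ) (x : M), 2 ^ n • x = 0 → x = 0 := by
  intro n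
  induction n with
  | zero => intro x hx; simpa using hx
  | succ n ih =>
    intro x hx
    rw [pow_succ, mul_nsmul', two_nsmul] at hx
    exact h x (ih _ hx)

/-- the absolute value of the image of an element -/
lemma norm_emb (φ : RR →+* ℂ) (x : RR) : ‖φ x‖ ^ 2 = nR x := by
  have hb : φ aR ^ 2 = φ aR - 2 := by
    rw [← map_pow, Pool.Agent.Y698.aR_sq, map_sub, map_ofNat]
  have hc : (starRingEnd ℂ) (φ aR) = 1 - φ aR := by
    have h1 : (φ aR - al) * (φ aR - (1 - al)) = 0 := by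
      linear_combination hb - Pool.Agent.Y698.al_sq
    have h3 : (starRingEnd ℂ) al = 1 - al := by
      have h4 := Pool.Agent.Y698.cj_coe aR
      rw [cj_aR, Pool.Agent.Y698.aR_coe] at h4
      rw [← h4]
      push_cast
      rw [Pool.Agent.Y698.aR_coe]
    rcases mul_eq_zero.1 h1 with h2 | h2
    · rw [sub_eq_zero.1 h2, h3]
    · rw [sub_eq_zero.1 h2, map_sub, map_one, h3]
  have hd := Pool.Agent.Y279.SG.dec x
  have h5 : (starRingEnd ℂ) (φ x) = φ (cj x) := by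
    rw [hd]
    simp only [map_add, map_mul, map_intCast, map_sub, map_one, hc, cj_aR]
  have h6 : ((‖φ x‖ ^ 2 : ℝ) : ℂ) = (nR x : ℂ) := by
    rw [← Complex.normSq_eq_norm_sq, Complex.normSq_eq_conj_mul_self, h5, ← map_mul, mul_comm,
      Pool.Agent.Y698.mul_cj, map_intCast]
  exact_mod_cast h6

section
variable {K : Type} [Field K] [NumberField K]

/-- the group of points is finite and the `2`-primary part of the Tate-Shafarevich group is
trivial -/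
def TriK (W : WeierstrassCurve K) : Prop :=
  Finite W.toAffine.Point ∧ ∀ (n : ℕ) (x : Sha W), 2 ^ n • x = 0 → x = 0

/-- the order of the torsion subgroup -/
noncomputable def torsK (W : WeierstrassCurve K) : ℕ :=
  Nat.card (AddCommGroup.torsion W.toAffine.Point)

/-- the `2`-part of the formula -/
def LawK (t : 𝓞 K) : Prop :=
  Finite (AddCommGroup.torsion (EX K (t : K)).toAffine.Point) ∧
  padicValNat 2 (torsK (EX K (t : K))) = 2 ∧
  ∃ (Lf : ℂ → ℂ) (c : HeightOneSpectrum (𝓞 K) → ℕ),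
    Differentiable ℂ Lf ∧
    (∀ s : ℂ, 3 / 2 < s.re →
      LSeriesSummable ((fun n : ℤ => (n : ℂ)) ∘ (EX K (t : K)).LFunction) s ∧
        Lf s = (EX K (t : K)).LSeries s) ∧
    (TriK (EX K (t : K)) → Lf 1 ≠ 0) ∧
    IsTam (EX K (t : K)) c ∧
    ∀ σ : K →+* ℂ, (∃ Λ, IsPer ((EX K (t : K)).map σ) Λ) ∧
      ∀ Λ, IsPer ((EX K (t : K)).map σ) Λ → ∃ ρ : ℂ,
        Lf 1 = ρ * (((2 * |((starRingEnd ℂ) Λ.ω₁ * Λ.ω₂).im| : ℝ) : ℂ) * ((∏ᶠ w, c w : ℕ) : ℂ) /
          (((Real.sqrt |(discr K : ℝ)| : ℝ) : ℂ) * (torsK (EX K (t : K)) : ℂ) ^ 2)) ∧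
        ∀ (Γ : Type) [LinearOrderedCommGroupWithZero Γ] (v : Valuation ℂ Γ), v 2 < 1 →
          v ρ ≤ 1 ∧ (v ρ = 1 ↔ TriK (EX K (t : K)))

variable (I : InpK) (j : RR ≃+* 𝓞 K) {t : RR} (hsq : Squarefree (1 + 4 * t))
  (hcop : IsCoprime fR (1 + 4 * t))

include I hsq hcop in
/-- the criterion -/
theorem tri_iff : TriK (EX K (j t : K)) ↔ KD.Gd (PD (1 + 4 * t)) := by
  obtain ⟨hcl, hprod, -, -⟩ := I.crit K j t hsq hcop
  obtain ⟨hh1, hh2⟩ := I.hyp K j t hsq hcop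
  constructor
  · rintro ⟨h1, h2⟩
    by_contra hG
    refine I.cv K j _ t hcl hprod hG ⟨h1, fun x hx => h2 1 x ?_⟩
    rw [pow_one, two_nsmul]
    exact hx
  · intro hG
    obtain ⟨g1, g2, g3, g4, -⟩ := I.gcj _ hcl
    -- the conjugate data
    have hj1 : ∀ x : RR, (cjE.trans j) x = j (cj x) := fun x => rfl
    have hpc : ∏ π ∈ cjS (PD (1 + 4 * t)), π = 1 + 4 * cj t := by
      rw [g3, hprod, map_add, map_mul, map_one, map_ofNat]
    have c1 := I.lck K j _ t hcl hprod hG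
    have c2 := I.lck K (cjE.trans j) _ (cj t) g1 hpc (g4.2 hG)
    have e1 : (((cjE.trans j) aR : 𝓞 K) : K) = 1 - (j aR : K) := by
      rw [hj1, cj_aR, map_sub, map_one]
      push_cast
      rfl
    have e2 : (cjE.trans j) (cj t) = j t := by
      rw [hj1, Pool.Agent.Y698.cj_cj]
    rw [e1, e2] at c2
    refine ⟨I.fin K (j aR : K) (j t) hh1 hh2 c1 c2, ?_⟩
    exact pow_two_zero (I.sha K (j aR : K) (j t) hh1 hh2 c1 c2)

include I hsq hcop in
/-- the law -/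
theorem law (hd : discr K = -7) : LawK (j t) := by
  obtain ⟨hcl, hprod, -, -⟩ := I.crit K j t hsq hcop
  have htri := tri_iff I j hsq hcop
  obtain ⟨ht1, ht2⟩ := I.tor K j t hcop
  obtain ⟨⟨F, hF⟩, hval⟩ := I.val _ hcl
  obtain ⟨c, hc1, hc2⟩ := I.tam K j _ t hcl hprod
  obtain ⟨-, -, -, -, g5⟩ := I.gcj _ hcl
  set S := PD (1 + 4 * t) with hS
  set T : ℕ := torsK (EX K (j t : K)) with hT
  have hT2 : padicValNat 2 T = 2 := ht2
  have hT0 : T ≠ 0 := by
    intro h0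
    rw [h0] at hT2
    simp at hT2
  obtain ⟨m, hm, hmo⟩ : ∃ m : ℕ, T = 4 * m ∧ m % 2 = 1 := by
    have h1 := pow_padicValNat_dvd (p := 2) (n := T)
    rw [hT2] at h1
    obtain ⟨m, hm⟩ := h1
    refine ⟨m, hm, ?_⟩
    by_contra hcon
    have h2 : 2 ∣ m := by omega
    obtain ⟨k, rfl⟩ := h2
    have h3 : 2 ^ (padicValNat 2 T + 1) ∣ T := by
      rw [hT2, hm]
      exact ⟨k, by ring⟩
    exact pow_succ_padicValNat_not_dvd hT0 h3
  set n := S.card with hn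
  have hD0 : (1 + 4 * t : RR) ≠ 0 := hsq.ne_zero
  have hodd : ∃ k : ℕ, nR (1 + 4 * t) = k ∧ k % 2 = 1 := by
    refine ⟨(nR (1 + 4 * t)).natAbs, (Int.natAbs_of_nonneg (Pool.Agent.Y698.nR_nonneg _)).symm, ?_⟩
    have h1 : nR (1 + 4 * t) % 2 = 1 := by
      have e1 : cX (1 + 4 * t) = 1 + 4 * cX t ∧ cY (1 + 4 * t) = 4 * cY t := by
        have h4 : cX (4 : RR) = 4 ∧ cY (4 : RR) = 0 := by
          simpa using Pool.Agent.Y698.cXY_nat 4
        have h5 := Pool.Agent.Y698.cXY_add 1 (4 * t)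
        have h6 := Pool.Agent.Y698.cXY_mul 4 t
        have h7 := Pool.Agent.Y698.cXY_one
        rw [h4.1, h4.2] at h6
        rw [h7.1, h7.2, h6.1, h6.2] at h5
        exact ⟨by rw [h5.1]; ring, by rw [h5.2]; ring⟩
      unfold Pool.Agent.Y698.nR
      rw [e1.1, e1.2]
      have e : (1 + 4 * cX t) ^ 2 + (1 + 4 * cX t) * (4 * cY t) + 2 * (4 * cY t) ^ 2 =
        1 + 2 * (4 * cX t + 8 * cX t ^ 2 + 2 * cY t + 8 * cX t * cY t + 16 * cY t ^ 2) := by ring
      rw [e]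
      omega
    have h2 := Pool.Agent.Y698.nR_nonneg (1 + 4 * t)
    omega
  obtain ⟨N, hN1, hN2⟩ := hodd
  -- the valuation of the quotient
  have key : ∀ σ : K →+* ℂ, (∃ Λ, IsPer ((EX K (j t : K)).map σ) Λ) ∧
      ∀ Λ, IsPer ((EX K (j t : K)).map σ) Λ → ∃ ρ : ℂ,
        F 1 * (starRingEnd ℂ) (F ((starRingEnd ℂ) 1)) =
          ρ * (((2 * |((starRingEnd ℂ) Λ.ω₁ * Λ.ω₂).im| : ℝ) : ℂ) * ((∏ᶠ w, c w : ℕ) : ℂ) /
          (((Real.sqrt |(discr K : ℝ)| : ℝ) : ℂ) * (T : ℂ) ^ 2)) ∧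
        ∀ (Γ : Type) [LinearOrderedCommGroupWithZero Γ] (v : Valuation ℂ Γ), v 2 < 1 →
          v ρ ≤ 1 ∧ (v ρ = 1 ↔ KD.Gd S) := by
    intro σ
    have hmap : (EX K (j t : K)).map σ = EX ℂ (σ (j t : K)) := Pool.Agent.Y698.EX_map σ _
    rw [hmap]
    let φ : RR →+* ℂ := (σ.comp (algebraMap (𝓞 K) K)).comp (j : RR →+* 𝓞 K)
    have hφ : φ (1 + 4 * t) = 1 + 4 * σ (j t : K) := by
      rw [map_add, map_mul, map_one, map_ofNat]
      rfl
    have hnorm := norm_emb φ (1 + 4 * t)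
    rw [hφ, hN1] at hnorm
    have hx0 : 1 + 4 * σ (j t : K) ≠ 0 := by
      rw [← hφ]
      intro h0
      have h1 := norm_emb φ (1 + 4 * t)
      rw [h0, hN1] at h1
      simp at h1
      have h2 : N ≠ 0 := by rintro rfl; omega
      exact h2 (by exact_mod_cast h1.symm)
    obtain ⟨p1, p2⟩ := I.per (σ (j t : K)) hx0
    refine ⟨p1, fun Λ hΛ => ?_⟩
    obtain ⟨L, Ω, hLD, hA⟩ := p2 Λ hΛ
    have hΩ := hLD.lat.ne
    have hΩn : (0 : ℝ) < ‖Ω‖ := norm_pos_iff.2 hΩ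
    set d : ℝ := ‖1 + 4 * σ (j t : K)‖ with hdd
    have hd0 : 0 < d := norm_pos_iff.2 hx0
    have h7 : (0 : ℝ) < Real.sqrt 7 := Real.sqrt_pos.2 (by norm_num)
    rw [map_one, hA, hc2, hd]
    have hsq7 : Real.sqrt |(((-7 : ℤ) : ℝ))| = Real.sqrt 7 := by norm_num
    rw [hsq7]
    have c7 : ((Real.sqrt 7 : ℝ) : ℂ) ≠ 0 := by exact_mod_cast h7.ne'
    have cd : ((d : ℝ) : ℂ) ≠ 0 := by exact_mod_cast hd0.ne'
    have cT : (T : ℂ) ≠ 0 := by exact_mod_cast hT0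
    have cO : (starRingEnd ℂ) Ω ≠ 0 := by
      rw [Ne, map_eq_zero]
      exact hΩ
    have hOO : ((‖Ω‖ ^ 2 : ℝ) : ℂ) = Ω * (starRingEnd ℂ) Ω := by
      rw [Complex.mul_conj, Complex.normSq_eq_norm_sq]
    refine ⟨(F 1 * (starRingEnd ℂ) (F 1) / (Ω * (starRingEnd ℂ) Ω)) * ((T : ℂ) ^ 2 * (d : ℂ)) /
      4 ^ (n + 1), ?_, ?_⟩
    · have e1 : ((Real.sqrt 7 * ‖Ω‖ ^ 2 / d : ℝ) : ℂ) =
          ((Real.sqrt 7 : ℝ) : ℂ) * (Ω * (starRingEnd ℂ) Ω) / (d : ℂ) := by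
        rw [← hOO]
        push_cast
        ring
      rw [e1]
      push_cast
      field_simp
    · intro Γ _ v hv
      have v4 : v 4 = v 2 ^ 2 := by
        rw [← map_pow]
        norm_num
      have v20 : v 2 ≠ 0 := (Valuation.ne_zero_iff v).2 two_ne_zero
      have v40 : v 4 ≠ 0 := by rw [v4]; exact pow_ne_zero 2 v20
      have vN : v (N : ℂ) = 1 := Pool.Agent.Y698.v_odd hN2 hv
      have vm : v (m : ℂ) = 1 := Pool.Agent.Y698.v_odd hmo hv
      have vd : v (d : ℂ) = 1 := by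
        have h1 : ((d : ℝ) : ℂ) ^ 2 = (N : ℂ) := by
          have h2 : d ^ 2 = (N : ℝ) := by
            rw [hnorm]
            push_cast
            rfl
          exact_mod_cast h2
        have h3 : v (d : ℂ) ^ 2 = 1 := by rw [← map_pow, h1, vN]
        exact (pow_eq_one_iff_of_nonneg zero_le two_ne_zero).1 h3
      have vT : v (T : ℂ) = v 4 := by
        rw [hm]
        push_cast
        rw [map_mul, vm, mul_one]
      have hv0 := hval F hF Γ v L Ω hLD hv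
      set q := v (F 1 * (starRingEnd ℂ) (F 1) / (Ω * (starRingEnd ℂ) Ω)) with hq
      have hρ : v ((F 1 * (starRingEnd ℂ) (F 1) / (Ω * (starRingEnd ℂ) Ω)) *
          ((T : ℂ) ^ 2 * (d : ℂ)) / 4 ^ (n + 1)) = v 4 * q / v 4 ^ n := by
        rw [map_div₀, map_mul, map_mul, map_pow, map_pow, vT, vd, ← hq, mul_one]
        field_simp
        rw [pow_succ, mul_comm (v 4 ^ n) (v 4), mul_assoc]
      rw [hρ]
      have h4n : v 4 ^ n ≠ 0 := pow_ne_zero n v40
      by_cases hG : KD.Gd S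
      · rw [hv0.1 hG, div_self h4n]
        exact ⟨le_refl _, ⟨fun _ => hG, fun _ => rfl⟩⟩
      · have h5 := hv0.2 hG
        have h6 : v 4 * q / v 4 ^ n < 1 := by
          rw [div_lt_one₀ (zero_lt_iff.2 h4n)]
          exact h5
        exact ⟨h6.le, ⟨fun h => absurd h h6.ne, fun h => absurd h hG⟩⟩
  refine ⟨ht1, ht2, fun s => F s * (starRingEnd ℂ) (F ((starRingEnd ℂ) s)), c,
    hF.1.mul (g5 F hF).1, fun s hs => I.lk K j _ t hcl hprod F hF s hs, ?_, hc1, ?_⟩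
  · intro hTri h0
    refine Pool.Agent.Y698.SG.exists_val2 fun Γ _ v hv => ?_
    obtain ⟨σ⟩ : Nonempty (K →+* ℂ) := inferInstance
    obtain ⟨⟨Λ, hΛ⟩, h2⟩ := key σ
    obtain ⟨ρ, h3, h4⟩ := h2 Λ hΛ
    have h5 := ((h4 Γ v hv).2).2 (htri.1 hTri)
    have h0' : F 1 * (starRingEnd ℂ) (F ((starRingEnd ℂ) 1)) = 0 := h0
    rw [h0'] at h3
    -- `ρ = 0`
    have h6 : ρ ≠ 0 := by
      rintro rfl
      rw [map_zero] at h5
      exact zero_ne_one h5
    have h7 := (mul_eq_zero.1 h3.symm).resolve_left h6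
    rw [div_eq_zero_iff] at h7
    have cT : (T : ℂ) ≠ 0 := by exact_mod_cast hT0
    rcases h7 with h7 | h7
    · rcases mul_eq_zero.1 h7 with h8 | h8
      · -- the area
        have h9 : 2 * |((starRingEnd ℂ) Λ.ω₁ * Λ.ω₂).im| = 0 := by exact_mod_cast h8
        have hmap : (EX K (j t : K)).map σ = EX ℂ (σ (j t : K)) := Pool.Agent.Y698.EX_map σ _
        rw [hmap] at hΛ
        let φ : RR →+* ℂ := (σ.comp (algebraMap (𝓞 K) K)).comp (j : RR →+* 𝓞 K)
        have hφ : φ (1 + 4 * t) = 1 + 4 * σ (j t : K) := by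
          rw [map_add, map_mul, map_one, map_ofNat]
          rfl
        have hx0 : 1 + 4 * σ (j t : K) ≠ 0 := by
          rw [← hφ]
          intro h0
          have h1 := norm_emb φ (1 + 4 * t)
          rw [h0, hN1] at h1
          simp at h1
          have h2 : N ≠ 0 := by rintro rfl; omega
          exact h2 (by exact_mod_cast h1.symm)
        obtain ⟨L, Ω, hLD, hA⟩ := (I.per _ hx0).2 Λ hΛ
        rw [h9] at hA
        have hΩn : (0 : ℝ) < ‖Ω‖ := norm_pos_iff.2 hLD.lat.ne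
        have hd0 : (0 : ℝ) < ‖1 + 4 * σ (j t : K)‖ := norm_pos_iff.2 hx0
        have h7' : (0 : ℝ) < Real.sqrt 7 := Real.sqrt_pos.2 (by norm_num)
        have : (0 : ℝ) < Real.sqrt 7 * ‖Ω‖ ^ 2 / ‖1 + 4 * σ (j t : K)‖ := by positivity
        exact this.ne hA
      · rw [hc2] at h8
        push_cast at h8
        exact pow_ne_zero _ (by norm_num : (4 : ℂ) ≠ 0) h8
    · rcases mul_eq_zero.1 h7 with h8 | h8
      · rw [hd] at h8
        have h9 : Real.sqrt |(((-7 : ℤ) : ℝ))| = 0 := by exact_mod_cast h8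
        have hsq7 : Real.sqrt |(((-7 : ℤ) : ℝ))| = Real.sqrt 7 := by norm_num
        rw [hsq7] at h9
        exact (Real.sqrt_pos.2 (by norm_num : (0 : ℝ) < 7)).ne' h9
      · exact pow_ne_zero 2 cT h8
  · intro σ
    obtain ⟨h1, h2⟩ := key σ
    refine ⟨h1, fun Λ hΛ => ?_⟩
    obtain ⟨ρ, h3, h4⟩ := h2 Λ hΛ
    exact ⟨ρ, h3, fun Γ _ v hv => ⟨(h4 Γ v hv).1, (h4 Γ v hv).2.trans htri.symm⟩⟩

end

end Pool.Agent.T2h16.KE
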