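import Pool.Agent.Y698.Lo

/-!
# Square roots in completions and local points (helper75, for CVN, CVG, CV2)

`nonarch` and `quad_root` are from `Pool.Agent.TH115.SD.Hensel` and `Pool.Agent.N530.QM.Farc`.
-/

set_option autoImplicit false
set_option linter.all false

open IsDedekindDomain
open scoped Classical

namespace Pool.Agent.T2h16.KE.C75

section hensel

open WithZero Filter Topology

variable {L : Type*} [Field L] [Valued L (WithZero (Multiplicative ℤ))]

theorem nonarch : NonarchimedeanAddGroup L where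
  is_nonarchimedean U hU := by
    obtain ⟨γ, hγ⟩ := Valued.mem_nhds_zero.1 hU
    refine ⟨⟨Valuation.ltAddSubgroup (Valued.v (R := L)).restrict γ, ?_⟩, ?_⟩
    · exact Valued.isOpen_ball L γ.1
    · intro x hx
      exact hγ hx

/-- The equation `u ^ 2 + u = t` with `t` small. -/
theorem quad_root [CompleteSpace L] [T0Space L] (t : L) (ht : Valued.v t < 1) :
    ∃ u : L, u ^ 2 + u = t ∧ Valued.v u < 1 := by
  let T : L → L := fun z => t - z ^ 2
  obtain ⟨z, z0, zs⟩ : ∃ z : ℕ → L, z 0 = 0 ∧ ∀ n, z (n + 1) = T (z n) :=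
    ⟨fun n => Nat.rec 0 (fun _ y => T y) n, rfl, fun _ => rfl⟩
  set δ := Valued.v t with hδ
  have hT : ∀ y y' : L, Valued.v y ≤ δ → Valued.v y' ≤ δ →
      Valued.v (T y - T y') ≤ δ * Valued.v (y - y') := by
    intro y y' hy hy'
    have e : T y - T y' = (-(y + y')) * (y - y') := by
      simp only [T]
      ring
    rw [e, map_mul]
    refine mul_le_mul_left ?_ _
    rw [Valuation.map_neg]
    exact (Valued.v.map_add _ _).trans (max_le hy hy')
  have hA : ∀ n, Valued.v (z n) ≤ δ := by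
    intro n
    induction n with
    | zero => rw [z0, map_zero]; exact zero_le
    | succ n ih =>
      rw [zs]
      refine (Valued.v.map_sub _ _).trans (max_le le_rfl ?_)
      rw [pow_two, map_mul]
      exact (mul_le_of_le_one_right' (ih.trans ht.le)).trans ih
  have hB : ∀ n, Valued.v (z (n + 1) - z n) ≤ Valued.v (t ^ (n + 1)) := by
    intro n
    induction n with
    | zero =>
      rw [zero_add, pow_one, zs, z0]
      have h4 : T 0 - 0 = t := by
        simp only [T]; ring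
      rw [h4]
    | succ n ih =>
      have h3 := hT (z (n + 1)) (z n) (hA _) (hA _)
      rw [← zs, ← zs] at h3
      refine h3.trans ?_
      rw [pow_succ' t, map_mul]
      exact mul_le_mul_right ih _
  haveI := nonarch (L := L)
  have hlim : Tendsto (fun n => z (n + 1) - z n) atTop (𝓝 0) := by
    have h3 : Tendsto (fun n : ℕ => t ^ (n + 1)) atTop (𝓝 0) :=
      (Valued.tendsto_zero_pow_of_v_lt_one ht).comp (tendsto_add_atTop_nat 1)
    rw [(Valued.hasBasis_nhds_zero L _).tendsto_right_iff] at h3 ⊢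
    intro γ hγ
    filter_upwards [h3 γ hγ] with n hn
    have h4 : (Valued.v (R := L)).restrict (z (n + 1) - z n) ≤
        (Valued.v (R := L)).restrict (t ^ (n + 1)) :=
      (Valuation.restrict_le_iff _).2 (hB n)
    exact lt_of_le_of_lt h4 hn
  have hcau : CauchySeq z := NonarchimedeanAddGroup.cauchySeq_of_tendsto_sub_nhds_zero hlim
  obtain ⟨w, hw⟩ := cauchySeq_tendsto_of_complete hcau
  have hTc : Continuous T := by
    have : Continuous fun y : L => t - y ^ 2 := by fun_prop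
    exact this
  have hw1 : Tendsto (fun n => z (n + 1)) atTop (𝓝 w) := hw.comp (tendsto_add_atTop_nat 1)
  have hw2 : Tendsto (fun n => z (n + 1)) atTop (𝓝 (T w)) := by
    simp only [zs]
    exact (hTc.tendsto w).comp hw
  haveI : T2Space L := inferInstance
  have hfix : T w = w := tendsto_nhds_unique hw2 hw1
  refine ⟨w, ?_, ?_⟩
  · have : t - w ^ 2 = w := hfix
    linear_combination -this
  · have hcl : IsClosed {y : L | (Valued.v (R := L)).restrict y < 1} := by
      have h7 := Valued.isClosed_ball L (1 : MonoidWithZeroHom.ValueGroup₀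
        (.ofClass (Valued.v (R := L))))
      exact h7
    have h8 : w ∈ {y : L | (Valued.v (R := L)).restrict y < 1} := by
      refine hcl.mem_of_tendsto hw (Eventually.of_forall fun n => ?_)
      show (Valued.v (R := L)).restrict (z n) < 1
      rw [Valuation.restrict_lt_one_iff]
      exact lt_of_le_of_lt (hA n) ht
    have h9 : (Valued.v (R := L)).restrict w < 1 := h8
    rwa [Valuation.restrict_lt_one_iff] at h9

end hensel

open WithZero

/-- the squares in the completion -/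
theorem sqK {R K : Type} [CommRing R] [IsDedekindDomain R] [Field K] [Algebra R K]
    [IsFractionRing R K] (v : HeightOneSpectrum R) (h4 : (4 : K) ≠ 0) (x : K)
    (hx : v.valuation K (x - 1) < v.valuation K 4) :
    IsSquare (algebraMap K (v.adicCompletion K) x) := by
  have hc : ∀ y : K, Valued.v (algebraMap K (v.adicCompletion K) y) = v.valuation K y := fun y =>
    HeightOneSpectrum.adicCompletion.valued_coe K v y
  have h40 : v.valuation K 4 ≠ 0 := (Valuation.ne_zero_iff _).2 h4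
  have ht : Valued.v (algebraMap K (v.adicCompletion K) ((x - 1) / 4)) < 1 := by
    rw [hc, map_div₀, div_lt_one₀ (zero_lt_iff.mpr h40)]
    exact hx
  obtain ⟨u, hu, hu1⟩ := quad_root _ ht
  refine ⟨1 + 2 * u, ?_⟩
  have h5 : (4 : v.adicCompletion K) * (u ^ 2 + u) = algebraMap K (v.adicCompletion K) x - 1 := by
    rw [hu, ← map_ofNat (algebraMap K (v.adicCompletion K)) 4, ← map_mul, mul_div_cancel₀ _ h4,
      map_sub, map_one]
  linear_combination -h5

/-- a copy of `LocK` -/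
def LP {K : Type} [Field K] (L : Type) [Field L] [Algebra K L] (a D d : K) : Prop :=
  ∃ X Y r : L, X ≠ 0 ∧ Y ^ 2 = X * (X - algebraMap K L (D * (2 * a - 1))) *
    (X - algebraMap K L (D * (2 * a - 1) * a ^ 4)) ∧ X = algebraMap K L d * r ^ 2

section

variable {K L : Type} [Field K] [Field L] [Algebra K L] (v : Valuation K ℤᵐ⁰)

theorem exists_small {ϖ c : K} (h0 : ϖ ≠ 0) (h1 : v ϖ < 1) (g : K) (hg : g ≠ 0) :
    ∃ ε : K, ε ≠ 0 ∧ v (c * ε ^ 2) < v g := by
  by_cases hc : c = 0
  · refine ⟨ϖ, h0, ?_⟩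
    rw [hc, zero_mul, map_zero]
    exact zero_lt_iff.2 ((Valuation.ne_zero_iff _).2 hg)
  · have hb : v (g / c) ≠ 0 := (Valuation.ne_zero_iff _).2 (div_ne_zero hg hc)
    obtain ⟨n, hn⟩ := exists_pow_lt₀ h1 (Units.mk0 _ hb)
    rw [Units.val_mk0, map_div₀, lt_div_iff₀ (zero_lt_iff.2 ((Valuation.ne_zero_iff _).2 hc))] at hn
    refine ⟨ϖ ^ n, pow_ne_zero n h0, lt_of_le_of_lt ?_ hn⟩
    rw [map_mul, mul_comm, map_pow, map_pow]
    refine mul_le_mul_left ?_ _
    rw [pow_two]
    exact mul_le_of_le_one_left' (pow_le_one' h1.le n)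

/-- two small conditions at once -/
theorem exists_small2 {ϖ : K} (h0 : ϖ ≠ 0) (h1 : v ϖ < 1) (c c' g : K) (hg : g ≠ 0) :
    ∃ ε : K, ε ≠ 0 ∧ v (c * ε ^ 2) < v g ∧ v (c' * ε ^ 2) < v g := by
  rcases le_total (v c) (v c') with h | h
  · obtain ⟨ε, he, h2⟩ := exists_small v (c := c') h0 h1 g hg
    refine ⟨ε, he, lt_of_le_of_lt ?_ h2, h2⟩
    rw [map_mul, map_mul]
    exact mul_le_mul_left h _
  · obtain ⟨ε, he, h2⟩ := exists_small v (c := c) h0 h1 g hg
    refine ⟨ε, he, h2, lt_of_le_of_lt ?_ h2⟩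
    rw [map_mul, map_mul]
    exact mul_le_mul_left h _

variable (hK : ∀ x : K, v (x - 1) < v 4 → IsSquare (algebraMap K L x))

include hK

/-- the points near `O` -/
theorem lp_near {ϖ a D d : K} (h0 : ϖ ≠ 0) (h1 : v ϖ < 1) (h4 : (4 : K) ≠ 0) (hd : d ≠ 0)
    (hs : IsSquare (algebraMap K L d)) : LP L a D d := by
  obtain ⟨s, hs⟩ := hs
  have hs0 : s ≠ 0 := by
    rintro rfl
    rw [mul_zero] at hs
    exact hd ((map_eq_zero_iff _ (algebraMap K L).injective).1 hs)
  obtain ⟨ε, he, h2, h3⟩ := exists_small2 v h0 h1 (-(D * (2 * a - 1))) (-(D * (2 * a - 1) * a ^ 4)) 4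
    h4
  have he' : algebraMap K L ε ≠ 0 := (_root_.map_ne_zero _).2 he
  obtain ⟨y1, hy1⟩ := hK (1 + -(D * (2 * a - 1)) * ε ^ 2) (by rwa [add_sub_cancel_left])
  obtain ⟨y2, hy2⟩ := hK (1 + -(D * (2 * a - 1) * a ^ 4) * ε ^ 2) (by rwa [add_sub_cancel_left])
  refine ⟨algebraMap K L (1 / ε ^ 2), algebraMap K L (1 / ε ^ 3) * y1 * y2,
    1 / (algebraMap K L ε * s), ?_, ?_, ?_⟩
  · exact (_root_.map_ne_zero _).2 (one_div_ne_zero (pow_ne_zero 2 he))
  · have e1 : (algebraMap K L (1 / ε ^ 3) * y1 * y2) ^ 2 =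
        algebraMap K L (1 / ε ^ 3) ^ 2 * (y1 * y1) * (y2 * y2) := by ring
    rw [e1, ← hy1, ← hy2, ← map_pow, ← map_mul, ← map_mul, ← map_sub, ← map_sub, ← map_mul,
      ← map_mul]
    congr 1
    field_simp
    ring
  · rw [hs]
    rw [map_div₀, map_one, map_pow]
    field_simp

/-- the points near `(D √-7, 0)` -/
theorem lp_near2 {ϖ a D d : K} (h0 : ϖ ≠ 0) (h1 : v ϖ < 1) (h4 : (4 : K) ≠ 0) (hd : d ≠ 0)
    (hD : D ≠ 0) (ha : a ^ 2 = a - 2) (ha7 : 2 * a - 1 ≠ 0)
    (hs : IsSquare (algebraMap K L (D * (2 * a - 1) * d))) : LP L a D d := by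
  have h2K : (2 : K) ≠ 0 := by
    intro h
    apply h4
    linear_combination 2 * h
  have ha1 : 1 - a ≠ 0 := by
    intro h
    apply h2K
    linear_combination a * h + ha
  obtain ⟨s, hs⟩ := hs
  unfold LP
  set u := D * (2 * a - 1) with hu
  have hu0 : u ≠ 0 := mul_ne_zero hD ha7
  clear_value u
  obtain ⟨ε, he, h2, h3⟩ := exists_small2 v h0 h1 (1 / u) (1 / (u * (1 - a) ^ 4)) 4 h4
  have he' : algebraMap K L ε ≠ 0 := (_root_.map_ne_zero _).2 he
  have hd' : algebraMap K L d ≠ 0 := (_root_.map_ne_zero _).2 hd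
  have h14 : (2 : K) - 3 * a = a ^ 4 := by linear_combination (-(a ^ 2 + a - 1)) * ha
  have h15 : (1 - a) ^ 4 = 1 - a ^ 4 := by linear_combination (2 * a ^ 2 - 2 * a) * ha
  obtain ⟨y1, hy1⟩ := hK (1 + 1 / u * ε ^ 2) (by rwa [add_sub_cancel_left])
  obtain ⟨y2, hy2⟩ := hK (1 + 1 / (u * (1 - a) ^ 4) * ε ^ 2) (by rwa [add_sub_cancel_left])
  have e0 : u + ε ^ 2 = u * (1 + 1 / u * ε ^ 2) := by field_simp
  have hX0 : y1 ≠ 0 := by
    rintro rfl
    rw [mul_zero] at hy1
    have hz : 1 + 1 / u * ε ^ 2 = 0 := (map_eq_zero_iff _ (algebraMap K L).injective).1 hy1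
    have h5 : 1 / u * ε ^ 2 = -1 := by linear_combination hz
    rw [h5, Valuation.map_neg, map_one] at h2
    have h6 : v 4 ≤ 1 := by
      have e : (4 : K) = 1 + 1 + (1 + 1) := by norm_num
      rw [e]
      have h7 : v (1 + 1 : K) ≤ 1 := (v.map_add _ _).trans (by rw [map_one, max_self])
      exact (v.map_add _ _).trans (max_le h7 h7)
    exact absurd h2 (not_lt.2 h6)
  refine ⟨algebraMap K L (u + ε ^ 2), algebraMap K L (u * ε * (1 - a) ^ 2) * y1 * y2,
    s * y1 / algebraMap K L d, ?_, ?_, ?_⟩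
  · rw [e0, map_mul, hy1]
    exact mul_ne_zero ((_root_.map_ne_zero _).2 hu0) (mul_ne_zero hX0 hX0)
  · have e1 : (algebraMap K L (u * ε * (1 - a) ^ 2) * y1 * y2) ^ 2 =
        algebraMap K L (u * ε * (1 - a) ^ 2) ^ 2 * (y1 * y1) * (y2 * y2) := by ring
    rw [e1, ← hy1, ← hy2, ← map_pow, ← map_mul, ← map_mul, ← map_sub, ← map_sub, ← map_mul,
      ← map_mul]
    congr 1
    have e2 : (u * ε * (1 - a) ^ 2) ^ 2 * (1 + 1 / u * ε ^ 2) *
        (1 + 1 / (u * (1 - a) ^ 4) * ε ^ 2) = (u + ε ^ 2) * ε ^ 2 * (u * (1 - a) ^ 4 + ε ^ 2) := by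
      field_simp
    rw [e2, h15]
    ring
  · rw [e0, map_mul, hy1]
    have e3 : algebraMap K L d * (s * y1 / algebraMap K L d) ^ 2 =
        (s * s) * (y1 * y1) / algebraMap K L d := by field_simp
    have e4 : algebraMap K L (u * d) = algebraMap K L u * algebraMap K L d := map_mul _ _ _
    rw [e3, ← hs, e4]
    field_simp

end

end Pool.Agent.T2h16.KE.C75
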