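import Mathlib

set_option autoImplicit false
set_option linter.all false

namespace Pool.Agent.T2h16.KE.I0

open WithZero WeierstrassCurve

section

variable {L : Type} [Field L] [CharZero L] {v : Valuation L ℤᵐ⁰}

lemma vexp {x : L} (hx : x ≠ 0) : ∃ m : ℤ, v x = exp m :=
  ⟨(v x).log, (exp_log ((v.ne_zero_iff).2 hx)).symm⟩

lemma exp_sq' (m : ℤ) : (exp m : ℤᵐ⁰) ^ 2 = exp (2 * m) := by
  rw [← exp_nsmul]; simp

lemma lt_one_iff {m : ℤ} : (exp m : ℤᵐ⁰) < 1 ↔ m < 0 := by
  rw [← exp_zero, exp_lt_exp]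

lemma one_le_iff {m : ℤ} : 1 ≤ (exp m : ℤᵐ⁰) ↔ 0 ≤ m := by
  rw [← exp_zero, exp_le_exp]

/-- the curve `y² + x y = x³ - (1 + 3 t) x² - 2 D² x - D³` and the roots `0, A, B` -/
structure Dat (v : Valuation L ℤᵐ⁰) (W : WeierstrassCurve L) (t A B : L) : Prop where
  h1 : W.a₁ = 1
  h2 : W.a₂ = -(1 + 3 * t)
  h3 : W.a₃ = 0
  h4 : W.a₄ = -2 * (1 + 4 * t) ^ 2
  h6 : W.a₆ = -(1 + 4 * t) ^ 3
  hΔ : W.Δ ≠ 0
  sum : A + B = -21 * (1 + 4 * t)
  prod : A * B = 112 * (1 + 4 * t) ^ 2
  v2 : v 2 = 1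
  vt : v t ≤ 1
  vA : v A = exp (-1 : ℤ)
  vB : v B = exp (-1 : ℤ)
  vAB : v (A - B) = exp (-1 : ℤ)

variable {W : WeierstrassCurve L} {t A B : L} (S : Dat v W t A B)

include S

lemma Dat.v4 : v (4 : L) = 1 := by
  have e : (4 : L) = 2 ^ 2 := by norm_num
  rw [e, map_pow, S.v2, one_pow]

lemma Dat.eqn {x y : L} (h : W.toAffine.Equation x y) :
    (8 * y + 4 * x) ^ 2 = (4 * x - 8 * (1 + 4 * t)) * (4 * x - 8 * (1 + 4 * t) - A) *
      (4 * x - 8 * (1 + 4 * t) - B) := by
  rw [Affine.equation_iff, S.h1, S.h2, S.h3, S.h4, S.h6] at h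
  have hs := S.sum
  have hp := S.prod
  linear_combination 64 * h + (4 * x - 8 * (1 + 4 * t)) ^ 2 * hs -
    (4 * x - 8 * (1 + 4 * t)) * hp

lemma Dat.vn (n : ℕ) : v (n : L) ≤ 1 := by
  induction n with
  | zero => simp
  | succ n ih =>
    push_cast
    exact v.map_add_le ih (by rw [map_one])

lemma Dat.crit {x y : L} (h : W.toAffine.Equation x y) :
    (1 ≤ v (2 * y + W.a₁ * x + W.a₃) ∨
      1 ≤ v (3 * x ^ 2 + 2 * W.a₂ * x + W.a₄ - W.a₁ * y)) ↔ 1 ≤ v (4 * x - 8 * (1 + 4 * t)) := by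
  have he := S.eqn h
  rw [S.h1, S.h2, S.h3, S.h4]
  set X : L := 4 * x - 8 * (1 + 4 * t) with hX
  set Y : L := 8 * y + 4 * x with hY
  have h4 := S.v4
  have e1 : Y = 4 * (2 * y + 1 * x + 0) := by rw [hY]; ring
  have e1' : v (2 * y + 1 * x + 0) = v Y := by
    rw [e1, map_mul, h4]
    exact (one_mul _).symm
  have lA : v A < 1 := by rw [S.vA]; exact lt_one_iff.2 (by norm_num)
  have lB : v B < 1 := by rw [S.vB]; exact lt_one_iff.2 (by norm_num)
  constructor
  · intro h0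
    by_contra hlt
    rw [not_le] at hlt
    have hY2 : v Y ^ 2 < 1 := by
      rw [← map_pow, he, map_mul, map_mul]
      have g1 : v (X - A) < 1 := v.map_sub_lt hlt lA
      have g2 : v (X - B) < 1 := v.map_sub_lt hlt lB
      exact mul_lt_one_of_lt_of_le (mul_lt_one_of_lt_of_le hlt g1.le) g2.le
    have hY1 : v Y < 1 := by
      by_contra hc
      rw [not_lt] at hc
      exact absurd hY2 (not_lt.2 (one_le_pow₀ hc))
    rcases h0 with h0 | h0
    · rw [e1'] at h0
      exact absurd hY1 (not_lt.2 h0)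
    · have e2 : 16 * (3 * x ^ 2 + 2 * -(1 + 3 * t) * x + -2 * (1 + 4 * t) ^ 2 - 1 * y) =
          3 * X ^ 2 + 42 * (1 + 4 * t) * X + A * B - 2 * Y := by
        rw [S.prod, hX, hY]
        ring
      have h16 : v (16 : L) = 1 := by
        have e : (16 : L) = 4 ^ 2 := by norm_num
        rw [e, map_pow, h4, one_pow]
      have e3 : v (3 * x ^ 2 + 2 * -(1 + 3 * t) * x + -2 * (1 + 4 * t) ^ 2 - 1 * y) =
          v (3 * X ^ 2 + 42 * (1 + 4 * t) * X + A * B - 2 * Y) := by
        rw [← e2, map_mul, h16]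
        exact (one_mul _).symm
      rw [e3] at h0
      refine absurd h0 (not_le.2 ?_)
      have k3 : v (3 : L) ≤ 1 := by exact_mod_cast S.vn 3
      have k42 : v (42 : L) ≤ 1 := by exact_mod_cast S.vn 42
      have kD : v (1 + 4 * t) ≤ 1 := by
        refine v.map_add_le (by rw [map_one]) ?_
        rw [map_mul, h4, one_mul]
        exact S.vt
      refine v.map_sub_lt (v.map_add_lt (v.map_add_lt ?_ ?_) ?_) ?_
      · rw [map_mul, map_pow]
        rw [mul_comm]
        exact mul_lt_one_of_lt_of_le (pow_lt_one₀ zero_le' hlt two_ne_zero) k3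
      · rw [map_mul, map_mul]
        rw [mul_comm]
        exact mul_lt_one_of_lt_of_le hlt (mul_le_one' k42 kD)
      · rw [map_mul]
        exact mul_lt_one_of_lt_of_le lA lB.le
      · rw [map_mul, S.v2, one_mul]
        exact hY1
  · intro h1
    left
    rw [e1']
    have g1 : v (X - A) = v X := Valuation.map_sub_eq_of_lt_left v (lt_of_lt_of_le lA h1)
    have g2 : v (X - B) = v X := Valuation.map_sub_eq_of_lt_left v (lt_of_lt_of_le lB h1)
    by_contra hc
    rw [not_le] at hc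
    have h5 : v Y ^ 2 < 1 := pow_lt_one₀ zero_le' hc two_ne_zero
    rw [← map_pow, he, map_mul, map_mul, g1, g2] at h5
    exact absurd h5 (not_lt.2 (one_le_mul (one_le_mul h1 h1) h1))

/-- the point of order two above the root `r` -/
lemma Dat.nsT {r : L} (hr : r * (r - A) * (r - B) = 0) :
    W.toAffine.Nonsingular ((r + 8 * (1 + 4 * t)) / 4) (-((r + 8 * (1 + 4 * t)) / 8)) := by
  refine (Affine.equation_iff_nonsingular_of_Δ_ne_zero S.hΔ).1 ?_
  rw [Affine.equation_iff, S.h1, S.h2, S.h3, S.h4, S.h6]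
  have hs := S.sum
  have hp := S.prod
  have e : r ^ 3 + 21 * (1 + 4 * t) * r ^ 2 + 112 * (1 + 4 * t) ^ 2 * r = 0 := by
    linear_combination hr + r ^ 2 * hs - r * hp
  linear_combination (-1 / 64) * e

variable [DecidableEq L]

/-- the sum with a point of order two -/
lemma Dat.add_T {r : L} (hr : r * (r - A) * (r - B) = 0) {x y : L}
    (h : W.toAffine.Nonsingular x y) (hx : 4 * x - 8 * (1 + 4 * t) ≠ r) :
    ∃ (x' y' : L) (h' : W.toAffine.Nonsingular x' y'),
      (.some x y h : W.toAffine.Point) + .some _ _ (S.nsT hr) = .some x' y' h' ∧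
      4 * x' - 8 * (1 + 4 * t) =
        r + (3 * r ^ 2 - 2 * (A + B) * r + A * B) / (4 * x - 8 * (1 + 4 * t) - r) := by
  set xr : L := (r + 8 * (1 + 4 * t)) / 4 with hxr
  have hne : x ≠ xr := by
    intro h0
    apply hx
    rw [h0, hxr]
    ring
  have hxy : ¬ (x = xr ∧ y = W.toAffine.negY xr (-((r + 8 * (1 + 4 * t)) / 8))) := fun h => hne h.1
  have key := Affine.Point.add_some (W := W.toAffine) hxy (h₁ := h) (h₂ := S.nsT hr)
  refine ⟨_, _, _, key, ?_⟩
  have he := S.eqn h.1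
  rw [Affine.slope_of_X_ne hne]
  simp only [Affine.addX, S.h1, S.h2]
  have hd : x - xr ≠ 0 := sub_ne_zero.2 hne
  have hd' : 4 * x - 8 * (1 + 4 * t) - r ≠ 0 := sub_ne_zero.2 hx
  have hs := S.sum
  have hp := S.prod
  set X : L := 4 * x - 8 * (1 + 4 * t) with hX
  set Y : L := 8 * y + 4 * x with hY
  have ex : x = (X + 8 * (1 + 4 * t)) / 4 := by rw [hX]; ring
  have ey : y = (Y - (X + 8 * (1 + 4 * t))) / 8 := by rw [hY, hX]; ring
  have e2 : x - xr = (X - r) / 4 := by rw [hxr, ex]; ring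
  have e3 : (y - -((r + 8 * (1 + 4 * t)) / 8)) / (x - xr) = (Y / (X - r) - 1) / 2 := by
    rw [e2, ey]
    field_simp
    ring
  rw [e3]
  have e4 : (Y / (X - r)) ^ 2 = X * (X - A) * (X - B) / (X - r) ^ 2 := by rw [div_pow, he]
  have e5 : X * (X - A) * (X - B) = X * (X - A) * (X - B) - r * (r - A) * (r - B) := by
    rw [hr, sub_zero]
  have e6 : 4 * ((((Y / (X - r) - 1) / 2) ^ 2 + 1 * ((Y / (X - r) - 1) / 2) - -(1 + 3 * t) - x - xr)) -
      8 * (1 + 4 * t) = (Y / (X - r)) ^ 2 + (A + B) - X - r := by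
    rw [hs, hxr, ex]
    ring
  rw [e6, e4, e5]
  field_simp
  ring

/-- membership of the sum -/
lemma Dat.big {r X : L} (hr : v r < 1) (hX : X ≠ r)
    (hle : v (X - r) ≤ v (3 * r ^ 2 - 2 * (A + B) * r + A * B)) :
    1 ≤ v (r + (3 * r ^ 2 - 2 * (A + B) * r + A * B) / (X - r)) := by
  have h0 : v (X - r) ≠ 0 := (v.ne_zero_iff).2 (sub_ne_zero.2 hX)
  have h1 : 1 ≤ v ((3 * r ^ 2 - 2 * (A + B) * r + A * B) / (X - r)) := by
    rw [map_div₀]
    rw [le_div_iff₀ (zero_lt_iff.2 h0), one_mul]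
    exact hle
  rw [Valuation.map_add_eq_of_lt_right v (lt_of_lt_of_le hr h1)]
  exact h1

lemma Dat.two_T {r : L} (hr : r * (r - A) * (r - B) = 0) :
    (.some _ _ (S.nsT hr) : W.toAffine.Point) + .some _ _ (S.nsT hr) = 0 := by
  apply Affine.Point.add_of_Y_eq rfl
  simp only [Affine.negY, S.h1, S.h3]
  ring

lemma Dat.zero_of {r x y : L} (hr : r * (r - A) * (r - B) = 0) (h : W.toAffine.Nonsingular x y)
    (hx : 4 * x - 8 * (1 + 4 * t) = r) :
    (.some x y h : W.toAffine.Point) = .some _ _ (S.nsT hr) := by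
  have he := S.eqn h.1
  rw [hx, hr] at he
  have hy : 8 * y + 4 * x = 0 := pow_eq_zero_iff two_ne_zero |>.1 he
  have e1 : x = (r + 8 * (1 + 4 * t)) / 4 := by rw [← hx]; ring
  have e2 : y = -((r + 8 * (1 + 4 * t)) / 8) := by
    rw [← hx]
    linear_combination (1 / 8) * hy
  subst e1
  subst e2
  rfl

/-- the index -/
theorem Dat.index (H : AddSubgroup W.toAffine.Point)
    (hH : ∀ (x y : L) (h : W.toAffine.Nonsingular x y),
      (.some x y h : W.toAffine.Point) ∈ H ↔ 1 ≤ v (4 * x - 8 * (1 + 4 * t))) : H.index = 4 := by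
  have hA0 : A ≠ 0 := by
    rintro h0
    have := S.vA
    rw [h0, map_zero] at this
    exact exp_ne_zero this.symm
  have hB0 : B ≠ 0 := by
    rintro h0
    have := S.vB
    rw [h0, map_zero] at this
    exact exp_ne_zero this.symm
  have hAB0 : A - B ≠ 0 := by
    rintro h0
    have := S.vAB
    rw [h0, map_zero] at this
    exact exp_ne_zero this.symm
  have r0 : (0 : L) * (0 - A) * (0 - B) = 0 := by ring
  have rA : A * (A - A) * (A - B) = 0 := by ring
  have rB : B * (B - A) * (B - B) = 0 := by ring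
  have lA : v A < 1 := by rw [S.vA]; exact lt_one_iff.2 (by norm_num)
  have lB : v B < 1 := by rw [S.vB]; exact lt_one_iff.2 (by norm_num)
  have l0 : v (0 : L) < 1 := by rw [map_zero]; exact zero_lt_one
  set T0 : W.toAffine.Point := .some _ _ (S.nsT r0) with hT0
  set TA : W.toAffine.Point := .some _ _ (S.nsT rA) with hTA
  set TB : W.toAffine.Point := .some _ _ (S.nsT rB) with hTB
  have n0 : T0 ∉ H := by
    rw [hT0, hH]
    have e : 4 * ((0 + 8 * (1 + 4 * t)) / 4) - 8 * (1 + 4 * t) = 0 := by ring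
    rw [e]
    exact not_le.2 l0
  have nA : TA ∉ H := by
    rw [hTA, hH]
    have e : 4 * ((A + 8 * (1 + 4 * t)) / 4) - 8 * (1 + 4 * t) = A := by ring
    rw [e]
    exact not_le.2 lA
  have nB : TB ∉ H := by
    rw [hTB, hH]
    have e : 4 * ((B + 8 * (1 + 4 * t)) / 4) - 8 * (1 + 4 * t) = B := by ring
    rw [e]
    exact not_le.2 lB
  -- the sum of two points of order two
  have sum : ∀ (r s u : L) (hr : r * (r - A) * (r - B) = 0) (hs : s * (s - A) * (s - B) = 0),
      s ≠ r → v u < 1 → r + (3 * r ^ 2 - 2 * (A + B) * r + A * B) / (s - r) = u →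
      (.some _ _ (S.nsT hs) : W.toAffine.Point) + .some _ _ (S.nsT hr) ∉ H := by
    intro r s u hr hs hne hu hru
    have e : 4 * ((s + 8 * (1 + 4 * t)) / 4) - 8 * (1 + 4 * t) = s := by ring
    obtain ⟨x', y', h', h1, h2⟩ := S.add_T hr (S.nsT hs) (by rw [e]; exact hne)
    rw [h1, hH, h2, e, hru]
    exact not_le.2 hu
  have s0A : TA + T0 ∉ H := sum 0 A B r0 rA hA0 lB (by field_simp; ring)
  have s0B : TB + T0 ∉ H := sum 0 B A r0 rB hB0 lA (by field_simp; ring)
  have sAB : TA + TB ∉ H := sum B A 0 rB rA (fun h => hAB0 (by rw [h, sub_self])) l0 (by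
    field_simp; ring)
  have d0 : T0 + T0 = 0 := S.two_T r0
  have dA : TA + TA = 0 := S.two_T rA
  have dB : TB + TB = 0 := S.two_T rB
  -- the covering
  have cov : ∀ P : W.toAffine.Point, P ∈ H ∨ P + T0 ∈ H ∨ P + TA ∈ H ∨ P + TB ∈ H := by
    rintro (_ | ⟨x, y, h⟩)
    · exact Or.inl H.zero_mem
    by_cases h1 : 1 ≤ v (4 * x - 8 * (1 + 4 * t))
    · exact Or.inl ((hH x y h).2 h1)
    rw [not_le] at h1
    by_cases x0 : 4 * x - 8 * (1 + 4 * t) = 0
    · right; left
      rw [S.zero_of r0 h x0, ← hT0, d0]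
      exact H.zero_mem
    by_cases xA : 4 * x - 8 * (1 + 4 * t) = A
    · right; right; left
      rw [S.zero_of rA h xA, ← hTA, dA]
      exact H.zero_mem
    by_cases xB : 4 * x - 8 * (1 + 4 * t) = B
    · right; right; right
      rw [S.zero_of rB h xB, ← hTB, dB]
      exact H.zero_mem
    have he := S.eqn h.1
    set X : L := 4 * x - 8 * (1 + 4 * t) with hX
    obtain ⟨m, hm⟩ := vexp (v := v) x0
    obtain ⟨k, hk⟩ := vexp (v := v) (sub_ne_zero.2 xA)
    obtain ⟨l, hl⟩ := vexp (v := v) (sub_ne_zero.2 xB)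
    have hY0 : 8 * y + 4 * x ≠ 0 := by
      intro h0
      rw [h0, zero_pow two_ne_zero] at he
      exact mul_ne_zero (mul_ne_zero x0 (sub_ne_zero.2 xA)) (sub_ne_zero.2 xB) he.symm
    obtain ⟨n, hn⟩ := vexp (v := v) hY0
    have hm1 : m ≤ -1 := by
      rw [hm, lt_one_iff] at h1
      omega
    have hk1 : k ≤ -1 := by
      have : v (X - A) ≤ exp (-1 : ℤ) := v.map_sub_le (by rw [hm, exp_le_exp]; exact hm1) S.vA.le
      rw [hk, exp_le_exp] at this
      exact this
    have hl1 : l ≤ -1 := by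
      have : v (X - B) ≤ exp (-1 : ℤ) := v.map_sub_le (by rw [hm, exp_le_exp]; exact hm1) S.vB.le
      rw [hl, exp_le_exp] at this
      exact this
    have hs : 2 * n = m + k + l := by
      have h5 : v (8 * y + 4 * x) ^ 2 = v X * v (X - A) * v (X - B) := by
        rw [← map_pow, he, map_mul, map_mul]
      rw [hn, hm, hk, hl, exp_sq', ← exp_add, ← exp_add, exp_inj] at h5
      exact h5
    have fin : ∀ (r : L) (hr : r * (r - A) * (r - B) = 0), v r < 1 → X ≠ r →
        v (X - r) ≤ v (3 * r ^ 2 - 2 * (A + B) * r + A * B) →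
        (.some x y h : W.toAffine.Point) + .some _ _ (S.nsT hr) ∈ H := by
      intro r hr hr1 hne hle
      obtain ⟨x', y', h', h1, h2⟩ := S.add_T hr h hne
      rw [h1, hH, h2]
      exact S.big hr1 hne hle
    have c0 : v (3 * (0 : L) ^ 2 - 2 * (A + B) * 0 + A * B) = exp (-2 : ℤ) := by
      have e : 3 * (0 : L) ^ 2 - 2 * (A + B) * 0 + A * B = A * B := by ring
      rw [e, map_mul, S.vA, S.vB, ← exp_add]
      rfl
    have cA : v (3 * A ^ 2 - 2 * (A + B) * A + A * B) = exp (-2 : ℤ) := by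
      have e : 3 * A ^ 2 - 2 * (A + B) * A + A * B = A * (A - B) := by ring
      rw [e, map_mul, S.vA, S.vAB, ← exp_add]
      rfl
    have cB : v (3 * B ^ 2 - 2 * (A + B) * B + A * B) = exp (-2 : ℤ) := by
      have e : 3 * B ^ 2 - 2 * (A + B) * B + A * B = -(B * (A - B)) := by ring
      rw [e, Valuation.map_neg, map_mul, S.vB, S.vAB, ← exp_add]
      rfl
    rcases (by omega : m ≤ -2 ∨ k ≤ -2 ∨ l ≤ -2) with h5 | h5 | h5
    · right; left
      exact fin 0 r0 l0 x0 (by rw [sub_zero, hm, c0, exp_le_exp]; exact h5)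
    · right; right; left
      exact fin A rA lA xA (by rw [hk, cA, exp_le_exp]; exact h5)
    · right; right; right
      exact fin B rB lB xB (by rw [hl, cB, exp_le_exp]; exact h5)
  -- the bijection
  have neg0 : -T0 = T0 := neg_eq_of_add_eq_zero_left d0
  have negA : -TA = TA := neg_eq_of_add_eq_zero_left dA
  have negB : -TB = TB := neg_eq_of_add_eq_zero_left dB
  let f : Fin 4 → W.toAffine.Point := ![0, T0, TA, TB]
  have hinj : ∀ i k : Fin 4, i < k → -(f i) + f k ∉ H := by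
    intro i k hik
    fin_cases i <;> fin_cases k <;> simp [f] at hik ⊢
    · exact n0
    · exact nA
    · exact nB
    · rw [neg0, add_comm]; exact s0A
    · rw [neg0, add_comm]; exact s0B
    · rw [negA]; exact sAB
  have hbij : Function.Bijective fun i : Fin 4 => (QuotientAddGroup.mk (f i) : W.toAffine.Point ⧸ H) := by
    constructor
    · intro i k hik
      rw [QuotientAddGroup.eq] at hik
      rcases lt_trichotomy i k with h | h | h
      · exact absurd hik (hinj i k h)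
      · exact h
      · refine absurd ?_ (hinj k i h)
        have := H.neg_mem hik
        rwa [neg_add, neg_neg, add_comm] at this
    · intro q
      obtain ⟨P, rfl⟩ := QuotientAddGroup.mk_surjective q
      rcases cov P with h | h | h | h
      · exact ⟨0, QuotientAddGroup.eq.2 (by simpa [f] using h)⟩
      · exact ⟨1, QuotientAddGroup.eq.2 (by simpa [f, neg0, add_comm] using h)⟩
      · exact ⟨2, QuotientAddGroup.eq.2 (by simpa [f, negA, add_comm] using h)⟩
      · exact ⟨3, QuotientAddGroup.eq.2 (by simpa [f, negB, add_comm] using h)⟩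
  rw [AddSubgroup.index, ← Nat.card_congr (Equiv.ofBijective _ hbij), Nat.card_eq_fintype_card,
    Fintype.card_fin]

end

/-- the data of the statement -/
lemma dat_of {L : Type} [Field L] [CharZero L] {v : Valuation L ℤᵐ⁰} {x a : L}
    {W : WeierstrassCurve L} (h1 : W.a₁ = 1) (h2 : W.a₂ = -(1 + 3 * x)) (h3 : W.a₃ = 0)
    (h4 : W.a₄ = -2 * (1 + 4 * x) ^ 2) (h6 : W.a₆ = -(1 + 4 * x) ^ 3)
    (hΔ : W.Δ = -343 * (1 + 4 * x) ^ 6)
    (ha : a ^ 2 = a - 2) (v2 : v 2 = 1) (vx : v x ≤ 1)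
    (hu : v ((1 + 4 * x) * (2 * a - 1)) = exp (-1 : ℤ)) :
    Dat v W x ((1 + 4 * x) * ((2 * a - 1) * (1 - a) ^ 4)) ((1 + 4 * x) * -((2 * a - 1) * a ^ 4)) := by
  have hva : v a ≤ 1 := by
    by_contra hc
    rw [not_le] at hc
    have h5 : v (a - 2) ≤ v a := v.map_sub_le le_rfl (by rw [v2]; exact hc.le)
    rw [← ha, map_pow, pow_two] at h5
    have h6 : v a * 1 < v a * v a := (mul_lt_mul_iff_right₀ (zero_lt_one.trans hc)).2 hc
    rw [mul_one] at h6
    exact absurd h5 (not_le.2 h6)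
  have hva' : v (1 - a) ≤ 1 := v.map_sub_le (by rw [map_one]) hva
  have hprod : v a * v (1 - a) = 1 := by
    rw [← map_mul]
    have e : a * (1 - a) = 2 := by linear_combination -ha
    rw [e, v2]
  have ua : v a = 1 := by
    refine le_antisymm hva ?_
    calc (1 : ℤᵐ⁰) = v a * v (1 - a) := hprod.symm
      _ ≤ v a * 1 := mul_le_mul_right hva' _
      _ = v a := mul_one _
  have ub : v (1 - a) = 1 := by rw [ua, one_mul] at hprod; exact hprod
  have hD0 : (1 + 4 * x) ≠ 0 := by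
    intro h0
    rw [h0, zero_mul, map_zero] at hu
    exact exp_ne_zero hu.symm
  refine ⟨h1, h2, h3, h4, h6, ?_, ?_, ?_, v2, vx, ?_, ?_, ?_⟩
  · rw [hΔ]
    exact mul_ne_zero (by norm_num) (pow_ne_zero _ hD0)
  · have e1 : (1 - a) ^ 4 = 3 * a - 1 := by
      linear_combination (a ^ 2 - 3 * a + 1) * ha
    have e2 : a ^ 4 = 2 - 3 * a := by
      linear_combination (a ^ 2 + a - 1) * ha
    rw [e1, e2]
    linear_combination 12 * (1 + 4 * x) * ha
  · have e1 : (1 - a) ^ 4 = 3 * a - 1 := by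
      linear_combination (a ^ 2 - 3 * a + 1) * ha
    have e2 : a ^ 4 = 2 - 3 * a := by
      linear_combination (a ^ 2 + a - 1) * ha
    rw [e1, e2]
    linear_combination (1 + 4 * x) ^ 2 * (36 * a ^ 2 - 36 * a - 55) * ha
  · rw [← mul_assoc, map_mul, hu, map_pow, ub, one_pow, mul_one]
  · rw [mul_neg, Valuation.map_neg, ← mul_assoc, map_mul, hu, map_pow, ua, one_pow, mul_one]
  · have e1 : (1 - a) ^ 4 = 3 * a - 1 := by
      linear_combination (a ^ 2 - 3 * a + 1) * ha
    have e2 : a ^ 4 = 2 - 3 * a := by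
      linear_combination (a ^ 2 + a - 1) * ha
    have e3 : (1 + 4 * x) * ((2 * a - 1) * (1 - a) ^ 4) - (1 + 4 * x) * -((2 * a - 1) * a ^ 4) =
        (1 + 4 * x) * (2 * a - 1) := by
      rw [e1, e2]
      ring
    rw [e3, hu]

end Pool.Agent.T2h16.KE.I0
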