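import Pool.Agent.T2h16.KE.Stm
import Pool.Agent.T2h16.KE.I0core

/-!
# TASK I0 (helper33): type `I₀*` with rational points of order two: index four
-/

set_option autoImplicit false
set_option linter.all false

open scoped Classical

namespace Pool.Agent.T2h16.KE

open WithZero WeierstrassCurve
open Pool.Agent.Y698 (EX EX_Δ)
open Pool.Agent.Y696 (NonsingRed)

theorem t_I0 : S_I0 := by
  intro L _ _ v x a ha v2 vx _ hu H hH
  have S := I0.dat_of (v := v) (W := EX L x) rfl rfl rfl rfl rfl (EX_Δ L x) ha v2 vx hu.1
  refine S.index H fun x' y' h => ?_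
  rw [hH]
  exact S.crit h.1

end Pool.Agent.T2h16.KE
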