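import Pool.Agent.T2h16.KE.Fin
import Pool.Agent.T2h16.KD.NS

/-!
# Project KE: the final statement over `𝓞 K`, `K = ℚ(√-7)`
-/

set_option autoImplicit false
set_option linter.unusedVariables false

open scoped Classical

namespace Pool.Agent.T2h16.KE

open Finset Filter
open NumberField IsDedekindDomain WeierstrassCurve WithZero
open Pool.Agent.Y698 (RR cX cY nR aR bR cj fR al psi e7 EX AP eA eB LD SqE Ev Ur Sq SDD)
open Pool.Agent.T2h16.KD (nrm prm PS PD Cl DC S_DEN S_LOW S_ETA SS)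
open Pool.Agent.TH841.NF.D (Sha)
open Pool.Agent.Y696 (NonsingRed)

lemma cXY_four : cX (4 : RR) = 4 ∧ cY (4 : RR) = 0 := by
  simpa using Pool.Agent.Y698.cXY_nat 4

lemma cXY_t (t : RR) : cX (1 + 4 * t) = 1 + 4 * cX t ∧ cY (1 + 4 * t) = 4 * cY t := by
  have h4 := cXY_four
  have h5 := Pool.Agent.Y698.cXY_add 1 (4 * t)
  have h6 := Pool.Agent.Y698.cXY_mul 4 t
  have h7 := Pool.Agent.Y698.cXY_one
  rw [h4.1, h4.2] at h6
  rw [h7.1, h7.2, h6.1, h6.2] at h5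
  exact ⟨by rw [h5.1]; ring, by rw [h5.2]; ring⟩

lemma four_iff (r : RR) : (4 : RR) ∣ r - 1 ↔ cX r % 4 = 1 ∧ cY r % 4 = 0 := by
  constructor
  · rintro ⟨t, ht⟩
    have hr : r = 1 + 4 * t := by linear_combination ht
    have h := cXY_t t
    rw [hr, h.1, h.2]
    omega
  · rintro ⟨h1, h2⟩
    refine ⟨Pool.Agent.T2h16.KD.el ((cX r - 1) / 4) (cY r / 4), ?_⟩
    have h := cXY_t (Pool.Agent.T2h16.KD.el ((cX r - 1) / 4) (cY r / 4))
    rw [(Pool.Agent.T2h16.KD.cXY_el _ _).1, (Pool.Agent.T2h16.KD.cXY_el _ _).2] at h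
    have h3 : r = 1 + 4 * Pool.Agent.T2h16.KD.el ((cX r - 1) / 4) (cY r / 4) := by
      apply Pool.Agent.Y698.RR_ext
      · rw [h.1]; omega
      · rw [h.2]; omega
    linear_combination h3

lemma nR_fR : nR fR = 7 := by
  unfold Pool.Agent.Y698.nR
  rw [Pool.Agent.Y698.cXY_fR.1, Pool.Agent.Y698.cXY_fR.2]
  norm_num

lemma cj_fR : cj fR = -fR := by
  unfold Pool.Agent.Y698.fR
  rw [map_sub, map_mul, cj_aR, map_one, map_ofNat]
  ring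

lemma cop_iff (r : RR) : IsCoprime fR r ↔ ¬ (7 : ℤ) ∣ nR r := by
  have hp := Pool.Agent.Y698.prime_fR
  rw [hp.irreducible.coprime_iff_not_dvd, not_iff_not]
  constructor
  · rintro ⟨s, rfl⟩
    rw [Pool.Agent.Y698.nR_mul, nR_fR]
    exact Dvd.intro _ rfl
  · rintro ⟨k, hk⟩
    have h1 := Pool.Agent.Y698.mul_cj r
    have h2 : fR ∣ r * cj r := by
      rw [h1, hk]
      push_cast
      refine ⟨-fR * k, ?_⟩
      linear_combination (k : RR) * Pool.Agent.Y698.fR_sq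
    rcases hp.dvd_or_dvd h2 with h3 | h3
    · exact h3
    · have h4 := map_dvd cj h3
      rw [cj_fR, Pool.Agent.Y698.cj_cj] at h4
      exact (neg_dvd.1 h4)

section
variable {K : Type} [Field K] [NumberField K]

/-- the twist by `D = 1` modulo `4` -/
def ECK {K : Type} [Field K] (D : K) : WeierstrassCurve K :=
  ⟨1, -(1 + 3 * D) / 4, 0, -2 * D ^ 2, -D ^ 3⟩

lemma ECK_eq (t : K) : ECK (1 + 4 * t) = EX K t := by
  unfold ECK Pool.Agent.Y698.EX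
  have h : (4 : K) ≠ 0 := by norm_num
  congr 1; field_simp; ring

/-- the class -/
def ClsK (D : 𝓞 K) : Prop := Squarefree D ∧ (4 : 𝓞 K) ∣ D - 1 ∧ ¬ (7 : ℤ) ∣ Algebra.norm ℤ D

/-- finite, and trivial `2`-primary part -/
def TriD (D : 𝓞 K) : Prop := TriK (ECK (D : K))

/-- the law for the curve -/
def LawW (W : WeierstrassCurve K) : Prop :=
  Finite (AddCommGroup.torsion W.toAffine.Point) ∧
  padicValNat 2 (torsK W) = 2 ∧
  ∃ (Lf : ℂ → ℂ) (c : HeightOneSpectrum (𝓞 K) → ℕ),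
    Differentiable ℂ Lf ∧
    (∀ s : ℂ, 3 / 2 < s.re →
      LSeriesSummable ((fun n : ℤ => (n : ℂ)) ∘ W.LFunction) s ∧ Lf s = W.LSeries s) ∧
    (TriK W → Lf 1 ≠ 0) ∧
    IsTam W c ∧
    ∀ σ : K →+* ℂ, (∃ Λ, IsPer (W.map σ) Λ) ∧
      ∀ Λ, IsPer (W.map σ) Λ → ∃ ρ : ℂ,
        Lf 1 = ρ * (((2 * |((starRingEnd ℂ) Λ.ω₁ * Λ.ω₂).im| : ℝ) : ℂ) * ((∏ᶠ w, c w : ℕ) : ℂ) /
          (((Real.sqrt |(discr K : ℝ)| : ℝ) : ℂ) * (torsK W : ℂ) ^ 2)) ∧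
        ∀ (Γ : Type) [LinearOrderedCommGroupWithZero Γ] (v : Valuation ℂ Γ), v 2 < 1 →
          v ρ ≤ 1 ∧ (v ρ = 1 ↔ TriK W)

/-- the criterion -/
def CritD (D : 𝓞 K) : Prop := ∀ a : 𝓞 K, a ^ 2 = a - 2 →
  (∃ (n : ℕ) (π : Fin n → 𝓞 K), (∀ i, Prime (π i) ∧ a ^ 2 ∣ π i - 1) ∧ D = ∏ i, π i) ∧
  ∀ (n : ℕ) (π : Fin n → 𝓞 K), (∀ i, Prime (π i) ∧ a ^ 2 ∣ π i - 1) → D = ∏ i, π i →
    (TriD D ↔ (mqK a π).det ≠ 0)

lemma sqf_iff (j : RR ≃+* 𝓞 K) (r : RR) : Squarefree (j r) ↔ Squarefree r := by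
  constructor
  · intro h x hx
    have h1 := h (j x) (by rw [← map_mul]; exact map_dvd j hx)
    exact (isUnit_map_iff j x).1 h1
  · intro h x hx
    have h1 := h (j.symm x) (by
      rw [← map_mul]
      have := map_dvd j.symm hx
      rwa [j.symm_apply_apply] at this)
    exact (isUnit_map_iff j.symm x).1 h1

lemma cls_iff (j : RR ≃+* 𝓞 K) (hN : ∀ z : RR, Algebra.norm ℤ (j z) = nR z) (r : RR) :
    ClsK (j r) ↔ DC r := by
  have h1 : (4 : 𝓞 K) ∣ j r - 1 ↔ (4 : RR) ∣ r - 1 := by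
    constructor
    · intro h
      have h2 := map_dvd j.symm h
      rwa [map_sub, j.symm_apply_apply, map_one, map_ofNat] at h2
    · intro h
      have h2 := map_dvd j h
      rwa [map_sub, map_one, map_ofNat] at h2
  unfold ClsK Pool.Agent.T2h16.KD.DC
  rw [hN, sqf_iff, h1, four_iff, cop_iff]
  tauto

lemma card_tr (j : RR ≃+* 𝓞 K) (hN : ∀ z : RR, Algebra.norm ℤ (j z) = nR z) (X : ℕ)
    (P : 𝓞 K → Prop) (Q : RR → Prop) (h : ∀ r, DC r → (P (j r) ↔ Q r)) :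
    {D : 𝓞 K | Algebra.norm ℤ D ≤ X ∧ ClsK D ∧ P D}.ncard =
      {r : RR | nrm r ≤ X ∧ DC r ∧ Q r}.ncard := by
  rw [← Set.ncard_image_of_injective {r : RR | nrm r ≤ X ∧ DC r ∧ Q r} j.injective]
  congr 1
  ext D
  simp only [Set.mem_image, Set.mem_ofPred_eq]
  have hn : ∀ r : RR, Algebra.norm ℤ (j r) ≤ (X : ℤ) ↔ nrm r ≤ X := by
    intro r
    rw [hN, ← Pool.Agent.T2h16.KD.nrm_cast]
    exact_mod_cast Iff.rfl
  constructor
  · rintro ⟨h1, h2, h3⟩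
    obtain ⟨r, rfl⟩ := j.surjective D
    have h4 := (cls_iff j hN r).1 h2
    exact ⟨r, ⟨(hn r).1 h1, h4, (h r h4).1 h3⟩, rfl⟩
  · rintro ⟨r, ⟨h1, h2, h3⟩, rfl⟩
    exact ⟨(hn r).2 h1, (cls_iff j hN r).2 h2, (h r h2).2 h3⟩

lemma DC_split {r : RR} (h : DC r) : ∃ t : RR, r = 1 + 4 * t ∧ Squarefree (1 + 4 * t) ∧
    IsCoprime fR (1 + 4 * t) := by
  obtain ⟨t, ht⟩ := (four_iff r).2 ⟨h.2.1, h.2.2.1⟩
  have hr : r = 1 + 4 * t := by linear_combination ht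
  exact ⟨t, hr, hr ▸ h.1, hr ▸ h.2.2.2⟩

lemma curve_eq (j : RR ≃+* 𝓞 K) (t : RR) :
    ECK ((j (1 + 4 * t) : 𝓞 K) : K) = EX K (j t : K) := by
  rw [← ECK_eq]
  congr 1
  rw [map_add, map_mul, map_one, map_ofNat]
  push_cast
  rfl

lemma tri_D (I : InpK) (j : RR ≃+* 𝓞 K) {r : RR} (h : DC r) :
    TriD (j r) ↔ KD.Gd (PD r) := by
  obtain ⟨t, rfl, h1, h2⟩ := DC_split h
  unfold TriD
  rw [curve_eq]
  exact tri_iff I j h1 h2

lemma crit_at (I : InpK) (j : RR ≃+* 𝓞 K) {r : RR} (h : DC r) :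
    (∃ (n : ℕ) (π : Fin n → 𝓞 K), (∀ i, Prime (π i) ∧ (j aR) ^ 2 ∣ π i - 1) ∧ j r = ∏ i, π i) ∧
    ∀ (n : ℕ) (π : Fin n → 𝓞 K), (∀ i, Prime (π i) ∧ (j aR) ^ 2 ∣ π i - 1) → j r = ∏ i, π i →
      (TriD (j r) ↔ (mqK (j aR) π).det ≠ 0) := by
  have h0 := tri_D I j h
  obtain ⟨t, rfl, h1, h2⟩ := DC_split h
  obtain ⟨-, -, h3, h4⟩ := I.crit K j t h1 h2
  have e : j (1 + 4 * t) = 1 + 4 * j t := by rw [map_add, map_mul, map_one, map_ofNat]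
  refine ⟨?_, ?_⟩
  · rw [e]
    exact h3
  · intro n π hπ hp
    rw [h0]
    rw [e] at hp
    exact (h4 n π hπ hp).symm

lemma crit_D (I : InpK) (j : RR ≃+* 𝓞 K) (hN : ∀ z : RR, Algebra.norm ℤ (j z) = nR z)
    {D : 𝓞 K} (hD : ClsK D) : CritD D := by
  intro a ha
  obtain ⟨r, rfl⟩ := j.surjective D
  have hj : (j aR) ^ 2 = j aR - 2 := by
    rw [← map_pow, Pool.Agent.Y698.aR_sq, map_sub, map_ofNat]
  have h1 : (a - j aR) * (a - (1 - j aR)) = 0 := by linear_combination ha - hj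
  rcases mul_eq_zero.1 h1 with h2 | h2
  · rw [sub_eq_zero.1 h2]
    exact crit_at I j ((cls_iff j hN r).1 hD)
  · have hN' : ∀ z : RR, Algebra.norm ℤ ((cjE.trans j) z) = nR z := by
      intro z
      show Algebra.norm ℤ (j (cj z)) = nR z
      rw [hN, Pool.Agent.Y698.SG.nR_cj]
    have e1 : (cjE.trans j) aR = 1 - j aR := by
      show j (cj aR) = _
      rw [cj_aR, map_sub, map_one]
    have e2 : (cjE.trans j) (cj r) = j r := by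
      show j (cj (cj r)) = _
      rw [Pool.Agent.Y698.cj_cj]
    have h3 := crit_at I (cjE.trans j) ((cls_iff (cjE.trans j) hN' (cj r)).1 (by rw [e2]; exact hD))
    rw [e1, e2] at h3
    rw [sub_eq_zero.1 h2]
    exact h3

end

/-- **the final statement** -/
theorem final (I : InpK) (hJ : S_JEX) (hden : S_DEN) (hlow : S_LOW) (heta : S_ETA)
    (K : Type) [Field K] [NumberField K] (hK : Module.finrank ℚ K = 2) (δ : K) (hδ : δ ^ 2 = -7) :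
    (∃ c : ℝ, 0 < c ∧ ∃ X₀ : ℕ, ∀ X : ℕ, X₀ ≤ X →
      c * X ≤ ({D : 𝓞 K | Algebra.norm ℤ D ≤ X ∧ ClsK D}.ncard : ℝ)) ∧
    (∀ D : 𝓞 K, ClsK D → LawW (ECK (D : K)) ∧ CritD D) ∧
    Tendsto (fun X : ℕ =>
      ({D : 𝓞 K | Algebra.norm ℤ D ≤ X ∧ ClsK D ∧ TriD D}.ncard : ℝ) /
        ({D : 𝓞 K | Algebra.norm ℤ D ≤ X ∧ ClsK D}.ncard : ℝ)) atTop
      (nhds (∏' i : ℕ, (1 - (1 / 2 : ℝ) ^ (i + 1)))) ∧
    (0.2887 : ℝ) < ∏' i : ℕ, (1 - (1 / 2 : ℝ) ^ (i + 1)) ∧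
    ∏' i : ℕ, (1 - (1 / 2 : ℝ) ^ (i + 1)) < 0.2888 := by
  obtain ⟨⟨j, hj, hN⟩, hd⟩ := hJ K δ hδ hK
  have hall : ∀ X : ℕ, {D : 𝓞 K | Algebra.norm ℤ D ≤ X ∧ ClsK D}.ncard =
      {r : RR | nrm r ≤ X ∧ DC r}.ncard := by
    intro X
    have := card_tr j hN X (fun _ => True) (fun _ => True) fun _ _ => Iff.rfl
    simpa using this
  refine ⟨?_, ?_, ?_, heta.2.2.2.1, heta.2.2.2.2⟩
  · obtain ⟨c, X₀, hc, h⟩ := hlow
    refine ⟨c, hc, X₀, fun X hX => ?_⟩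
    rw [hall, Pool.Agent.T2h16.KD.Nsl.card_cls]
    exact h X hX
  · intro D hD
    refine ⟨?_, crit_D I j hN hD⟩
    obtain ⟨r, rfl⟩ := j.surjective D
    obtain ⟨t, rfl, h1, h2⟩ := DC_split ((cls_iff j hN r).1 hD)
    rw [curve_eq]
    exact law I j h1 h2 hd
  · refine hden.congr fun X => ?_
    rw [hall, card_tr j hN X TriD (fun r => KD.Gd (PD r)) fun r hr => tri_D I j hr]

end Pool.Agent.T2h16.KE
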