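import Pool.Agent.T2h16.KE.Stm
import Pool.Agent.Y698.Trd
import Pool.Agent.Y698.Seld

/-!
# Task SELK: the class of a cocycle with values in the points of order two, `D` in `K`
-/

set_option autoImplicit false
set_option linter.all false

attribute [-instance] DivisionRing.toRatAlgebra

namespace Pool.Agent.T2h16.KE

open WeierstrassCurve IsDedekindDomain NumberField WithZero
open Pool.Agent.Y698
open Pool.Agent.TH841.SH.D (Pt act Gal Coch IsCoc IsCob LocTriv)
open Pool.Agent.TH841.NF.D (IsShaCoc)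
open Pool.Agent.TH841.SH (IsR IsX gf isX_zero isX_some not_isX)
open Pool.Agent.TH841.NF (act_act act_id act_some' pt_ext pt_inj coc_fin)

lemma rAK_sub {F : Type*} [Field F] {a : F} (ha : a ^ 2 = a - 2) (D : F) :
    rAK D a - rBK D a = D * (2 * a - 1) := by
  unfold rAK rBK
  rw [← mul_sub, eA_sub ha]

lemma rAK_mul {F : Type*} [Field F] {a : F} (ha : a ^ 2 = a - 2) (D : F) :
    rAK D a * rBK D a = 112 * D ^ 2 := by
  unfold rAK rBK
  linear_combination D ^ 2 * (eA_mul ha)

lemma rAK_add {F : Type*} [Field F] {a : F} (ha : a ^ 2 = a - 2) (D : F) :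
    rAK D a + rBK D a = -21 * D := by
  unfold rAK rBK
  linear_combination D * (eA_add ha)

lemma isRK {K L : Type} [Field K] [Field L] [Algebra K L] {a : L} (ha : a ^ 2 = a - 2) (D : K) :
    IsR ((EEK K D).baseChange L) 0 (rAK (algebraMap K L D) a) (rBK (algebraMap K L D) a) where
  h1 := map_zero (algebraMap K L)
  h2 := by
    have e : ((EEK K D).baseChange L).a₂ = 21 * algebraMap K L D := by
      show algebraMap K L (21 * D) = 21 * algebraMap K L D
      rw [map_mul, map_ofNat]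
    rw [e]
    linear_combination (rAK_add ha (algebraMap K L D))
  h3 := map_zero (algebraMap K L)
  h4 := by
    have e : ((EEK K D).baseChange L).a₄ = 112 * (algebraMap K L D) ^ 2 := by
      show algebraMap K L (112 * D ^ 2) = 112 * (algebraMap K L D) ^ 2
      rw [map_mul, map_pow, map_ofNat]
    rw [e]
    linear_combination -(rAK_mul ha (algebraMap K L D))
  h6 := by
    rw [show ((EEK K D).baseChange L).a₆ = 0 from map_zero (algebraMap K L)]
    ring

lemma rABK_ne {F : Type*} [Field F] [CharZero F] {D : F} (hD : D ≠ 0) {a : F}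
    (ha : a ^ 2 = a - 2) :
    2 * a - 1 ≠ 0 ∧ (0 : F) ≠ rAK D a ∧ (0 : F) ≠ rBK D a ∧ rAK D a ≠ rBK D a := by
  obtain ⟨h0, h1, h2, h3⟩ := eAB_ne ha
  refine ⟨h0, (mul_ne_zero hD h1.symm).symm, (mul_ne_zero hD h2.symm).symm, fun h => h3 ?_⟩
  exact mul_left_cancel₀ hD h

lemma map_rABK {F G : Type*} [Field F] [Field G] (φ : F →+* G) (D : F) (a : F) :
    φ (rAK D a) = rAK (φ D) (φ a) ∧ φ (rBK D a) = rBK (φ D) (φ a) := by
  unfold rAK rBK
  rw [map_mul, map_mul, (map_eAB φ a).1, (map_eAB φ a).2]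
  exact ⟨rfl, rfl⟩



section field

variable {F : Type*} [Field F] [CharZero F] {w : Valuation F ℤᵐ⁰} {a D : F}

/-- the local conditions -/
def LCK (w : Valuation F ℤᵐ⁰) (a D : F) (d : F) : Prop :=
  (w D = 1 → LC w a d) ∧ (w D < 1 → Sq w d ∨ Sq w (D * (2 * a - 1) * d))

lemma LCK.sqE (ha : a ^ 2 = a - 2) {d d' : F} (h : LCK w a D d') (h' : SqE d d') :
    LCK w a D d := by
  refine ⟨fun h1 => (h.1 h1).sqE ha h', fun h1 => ?_⟩
  rcases h.2 h1 with h2 | h2
  · exact Or.inl (h2.sqE h')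
  · exact Or.inr (h2.sqE ((SqE.refl _).mul h'))

lemma LCK.one : LCK w a D 1 :=
  ⟨fun _ => LC.one, fun _ => Or.inl (by
    have := Sq.sq (w := w) (z := (1 : F)) one_ne_zero
    rwa [one_pow] at this)⟩

lemma LCK.s (ha : a ^ 2 = a - 2) (hD0 : D ≠ 0) (hD4 : w (D - 1) ≤ w 4) (h7 : w 7 = 1) :
    LCK w a D (D * (2 * a - 1)) := by
  refine ⟨fun h1 => ?_, fun h1 => ?_⟩
  · have h2 := LC.s ha h7
    refine ⟨⟨1, one_ne_zero, by rw [map_mul, h1, w_s_one ha h7, one_mul, map_one, one_pow]⟩,
      fun hb => Ur.mul (two_lt' ha hb) ⟨1, one_ne_zero, ?_⟩ (h2.2 hb)⟩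
    rw [one_pow, map_one, one_pow, mul_one]
    exact hD4
  · right
    have h2 : D * (2 * a - 1) ≠ 0 := mul_ne_zero hD0 (s_ne ha)
    have := Sq.sq (w := w) h2
    rwa [pow_two] at this

lemma w_two_oddK (hD4 : w (D - 1) ≤ w 4) (h : w D < 1) : w 2 = 1 := by
  by_contra h2
  have h2' : w 2 < 1 := lt_of_le_of_ne w_two_le h2
  have h3 : w (1 : F) < 1 := by
    have e : (1 : F) = D - (D - 1) := by ring
    rw [e]
    exact Valuation.map_sub_lt w h (hD4.trans_lt (w_four_lt h2'))
  rw [map_one] at h3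
  exact lt_irrefl _ h3

/-- the local conditions for points -/
lemma LCK.pt (ha : a ^ 2 = a - 2) (hD4 : w (D - 1) ≤ w 4) (h7 : w 7 = 1)
    (hun : w 2 < 1 → w 2 = exp (-1)) (hunD : w D < 1 → w D = exp (-1)) {x y : F}
    (hy : y ≠ 0) (h : y ^ 2 = x * (x - rAK D a) * (x - rBK D a)) : LCK w a D (x - rBK D a) := by
  unfold rAK at h
  unfold rBK at h ⊢
  refine ⟨fun hD => ?_, fun hD => ?_⟩
  · have hw4 := hD4
    by_cases h2 : w 2 = 1
    · refine ⟨ev_oddD ha hD h2 h7 hy h, fun hb => ?_⟩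
      have := two_lt' ha hb
      rw [h2] at this
      exact absurd this (lt_irrefl _)
    · have h2' : w 2 < 1 := lt_of_le_of_ne w_two_le h2
      have h2e : w 2 = exp (-1) := hun h2'
      have hab : w a * w (1 - a) = exp (-1) := by
        rw [← map_mul, ab_eq ha, h2e]
      by_cases hwa : w a = 1
      · have hU := ur_twoD ha hD hw4 h2' h7 hwa hy h
        exact ⟨hU.ev h2', fun _ => hU⟩
      · have hb1 : w (1 - a) = 1 := by
          have ha0 : a ≠ 0 := by
            rintro rfl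
            rw [map_zero, zero_mul] at hab
            exact exp_ne_zero hab.symm
          have hb0 : (1 - a) ≠ 0 := by
            intro h0
            rw [h0, map_zero, mul_zero] at hab
            exact exp_ne_zero hab.symm
          obtain ⟨m, hm⟩ := vexp (w := w) ha0
          obtain ⟨k, hk⟩ := vexp (w := w) hb0
          have h1 := wa_le (w := w) ha
          have h3 := wa_le (w := w) (ha_conj ha)
          rw [hm] at h1 hwa hab
          rw [hk] at h3 hab
          rw [← exp_add, exp_inj] at hab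
          rw [← exp_zero, exp_le_exp] at h1 h3
          rw [← exp_zero, exp_inj] at hwa
          rw [hk, ← exp_zero, exp_inj]
          omega
        refine ⟨ev_twoD ha hD hw4 h2e h7 hb1 hy h, fun hb => ?_⟩
        rw [hb1] at hb
        exact absurd hb (lt_irrefl _)
  · exact sq_D ha (hunD hD) (w_two_oddK hD4 hD) h7 hy h

/-- the four cases -/
def FourK (D a q : F) : Prop :=
  (∃ x y : F, y ≠ 0 ∧ y ^ 2 = x * (x - rAK D a) * (x - rBK D a) ∧ IsSquare ((x - rBK D a) * q)) ∨
      IsSquare q ∨ IsSquare (-rBK D a * q) ∨ IsSquare ((rAK D a - rBK D a) * q)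

lemma LCK.four (ha : a ^ 2 = a - 2) (hD0 : D ≠ 0) (hD4 : w (D - 1) ≤ w 4) (h7 : w 7 = 1)
    (hun : w 2 < 1 → w 2 = exp (-1)) (hunD : w D < 1 → w D = exp (-1)) {q : F}
    (hq : q ≠ 0) (h : FourK D a q) : LCK w a D q := by
  have hs0 : 2 * a - 1 ≠ 0 := s_ne ha
  have ha0 : a ≠ 0 := by
    rintro rfl
    norm_num at ha
  rcases h with ⟨x, y, hy, h, hsq⟩ | h | h | h
  · have hx : x - rBK D a ≠ 0 := by
      intro h0
      rw [h0, mul_zero] at h
      exact hy (pow_eq_zero_iff two_ne_zero |>.1 h)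
    exact (LCK.pt ha hD4 h7 hun hunD hy h).sqE ha (sqE_of hx hq hsq)
  · refine LCK.one.sqE ha (sqE_of one_ne_zero hq ?_)
    rwa [one_mul]
  · have e : -rBK D a = D * (2 * a - 1) * a ^ 4 := by unfold rBK eB; ring
    have h1 : SqE q (-rBK D a) := sqE_of (by
      rw [e]
      exact mul_ne_zero (mul_ne_zero hD0 hs0) (pow_ne_zero 4 ha0)) hq h
    refine (LCK.s ha hD0 hD4 h7).sqE ha (h1.trans ⟨a ^ 2, pow_ne_zero 2 ha0, ?_⟩)
    rw [e]
    ring
  · rw [rAK_sub ha] at h
    exact (LCK.s ha hD0 hD4 h7).sqE ha (sqE_of (mul_ne_zero hD0 hs0) hq h)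

end field

/-- the global condition -/
theorem PDK.of_four {F : Type} [Field F] [NumberField F] {a : F} {t : 𝓞 F} (hyp : Hyp a t)
    {q : F} (hq : q ≠ 0) (h : ∀ P : HeightOneSpectrum (𝓞 F),
      FourK (algebraMap F (P.adicCompletion F) (1 + 4 * (t : F)))
        (algebraMap F (P.adicCompletion F) a) (algebraMap F (P.adicCompletion F) q)) :
    PDK a (1 + 4 * (t : F)) q := by
  refine ⟨hq, fun P h7 => ?_⟩
  have ha := hyp.ha
  obtain ⟨v0, -, hv0, -⟩ := hyp.odd
  have hD0 : (1 + 4 * (t : F)) ≠ 0 := by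
    intro h0
    rw [h0, map_zero] at hv0
    exact zero_ne_one hv0
  set D : F := 1 + 4 * (t : F) with hD
  set E := P.adicCompletion F with hE
  have hch : CharZero E := charC P
  have hv : ∀ x : F, (Valued.v : Valuation E ℤᵐ⁰) (algebraMap F E x) = P.valuation F x :=
    fun x => valued_algebraMap P x
  have h7' : (Valued.v : Valuation E ℤᵐ⁰) 7 = 1 := by
    have e : (7 : E) = algebraMap F E 7 := (map_ofNat _ 7).symm
    rw [e, hv]
    exact h7
  have hun' : (Valued.v : Valuation E ℤᵐ⁰) 2 < 1 →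
      (Valued.v : Valuation E ℤᵐ⁰) 2 = exp (-1) := by
    have e : (2 : E) = algebraMap F E 2 := (map_ofNat _ 2).symm
    rw [e, hv]
    exact hyp.un P
  have hunD' : (Valued.v : Valuation E ℤᵐ⁰) (algebraMap F E D) < 1 →
      (Valued.v : Valuation E ℤᵐ⁰) (algebraMap F E D) = exp (-1) := by
    rw [hv]
    exact hyp.sqf P
  have haE : (algebraMap F E a) ^ 2 = algebraMap F E a - 2 := by
    rw [← map_pow, ha, map_sub, map_ofNat]
  have hqE : algebraMap F E q ≠ 0 := by
    rw [Ne, map_eq_zero]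
    exact hq
  have hDE : algebraMap F E D ≠ 0 := by
    rw [Ne, map_eq_zero]
    exact hD0
  have hD4 : (Valued.v : Valuation E ℤᵐ⁰) (algebraMap F E D - 1) ≤
      (Valued.v : Valuation E ℤᵐ⁰) 4 := by
    have e : algebraMap F E D - 1 = algebraMap F E (4 * (t : F)) := by
      rw [hD, map_add, map_one]
      ring
    have e4 : (4 : E) = algebraMap F E 4 := (map_ofNat _ 4).symm
    rw [e, e4, hv, hv, map_mul]
    exact mul_le_of_le_one_right' (P.valuation_le_one t)
  have h8 := LCK.four haE hDE hD4 h7' hun' hunD' hqE (h P)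
  constructor
  · intro hwD
    exact (h8.1 (by rw [hv]; exact hwD)).down P
  · intro hwD
    rcases h8.2 (by rw [hv]; exact hwD) with h9 | h9
    · exact Or.inl (h9.down P)
    · right
      have e : algebraMap F E D * (2 * algebraMap F E a - 1) * algebraMap F E q =
          algebraMap F E (D * (2 * a - 1) * q) := by
        rw [map_mul, map_mul, map_sub, map_mul, map_ofNat, map_one]
      rw [e] at h9
      exact h9.down P

section loc

open scoped Classical

variable {K C E Ω : Type} [Field K] {D : K} (hD0 : D ≠ 0) [Field C] [Field E] [Field Ω] [Algebra K C] [Algebra K Ω]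
  [Algebra E Ω] [Algebra K E] [IsScalarTower K E Ω] [IsGalois E Ω] [CharZero Ω] [CharZero E]
  [CharZero C] {ι : C →ₐ[K] Ω} {aC : C} {aE : E} (hC : aC ^ 2 = aC - 2) (hE : aE ^ 2 = aE - 2)
  (hι : ι aC = algebraMap E Ω aE) {f : (C ≃ₐ[K] C) → Pt (EEK K D) C} (hf : ∀ σ, f σ + f σ = 0)

/-- the square root of the class -/
structure RtK (ι : C →ₐ[K] Ω) (f : (C ≃ₐ[K] C) → Pt (EEK K D) C) (aC : C) (s : C) (q : E) : Prop where
  sq : algebraMap E Ω q = (ι s) ^ 2
  pm : ∀ σ : C ≃ₐ[K] C, σ aC = aC → (σ s) ^ 2 = s ^ 2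
  fix : ∀ σ : C ≃ₐ[K] C, σ aC = aC → (σ s = s ↔ IsX ((EEK K D).baseChange C) (rBK (algebraMap K C D) aC) (f σ))

include hD0 hC hE hι hf in
theorem locK {s : C} {q : E} (hs : RtK ι f aC s q) {R : Pt (EEK K D) Ω}
    (hex : ∀ τ : Ω ≃ₐ[E] Ω, ∃ σ : C ≃ₐ[K] C, ∀ x, τ (ι x) = ι (σ x))
    (hR : ∀ (τ : Ω ≃ₐ[E] Ω) (σ : C ≃ₐ[K] C), (∀ x, τ (ι x) = ι (σ x)) →
      act (EEK K D) (τ.toAlgHom.restrictScalars K) R = R + act (EEK K D) ι (f σ)) :
    (∃ x y : E, y ≠ 0 ∧ y ^ 2 = x * (x - rAK (algebraMap K E D) aE) * (x - rBK (algebraMap K E D) aE) ∧ IsSquare ((x - rBK (algebraMap K E D) aE) * q)) ∨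
      IsSquare q ∨ IsSquare (-rBK (algebraMap K E D) aE * q) ∨ IsSquare ((rAK (algebraMap K E D) aE - rBK (algebraMap K E D) aE) * q) := by
  have h2 : (2 : Ω) ≠ 0 := two_ne_zero
  set aO : Ω := algebraMap E Ω aE with haO
  have hO : aO ^ 2 = aO - 2 := by
    rw [haO, ← map_pow, hE, map_sub, map_ofNat]
  have hIs := isRK hO D
  have hDE : algebraMap E Ω (algebraMap K E D) = algebraMap K Ω D :=
    (IsScalarTower.algebraMap_apply K E Ω D).symm
  have mA : algebraMap E Ω (rAK (algebraMap K E D) aE) = rAK (algebraMap K Ω D) aO := by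
    rw [(map_rABK (algebraMap E Ω) _ aE).1, hDE]
  have mB : algebraMap E Ω (rBK (algebraMap K E D) aE) = rBK (algebraMap K Ω D) aO := by
    rw [(map_rABK (algebraMap E Ω) _ aE).2, hDE]
  have hDO : algebraMap K Ω D ≠ 0 := by
    rw [Ne, map_eq_zero]
    exact hD0
  obtain ⟨hs0, n1, n2, n3⟩ := rABK_ne hDO hO
  have hσa : ∀ (τ : Ω ≃ₐ[E] Ω) (σ : C ≃ₐ[K] C), (∀ x, τ (ι x) = ι (σ x)) → σ aC = aC := by
    intro τ σ h
    apply ι.injective
    show ι (σ aC) = ι aC
    rw [← h, hι, AlgEquiv.commutes]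
  have hτA : ∀ τ : Ω ≃ₐ[E] Ω, τ (rAK (algebraMap K Ω D) aO) = rAK (algebraMap K Ω D) aO := by
    intro τ
    rw [← mA, AlgEquiv.commutes]
  have hτB : ∀ τ : Ω ≃ₐ[E] Ω, τ (rBK (algebraMap K Ω D) aO) = rBK (algebraMap K Ω D) aO := by
    intro τ
    rw [← mB, AlgEquiv.commutes]
  have hιB : ι (rBK (algebraMap K C D) aC) = rBK (algebraMap K Ω D) aO := by
    have h1 := (map_rABK (ι : C →+* Ω) (algebraMap K C D) aC).2
    have h3 : (ι : C →+* Ω) (algebraMap K C D) = algebraMap K Ω D := ι.commutes D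
    have h4 : (ι : C →+* Ω) aC = aO := hι
    rw [h3, h4] at h1
    exact h1
  have hsE : (∀ (τ : Ω ≃ₐ[E] Ω) (σ : C ≃ₐ[K] C), (∀ x, τ (ι x) = ι (σ x)) → σ s = s) →
      IsSquare q := by
    intro h
    obtain ⟨z, hz⟩ := fixm (K := E) (ι s) (fun τ => by
      obtain ⟨σ, hσ⟩ := hex τ
      rw [hσ, h τ σ hσ])
    refine ⟨z, (algebraMap E Ω).injective ?_⟩
    rw [hs.sq, map_mul, hz]
    ring
  -- the point is of order two
  by_cases hRR : R + R = 0
  · right; left
    apply hsE
    intro τ σ hσ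
    have h3 : act (EEK K D) (τ.toAlgHom.restrictScalars K) R = R := by
      have key : ∀ (e : Ω) (he : τ e = e)
          (hn : ((EEK K D).baseChange Ω).toAffine.Nonsingular e 0),
          act (EEK K D) (τ.toAlgHom.restrictScalars K) (Affine.Point.some e 0 hn) =
            (Affine.Point.some e 0 hn : ((EEK K D).baseChange Ω).toAffine.Point) := by
        intro e he hn
        rw [act_some']
        exact pt_ext _ _ he (map_zero τ)
      rcases hIs.tors h2 hRR with rfl | ⟨h4, rfl⟩ | ⟨h4, rfl⟩ | ⟨h4, rfl⟩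
      · exact map_zero _
      · exact key 0 (map_zero τ) h4
      · exact key _ (hτA τ) h4
      · exact key _ (hτB τ) h4
    have h4 := hR τ σ hσ
    rw [h3] at h4
    have h5 : act (EEK K D) ι (f σ) = 0 := (left_eq_add.1 h4)
    have h6 : f σ = 0 := act_inj' (EEK K D) ι (by rw [h5, map_zero])
    rw [hs.fix σ (hσa τ σ hσ), h6]
    exact isX_zero _
  have hTT : ∀ σ, act (EEK K D) ι (f σ) + act (EEK K D) ι (f σ) = 0 := by
    intro σ
    rw [← map_add, hf, map_zero]
  have hdb : ∀ (τ : Ω ≃ₐ[E] Ω) (σ : C ≃ₐ[K] C), (∀ x, τ (ι x) = ι (σ x)) →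
      act (EEK K D) (τ.toAlgHom.restrictScalars K) (R + R) = R + R := by
    intro τ σ hσ
    rw [map_add, hR τ σ hσ]
    have h8 : ∀ A B : Pt (EEK K D) Ω, (A + B) + (A + B) = (A + A) + (B + B) :=
      fun A B => by abel
    rw [h8, hTT, add_zero]
  -- the coordinates
  rcases R with _ | ⟨u, v, hn⟩
  · exact absurd (add_zero (0 : Pt (EEK K D) Ω)) hRR
  have hv : v ≠ 0 := by
    intro hv
    exact hRR ((hIs.add_self h2 hn).2 hv)
  obtain ⟨X, Y, hn', e1, hX0⟩ := hIs.dup h2 hn hv
  obtain ⟨X', Y', hn'', e1', hXA⟩ := hIs.rot.dup h2 hn hv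
  rw [e1, Affine.Point.some.injEq] at e1'
  obtain ⟨rfl, rfl⟩ := e1'
  obtain ⟨X', Y', hn'', e1', hXB⟩ := hIs.rot.rot.dup h2 hn hv
  rw [e1, Affine.Point.some.injEq] at e1'
  obtain ⟨rfl, rfl⟩ := e1'
  have hfix : ∀ τ : Ω ≃ₐ[E] Ω, τ X = X ∧ τ Y = Y := by
    intro τ
    obtain ⟨σ, hσ⟩ := hex τ
    have h6 : act (EEK K D) (τ.toAlgHom.restrictScalars K)
        (Affine.Point.some X Y hn' : ((EEK K D).baseChange Ω).toAffine.Point) =
        (Affine.Point.some X Y hn' : ((EEK K D).baseChange Ω).toAffine.Point) := by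
      have h7 := hdb τ σ hσ
      have e2 : @HAdd.hAdd (Pt (EEK K D) Ω) (Pt (EEK K D) Ω) _ _ (Affine.Point.some u v hn)
          (Affine.Point.some u v hn) =
          (Affine.Point.some X Y hn' : ((EEK K D).baseChange Ω).toAffine.Point) := e1
      rw [e2] at h7
      exact h7
    rw [act_some'] at h6
    exact pt_inj _ _ h6
  obtain ⟨x, hx⟩ := fixm (K := E) X (fun τ => (hfix τ).1)
  obtain ⟨y, hy⟩ := fixm (K := E) Y (fun τ => (hfix τ).2)
  have hQ := (hIs.eqn X Y).1 hn'.1
  rw [sub_zero] at hQ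
  -- the sign of the square roots
  have sgn : ∀ {a b c : Ω} (_ : IsR ((EEK K D).baseChange Ω) a b c) (_ : a ≠ b) (_ : a ≠ c)
      (_ : b ≠ c) (τ : Ω ≃ₐ[E] Ω) (_ : τ a = a) (_ : τ b = b) (_ : τ c = c)
      (σ : C ≃ₐ[K] C) (_ : ∀ x, τ (ι x) = ι (σ x)),
      (IsX ((EEK K D).baseChange Ω) a (act (EEK K D) ι (f σ)) →
        τ (gf ((EEK K D).baseChange Ω) a b c (.some u v hn)) =
          gf ((EEK K D).baseChange Ω) a b c (.some u v hn)) ∧
      (¬ IsX ((EEK K D).baseChange Ω) a (act (EEK K D) ι (f σ)) →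
        τ (gf ((EEK K D).baseChange Ω) a b c (.some u v hn)) =
          -gf ((EEK K D).baseChange Ω) a b c (.some u v hn)) := by
    intro a b c h hab hac hbc τ ta tb tc σ hσ
    have e1 : τ (gf ((EEK K D).baseChange Ω) a b c (.some u v hn)) =
        gf ((EEK K D).baseChange Ω) a b c
          (act (EEK K D) (τ.toAlgHom.restrictScalars K) (.some u v hn)) :=
      act_gf' (EEK K D) (τ.toAlgHom.restrictScalars K) ta tb tc (.some u v hn)
    rw [e1, hR τ σ hσ]
    obtain ⟨u', v', hn', e2, hv', h3, h4⟩ := h.sign h2 hab hac hbc hn hv (hTT σ)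
    have e3 : @HAdd.hAdd (Pt (EEK K D) Ω) (Pt (EEK K D) Ω) _ _ (Affine.Point.some u v hn)
        (act (EEK K D) ι (f σ)) =
      (Affine.Point.some u' v' hn' : ((EEK K D).baseChange Ω).toAffine.Point) := e2
    rw [e3]
    exact ⟨h3, h4⟩
  -- the square
  have hmain : IsSquare ((x - rBK (algebraMap K E D) aE) * q) := by
    obtain ⟨z, hz⟩ : ∃ z : E, algebraMap E Ω z =
        gf ((EEK K D).baseChange Ω) (rBK (algebraMap K Ω D) aO) 0 (rAK (algebraMap K Ω D) aO) (.some u v hn) * ι s := by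
      apply fixm
      intro τ
      obtain ⟨σ, hσ⟩ := hex τ
      have h5 := sgn hIs.rot.rot n2.symm n3.symm n1 τ (hτB τ) (map_zero τ) (hτA τ) σ hσ
      have h6 : IsX ((EEK K D).baseChange Ω) (rBK (algebraMap K Ω D) aO) (act (EEK K D) ι (f σ)) ↔ σ s = s := by
        rw [← hιB, act_isX', hs.fix σ (hσa τ σ hσ)]
      rw [map_mul, hσ]
      by_cases hX : IsX ((EEK K D).baseChange Ω) (rBK (algebraMap K Ω D) aO) (act (EEK K D) ι (f σ))
      · rw [h5.1 hX, h6.1 hX]
      · rw [h5.2 hX]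
        have h7 : σ s ≠ s := fun h' => hX (h6.2 h')
        rcases sq_eq_sq_iff_eq_or_eq_neg.1 (hs.pm σ (hσa τ σ hσ)) with h8 | h8
        · exact absurd h8 h7
        · rw [h8, map_neg, neg_mul_neg]
    refine ⟨z, (algebraMap E Ω).injective ?_⟩
    rw [map_mul, map_mul, hz, map_sub, hx, mB, hs.sq]
    have h9 : X - rBK (algebraMap K Ω D) aO = (gf ((EEK K D).baseChange Ω) (rBK (algebraMap K Ω D) aO) 0 (rAK (algebraMap K Ω D) aO) (.some u v hn)) ^ 2 := hXB
    rw [h9]
    ring
  by_cases hY : Y = 0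
  swap
  · left
    refine ⟨x, y, ?_, ?_, hmain⟩
    · rintro rfl
      rw [map_zero] at hy
      exact hY hy.symm
    · apply (algebraMap E Ω).injective
      rw [map_pow, map_mul, map_mul, map_sub, map_sub, hx, hy, hQ, mA, mB]
  · rw [hY, zero_pow two_ne_zero] at hQ
    rcases mul_eq_zero.1 hQ.symm with h4 | h4
    · rcases mul_eq_zero.1 h4 with h5 | h5
      · have hx0 : x = 0 := (algebraMap E Ω).injective (by rw [hx, h5, map_zero])
        rw [hx0, zero_sub] at hmain
        exact Or.inr (Or.inr (Or.inl hmain))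
      · have hx0 : x = rAK (algebraMap K E D) aE := (algebraMap E Ω).injective (by
          rw [hx, mA]
          exact sub_eq_zero.1 h5)
        rw [hx0] at hmain
        exact Or.inr (Or.inr (Or.inr hmain))
    · right; left
      have hXe : X = rBK (algebraMap K Ω D) aO := sub_eq_zero.1 h4
      apply hsE
      intro τ σ hσ
      rw [hs.fix σ (hσa τ σ hσ), ← act_isX' (EEK K D) ι, hιB]
      refine isX_three hIs h2 n1 (hTT σ) ?_
      -- the ratio of the square roots
      have g0 : X - 0 = (gf ((EEK K D).baseChange Ω) 0 (rAK (algebraMap K Ω D) aO) (rBK (algebraMap K Ω D) aO) (.some u v hn)) ^ 2 := hX0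
      have gA : X - rAK (algebraMap K Ω D) aO = (gf ((EEK K D).baseChange Ω) (rAK (algebraMap K Ω D) aO) (rBK (algebraMap K Ω D) aO) 0 (.some u v hn)) ^ 2 := hXA
      set G0 := gf ((EEK K D).baseChange Ω) 0 (rAK (algebraMap K Ω D) aO) (rBK (algebraMap K Ω D) aO) (.some u v hn) with hG0
      set GA := gf ((EEK K D).baseChange Ω) (rAK (algebraMap K Ω D) aO) (rBK (algebraMap K Ω D) aO) 0 (.some u v hn) with hGA
      have h5 := sgn hIs n1 n2 n3 τ (map_zero τ) (hτA τ) (hτB τ) σ hσ
      have h6 := sgn hIs.rot n3 n1.symm n2.symm τ (hτA τ) (hτB τ) (map_zero τ) σ hσ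
      rw [← hG0] at h5
      rw [← hGA] at h6
      have hG0' : G0 ≠ 0 := by
        intro h0
        rw [h0, hXe] at g0
        apply n2
        linear_combination -g0
      have hGA' : GA ≠ 0 := by
        intro h0
        rw [h0, hXe] at gA
        apply n3
        linear_combination -gA
      have hr : G0 ^ 2 = (aO ^ 2 * GA) ^ 2 := by
        rw [mul_pow, ← g0, ← gA, hXe]
        have h7 := rAK_sub hO (algebraMap K Ω D)
        have h8 : rBK (algebraMap K Ω D) aO = (algebraMap K Ω D) * (-((2 * aO - 1) * aO ^ 4)) := rfl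
        linear_combination h8 + aO ^ 4 * h7
      have hτa : τ aO = aO := by rw [haO, AlgEquiv.commutes]
      have ha0 : aO ^ 2 ≠ 0 := by
        intro h0
        rw [h0, zero_mul, zero_pow two_ne_zero] at hr
        exact hG0' ((pow_eq_zero_iff two_ne_zero).1 hr)
      have hneg : ∀ z : Ω, z ≠ 0 → z ≠ -z := by
        intro z hz h0
        apply hz
        have : (2 : Ω) * z = 0 := by linear_combination h0
        exact (mul_eq_zero.1 this).resolve_left h2
      have hiff : τ G0 = G0 ↔ τ GA = GA := by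
        rcases sq_eq_sq_iff_eq_or_eq_neg.1 hr with h7 | h7
        · rw [h7, map_mul, map_pow, hτa]
          exact ⟨fun h => mul_left_cancel₀ ha0 h, fun h => by rw [h]⟩
        · rw [h7, map_neg, map_mul, map_pow, hτa, neg_inj]
          exact ⟨fun h => mul_left_cancel₀ ha0 h, fun h => by rw [h]⟩
      by_cases k0 : IsX ((EEK K D).baseChange Ω) 0 (act (EEK K D) ι (f σ)) <;>
        by_cases kA : IsX ((EEK K D).baseChange Ω) (rAK (algebraMap K Ω D) aO) (act (EEK K D) ι (f σ))
      · exact ⟨fun _ => kA, fun _ => k0⟩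
      · exfalso
        have h9 := hiff.1 (h5.1 k0)
        rw [h6.2 kA] at h9
        exact hneg GA hGA' h9.symm
      · exfalso
        have h9 := hiff.2 (h6.1 kA)
        rw [h5.2 k0] at h9
        exact hneg G0 hG0' h9.symm
      · exact ⟨fun h => absurd h k0, fun h => absurd h kA⟩

end loc

open scoped Classical

section tower

variable {K F C : Type} [Field K] {D : K} [Field F] [Field C] [Algebra K F] [Algebra K C] [Algebra F C]
  [IsScalarTower K F C]

/-- the points of order two are fixed -/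
lemma tor_fixK [CharZero C] {σ : C ≃ₐ[K] C} {c : C} (hc : c ^ 2 = c - 2) (hσ : σ c = c)
    {T : Pt (EEK K D) C} (hT : T + T = 0) : act (EEK K D) σ.toAlgHom T = T := by
  have key : ∀ (e : C) (he : σ e = e) (hn : ((EEK K D).baseChange C).toAffine.Nonsingular e 0),
      act (EEK K D) σ.toAlgHom (Affine.Point.some e 0 hn) =
        (Affine.Point.some e 0 hn : ((EEK K D).baseChange C).toAffine.Point) := by
    intro e he hn
    rw [act_some']
    exact pt_ext _ _ he (map_zero σ)
  rcases (isRK hc D).tors two_ne_zero hT with rfl | ⟨h4, rfl⟩ | ⟨h4, rfl⟩ | ⟨h4, rfl⟩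
  · exact map_zero _
  · exact key 0 (map_zero σ) h4
  · refine key _ ?_ h4
    have h1 := (map_rABK (σ : C →+* C) (algebraMap K C D) c).1
    have h3 : (σ : C →+* C) (algebraMap K C D) = algebraMap K C D := σ.commutes D
    have h5 : (σ : C →+* C) c = c := hσ
    rw [h3, h5] at h1
    exact h1
  · refine key _ ?_ h4
    have h1 := (map_rABK (σ : C →+* C) (algebraMap K C D) c).2
    have h3 : (σ : C →+* C) (algebraMap K C D) = algebraMap K C D := σ.commutes D
    have h5 : (σ : C →+* C) c = c := hσ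
    rw [h3, h5] at h1
    exact h1

end tower

section sel

variable {K F : Type} [Field K] [NumberField K] {D : K} (hD0 : D ≠ 0) [Field F] [NumberField F] [Algebra K F]
  [Algebra F (AlgebraicClosure K)] [IsScalarTower K F (AlgebraicClosure K)]
  [IsGalois F (AlgebraicClosure K)]

variable {g : Coch (EEK K D)} (hg : Co2K g) {b : F} (hb : b ^ 2 = b - 2)
  (hF : ∀ x : F, ∃ k₁ k₂ : K, x = algebraMap K F k₁ + algebraMap K F k₂ * b)

include hD0 hg hb hF in
/-- the class -/
theorem sel_classK : ∃ (q : F) (s : AlgebraicClosure K), q ≠ 0 ∧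
    s ^ 2 = algebraMap F (AlgebraicClosure K) q ∧
    (∀ σ : Gal K, σ (algebraMap F (AlgebraicClosure K) b) = algebraMap F (AlgebraicClosure K) b →
      (σ s = s ↔ IsX ((EEK K D).baseChange (AlgebraicClosure K))
        (rBK (algebraMap K (AlgebraicClosure K) D) (algebraMap F (AlgebraicClosure K) b)) (g σ))) ∧
    ∀ P : HeightOneSpectrum (𝓞 F),
      FourK (algebraMap F (P.adicCompletion F) (algebraMap K F D))
        (algebraMap F (P.adicCompletion F) b) (algebraMap F (P.adicCompletion F) q) := by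
  set C := AlgebraicClosure K with hCdef
  set bC : C := algebraMap F C b with hbC
  have hcz : CharZero C := inferInstance
  have hCC : bC ^ 2 = bC - 2 := by
    rw [hbC, ← map_pow, hb, map_sub, map_ofNat]
  have hIs := isRK hCC D
  have hDC : algebraMap K C D ≠ 0 := by
    rw [Ne, map_eq_zero]
    exact hD0
  obtain ⟨hs0, n1, n2, n3⟩ := rABK_ne hDC hCC
  obtain ⟨S, hS⟩ := hg.fin
  obtain ⟨q, s, hq, hs, hχ⟩ := kumF (F := F) (C := C)
    (fun σ => IsX ((EEK K D).baseChange C) (rBK (algebraMap K C D) bC) (g (σ.restrictScalars K))) S (by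
      intro τ hτ
      show IsX ((EEK K D).baseChange C) (rBK (algebraMap K C D) bC) (g (τ.restrictScalars K))
      rw [hS (τ.restrictScalars K) hτ]
      exact isX_zero _) (by
      intro σ τ
      show IsX ((EEK K D).baseChange C) (rBK (algebraMap K C D) bC) (g (σ.restrictScalars K * τ.restrictScalars K)) ↔ _
      have hσb : (σ.restrictScalars K) bC = bC := σ.commutes b
      have e := tor_fixK (K := K) (D := D) (σ := σ.restrictScalars K) hCC hσb
        (hg.two (τ.restrictScalars K))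
      rw [hg.coc]
      erw [e]
      exact hIs.rot.rot.isX_add two_ne_zero n2.symm n3.symm n1 (hg.two _) (hg.two _))
  have hfix : ∀ σ : Gal K, σ bC = bC → (σ s = s ↔ IsX ((EEK K D).baseChange C) (rBK (algebraMap K C D) bC) (g σ)) := by
    intro σ hσ
    exact hχ (liftF σ (fix_F hF hσ))
  refine ⟨q, s, hq, hs, hfix, fun P => ?_⟩
  -- the local field
  set E := P.adicCompletion F with hE
  have hchE : CharZero E := charC P
  let i2 : Algebra K E := ((algebraMap F E).comp (algebraMap K F)).toAlgebra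
  have hloc : LocTriv (EEK K D) E g :=
    loc_mono (EEK K D) (jx K P) (fun x => jx_coe K P x) (hg.loc (dn K P))
  have hchO : CharZero (AlgebraicClosure E) := inferInstance
  have hst : ∀ x : K, algebraMap K (AlgebraicClosure E) x =
      algebraMap F (AlgebraicClosure E) (algebraMap K F x) := fun x => rfl
  let ι' : C →ₐ[F] AlgebraicClosure E := IsAlgClosed.lift
  let ι : C →ₐ[K] AlgebraicClosure E :=
    { (ι' : C →+* AlgebraicClosure E) with
      commutes' := by
        intro x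
        show ι' (algebraMap K C x) = _
        rw [IsScalarTower.algebraMap_apply K F C, ι'.commutes]
        rfl }
  have hι : ∀ x : F, ι (algebraMap F C x) = algebraMap F (AlgebraicClosure E) x :=
    fun x => ι'.commutes x
  obtain ⟨R, hR⟩ := hloc ι
  have hex : ∀ τ : Gal E, ∃ σ : Gal K, ∀ x, τ (ι x) = ι (σ x) := by
    intro τ
    exact aut_two (ι : C →+* AlgebraicClosure E)
      (((τ : AlgebraicClosure E ≃+* AlgebraicClosure E) : AlgebraicClosure E →+*
        AlgebraicClosure E).comp (ι : C →+* AlgebraicClosure E)) (by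
        intro x
        change ι (algebraMap K C x) = τ (ι (algebraMap K C x))
        rw [ι.commutes]
        exact (τ.commutes (algebraMap K E x)).symm)
  have hgal : IsGalois E (AlgebraicClosure E) := { }
  have haE : (algebraMap F E b) ^ 2 = algebraMap F E b - 2 := by
    rw [← map_pow, hb, map_sub, map_ofNat]
  have hRt : RtK (D := D) (E := E) ι g bC s (algebraMap F E q) := by
    refine ⟨?_, fun σ hσ => ?_, hfix⟩
    · rw [← map_pow, hs, hι]
      rfl
    · rw [← map_pow, hs, fix_F hF hσ]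
  exact locK hD0 (E := E) hCC haE (hι b) hg.two hRt hex (R := R) (fun τ σ hσ => by
    rw [hR τ σ hσ]
    abel)

end sel

/-- **the class of a cocycle** -/
theorem t_SELK : S_SELK := by
  intro K _ _ a t hyp g hg
  have ha := hyp.ha
  obtain ⟨v0, -, hv0, -⟩ := hyp.odd
  have hD0 : (1 + 4 * (t : K)) ≠ 0 := by
    intro h0
    rw [h0, map_zero] at hv0
    exact zero_ne_one hv0
  have hgal : IsGalois K (AlgebraicClosure K) := { }
  obtain ⟨q, s, hq, hs, h1, h2⟩ := sel_classK (F := K) hD0 hg ha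
    (fun x => ⟨x, 0, by rw [map_zero, zero_mul, add_zero]; rfl⟩)
  refine ⟨q, s, hq, hs, fun σ => ?_, PDK.of_four hyp hq fun P => ?_⟩
  · have h3 := h1 σ (σ.commutes a)
    rw [(map_rABK (algebraMap K (AlgebraicClosure K)) _ _).2]
    exact h3
  · exact h2 P

end Pool.Agent.T2h16.KE
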